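import Pool.Agent.Lib.MP_1a0ddd_nt.Nc.Bas
import Pool.Agent.Lib.MP_1a0ddd_nt.Un.CtZ

/-! The averages of the traces in terms of numbers of points. -/

set_option autoImplicit false

namespace Pool.Agent.Lib.MP_1a0ddd_nt.Tf

open Pool.Agent.Lib.MP_1a0ddd_nt.Nc Pool.Agent.Lib.MP_1a0ddd_nt.Un

/-- counting over a finite set of points of the base -/
private theorem sum_fib {T A : Type} [CommRing T] [CommRing A] {p : ℕ}
    [Finite (T →+* ZMod p)] [Finite (A →+* ZMod p)] (ψ : T →+* A) (b : T)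
    (Q : (A →+* ZMod p) → Prop) :
    ∑ᶠ τ : {τ : T →+* ZMod p // τ b ≠ 0},
      (Nat.card {ρ : A →+* ZMod p // ρ.comp ψ = τ.1 ∧ Q ρ} : ℝ) =
        Nat.card {ρ : A →+* ZMod p // Q ρ ∧ ρ (ψ b) ≠ 0} := by
  classical
  have := Fintype.ofFinite {τ : T →+* ZMod p // τ b ≠ 0}
  rw [finsum_eq_sum_of_fintype, ← Nat.cast_sum, ← Nat.card_sigma]
  congr 1
  refine Nat.card_eq_of_bijective (fun x => ⟨x.2.1, x.2.2.2, ?_⟩) ⟨?_, ?_⟩
  · have h := x.1.2
    rw [← x.2.2.1] at h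
    exact h
  · rintro ⟨⟨τ, hτ⟩, ρ, hρ, hq⟩ ⟨⟨τ', hτ'⟩, ρ', hρ', hq'⟩ h
    have h1 : ρ = ρ' := congrArg Subtype.val h
    subst h1
    have h2 : τ = τ' := hρ.symm.trans hρ'
    subst h2
    rfl
  · rintro ⟨ρ, hq, hρ⟩
    exact ⟨⟨⟨ρ.comp ψ, hρ⟩, ρ, rfl, hq⟩, rfl⟩

/-- the averages of the traces of Frobenius -/
theorem avg_pts {T S I : Type} [CommRing T] [CommRing S] [Finite I]
    (hT : Algebra.FiniteType ℤ T) (hS : Algebra.FiniteType ℤ S) (φ : T →+* S) (g : S)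
    (A : I → Type) [∀ i, CommRing (A i)] (hA : ∀ i, Algebra.FiniteType ℤ (A i))
    (ψ : ∀ i, T →+* A i) (b : T) (N : ℕ) {p : ℕ} (hp : p.Prime) :
    avg b N p (trace φ g A ψ p) =
      (((p : ℝ) + 1) * Nat.card {τ : T →+* ZMod p // τ b ≠ 0} -
        Nat.card {σ : S →+* ZMod p // σ g ≠ 0 ∧ σ (φ b) ≠ 0} -
          ∑ᶠ i, (Nat.card {ρ : A i →+* ZMod p // ρ (ψ i b) ≠ 0} : ℝ)) / (p : ℝ) ^ N := by
  classical
  have hfT : Finite (T →+* ZMod p) := W.finite_hom T p hp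
  have hfS : Finite (S →+* ZMod p) := W.finite_hom S p hp
  have hfA : ∀ i, Finite (A i →+* ZMod p) := fun i => by
    have := hA i
    exact W.finite_hom (A i) p hp
  have := Fintype.ofFinite {τ : T →+* ZMod p // τ b ≠ 0}
  have := Fintype.ofFinite I
  have h1 := sum_fib (p := p) φ b (fun σ => σ g ≠ 0)
  have h2 : ∀ i, ∑ᶠ τ : {τ : T →+* ZMod p // τ b ≠ 0},
      (Nat.card {ρ : A i →+* ZMod p // ρ.comp (ψ i) = τ.1} : ℝ) =
        Nat.card {ρ : A i →+* ZMod p // ρ (ψ i b) ≠ 0} := by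
    intro i
    have h3 := sum_fib (p := p) (ψ i) b (fun _ => True)
    simp only [and_true, true_and] at h3
    exact h3
  unfold avg
  congr 1
  rw [finsum_eq_sum_of_fintype] at h1 ⊢
  rw [finsum_eq_sum_of_fintype, ← h1, Nat.card_eq_fintype_card]
  have h4 : ∀ i, (Nat.card {ρ : A i →+* ZMod p // ρ (ψ i b) ≠ 0} : ℝ) =
      ∑ τ : {τ : T →+* ZMod p // τ b ≠ 0},
        (Nat.card {ρ : A i →+* ZMod p // ρ.comp (ψ i) = τ.1} : ℝ) := by
    intro i
    rw [← h2 i, finsum_eq_sum_of_fintype]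
  simp only [h4]
  rw [Finset.sum_comm]
  have h5 : ((p : ℝ) + 1) * (Fintype.card {τ : T →+* ZMod p // τ b ≠ 0} : ℝ) =
      ∑ _τ : {τ : T →+* ZMod p // τ b ≠ 0}, ((p : ℝ) + 1) := by
    rw [Finset.sum_const, Finset.card_univ, nsmul_eq_mul, mul_comm]
  rw [h5, ← Finset.sum_sub_distrib, ← Finset.sum_sub_distrib]
  refine Finset.sum_congr rfl fun τ _ => ?_
  unfold trace
  rw [finsum_eq_sum_of_fintype]
  push_cast
  rfl

/-- the numbers of points of localisations -/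
theorem countD_away {R S : Type} [CommRing R] [CommRing S] [Algebra R S] (a : S) (D : R)
    (d n : ℕ) {p : ℕ} (hp : p.Prime) : countD R (Localization.Away a) D d n p =
      (p : ℝ) * ((p : ℝ) ^ n * Nat.card {z : R →+* ZMod p // z D ≠ 0} -
        Nat.card {σ : S →+* ZMod p // σ a ≠ 0 ∧ σ (algebraMap R S D) ≠ 0}) /
          (p : ℝ) ^ (n + d) := by
  unfold countD
  rw [← card_away a p hp (fun σ => σ (algebraMap R S D) ≠ 0)]
  congr 3

/-- the identity between the averages and the relative counts -/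
theorem avg_countD {R T S I : Type} [CommRing R] [CommRing T] [CommRing S] [Algebra R T]
    [Algebra R S] [Finite I] (hT : Algebra.FiniteType ℤ T) (hS : Algebra.FiniteType ℤ S)
    (φ : T →ₐ[R] S) (g : S) (A : I → Type) [∀ i, CommRing (A i)]
    (hA : ∀ i, Algebra.FiniteType ℤ (A i)) (ψ : ∀ i, T →+* A i) (b : T) (D : R) (d n : ℕ)
    {p : ℕ} (hp : p.Prime) :
    avg (algebraMap R T D * b) (n + d) p (trace (φ : T →+* S) g A ψ p) =
      countD R (Localization.Away (g * φ b)) D d (n + 1) p -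
        countD R (Localization.Away b) D d n p +
        (Nat.card {τ : T →+* ZMod p // τ (algebraMap R T D * b) ≠ 0} : ℝ) / (p : ℝ) ^ (n + d) -
        ∑ᶠ i, (Nat.card {ρ : A i →+* ZMod p // ρ (ψ i (algebraMap R T D * b)) ≠ 0} : ℝ) /
          (p : ℝ) ^ (n + d) := by
  classical
  have : Fact p.Prime := ⟨hp⟩
  have := Fintype.ofFinite I
  have hp0 : (p : ℝ) ≠ 0 := by exact_mod_cast hp.ne_zero
  rw [avg_pts hT hS (φ : T →+* S) g A hA ψ _ _ hp, countD_away _ _ _ _ hp,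
    countD_away _ _ _ _ hp]
  have e1 : Nat.card {τ : T →+* ZMod p // τ b ≠ 0 ∧ τ (algebraMap R T D) ≠ 0} =
      Nat.card {τ : T →+* ZMod p // τ (algebraMap R T D * b) ≠ 0} :=
    Nat.card_congr (Equiv.subtypeEquivRight fun τ => by
      rw [map_mul, mul_ne_zero_iff, and_comm])
  have e2 : Nat.card {σ : S →+* ZMod p // σ (g * φ b) ≠ 0 ∧ σ (algebraMap R S D) ≠ 0} =
      Nat.card {σ : S →+* ZMod p // σ g ≠ 0 ∧
        σ ((φ : T →+* S) (algebraMap R T D * b)) ≠ 0} :=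
    Nat.card_congr (Equiv.subtypeEquivRight fun σ => by
      have h1 : (φ : T →+* S) (algebraMap R T D) = algebraMap R S D := φ.commutes D
      rw [map_mul, map_mul, h1, map_mul, mul_ne_zero_iff, mul_ne_zero_iff]
      change (σ g ≠ 0 ∧ σ (φ b) ≠ 0) ∧ σ (algebraMap R S D) ≠ 0 ↔
        σ g ≠ 0 ∧ σ (algebraMap R S D) ≠ 0 ∧ σ (φ b) ≠ 0
      tauto)
  rw [e1, e2, finsum_eq_sum_of_fintype, finsum_eq_sum_of_fintype, ← Finset.sum_div,
    add_right_comm n 1 d, pow_succ (p : ℝ) (n + d), pow_succ (p : ℝ) n]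
  field_simp
  ring

end Pool.Agent.Lib.MP_1a0ddd_nt.Tf
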