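import Pool.Agent.Lib.MP_1a0ddd_nt.Tf.ASub

/-! The choice of the open subset of the base. -/

set_option autoImplicit false

namespace Pool.Agent.Lib.MP_1a0ddd_nt.Tf

open Pool.Agent.Lib.MP_1a0ddd_nt.Nc Pool.Agent.Lib.MP_1a0ddd_nt.Cf
  Pool.Agent.Lib.MP_1a0ddd_nt.Fb Pool.Agent.Lib.MP_1a0ddd_nt.Cn Pool.Agent.Lib.MP_1a0ddd_nt.Un

section field

variable {L : Type} [Field L] {F : Subfield L} {P O B : Subring L}

private theorem inv_of_dvd {h : L} (hOB : Away O B h) (n : ℕ) {q : O}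
    (hd : q ∣ (⟨h, hOB.mem⟩ : O) ^ n) : ((q : O) : L)⁻¹ ∈ B := by
  obtain ⟨c, hc⟩ := hd
  have hc' : h ^ n = (q : L) * (c : L) := by
    have := congrArg (fun x : O => (x : L)) hc
    simpa using this
  have h0 : h ^ n ≠ 0 := pow_ne_zero _ hOB.ne
  have hq : (q : L) ≠ 0 := by
    intro h1
    rw [h1, zero_mul] at hc'
    exact h0 hc'
  have e : ((q : O) : L)⁻¹ = (c : L) * (h⁻¹) ^ n := by
    rw [inv_pow, hc']
    have hc0 : (c : L) ≠ 0 := by
      intro h1
      rw [h1, mul_zero] at hc'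
      exact h0 hc'
    field_simp
  rw [e]
  exact B.mul_mem (hOB.le c.2) (B.pow_mem hOB.inv n)

private theorem dvd_of_inv {h : L} (hOB : Away O B h) {q : O} (hq : (q : L) ≠ 0)
    (hi : ((q : O) : L)⁻¹ ∈ B) : ∃ n : ℕ, q ∣ (⟨h, hOB.mem⟩ : O) ^ n := by
  obtain ⟨n, hn⟩ := hOB.surj _ hi
  refine ⟨n, ⟨⟨_, hn⟩, ?_⟩⟩
  apply Subtype.ext
  change h ^ n = (q : L) * ((q : L)⁻¹ * h ^ n)
  rw [← mul_assoc, mul_inv_cancel₀ hq, one_mul]

/-- no prime of `P` becomes a unit in `B = O[1/h]`; then a prime `π` of `P` does not divide a power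
of `h` in `O` -/
theorem vert_up (hO : Vert F P O) {h : L} (hOB : Away O B h)
    (hn : ∀ π : P, Prime π → ((π : P) : L)⁻¹ ∉ B) : Vert F P B := by
  have := hO.ufd
  refine ⟨hO.le.trans hOB.le, hO.sub, hO.frac, hO.ufd, ?_⟩
  intro q hq hq1
  have hqp : Prime q := UniqueFactorizationMonoid.irreducible_iff_prime.1 hq
  obtain ⟨hp, hdv⟩ := hO.irr q hq hq1
  have hnd : ∀ n : ℕ, ¬ (Subring.inclusion hO.le q) ∣ (⟨h, hOB.mem⟩ : O) ^ n := by
    intro n hd
    exact hn q hqp (inv_of_dvd hOB n hd)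
  have hq0 : (q : L) ≠ 0 := by
    intro h1
    exact hqp.ne_zero (Subtype.ext h1)
  refine ⟨⟨?_, ?_, ?_⟩, ?_⟩
  · intro h1
    apply hq0
    have := congrArg (fun x : B => (x : L)) h1
    simpa using this
  · intro hu
    obtain ⟨u, hu⟩ := hu
    apply hn q hqp
    have h1 : (q : L) * ((↑u⁻¹ : B) : L) = 1 := by
      have h2 : (u : B) * (↑u⁻¹ : B) = 1 := Units.mul_inv u
      rw [hu] at h2
      have := congrArg (fun x : B => (x : L)) h2
      simpa using this
    rw [inv_eq_of_mul_eq_one_right h1]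
    exact (↑u⁻¹ : B).2
  · rintro ⟨x, hx⟩ ⟨y, hy⟩ ⟨⟨z, hz⟩, e⟩
    have e' : x * y = (q : L) * z := by
      have := congrArg (fun x : B => (x : L)) e
      simpa using this
    obtain ⟨a, ha⟩ := hOB.surj x hx
    obtain ⟨b, hb⟩ := hOB.surj y hy
    obtain ⟨c, hc⟩ := hOB.surj z hz
    have hd : Subring.inclusion hO.le q ∣
        (⟨x * h ^ a, ha⟩ : O) * ⟨y * h ^ b, hb⟩ * (⟨h, hOB.mem⟩ : O) ^ c := by
      refine ⟨⟨z * h ^ c, hc⟩ * (⟨h, hOB.mem⟩ : O) ^ (a + b), ?_⟩
      apply Subtype.ext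
      change x * h ^ a * (y * h ^ b) * h ^ c = (q : L) * (z * h ^ c * h ^ (a + b))
      have : x * h ^ a * (y * h ^ b) * h ^ c = (x * y) * (h ^ a * h ^ b * h ^ c) := by ring
      rw [this, e', pow_add]
      ring
    rcases hp.2.2 _ _ hd with hd | hd
    · rcases hp.2.2 _ _ hd with ⟨w, hw⟩ | ⟨w, hw⟩
      · left
        have hw' : x * h ^ a = (q : L) * (w : L) := by
          have := congrArg (fun x : O => (x : L)) hw
          simpa using this
        refine ⟨⟨(w : L) * h⁻¹ ^ a, B.mul_mem (hOB.le w.2) (B.pow_mem hOB.inv a)⟩, ?_⟩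
        apply Subtype.ext
        change x = (q : L) * ((w : L) * h⁻¹ ^ a)
        rw [← mul_assoc, ← hw', mul_assoc, ← mul_pow, mul_inv_cancel₀ hOB.ne, one_pow, mul_one]
      · right
        have hw' : y * h ^ b = (q : L) * (w : L) := by
          have := congrArg (fun x : O => (x : L)) hw
          simpa using this
        refine ⟨⟨(w : L) * h⁻¹ ^ b, B.mul_mem (hOB.le w.2) (B.pow_mem hOB.inv b)⟩, ?_⟩
        apply Subtype.ext
        change y = (q : L) * ((w : L) * h⁻¹ ^ b)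
        rw [← mul_assoc, ← hw', mul_assoc, ← mul_pow, mul_inv_cancel₀ hOB.ne, one_pow, mul_one]
    · exact absurd hd (hnd c)
  · rintro a ⟨⟨z, hz⟩, e⟩
    have e' : (a : L) = (q : L) * z := by
      have := congrArg (fun x : B => (x : L)) e
      simpa using this
    obtain ⟨c, hc⟩ := hOB.surj z hz
    have hd : Subring.inclusion hO.le q ∣ Subring.inclusion hO.le a * (⟨h, hOB.mem⟩ : O) ^ c := by
      refine ⟨⟨z * h ^ c, hc⟩, ?_⟩
      apply Subtype.ext
      change (a : L) * h ^ c = (q : L) * (z * h ^ c)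
      rw [e', mul_assoc]
    rcases hp.2.2 _ _ hd with hd | hd
    · exact hdv a hd
    · exact absurd hd (hnd c)

private theorem exists_w_aux (hO : Vert F P O) [IsNoetherianRing O] (h : O) : h ≠ 0 →
    ∃ w : P, w ≠ 0 ∧ Subring.inclusion hO.le w ∣ h ∧
      ∀ π : P, Prime π → Subring.inclusion hO.le π ∣ h → π ∣ w := by
  have := hO.ufd
  refine WfDvdMonoid.induction_on_irreducible h (fun h0 => absurd rfl h0) ?_ ?_
  · intro u hu _
    refine ⟨1, one_ne_zero, by rw [map_one]; exact one_dvd _, ?_⟩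
    intro π hπ hd
    have hp := (hO.irr π hπ.irreducible (fun h1 => hπ.not_isUnit (isUnit_of_dvd_one h1))).1
    exact absurd (isUnit_of_dvd_unit hd hu) hp.not_isUnit
  · intro a i ha hi hP _
    obtain ⟨w, hw0, hwa, hw⟩ := hP ha
    by_cases hx : ∃ π : P, Prime π ∧ Subring.inclusion hO.le π ∣ i
    · obtain ⟨π₀, hπ₀, hd₀⟩ := hx
      have hp₀ := (hO.irr π₀ hπ₀.irreducible
        (fun h1 => hπ₀.not_isUnit (isUnit_of_dvd_one h1))).1
      refine ⟨π₀ * w, mul_ne_zero hπ₀.ne_zero hw0, ?_, ?_⟩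
      · rw [map_mul]
        exact mul_dvd_mul hd₀ hwa
      · intro π hπ hd
        obtain ⟨hp, hdv⟩ := hO.irr π hπ.irreducible
          (fun h1 => hπ.not_isUnit (isUnit_of_dvd_one h1))
        rcases hp.2.2 _ _ hd with hd | hd
        · have has : Associated (Subring.inclusion hO.le π₀) i :=
            hp₀.irreducible.associated_of_dvd hi hd₀
          exact (hdv _ (hd.trans has.symm.dvd)).trans (dvd_mul_right _ _)
        · exact (hw π hπ hd).trans (dvd_mul_left _ _)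
    · refine ⟨w, hw0, hwa.trans (dvd_mul_left _ _), ?_⟩
      intro π hπ hd
      have hp := (hO.irr π hπ.irreducible
        (fun h1 => hπ.not_isUnit (isUnit_of_dvd_one h1))).1
      rcases hp.2.2 _ _ hd with hd | hd
      · exact absurd ⟨π, hπ, hd⟩ hx
      · exact hw π hπ hd

/-- only finitely many primes of `P` become units in `B = O[1/h]`: they divide `h` in `O`, so they are
associated in `O` to factors of a factorisation of `h` (`WfDvdMonoid.exists_factors`); two primes of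
`P` which are associated in `O` are associated in `P`. `w` is their product -/
theorem exists_w (hO : Vert F P O) {h : L} (hOB : Away O B h) [IsNoetherianRing O] :
    ∃ w : P, w ≠ 0 ∧ ((w : P) : L)⁻¹ ∈ B ∧
      ∀ π : P, Prime π → ((π : P) : L)⁻¹ ∈ B → π ∣ w := by
  have := hO.ufd
  have h0 : (⟨h, hOB.mem⟩ : O) ≠ 0 := by
    intro h1
    exact hOB.ne (congrArg Subtype.val h1)
  obtain ⟨w, hw0, hwd, hw⟩ := exists_w_aux hO ⟨h, hOB.mem⟩ h0
  refine ⟨w, hw0, ?_, ?_⟩
  · exact inv_of_dvd hOB (q := Subring.inclusion hO.le w) 1 (by rw [pow_one]; exact hwd)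
  · intro π hπ hi
    obtain ⟨hp, -⟩ := hO.irr π hπ.irreducible
      (fun h1 => hπ.not_isUnit (isUnit_of_dvd_one h1))
    have hq0 : ((Subring.inclusion hO.le π : O) : L) ≠ 0 := by
      intro h1
      exact hπ.ne_zero (Subtype.ext h1)
    obtain ⟨n, hn⟩ := dvd_of_inv hOB hq0 hi
    exact hw π hπ (hp.dvd_of_dvd_pow hn)

private theorem inv_mem_of {P₀ P B : Subring L} (h0 : P₀ ≤ B) (h0P : P₀ ≤ P)
    [UniqueFactorizationMonoid P₀]
    (hw : ∀ π : P₀, Prime π → ((π : P₀) : L)⁻¹ ∈ B → ((π : P₀) : L)⁻¹ ∈ P) (y : P₀) :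
    y ≠ 0 → ((y : P₀) : L)⁻¹ ∈ B → ((y : P₀) : L)⁻¹ ∈ P := by
  refine UniqueFactorizationMonoid.induction_on_prime y (fun h1 => absurd rfl h1) ?_ ?_
  · rintro u ⟨u, rfl⟩ _ _
    have h1 : ((u : P₀) : L) * ((↑u⁻¹ : P₀) : L) = 1 :=
      congrArg (fun x : P₀ => (x : L)) (Units.mul_inv u)
    rw [inv_eq_of_mul_eq_one_right h1]
    exact h0P (↑u⁻¹ : P₀).2
  · intro a p ha hp hP _ hi
    have ha0 : (a : L) ≠ 0 := fun h1 => ha (Subtype.ext h1)
    have hp0 : (p : L) ≠ 0 := fun h1 => hp.ne_zero (Subtype.ext h1)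
    have hpa : ((p * a : P₀) : L) = (p : L) * (a : L) := rfl
    rw [hpa] at hi ⊢
    have h1 : (p : L)⁻¹ ∈ B := by
      have e : (p : L)⁻¹ = (a : L) * ((p : L) * (a : L))⁻¹ := by field_simp
      rw [e]
      exact B.mul_mem (h0 a.2) hi
    have h2 : (a : L)⁻¹ ∈ B := by
      have e : (a : L)⁻¹ = (p : L) * ((p : L) * (a : L))⁻¹ := by field_simp
      rw [e]
      exact B.mul_mem (h0 p.2) hi
    rw [mul_inv]
    exact P.mul_mem (hw p hp h1) (hP ha h2)

end field

variable {R T S L : Type} [CommRing R] [IsDomain R] [CommRing T] [CommRing S] [Field L]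
  [Algebra R T] [Algebra R S] [Algebra R L]

/-- Proof: `w` from `exists_w` for `b₀`, `w = φ(t) / (r φ(b₀)^m)` with `t ∈ T` (`mem_gring`),
`b = b₀ t`. A prime of `gring (j φ) b = (gring (j φ) b₀)[1/w]` is associated to a prime of
`gring (j φ) b₀` which does not divide `w` -/
theorem exists_b [IsNoetherianRing R] (hS : Algebra.FiniteType R S)
    (hi : Function.Injective (algebraMap R L)) (φ : T →ₐ[R] S) (j : S →ₐ[R] L)
    (hφ : Function.Injective φ) (hj : Function.Injective j) {b₀ : T} (hb₀ : b₀ ≠ 0) {g h : S}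
    (hg : g ≠ 0) (hh : h ≠ 0) (hgh : g * φ b₀ ∣ h)
    (hV : Vert (fieldOf ((j : S →+* L).comp (φ : T →+* S))) (gring (j.comp φ) b₀)
      (gring j (g * φ b₀))) :
    ∃ b : T, b ≠ 0 ∧ b₀ ∣ b ∧ (j (φ b))⁻¹ ∈ gring j h ∧
      ∀ π : gring (j.comp φ) b, Prime π → ((π : gring (j.comp φ) b) : L)⁻¹ ∉ gring j h := by
  have := hV.ufd
  have hjφ : Function.Injective (j.comp φ) := hj.comp hφ
  have hne : ∀ {x : T}, x ≠ 0 → j (φ x) ≠ 0 := by
    intro x hx h1
    exact hx (hjφ (by rw [map_zero]; exact h1))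
  have hgb : g * φ b₀ ≠ 0 := by
    intro h1
    rw [h1] at hgh
    exact hh (zero_dvd_iff.1 hgh)
  have : IsNoetherianRing (gring j (g * φ b₀)) := noeth_gring hS hi j hj hgb
  have hA := away_gring hi j hj hgh hh
  have hjh : j h ≠ 0 := fun h1 => hh (hj (by rw [map_zero]; exact h1))
  obtain ⟨w, hw0, hwi, hw⟩ := exists_w hV hA
  have hwL : (w : L) ≠ 0 := fun h1 => hw0 (Subtype.ext h1)
  obtain ⟨t, r, m, hr, e⟩ := (mem_gring hi (j.comp φ) (g := b₀) (hne hb₀) (w : L)).1 w.2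
  have e' : (w : L) * (algebraMap R L r * j (φ b₀) ^ m) = j (φ t) := e
  have hrL : algebraMap R L r ≠ 0 := fun h1 => hr (hi (by rw [map_zero]; exact h1))
  have ht : t ≠ 0 := by
    intro h1
    rw [h1, map_zero, map_zero] at e'
    exact (mul_ne_zero hwL (mul_ne_zero hrL (pow_ne_zero _ (hne hb₀)))) e'
  have hb : b₀ * t ≠ 0 := by
    intro h1
    have : j (φ (b₀ * t)) = 0 := by rw [h1, map_zero, map_zero]
    rw [map_mul, map_mul] at this
    exact mul_ne_zero (hne hb₀) (hne ht) this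
  have hA' := away_gring hi (j.comp φ) hjφ (dvd_mul_right b₀ t) hb
  -- inverses in the ring over S
  have hib₀ : (j (φ b₀))⁻¹ ∈ gring j h := by
    obtain ⟨c, hc⟩ := (Dvd.intro_left g rfl : φ b₀ ∣ g * φ b₀).trans hgh
    have hc' : j h = j (φ b₀) * j c := by rw [hc, map_mul]
    have hc0 : j c ≠ 0 := by
      intro h1
      rw [h1, mul_zero] at hc'
      exact hjh hc'
    have e1 : (j (φ b₀))⁻¹ = j c * (j h)⁻¹ := by
      have := hne hb₀
      rw [hc']
      field_simp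
    rw [e1]
    refine Subring.mul_mem _ ?_ hA.inv
    exact (mem_gring hi j hjh _).2 ⟨c, 1, 0, one_ne_zero, by simp⟩
  have hir : (algebraMap R L r)⁻¹ ∈ gring j h := by
    refine (mem_gring hi j hjh _).2 ⟨1, r, 0, hr, ?_⟩
    rw [pow_zero, mul_one, inv_mul_cancel₀ hrL, map_one]
  have hit : (j (φ t))⁻¹ ∈ gring j h := by
    rw [← e', mul_inv, mul_inv, ← inv_pow]
    exact Subring.mul_mem _ hwi (Subring.mul_mem _ hir (Subring.pow_mem _ hib₀ m))
  have hib : (j (φ (b₀ * t)))⁻¹ ∈ gring j h := by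
    rw [map_mul, map_mul, mul_inv]
    exact Subring.mul_mem _ hib₀ hit
  refine ⟨b₀ * t, hb, dvd_mul_right _ _, hib, ?_⟩
  -- inverses in the ring over T
  have hmem : ∀ x : T, j (φ x) ∈ gring (j.comp φ) (b₀ * t) := by
    intro x
    exact (mem_gring hi (j.comp φ) (hne hb) _).2 ⟨x, 1, 0, one_ne_zero, by simp⟩
  have hmr : algebraMap R L r ∈ gring (j.comp φ) (b₀ * t) := by
    have := hmem (algebraMap R T r)
    rwa [AlgHom.commutes, AlgHom.commutes] at this
  have hinv : (j (φ (b₀ * t)))⁻¹ ∈ gring (j.comp φ) (b₀ * t) := hA'.inv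
  have hitP : (j (φ t))⁻¹ ∈ gring (j.comp φ) (b₀ * t) := by
    have e1 : (j (φ t))⁻¹ = j (φ b₀) * (j (φ (b₀ * t)))⁻¹ := by
      have h1 := hne hb₀
      have h2 := hne ht
      rw [map_mul, map_mul]
      field_simp
    rw [e1]
    exact Subring.mul_mem _ (hmem b₀) hinv
  have hwP : (w : L)⁻¹ ∈ gring (j.comp φ) (b₀ * t) := by
    have e1 : (w : L)⁻¹ = (algebraMap R L r * j (φ b₀) ^ m) * (j (φ t))⁻¹ := by
      have h1 := hne hb₀
      rw [← e']
      field_simp
    rw [e1]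
    exact Subring.mul_mem _ (Subring.mul_mem _ hmr (Subring.pow_mem _ (hmem b₀) m)) hitP
  have key := inv_mem_of (P₀ := gring (j.comp φ) b₀) (P := gring (j.comp φ) (b₀ * t))
    (B := gring j h) (hV.le.trans hA.le) hA'.le (by
      intro π hπ hi'
      obtain ⟨c, hc⟩ := hw π hπ hi'
      have hπ0 : (π : L) ≠ 0 := fun h1 => hπ.ne_zero (Subtype.ext h1)
      have hc' : (w : L) = (π : L) * (c : L) := by
        have := congrArg (fun x : gring (j.comp φ) b₀ => (x : L)) hc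
        simpa using this
      have hc0 : (c : L) ≠ 0 := by
        intro h1
        rw [h1, mul_zero] at hc'
        exact hwL hc'
      have e1 : (π : L)⁻¹ = (c : L) * (w : L)⁻¹ := by
        rw [hc']
        field_simp
      rw [e1]
      exact Subring.mul_mem _ (hA'.le c.2) hwP)
  intro π hπ hi'
  obtain ⟨n, hn⟩ := hA'.surj _ π.2
  have hπ0 : (π : L) ≠ 0 := fun h1 => hπ.ne_zero (Subtype.ext h1)
  have hbn : (j.comp φ) (b₀ * t) ≠ 0 := hne hb
  have hy := key ⟨_, hn⟩ (by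
    intro h1
    exact mul_ne_zero hπ0 (pow_ne_zero n hbn) (congrArg Subtype.val h1)) (by
    change ((π : L) * (j.comp φ) (b₀ * t) ^ n)⁻¹ ∈ gring j h
    rw [mul_inv, ← inv_pow]
    exact Subring.mul_mem _ hi' (Subring.pow_mem _ hib n))
  have hπi : (π : L)⁻¹ ∈ gring (j.comp φ) (b₀ * t) := by
    have e1 : (π : L)⁻¹ = ((π : L) * (j.comp φ) (b₀ * t) ^ n)⁻¹ * (j.comp φ) (b₀ * t) ^ n := by
      field_simp
    rw [e1]
    exact Subring.mul_mem _ hy (Subring.pow_mem _ (hmem _) n)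
  apply hπ.not_isUnit
  refine IsUnit.of_mul_eq_one (⟨_, hπi⟩ : gring (j.comp φ) (b₀ * t)) ?_
  apply Subtype.ext
  change (π : L) * (π : L)⁻¹ = 1
  exact mul_inv_cancel₀ hπ0

end Pool.Agent.Lib.MP_1a0ddd_nt.Tf
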