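import Pool.Agent.Lib.MP_1a0ddd_nt.Tf.ADefs
import Pool.Agent.Lib.MP_1a0ddd_nt.Fb.Alg

/-! Units. -/

set_option autoImplicit false

namespace Pool.Agent.Lib.MP_1a0ddd_nt.Tf

open Pool.Agent.Lib.MP_1a0ddd_nt.Nc Pool.Agent.Lib.MP_1a0ddd_nt.Cf

variable {L : Type} [Field L] {F : Subfield L} {P B A : Subring L}

/-- Let `x = β / t` be a unit of `A`, `x⁻¹ = β' / t'`, so `β β' = t t'`. Every prime of `P` is a prime
of `B`, so `β` is a product of primes of `P` and a unit of `B` (induction on the factorisation of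
`t t'`) -/
theorem unit_split (h : Vert F P B) (hA : GenF F P B A) (u : L) (hu : u ≠ 0) (h1 : u ∈ A)
    (h2 : u⁻¹ ∈ A) : ∃ v ∈ F, v ≠ 0 ∧ u * v ∈ B ∧ (u * v)⁻¹ ∈ B := by
  have : UniqueFactorizationMonoid P := h.ufd
  obtain ⟨t, ht, ht0, hts⟩ := hA.surj u h1
  obtain ⟨t', ht', ht0', hts'⟩ := hA.surj u⁻¹ h2
  have hB1 : IsUnit (Subring.inclusion h.le (1 : P)) := by
    rw [map_one]
    exact isUnit_one
  have ha : (⟨t, ht⟩ : P) * ⟨t', ht'⟩ ≠ 0 := by
    intro h0
    have h3 := congrArg (Subtype.val) h0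
    have h4 : t * t' = 0 := h3
    exact (mul_ne_zero ht0 ht0') h4
  have hs : (⟨u * t, hts⟩ : B) * ⟨u⁻¹ * t', hts'⟩ =
      Subring.inclusion h.le ((⟨t, ht⟩ : P) * ⟨t', ht'⟩) := by
    apply Subtype.ext
    change u * t * (u⁻¹ * t') = t * t'
    field_simp
  obtain ⟨v, c, hc, hv⟩ := Fb.phi_split hB1 h.irr ha hs
  have hc0 : (c : L) ≠ 0 := fun h0 => hc (Subtype.ext h0)
  have hv1 : u * t = ((v : B) : L) * (c : L) := congrArg Subtype.val hv
  have hvi : ((v : B) : L) * (((v⁻¹ : Bˣ) : B) : L) = 1 :=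
    congrArg Subtype.val (Units.mul_inv v)
  have hv2 : u * (t / (c : L)) = ((v : B) : L) := by
    rw [← mul_div_assoc, hv1, mul_div_assoc, div_self hc0, mul_one]
  refine ⟨t / (c : L), F.div_mem (h.sub t ht) (h.sub _ c.2), div_ne_zero ht0 hc0, ?_, ?_⟩
  · rw [hv2]
    exact (v : B).2
  · rw [hv2, inv_eq_of_mul_eq_one_right hvi]
    exact ((v⁻¹ : Bˣ) : B).2

/-- an element of `B` in `F` is the quotient of two coprime elements of `P`; a prime of `P` which
divides the denominator divides the numerator in `B`, hence in `P` -/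
theorem unit_inter (h : Vert F P B) (u : L) (hF : u ∈ F) (h1 : u ∈ B) : u ∈ P := by
  have : UniqueFactorizationMonoid P := h.ufd
  rcases eq_or_ne u 0 with hu | hu
  · rw [hu]
    exact P.zero_mem
  obtain ⟨a, ha, b, hb, hb0, hab⟩ := h.frac u hF
  have ha0 : a ≠ 0 := hab ▸ mul_ne_zero hu hb0
  have haP : (⟨a, ha⟩ : P) ≠ 0 := fun h0 => ha0 (congrArg Subtype.val h0)
  obtain ⟨c', c, d, hrel, hd', hd⟩ :=
    UniqueFactorizationMonoid.exists_reduced_factors (⟨a, ha⟩ : P) haP ⟨b, hb⟩
  have hd1 : (d : L) * (c' : L) = a := congrArg Subtype.val hd'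
  have hd2 : (d : L) * (c : L) = b := congrArg Subtype.val hd
  have hd0 : (d : L) ≠ 0 := by
    intro h0
    rw [h0, zero_mul] at hd1
    exact ha0 hd1.symm
  have hc0 : (c : L) ≠ 0 := by
    intro h0
    rw [h0, mul_zero] at hd2
    exact hb0 hd2.symm
  have huc : u * (c : L) = (c' : L) := by
    apply mul_left_cancel₀ hd0
    rw [hd1, ← hab, ← hd2]
    ring
  have hcu : IsUnit c := by
    by_contra hnu
    have hcP : c ≠ 0 := fun h0 => hc0 (congrArg Subtype.val h0)
    obtain ⟨q, hq, hqc⟩ := WfDvdMonoid.exists_irreducible_factor hnu hcP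
    have hq1 : ¬ q ∣ 1 := fun h3 => hq.not_isUnit (isUnit_of_dvd_one h3)
    have h3 : Subring.inclusion h.le q ∣ Subring.inclusion h.le c' := by
      refine (map_dvd (Subring.inclusion h.le) hqc).trans ⟨⟨u, h1⟩, ?_⟩
      apply Subtype.ext
      change (c' : L) = (c : L) * u
      rw [← huc, mul_comm]
    exact hq.not_isUnit (hrel ((h.irr q hq hq1).2 c' h3) hqc)
  obtain ⟨w, hw⟩ := hcu
  have hwi : (c : L) * (((w⁻¹ : Pˣ) : P) : L) = 1 := by
    rw [← hw]
    exact congrArg Subtype.val (Units.mul_inv w)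
  have hu2 : u = (c' : L) * (((w⁻¹ : Pˣ) : P) : L) := by
    rw [← huc, mul_assoc, hwi, mul_one]
  rw [hu2]
  exact P.mul_mem c'.2 ((w⁻¹ : Pˣ) : P).2

private theorem un_mono {A B : Subring L} (h : A ≤ B) : un A ≤ un B := fun _ hx =>
  ⟨h hx.1, h hx.2⟩

/-- the map on units modulo units -/
private def umap {K K' A A' : Subring L} (hK : K ≤ K') (hA : A ≤ A') :
    UM K A →+ UM K' A' :=
  QuotientAddGroup.map _ _ (AddSubgroup.inclusion (un_mono hA)) (by
    intro x hx
    exact un_mono hK hx)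

private theorem umap_mk {K K' A A' : Subring L} (hK : K ≤ K') (hA : A ≤ A') (x : un A) :
    umap hK hA (QuotientAddGroup.mk x) =
      QuotientAddGroup.mk (AddSubgroup.inclusion (un_mono hA) x) := rfl

private theorem umap_inj {K A A' : Subring L} (hA : A ≤ A') :
    Function.Injective (umap (le_refl K) hA) := by
  rw [injective_iff_map_eq_zero]
  intro a
  refine QuotientAddGroup.induction_on a ?_
  intro x hx
  rw [umap_mk, QuotientAddGroup.eq_zero_iff] at hx
  rw [QuotientAddGroup.eq_zero_iff]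
  exact hx

/-- `un A = un B + un F`, `un B ∩ un F = un P` -/
theorem unit_rank (K : Subfield L) (hK : ∀ x ∈ K, x ∈ P) (h : Vert F P B) (hA : GenF F P B A)
    (hP : Module.Finite ℤ (UM K.toSubring P)) (hAF : Module.Finite ℤ (UM F.toSubring A)) :
    Module.Finite ℤ (UM K.toSubring B) ∧ Module.finrank ℤ (UM K.toSubring B) =
      Module.finrank ℤ (UM K.toSubring P) + Module.finrank ℤ (UM F.toSubring A) := by
  have hKF : K.toSubring ≤ F.toSubring := fun x hx => h.sub x (hK x hx)
  let f : UM K.toSubring P →ₗ[ℤ] UM K.toSubring B :=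
    (umap (le_refl K.toSubring) h.le).toIntLinearMap
  let g : UM K.toSubring B →ₗ[ℤ] UM F.toSubring A := (umap hKF hA.le).toIntLinearMap
  have hf : Function.Injective f := umap_inj h.le
  have hg : Function.Surjective g := by
    intro y
    refine QuotientAddGroup.induction_on y ?_
    rintro ⟨u, hu1, hu2⟩
    obtain ⟨v, hvF, hv0, hv1, hv2⟩ := unit_split h hA ((Additive.toMul u : Lˣ) : L)
      (Units.ne_zero _) hu1 hu2
    let w : Lˣ := Additive.toMul u * Units.mk0 v hv0
    have hw : (w : L) = ((Additive.toMul u : Lˣ) : L) * v := rfl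
    refine ⟨QuotientAddGroup.mk ⟨Additive.ofMul w, ?_, ?_⟩, ?_⟩
    · change (w : L) ∈ B
      rw [hw]
      exact hv1
    · change (w : L)⁻¹ ∈ B
      rw [hw]
      exact hv2
    · change QuotientAddGroup.mk _ = QuotientAddGroup.mk _
      rw [QuotientAddGroup.eq]
      rw [AddSubgroup.mem_addSubgroupOf]
      have he : (((-(AddSubgroup.inclusion (un_mono hA.le) ⟨Additive.ofMul w, by
          change (w : L) ∈ B
          rw [hw]
          exact hv1, by
          change (w : L)⁻¹ ∈ B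
          rw [hw]
          exact hv2⟩) + (⟨u, hu1, hu2⟩ : un A) : un A)) : Additive Lˣ) =
          Additive.ofMul (Units.mk0 v hv0)⁻¹ := by
        change Additive.ofMul (w⁻¹ * Additive.toMul u) = _
        congr 1
        rw [mul_inv_rev, mul_assoc, inv_mul_cancel, mul_one]
      rw [he, mem_un]
      change (((Units.mk0 v hv0)⁻¹ : Lˣ) : L) ∈ F ∧ (((Units.mk0 v hv0)⁻¹ : Lˣ) : L)⁻¹ ∈ F
      rw [Units.val_inv_eq_inv_val, inv_inv]
      exact ⟨F.inv_mem hvF, hvF⟩
  have hk : LinearMap.range f = LinearMap.ker g := by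
    apply le_antisymm
    · rintro _ ⟨x, rfl⟩
      revert x
      intro x
      refine QuotientAddGroup.induction_on x ?_
      intro z
      rw [LinearMap.mem_ker]
      change QuotientAddGroup.mk _ = 0
      rw [QuotientAddGroup.eq_zero_iff]
      exact ⟨h.sub _ z.2.1, h.sub _ z.2.2⟩
    · intro x
      refine QuotientAddGroup.induction_on x ?_
      intro z hz
      rw [LinearMap.mem_ker] at hz
      change QuotientAddGroup.mk _ = 0 at hz
      rw [QuotientAddGroup.eq_zero_iff] at hz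
      have hz1 : ((Additive.toMul (z : Additive Lˣ) : Lˣ) : L) ∈ F := hz.1
      have hz2 : ((Additive.toMul (z : Additive Lˣ) : Lˣ) : L)⁻¹ ∈ F := hz.2
      refine ⟨QuotientAddGroup.mk ⟨z, unit_inter h _ hz1 z.2.1, unit_inter h _ hz2 z.2.2⟩, ?_⟩
      rfl
  have hfin : Module.Finite ℤ (UM K.toSubring B) := by
    have : Module.Finite ℤ (LinearMap.ker g) := by
      rw [← hk]
      infer_instance
    have : Module.Finite ℤ (UM K.toSubring B ⧸ LinearMap.ker g) :=
      Module.Finite.equiv (g.quotKerEquivOfSurjective hg).symm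
    exact Module.Finite.of_submodule_quotient (LinearMap.ker g)
  refine ⟨hfin, ?_⟩
  have h1 := Submodule.finrank_quotient_add_finrank (LinearMap.ker g)
  rw [LinearEquiv.finrank_eq (g.quotKerEquivOfSurjective hg), ← hk,
    LinearMap.finrank_range_of_inj hf] at h1
  rw [← h1, add_comm]

end Pool.Agent.Lib.MP_1a0ddd_nt.Tf
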