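import Pool.Agent.Lib.MP_1a0ddd_nt.Tf.ADed

/-! The prime divisors of an open subset of a family of curves. -/

set_option autoImplicit false

namespace Pool.Agent.Lib.MP_1a0ddd_nt.Tf

open Pool.Agent.Lib.MP_1a0ddd_nt.Nc Pool.Agent.Lib.MP_1a0ddd_nt.Cf

variable {L : Type} [Field L] {F : Subfield L} {P B A : Subring L}

private theorem vr_one {V : ValuationSubring L} {ν : L → ℤ} (h : IsOrd V ν) : ν 1 = 0 := by
  have := h.mul 1 1 one_ne_zero one_ne_zero
  rw [mul_one] at this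
  omega

private theorem vr_inv {V : ValuationSubring L} {ν : L → ℤ} (h : IsOrd V ν) {x : L}
    (hx : x ≠ 0) : ν x⁻¹ = -ν x := by
  have := h.mul x x⁻¹ hx (inv_ne_zero hx)
  rw [mul_inv_cancel₀ hx, vr_one h] at this
  omega

private theorem vr_pow {V : ValuationSubring L} {ν : L → ℤ} (h : IsOrd V ν) {x : L}
    (hx : x ≠ 0) (n : ℕ) : ν (x ^ n) = n * ν x := by
  induction n with
  | zero => rw [pow_zero, vr_one h]; simp
  | succ n ih =>
    rw [pow_succ, h.mul _ _ (pow_ne_zero n hx) hx, ih]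
    push_cast
    ring

private theorem vr_nonunits {V : ValuationSubring L} {ν : L → ℤ} (h : IsOrd V ν) {x : L}
    (hx : x ≠ 0) : x ∈ V.nonunits ↔ 1 ≤ ν x := by
  rw [ValuationSubring.mem_nonunits_iff_or, or_iff_right hx, h.mem _ (inv_ne_zero hx),
    vr_inv h hx]
  omega

/-- the inverse of an element of `V` which is not in the maximal ideal -/
private theorem vr_invmem {V : ValuationSubring L} {b : L} (hb : b ∉ V.nonunits) : b⁻¹ ∈ V := by
  by_contra hcon
  exact hb ((ValuationSubring.mem_nonunits_iff_or _).mpr (Or.inr hcon))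

private theorem vr_zero {V : ValuationSubring L} : (0 : L) ∈ V.nonunits :=
  (ValuationSubring.mem_nonunits_iff_or _).mpr (Or.inl rfl)

private theorem vr_ne {V : ValuationSubring L} {b : L} (hb : b ∉ V.nonunits) : b ≠ 0 := by
  rintro rfl
  exact hb vr_zero

private theorem vr_core {C : Type} [CommRing C] [IsDedekindDomain C] [Algebra C L]
    [IsFractionRing C L] (V : ValuationSubring L) (hV : V ≠ ⊤)
    (hB : ∀ b : C, algebraMap C L b ∈ V) :
    ∃ P : IsDedekindDomain.HeightOneSpectrum C,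
      V = (P.valuation L).valuationSubring := by
  have hmem : ∀ b : C, b ∈ (IsLocalRing.maximalIdeal V).comap
      ((algebraMap C L).codRestrict V.toSubring hB) ↔ algebraMap C L b ∈ V.nonunits := by
    intro b
    rw [Ideal.mem_comap]
    exact (ValuationSubring.coe_mem_nonunits_iff (A := V)
      (a := (algebraMap C L).codRestrict V.toSubring hB b)).symm
  have hne : (IsLocalRing.maximalIdeal V).comap
      ((algebraMap C L).codRestrict V.toSubring hB) ≠ ⊥ := by
    intro hbot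
    apply hV
    rw [eq_top_iff]
    intro z _
    obtain ⟨a, c, hc, rfl⟩ := IsFractionRing.div_surjective (A := C) z
    rw [div_eq_mul_inv]
    refine V.mul_mem _ _ (hB a) ?_
    by_contra hcon
    have hc0 : c ∈ (IsLocalRing.maximalIdeal V).comap
        ((algebraMap C L).codRestrict V.toSubring hB) := by
      rw [hmem]
      exact (ValuationSubring.mem_nonunits_iff_or _).mpr (Or.inr hcon)
    rw [hbot, Ideal.mem_bot] at hc0
    exact nonZeroDivisors.ne_zero hc hc0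
  refine ⟨⟨_, Ideal.comap_isPrime _ _, hne⟩, ?_⟩
  rw [← IsDedekindDomain.HeightOneSpectrum.valuationSubringAtPrime_eq_valuationSubring]
  symm
  refine ValuationSubring.eq_of_le_of_ne_top _ ?_ hV
  rintro z ⟨a, s, hs, rfl⟩
  refine V.mul_mem _ _ (hB a) ?_
  by_contra hcon
  apply hs
  show s ∈ (IsLocalRing.maximalIdeal V).comap
        ((algebraMap C L).codRestrict V.toSubring hB)
  rw [hmem]
  exact (ValuationSubring.mem_nonunits_iff_or _).mpr (Or.inr hcon)

/-- a Noetherian valuation ring has a normalized order function -/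
private theorem vr_dvr (V : ValuationSubring L) (hV : V ≠ ⊤) (hN : IsNoetherianRing V) :
    ∃ ν : L → ℤ, IsOrd V ν := by
  have : IsPrincipalIdealRing V := by
    have := ((tfae_of_isNoetherianRing_of_isLocalRing_of_isDomain (R := V)).out 1 0).mp
      (inferInstance : ValuationRing V)
    exact this
  obtain ⟨P, hP⟩ := vr_core (C := V) V hV (fun b => b.2)
  have hv0 : ∀ y : L, y ≠ 0 → P.valuation L y ≠ 0 := fun y hy => (_root_.map_ne_zero _).mpr hy
  refine ⟨fun y => -WithZero.log (P.valuation L y), ?_, ?_, ?_⟩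
  · intro y z hy hz
    rw [map_mul, WithZero.log_mul (hv0 y hy) (hv0 z hz)]
    ring
  · obtain ⟨π, hπ⟩ := P.valuation_exists_uniformizer L
    refine ⟨π, ?_, ?_⟩
    · rintro rfl
      rw [map_zero] at hπ
      exact WithZero.exp_ne_zero hπ.symm
    · rw [hπ, WithZero.log_exp]
      norm_num
  · intro y hy
    have h1 : y ∈ V ↔ P.valuation L y ≤ 1 := by
      have h2 : y ∈ (P.valuation L).valuationSubring ↔ P.valuation L y ≤ 1 :=
        Valuation.mem_valuationSubring_iff _ _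
      rw [← h2]
      constructor
      · intro h
        have h3 : y ∈ V := h
        rw [hP] at h3
        exact h3
      · intro h
        rw [hP]
        exact h
    rw [h1, ← WithZero.log_le_log (hv0 y hy) one_ne_zero, WithZero.log_one]
    constructor <;> intro h <;> linarith

/-- the centre of `V` on `B` -/
private def ctr (V : Loc1 B) : Ideal B :=
  (IsLocalRing.maximalIdeal V.1).comap
    (B.subtype.codRestrict V.1.toSubring fun b => V.2.2.1 b.2)

private theorem mem_ctr (V : Loc1 B) (b : B) : b ∈ ctr V ↔ (b : L) ∈ V.1.nonunits := by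
  rw [ctr, Ideal.mem_comap]
  exact (ValuationSubring.coe_mem_nonunits_iff (A := V.1)
    (a := B.subtype.codRestrict V.1.toSubring (fun b => V.2.2.1 b.2) b)).symm

private theorem ctr_prime (V : Loc1 B) : (ctr V).IsPrime := Ideal.comap_isPrime _ _

/-- the closed points of the curve are prime divisors: by `ded_loc`, `v = a / b` with `a, b ∈ A`, `b` a
unit of `V`; multiply `a` and `b` by an element `t ≠ 0` of `P` (a unit of `V`) -/
theorem loc_of_place (hA : GenF F P B A) (hPB : P ≤ B) (hP : ∀ x ∈ P, x ∈ F) (h : Aff F A)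
    (V : Place F) (hV : (B : Set L) ⊆ V.1) (v : L) (hv : v ∈ V.1) :
    ∃ a ∈ B, ∃ b ∈ B, b ∉ V.1.nonunits ∧ v * b = a := by
  have hun : ∀ t ∈ F, t ≠ 0 → t ∉ V.1.nonunits := by
    intro t ht h0 hcon
    rw [ValuationSubring.mem_nonunits_iff_or, or_iff_right h0] at hcon
    exact hcon (V.2.2 (F.inv_mem ht))
  have hmul : ∀ s t : L, s ∈ V.1 → t ∈ V.1 → s ∉ V.1.nonunits → t ∉ V.1.nonunits →
      s * t ∉ V.1.nonunits := by
    intro s t _ _ h1 h2 hcon
    rw [ValuationSubring.mem_nonunits_iff_or, or_iff_right (mul_ne_zero (vr_ne h1) (vr_ne h2))]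
      at hcon
    apply hcon
    rw [mul_inv]
    exact V.1.mul_mem _ _ (vr_invmem h1) (vr_invmem h2)
  have hAV : (A : Set L) ⊆ V.1 := by
    intro x hx
    obtain ⟨t, ht, h0, hxt⟩ := hA.surj x hx
    have h1 : x = x * t * t⁻¹ := by rw [mul_assoc, mul_inv_cancel₀ h0, mul_one]
    rw [h1]
    exact V.1.mul_mem _ _ (hV hxt) (V.2.2 (F.inv_mem (hP t ht)))
  obtain ⟨a, ha, b, hb, hbn, hab⟩ := ded_loc h V.1 V.2.1 hAV v hv
  obtain ⟨s, hs, hs0, has⟩ := hA.surj a ha
  obtain ⟨t, ht, ht0, hbt⟩ := hA.surj b hb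
  refine ⟨a * s * t, B.mul_mem has (hPB ht), b * t * s, B.mul_mem hbt (hPB hs), ?_, ?_⟩
  · exact hmul _ _ (hV hbt) (V.2.2 (hP s hs))
      (hmul _ _ (hAV hb) (V.2.2 (hP t ht)) hbn (hun t (hP t ht) ht0)) (hun s (hP s hs) hs0)
  · rw [← hab]
    ring

/-- the valuation ring `V` is the localisation of `B` at a prime ideal, so it is Noetherian, a
discrete valuation ring -/
theorem loc_ord [IsNoetherianRing B] (V : Loc1 B) : ∃ ν : L → ℤ, IsOrd V.1 ν := by
  refine vr_dvr V.1 V.2.1 ?_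
  let φ : B →+* V.1 := B.subtype.codRestrict V.1.toSubring fun b => V.2.2.1 b.2
  have hφ : ∀ b : B, ((φ b : V.1) : L) = b := fun b => rfl
  let : Algebra B V.1 := φ.toAlgebra
  have hal : ∀ b : B, ((algebraMap B V.1 b : V.1) : L) = b := fun b => rfl
  have hp := ctr_prime V
  have : IsLocalization (ctr V).primeCompl V.1 := by
    refine ⟨⟨?_, ?_, ?_⟩⟩
    · rintro ⟨b, hb⟩
      have h1 : (b : L) ∉ V.1.nonunits := fun h => hb ((mem_ctr V b).mpr h)
      refine IsUnit.of_mul_eq_one ⟨(b : L)⁻¹, vr_invmem h1⟩ ?_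
      apply Subtype.ext
      show ((algebraMap B V.1 b : V.1) : L) * (b : L)⁻¹ = 1
      rw [hal, mul_inv_cancel₀ (vr_ne h1)]
    · rintro ⟨v, hv⟩
      obtain ⟨a, ha, b, hb, hbn, hab⟩ := V.2.2.2 v hv
      refine ⟨⟨⟨a, ha⟩, ⟨⟨b, hb⟩, fun h => hbn ((mem_ctr V ⟨b, hb⟩).mp h)⟩⟩, ?_⟩
      apply Subtype.ext
      exact hab
    · intro x y hxy
      refine ⟨1, ?_⟩
      have h1 : (x : L) = y := congrArg (fun z : V.1 => (z : L)) hxy
      rw [Subtype.ext h1]
  exact IsLocalization.isNoetherianRing (ctr V).primeCompl V.1 inferInstance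

private theorem loc_le (V W : Loc1 B) (hVW : ∀ a ∈ B, a ∈ W.1.nonunits → a ∈ V.1.nonunits) :
    V.1 ≤ W.1 := by
  intro v hv
  obtain ⟨a, ha, b, hb, hbn, hab⟩ := V.2.2.2 v hv
  have h1 : b ∉ W.1.nonunits := fun h => hbn (hVW b hb h)
  have h2 : v = a * b⁻¹ := by rw [← hab, mul_assoc, mul_inv_cancel₀ (vr_ne hbn), mul_one]
  rw [h2]
  exact W.1.mul_mem _ _ (W.2.2.1 ha) (vr_invmem h1)

/-- `V` is determined by its centre -/
theorem loc_inj (V W : Loc1 B) (hVW : ∀ a ∈ B, a ∈ V.1.nonunits ↔ a ∈ W.1.nonunits) : V = W :=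
  Subtype.ext (le_antisymm (loc_le V W fun a ha h => (hVW a ha).mpr h)
    (loc_le W V fun a ha h => (hVW a ha).mp h))

/-- the centre of `V` is a minimal prime of every `a ≠ 0` which it contains -/
theorem loc_minimal [IsNoetherianRing B] (V : Loc1 B) (a : B) (h0 : a ≠ 0)
    (ha : (a : L) ∈ V.1.nonunits) : ∃ M ∈ (Ideal.span {a}).minimalPrimes,
      ∀ b : B, b ∈ M ↔ (b : L) ∈ V.1.nonunits := by
  refine ⟨ctr V, ⟨⟨ctr_prime V, ?_⟩, ?_⟩, mem_ctr V⟩
  · rw [Ideal.span_singleton_le_iff_mem, mem_ctr]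
    exact ha
  · rintro Q ⟨hQ, haQ⟩ hQV b hb
    rw [Ideal.span_singleton_le_iff_mem] at haQ
    by_cases hb0 : b = 0
    · rw [hb0]
      exact Q.zero_mem
    obtain ⟨ν, hν⟩ := loc_ord V
    have h0' : (a : L) ≠ 0 := fun h => h0 (Subtype.ext h)
    have hb0' : (b : L) ≠ 0 := fun h => hb0 (Subtype.ext h)
    have h1 : 1 ≤ ν (b : L) := (vr_nonunits hν hb0').mp ((mem_ctr V b).mp hb)
    have h2 : 1 ≤ ν (a : L) := (vr_nonunits hν h0').mp ha
    obtain ⟨n, hn⟩ := Int.eq_ofNat_of_zero_le (by omega : 0 ≤ ν (a : L))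
    have h3 : (b : L) ^ n * (a : L)⁻¹ ∈ V.1 := by
      rw [hν.mem _ (mul_ne_zero (pow_ne_zero n hb0') (inv_ne_zero h0')),
        hν.mul _ _ (pow_ne_zero n hb0') (inv_ne_zero h0'), vr_pow hν hb0', vr_inv hν h0', hn]
      have : (n : ℤ) * 1 ≤ n * ν (b : L) := mul_le_mul_of_nonneg_left h1 (by positivity)
      linarith
    obtain ⟨c, hc, d, hd, hdn, hcd⟩ := V.2.2.2 _ h3
    have h4 : b ^ n * ⟨d, hd⟩ = a * ⟨c, hc⟩ := by
      apply Subtype.ext
      show (b : L) ^ n * d = a * c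
      rw [← hcd]
      field_simp
    have h5 : b ^ n * ⟨d, hd⟩ ∈ Q := by
      rw [h4]
      exact Q.mul_mem_right _ haQ
    rcases hQ.mem_or_mem h5 with h6 | h6
    · exact hQ.mem_of_pow_mem n h6
    · exact absurd ((mem_ctr V ⟨d, hd⟩).mp (hQV h6)) hdn

/-- finitely many prime divisors contain `a` -/
private theorem loc_fin1 [IsNoetherianRing B] (a : B) (h0 : a ≠ 0) :
    {V : Loc1 B | (a : L) ∈ V.1.nonunits}.Finite := by
  have hfin := Ideal.finite_minimalPrimes_of_isNoetherianRing B (Ideal.span {a})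
  choose g hg1 hg2 using fun V : {V : Loc1 B | (a : L) ∈ V.1.nonunits} =>
    loc_minimal V.1 a h0 V.2
  have : Finite (Ideal.span {a}).minimalPrimes := hfin
  have : Finite {V : Loc1 B | (a : L) ∈ V.1.nonunits} :=
    Finite.of_injective (β := (Ideal.span {a}).minimalPrimes) (fun V => ⟨g V, hg1 V⟩) (by
      intro V W hVW
      have h1 : g V = g W := congrArg Subtype.val hVW
      apply Subtype.ext
      apply loc_inj
      intro b hb
      rw [← hg2 V ⟨b, hb⟩, ← hg2 W ⟨b, hb⟩, h1])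
  exact Set.toFinite _

/-- only finitely many divisors occur in a function -/
theorem loc_finite [IsNoetherianRing B] (hfr : ∀ x : L, ∃ a ∈ B, ∃ b ∈ B, b ≠ 0 ∧ x * b = a)
    {ν : Loc1 B → L → ℤ} (hν : ∀ V, IsOrd V.1 (ν V)) {f : L} (hf : f ≠ 0) :
    {V : Loc1 B | ν V f ≠ 0}.Finite := by
  obtain ⟨a, ha, b, hb, hb0, hab⟩ := hfr f
  have ha0 : a ≠ 0 := by
    rw [← hab]
    exact mul_ne_zero hf hb0
  refine ((loc_fin1 (⟨a, ha⟩ : B) fun h => ha0 (congrArg Subtype.val h)).union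
    (loc_fin1 (⟨b, hb⟩ : B) fun h => hb0 (congrArg Subtype.val h))).subset ?_
  intro V hV
  have h1 : ν V f + ν V b = ν V a := by rw [← (hν V).mul _ _ hf hb0, hab]
  have h2 : 0 ≤ ν V a := ((hν V).mem a ha0).mp (V.2.2.1 ha)
  have h3 : 0 ≤ ν V b := ((hν V).mem b hb0).mp (V.2.2.1 hb)
  have h4 : ν V f ≠ 0 := hV
  by_cases h5 : 1 ≤ ν V a
  · exact Or.inl ((vr_nonunits (hν V) ha0).mpr h5)
  · exact Or.inr ((vr_nonunits (hν V) hb0).mpr (by omega))

/-- a prime divisor over a prime divisor of `Spec P` is principal: if `x = a / b` in `F` is not in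
`V`, then `b` is not a unit of `V`, so a prime `π` of `P` is not a unit of `V`; `π` is a prime element of
`B`, and the centre of `V` has height one, so it is generated by `π` -/
theorem loc_vert [IsNoetherianRing B] (h : Vert F P B) (V : Loc1 B) (hV : ¬ (F : Set L) ⊆ V.1) :
    ∃ π ∈ F, π ≠ 0 ∧ (∀ ν : L → ℤ, IsOrd V.1 ν → ν π = 1) ∧
      ∀ W : Loc1 B, W ≠ V → ∀ ν : L → ℤ, IsOrd W.1 ν → ν π = 0 := by
  have := h.ufd
  -- a prime of `P` which is not a unit of `V`
  obtain ⟨x, hxF, hxV⟩ := Set.not_subset.mp hV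
  obtain ⟨a, ha, b, hb, hb0, hab⟩ := h.frac x hxF
  have hbn : b ∈ V.1.nonunits := by
    by_contra hcon
    apply hxV
    have h2 : x = a * b⁻¹ := by rw [← hab, mul_assoc, mul_inv_cancel₀ hb0, mul_one]
    rw [h2]
    exact V.1.mul_mem _ _ (V.2.2.1 (h.le ha)) (vr_invmem hcon)
  have hq := ctr_prime V
  have hq' : ((ctr V).comap (Subring.inclusion h.le)).IsPrime := Ideal.comap_isPrime _ _
  have hqne : (ctr V).comap (Subring.inclusion h.le) ≠ ⊥ := by
    intro hbot
    have h1 : (⟨b, hb⟩ : P) ∈ (ctr V).comap (Subring.inclusion h.le) := by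
      rw [Ideal.mem_comap, mem_ctr]
      exact hbn
    rw [hbot, Ideal.mem_bot] at h1
    exact hb0 (congrArg Subtype.val h1)
  obtain ⟨π, hπq, hπ⟩ := hq'.exists_mem_prime_of_ne_bot hqne
  have hpB := (h.irr π hπ.irreducible fun hd => hπ.not_isUnit (isUnit_of_dvd_one hd)).1
  set ϖ : B := Subring.inclusion h.le π with hϖ
  have hϖL : (ϖ : L) = (π : L) := rfl
  have h0 : (ϖ : L) ≠ 0 := fun hc => hpB.ne_zero (Subtype.ext hc)
  -- the centre of a divisor which contains `π` is generated by `π`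
  have key : ∀ W : Loc1 B, (ϖ : L) ∈ W.1.nonunits → ∀ c : B, (c : L) ∈ W.1.nonunits ↔ ϖ ∣ c := by
    intro W hW c
    obtain ⟨M, hM, hMc⟩ := loc_minimal W ϖ hpB.ne_zero hW
    have hsp : (Ideal.span {ϖ}).IsPrime := (Ideal.span_singleton_prime hpB.ne_zero).mpr hpB
    have h1 : M ≤ Ideal.span {ϖ} := hM.2 ⟨hsp, le_rfl⟩ hM.1.2
    have h2 : M = Ideal.span {ϖ} := le_antisymm h1 hM.1.2
    rw [← hMc, h2, Ideal.mem_span_singleton]
  have hVϖ : (ϖ : L) ∈ V.1.nonunits := (mem_ctr V ϖ).mp hπq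
  refine ⟨(π : L), h.sub _ π.2, h0, ?_, ?_⟩
  · intro ν hν
    have h1 : 1 ≤ ν (ϖ : L) := (vr_nonunits hν h0).mp hVϖ
    obtain ⟨y, hy0, hy1⟩ := hν.one
    obtain ⟨c, hc, d, hd, hdn, hcd⟩ := V.2.2.2 y ((hν.mem y hy0).mpr (by omega))
    have hd0 : d ≠ 0 := vr_ne hdn
    have hd1 : ν d = 0 := by
      have h3 : ¬ (1 ≤ ν d) := fun h4 => hdn ((vr_nonunits hν hd0).mpr h4)
      have h4 : 0 ≤ ν d := (hν.mem _ hd0).mp (V.2.2.1 hd)
      omega
    have hc0 : c ≠ 0 := by
      rw [← hcd]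
      exact mul_ne_zero hy0 hd0
    have hc1 : ν c = 1 := by
      rw [← hcd, hν.mul _ _ hy0 hd0, hy1, hd1]
      ring
    obtain ⟨e, he⟩ := (key V hVϖ ⟨c, hc⟩).mp ((vr_nonunits hν hc0).mpr hc1.ge)
    have he' : c = (ϖ : L) * (e : L) := congrArg (fun z : B => (z : L)) he
    have he0 : (e : L) ≠ 0 := by
      intro h5
      rw [h5, mul_zero] at he'
      exact hc0 he'
    have h5 : ν (ϖ : L) + ν (e : L) = 1 := by
      rw [← hν.mul _ _ h0 he0, ← he', hc1]
    have h6 : 0 ≤ ν (e : L) := (hν.mem _ he0).mp (V.2.2.1 e.2)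
    show ν (ϖ : L) = 1
    omega
  · intro W hWV ν hν
    show ν (ϖ : L) = 0
    by_contra hcon
    have h1 : 0 ≤ ν (ϖ : L) := (hν.mem _ h0).mp (W.2.2.1 ϖ.2)
    have h2 : (ϖ : L) ∈ W.1.nonunits := (vr_nonunits hν h0).mpr (by omega)
    apply hWV
    apply loc_inj
    intro c hc
    rw [key W h2 ⟨c, hc⟩, key V hVϖ ⟨c, hc⟩]

end Pool.Agent.Lib.MP_1a0ddd_nt.Tf
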