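import Pool.Agent.Lib.MP_1a0ddd_nt.Tf.AGrp
import Pool.Agent.Lib.MP_1a0ddd_nt.Tf.AVrt
import Pool.Agent.Lib.MP_1a0ddd_nt.Tf.AUnt
import Pool.Agent.Lib.MP_1a0ddd_nt.Nc.Cls

/-! The class group of the curve and that of an open subset of the family. -/

set_option autoImplicit false

namespace Pool.Agent.Lib.MP_1a0ddd_nt.Tf

open Pool.Agent.Lib.MP_1a0ddd_nt.Nc Pool.Agent.Lib.MP_1a0ddd_nt.Cf

section ord

variable {L : Type} [Field L] {V : ValuationSubring L} {ν ν' : L → ℤ}

private theorem ord_one (h : IsOrd V ν) : ν 1 = 0 := by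
  have := h.mul 1 1 one_ne_zero one_ne_zero
  rw [mul_one] at this
  omega

private theorem ord_inv (h : IsOrd V ν) {x : L} (hx : x ≠ 0) : ν x⁻¹ = -ν x := by
  have := h.mul x x⁻¹ hx (inv_ne_zero hx)
  rw [mul_inv_cancel₀ hx, ord_one h] at this
  omega

private theorem ord_eq_zero (h : IsOrd V ν) {x : L} (hx : x ≠ 0) :
    ν x = 0 ↔ x ∈ V ∧ x⁻¹ ∈ V := by
  rw [h.mem x hx, h.mem x⁻¹ (inv_ne_zero hx), ord_inv h hx]
  omega

private theorem ord_pow (h : IsOrd V ν) {x : L} (hx : x ≠ 0) (n : ℕ) :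
    ν (x ^ n) = n * ν x := by
  induction n with
  | zero => rw [pow_zero, ord_one h]; simp
  | succ n ih =>
    rw [pow_succ, h.mul _ _ (pow_ne_zero n hx) hx, ih]
    push_cast
    ring

private theorem ord_zpow (h : IsOrd V ν) {x : L} (hx : x ≠ 0) (n : ℤ) :
    ν (x ^ n) = n * ν x := by
  obtain ⟨m, rfl | rfl⟩ := n.eq_nat_or_neg
  · rw [zpow_natCast, ord_pow h hx]
  · rw [zpow_neg, zpow_natCast, ord_inv h (pow_ne_zero m hx), ord_pow h hx]
    ring

private theorem ord_eq (h : IsOrd V ν) (h' : IsOrd V ν') {x : L} (hx : x ≠ 0) :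
    ν x = ν' x := by
  obtain ⟨π, h0, h1⟩ := h.one
  obtain ⟨π', h0', h1'⟩ := h'.one
  -- elements with the same order differ by a unit
  have key : ∀ y : L, y ≠ 0 → ν' y = ν y * ν' π := by
    intro y hy
    have hz : π ^ (ν y) ≠ 0 := zpow_ne_zero _ h0
    have hq : y / π ^ (ν y) ≠ 0 := div_ne_zero hy hz
    have h2 : ν (y / π ^ (ν y)) = 0 := by
      rw [div_eq_mul_inv, h.mul _ _ hy (inv_ne_zero hz), ord_inv h hz, ord_zpow h h0, h1]
      ring
    have h3 : ν' (y / π ^ (ν y)) = 0 := (ord_eq_zero h' hq).2 ((ord_eq_zero h hq).1 h2)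
    rw [div_eq_mul_inv, h'.mul _ _ hy (inv_ne_zero hz), ord_inv h' hz, ord_zpow h' h0] at h3
    linarith
  have h2 := key π' h0'
  rw [h1'] at h2
  have h3 : 0 ≤ ν' π := (h'.mem π h0).1 ((h.mem π h0).2 (by omega))
  have h4 : ν' π = 1 := by
    rcases Int.isUnit_iff.1 (IsUnit.of_mul_eq_one_right (ν π') h2.symm) with h5 | h5
    · exact h5
    · omega
  rw [key x hx, h4, mul_one]

end ord

section dv

variable {L X : Type} [Field L] {V : X → ValuationSubring L} {ν : X → L → ℤ}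

/-- the divisor map -/
private noncomputable def dv (hν : ∀ x, IsOrd (V x) (ν x))
    (hfin : ∀ f : L, f ≠ 0 → {x | ν x f ≠ 0}.Finite) : Additive Lˣ →+ (X →₀ ℤ) where
  toFun u := Finsupp.ofSupportFinite (fun x => ν x (Additive.toMul u : Lˣ))
    (hfin _ (Additive.toMul u).ne_zero)
  map_zero' := by
    ext x
    exact ord_one (hν x)
  map_add' u v := by
    ext x
    exact (hν x).mul _ _ (Additive.toMul u).ne_zero (Additive.toMul v).ne_zero

private theorem dv_apply (hν : ∀ x, IsOrd (V x) (ν x))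
    (hfin : ∀ f : L, f ≠ 0 → {x | ν x f ≠ 0}.Finite) (u : Additive Lˣ) (x : X) :
    dv hν hfin u x = ν x (Additive.toMul u : Lˣ) := rfl

end dv

/-- `grp_iso` with names for the subgroups -/
private theorem grp_iso' {Γ X Z : Type} [AddCommGroup Γ] (dX : Γ →+ (X →₀ ℤ)) (dZ : Γ →+ (Z →₀ ℤ))
    (Q : Set X) (hQ : Q.Finite) (e : {x : X // x ∉ Q} → Z) (he : Function.Injective e)
    (hd : ∀ (f : Γ) (y : {x : X // x ∉ Q}), dZ f (e y) = dX f y)
    (hz : ∀ z : Z, (∀ y, e y ≠ z) → ∃ f : Γ, dZ f = Finsupp.single z 1) (U : AddSubgroup Γ)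
    (hU : ∀ f : Γ, f ∈ U ↔ ∀ x ∉ Q, dX f x = 0)
    (N : AddSubgroup (X →₀ ℤ)) (hN : N = dX.range) (M : AddSubgroup (Z →₀ ℤ)) (hM : M = dZ.range)
    (K : AddSubgroup Γ) (hK : K = dX.ker) :
    ∃ H : AddSubgroup ((X →₀ ℤ) ⧸ N), H.FG ∧
      Nonempty ((((X →₀ ℤ) ⧸ N) ⧸ H) ≃+ ((Z →₀ ℤ) ⧸ M)) ∧
      Module.Finite ℤ (U ⧸ K.addSubgroupOf U) ∧
      Module.finrank ℤ H + Module.finrank ℤ (U ⧸ K.addSubgroupOf U) = Q.ncard := by
  subst hN hM hK
  exact grp_iso dX dZ Q hQ e he hd hz U hU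

variable {L : Type} [Field L] [CharZero L] {F : Subfield L} {P B A : Subring L}

/-- Proof: `grp_iso` for `Γ = Additive Lˣ`, `X = Place F`, `Z = Loc1 B`, `Q` the places which do not
contain `A` (finite: `place_finite` for the generators of `A`), `U = un A`; see `class_rank` in
`Nc/Cls.lean`. `e V = V` (`loc_of_place`), `hz` is `loc_vert`, `hU` is `ded_mem`, the kernel of `dX` is
`un F` (`place_exists`) -/
theorem side_cls (hF : FF1 F) (h : Vert F P B) (hA : GenF F P B A) (hAff : Aff F A)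
    (hfg : ∃ s : Set L, s.Finite ∧ A = Subring.closure ((F : Set L) ∪ s))
    (hN : IsNoetherianRing B) :
    (Outside F A).Finite ∧ Module.Finite ℤ (UM F.toSubring A) ∧
      ∃ H : AddSubgroup (ClGp F), H.FG ∧ Nonempty ((ClGp F ⧸ H) ≃+ DivCl B) ∧
        Module.finrank ℤ H + Module.finrank ℤ (UM F.toSubring A) = (Outside F A).ncard := by
  classical
  -- the places of the curve
  have hfin : ∀ f : L, {V : Place F | f ∉ V.1}.Finite := place_finite hF.tr hF.fg
  choose ν hν using place_ord hF.tr hF.fg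
  have hνfin : ∀ f : L, f ≠ 0 → {V : Place F | ν V f ≠ 0}.Finite := by
    intro f hf
    refine ((hfin f).union (hfin f⁻¹)).subset fun V hV => ?_
    by_contra hc
    simp only [Set.mem_union, Set.mem_ofPred_eq, not_or, not_not] at hc
    exact hV ((ord_eq_zero (hν V) hf).2 hc)
  have hO : (Outside F A).Finite := by
    obtain ⟨s, hs, hAs⟩ := hfg
    refine (hs.biUnion fun f _ => hfin f).subset fun V hV => ?_
    by_contra hc
    simp only [Set.mem_iUnion, Set.mem_ofPred_eq, not_exists, not_not] at hc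
    refine hV ?_
    have : A ≤ V.1.toSubring := by
      rw [hAs]
      refine Subring.closure_le.2 (Set.union_subset V.2.2 fun f hf => hc f hf)
    exact this
  -- the prime divisors of `Spec B`
  have hfrB : ∀ x : L, ∃ a ∈ B, ∃ b ∈ B, b ≠ 0 ∧ x * b = a := by
    intro x
    obtain ⟨a, ha, b, hb, hb0, hab⟩ := hAff.frac x
    obtain ⟨t, ht, ht0, hat⟩ := hA.surj a ha
    obtain ⟨t', ht', ht0', hbt⟩ := hA.surj b hb
    refine ⟨a * t * t', B.mul_mem hat (h.le ht'), b * t' * t, B.mul_mem hbt (h.le ht),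
      mul_ne_zero (mul_ne_zero hb0 ht0') ht0, ?_⟩
    rw [← hab]
    ring
  choose μ hμ using fun V : Loc1 B => loc_ord (B := B) V
  have hμfin : ∀ f : L, f ≠ 0 → {V : Loc1 B | μ V f ≠ 0}.Finite := fun f hf =>
    loc_finite hfrB hμ hf
  -- the closed points of the open subset of the curve
  have hsub : ∀ y : {x : Place F // x ∉ Outside F A}, (A : Set L) ⊆ y.1.1 := fun y =>
    not_not.1 y.2
  have hBsub : ∀ y : {x : Place F // x ∉ Outside F A}, (B : Set L) ⊆ y.1.1 := fun y =>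
    fun b hb => hsub y (hA.le hb)
  let e : {x : Place F // x ∉ Outside F A} → Loc1 B := fun y =>
    ⟨y.1.1, y.1.2.1, hBsub y, fun v hv => loc_of_place hA h.le h.sub hAff y.1 (hBsub y) v hv⟩
  have he : Function.Injective e := by
    intro y y' hy
    apply Subtype.ext
    apply Subtype.ext
    exact congrArg (fun V : Loc1 B => V.1) hy
  have hd : ∀ (f : Additive Lˣ) (y : {x : Place F // x ∉ Outside F A}),
      dv hμ hμfin f (e y) = dv hν hνfin f y := by
    intro f y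
    exact ord_eq (hμ (e y)) (hν y.1) (Additive.toMul f).ne_zero
  have hz : ∀ z : Loc1 B, (∀ y, e y ≠ z) → ∃ f : Additive Lˣ,
      dv hμ hμfin f = Finsupp.single z 1 := by
    intro z hz
    have hzF : ¬ (F : Set L) ⊆ z.1 := by
      intro hzF
      have hAz : (A : Set L) ⊆ z.1 := by
        intro x hx
        obtain ⟨t, ht, ht0, hxt⟩ := hA.surj x hx
        have h1 : t⁻¹ ∈ z.1 := hzF (F.inv_mem (h.sub t ht))
        have h2 : x * t ∈ z.1 := z.2.2.1 hxt
        have h3 : x * t * t⁻¹ = x := mul_inv_cancel_right₀ ht0 x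
        have h4 := mul_mem h2 h1
        rw [h3] at h4
        exact h4
      exact hz ⟨⟨z.1, z.2.1, hzF⟩, not_not.2 hAz⟩ (Subtype.ext rfl)
    obtain ⟨π, -, h0, h1, h2⟩ := loc_vert h z hzF
    refine ⟨Additive.ofMul (Units.mk0 π h0), ?_⟩
    ext W
    by_cases hW : W = z
    · subst hW
      rw [Finsupp.single_eq_same]
      exact h1 _ (hμ W)
    · rw [Finsupp.single_eq_of_ne hW]
      exact h2 W hW _ (hμ W)
  have hU : ∀ f : Additive Lˣ, f ∈ un A ↔ ∀ V ∉ Outside F A, dv hν hνfin f V = 0 := by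
    intro u
    have hu : ((Additive.toMul u : Lˣ) : L) ≠ 0 := (Additive.toMul u).ne_zero
    rw [mem_un]
    constructor
    · rintro ⟨h1, h2⟩ V hV
      have hV' : (A : Set L) ⊆ V.1 := not_not.1 hV
      exact (ord_eq_zero (hν V) hu).2 ⟨hV' h1, hV' h2⟩
    · intro h5
      have h' : ∀ W : Place F, (A : Set L) ⊆ W.1 →
          ((Additive.toMul u : Lˣ) : L) ∈ W.1 ∧ ((Additive.toMul u : Lˣ) : L)⁻¹ ∈ W.1 :=
        fun W hW => (ord_eq_zero (hν W) hu).1 (h5 W fun hn => hn hW)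
      exact ⟨ded_mem hAff fun W hW => (h' W hW).1, ded_mem hAff fun W hW => (h' W hW).2⟩
  -- the kernel
  have hK : un F.toSubring = (dv hν hνfin).ker := by
    ext u
    have hu : ((Additive.toMul u : Lˣ) : L) ≠ 0 := (Additive.toMul u).ne_zero
    rw [mem_un, AddMonoidHom.mem_ker]
    constructor
    · rintro ⟨h1, h2⟩
      ext V
      exact (ord_eq_zero (hν V) hu).2 ⟨V.2.2 h1, V.2.2 h2⟩
    · intro h5
      have h6 : ((Additive.toMul u : Lˣ) : L) ∈ F := by
        refine hF.closed _ ?_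
        by_contra hna
        obtain ⟨V, hV⟩ := place_exists (F := F) (f := ((Additive.toMul u : Lˣ) : L)) hna
        refine hV ?_
        have h7 : dv hν hνfin u V = 0 := by
          rw [h5]
          rfl
        exact ((ord_eq_zero (hν V) hu).1 h7).1
      exact ⟨h6, F.inv_mem h6⟩
  -- the ranges
  have hNr : AddSubgroup.closure {D : Place F →₀ ℤ | ∃ f : L, f ≠ 0 ∧ IsDiv F f D} =
      (dv hν hνfin).range := by
    have : {D : Place F →₀ ℤ | ∃ f : L, f ≠ 0 ∧ IsDiv F f D} = ((dv hν hνfin).range : Set _) := by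
      ext D
      constructor
      · rintro ⟨f, hf, hD⟩
        refine ⟨Additive.ofMul (Units.mk0 f hf), ?_⟩
        ext V
        exact ((isDiv_iff hν hf D).1 hD V).symm
      · rintro ⟨u, rfl⟩
        exact ⟨_, (Additive.toMul u).ne_zero, (isDiv_iff hν (Additive.toMul u).ne_zero _).2
          fun V => rfl⟩
    rw [this, AddSubgroup.closure_eq]
  have hMr : AddSubgroup.closure {D : Loc1 B →₀ ℤ | ∃ f : L, f ≠ 0 ∧
      ∀ (V : Loc1 B) (ν : L → ℤ), IsOrd V.1 ν → D V = ν f} = (dv hμ hμfin).range := by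
    have : {D : Loc1 B →₀ ℤ | ∃ f : L, f ≠ 0 ∧
        ∀ (V : Loc1 B) (ν : L → ℤ), IsOrd V.1 ν → D V = ν f} =
        ((dv hμ hμfin).range : Set _) := by
      ext D
      constructor
      · rintro ⟨f, hf, hD⟩
        refine ⟨Additive.ofMul (Units.mk0 f hf), ?_⟩
        ext V
        exact (hD V _ (hμ V)).symm
      · rintro ⟨u, rfl⟩
        exact ⟨_, (Additive.toMul u).ne_zero, fun V ν' hν' =>
          ord_eq (hμ V) hν' (Additive.toMul u).ne_zero⟩
    rw [this, AddSubgroup.closure_eq]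
  obtain ⟨H, h1, h2, h3, h4⟩ := grp_iso' (dv hν hνfin) (dv hμ hμfin) (Outside F A) hO e he hd hz
    (un A) hU _ hNr _ hMr _ hK
  exact ⟨hO, h3, H, h1, h2, h4⟩

end Pool.Agent.Lib.MP_1a0ddd_nt.Tf
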