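import Pool.Agent.Lib.MP_1a0ddd_nt.Tf.ADed
import Pool.Agent.Lib.MP_1a0ddd_nt.Pu.Defs

/-! The components of the complement of an open subset. -/

set_option autoImplicit false

namespace Pool.Agent.Lib.MP_1a0ddd_nt.Tf

open Pool.Agent.Lib.MP_1a0ddd_nt.Nc Pool.Agent.Lib.MP_1a0ddd_nt.Cf Pool.Agent.Lib.MP_1a0ddd_nt.Pu

variable {L : Type} [Field L] {F : Subfield L} {P O B A₀ : Subring L}

private theorem exists_irr (hO : Vert F P O) (M : Ideal O) (hM : M.IsPrime) (t : P) :
    t ≠ 0 → Subring.inclusion hO.le t ∈ M →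
      ∃ q : P, Irreducible q ∧ Subring.inclusion hO.le q ∈ M := by
  have := hO.ufd
  induction t using WfDvdMonoid.induction_on_irreducible with
  | zero => exact fun h => absurd rfl h
  | unit u hu =>
    intro _ h
    exact absurd (Ideal.eq_top_of_isUnit_mem M h (hu.map (Subring.inclusion hO.le))) hM.ne_top
  | mul a i ha hi ih =>
    intro _ h
    rw [map_mul] at h
    rcases hM.mem_or_mem h with h1 | h1
    · exact ⟨i, hi, h1⟩
    · exact ih ha h1

/-- a minimal prime `M` of `h` does not meet `P`: otherwise it contains a prime `π` of `P` (`P` is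
factorial), a prime of `O`; `h` is not divisible by `π`, because `π` is not a unit of `B`. But `M` is
minimal over `h`, of height one (Krull), so `M = (π)` -/
theorem comp_zero (hO : Vert F P O) (hB : Vert F P B) {h : L} (hOB : Away O B h)
    [IsNoetherianRing O] (M : Ideal O) (hM : M ∈ (Ideal.span {(⟨h, hOB.mem⟩ : O)}).minimalPrimes)
    (t : P) (ht : Subring.inclusion hO.le t ∈ M) : t = 0 := by
  by_contra ht0
  have hMp : M.IsPrime := hM.1.1
  obtain ⟨q, hq, hqM⟩ := exists_irr hO M hMp t ht0 ht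
  obtain ⟨hqO, -⟩ := hO.irr q hq hq.not_dvd_one
  obtain ⟨hqB, -⟩ := hB.irr q hq hq.not_dvd_one
  have h1 : Ideal.span {Subring.inclusion hO.le q} ≤ M :=
    (Ideal.span_singleton_le_iff_mem _).mpr hqM
  have h2 : (Ideal.span {Subring.inclusion hO.le q}).IsPrime :=
    (Ideal.span_singleton_prime hqO.ne_zero).mpr hqO
  have h3 : Ideal.span {Subring.inclusion hO.le q} = M := by
    by_contra hne
    have h4 := Ideal.height_add_one_le_of_lt_of_isPrime (lt_of_le_of_ne h1 hne)
    have h5 := h4.trans (Ideal.height_le_one_of_isPrincipal_of_mem_minimalPrimes _ M hM)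
    have h6 : (Ideal.span {Subring.inclusion hO.le q}).height = 0 := by
      have h7 : (Ideal.span {Subring.inclusion hO.le q}).height + 1 ≤ 0 + 1 := by
        rwa [zero_add]
      exact nonpos_iff_eq_zero.mp ((ENat.add_le_add_iff_right ENat.one_ne_top).mp h7)
    rw [Ideal.height_eq_zero_iff_eq_bot, Ideal.span_singleton_eq_bot] at h6
    exact hqO.ne_zero h6
  have h4 : (⟨h, hOB.mem⟩ : O) ∈ Ideal.span {Subring.inclusion hO.le q} := by
    rw [h3]
    exact hM.1.2 (Ideal.mem_span_singleton_self _)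
  rw [Ideal.mem_span_singleton] at h4
  have h5 := map_dvd (Subring.inclusion hOB.le) h4
  have h6 : IsUnit (Subring.inclusion hOB.le (⟨h, hOB.mem⟩ : O)) := by
    refine IsUnit.of_mul_eq_one (⟨h⁻¹, hOB.inv⟩ : B) ?_
    apply Subtype.ext
    change h * h⁻¹ = 1
    exact mul_inv_cancel₀ hOB.ne
  exact hqB.not_isUnit (isUnit_of_dvd_unit h5 h6)

/-- the ideal of `A₀` which is generated by a prime ideal of `O` -/
private def up (hO : Vert F P O) (hA : GenF F P O A₀) (Q : Ideal O) : Ideal A₀ where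
  carrier := {a | ∃ t ∈ P, t ≠ 0 ∧ ∃ y : O, y ∈ Q ∧ (y : L) = a * t}
  add_mem' := by
    rintro a b ⟨t, ht, ht0, y, hy, hya⟩ ⟨s, hs, hs0, z, hz, hzb⟩
    refine ⟨t * s, P.mul_mem ht hs, mul_ne_zero ht0 hs0,
      ⟨s, hO.le hs⟩ * y + ⟨t, hO.le ht⟩ * z, Q.add_mem (Q.mul_mem_left _ hy) (Q.mul_mem_left _ hz),
      ?_⟩
    change s * (y : L) + t * z = ((a : L) + b) * (t * s)
    rw [hya, hzb]
    ring
  zero_mem' := ⟨1, P.one_mem, one_ne_zero, 0, Q.zero_mem, by simp⟩
  smul_mem' := by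
    rintro c a ⟨t, ht, ht0, y, hy, hya⟩
    obtain ⟨s, hs, hs0, hcs⟩ := hA.surj c c.2
    refine ⟨s * t, P.mul_mem hs ht, mul_ne_zero hs0 ht0, ⟨(c : L) * s, hcs⟩ * y,
      Q.mul_mem_left _ hy, ?_⟩
    change (c : L) * s * y = (c : L) * a * (s * t)
    rw [hya]
    ring

private theorem mem_up {hO : Vert F P O} {hA : GenF F P O A₀} {Q : Ideal O} {a : A₀} :
    a ∈ up hO hA Q ↔ ∃ t ∈ P, t ≠ 0 ∧ ∃ y : O, y ∈ Q ∧ (y : L) = a * t := Iff.rfl

private theorem mem_of_mul (hO : Vert F P O) {Q : Ideal O} (hQ : Q.IsPrime)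
    (h0 : ∀ t : P, Subring.inclusion hO.le t ∈ Q → t = 0) {x : O} {t : L} (ht : t ∈ P)
    (ht0 : t ≠ 0) (h : x * ⟨t, hO.le ht⟩ ∈ Q) : x ∈ Q := by
  rcases hQ.mem_or_mem h with h1 | h1
  · exact h1
  · have h2 := h0 ⟨t, ht⟩ h1
    exact absurd (congrArg Subtype.val h2) ht0

private theorem up_prime {hO : Vert F P O} {hA : GenF F P O A₀} {Q : Ideal O} (hQ : Q.IsPrime)
    (h0 : ∀ t : P, Subring.inclusion hO.le t ∈ Q → t = 0) : (up hO hA Q).IsPrime := by
  refine ⟨fun htop => ?_, ?_⟩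
  · have h1 : (1 : A₀) ∈ up hO hA Q := by
      rw [htop]
      trivial
    obtain ⟨t, ht, ht0, y, hy, hy1⟩ := h1
    have h2 : y = Subring.inclusion hO.le ⟨t, ht⟩ := by
      apply Subtype.ext
      rw [hy1]
      change (1 : L) * t = t
      rw [one_mul]
    rw [h2] at hy
    exact absurd (congrArg Subtype.val (h0 _ hy)) ht0
  · rintro a b ⟨t, ht, ht0, y, hy, hyab⟩
    obtain ⟨s, hs, hs0, has⟩ := hA.surj a a.2
    obtain ⟨s', hs', hs0', hbs⟩ := hA.surj b b.2
    have h1 : ((⟨(a : L) * s, has⟩ : O) * ⟨(b : L) * s', hbs⟩) * ⟨t, hO.le ht⟩ ∈ Q := by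
      have h2 : ((⟨(a : L) * s, has⟩ : O) * ⟨(b : L) * s', hbs⟩) * ⟨t, hO.le ht⟩ =
          (⟨s, hO.le hs⟩ * ⟨s', hO.le hs'⟩) * y := by
        apply Subtype.ext
        change (a : L) * s * (b * s') * t = s * s' * y
        rw [hyab]
        change (a : L) * s * (b * s') * t = s * s' * (a * b * t)
        ring
      rw [h2]
      exact Q.mul_mem_left _ hy
    have h3 := mem_of_mul hO hQ h0 ht ht0 h1
    rcases hQ.mem_or_mem h3 with h4 | h4
    · exact Or.inl ⟨s, hs, hs0, _, h4, rfl⟩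
    · exact Or.inr ⟨s', hs', hs0', _, h4, rfl⟩

private theorem mem_up_iff {hO : Vert F P O} {hA : GenF F P O A₀} {Q : Ideal O} (hQ : Q.IsPrime)
    (h0 : ∀ t : P, Subring.inclusion hO.le t ∈ Q → t = 0) (x : O) :
    Subring.inclusion hA.le x ∈ up hO hA Q ↔ x ∈ Q := by
  constructor
  · rintro ⟨t, ht, ht0, y, hy, hyx⟩
    refine mem_of_mul hO hQ h0 ht ht0 ?_
    have h2 : x * ⟨t, hO.le ht⟩ = y := by
      apply Subtype.ext
      rw [hyx]
      rfl
    rw [h2]
    exact hy
  · intro hx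
    exact ⟨1, P.one_mem, one_ne_zero, x, hx, (mul_one _).symm⟩

/-- the centre of a valuation ring on a subring -/
private noncomputable def cen (V : ValuationSubring L) (hV : (A₀ : Set L) ⊆ V) : Ideal A₀ :=
  (IsLocalRing.maximalIdeal V).comap (A₀.subtype.codRestrict V.toSubring fun a => hV a.2)

private theorem mem_cen {V : ValuationSubring L} {hV : (A₀ : Set L) ⊆ V} {a : A₀} :
    a ∈ cen V hV ↔ (a : L) ∈ V.nonunits := by
  rw [cen, Ideal.mem_comap]
  exact (ValuationSubring.coe_mem_nonunits_iff (A := V)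
    (a := (A₀.subtype.codRestrict V.toSubring fun a => hV a.2) a)).symm

private theorem cen_prime (V : ValuationSubring L) (hV : (A₀ : Set L) ⊆ V) : (cen V hV).IsPrime :=
  Ideal.comap_isPrime _ _

private theorem unit_notMem {V : ValuationSubring L} {t : L} (_ : t ∈ V) (ht' : t⁻¹ ∈ V)
    (ht0 : t ≠ 0) : t ∉ V.nonunits := by
  intro h
  rw [ValuationSubring.mem_nonunits_iff] at h
  have h1 : V.valuation t⁻¹ ≤ 1 := (V.valuation_le_one_iff _).mpr ht'
  rw [map_inv₀] at h1
  have h2 : 0 < V.valuation t := zero_lt_iff.mpr ((Valuation.ne_zero_iff _).mpr ht0)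
  have h3 := (inv_le_one₀ h2).mp h1
  exact absurd h (not_lt.mpr h3)

/-- the minimal primes of `h` in `O` correspond to the maximal ideals of `A₀ = F O` which contain
`h` (`comp_zero`), to the places which contain `A₀` but not `h⁻¹` (`ded_place`, `ded_inj`) -/
theorem comp_count (hO : Vert F P O) (hB : Vert F P B) {h : L} (hOB : Away O B h)
    (hA : GenF F P O A₀) (hAff : Aff F A₀) [IsNoetherianRing O] :
    ncomp (Ideal.span {(⟨h, hOB.mem⟩ : O)}) =
      {V : Place F | (A₀ : Set L) ⊆ V.1 ∧ ¬ (B : Set L) ⊆ V.1}.ncard := by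
  have hded := hAff.ded
  have hOA : ∀ {V : ValuationSubring L}, (A₀ : Set L) ⊆ V → (O : Set L) ⊆ V :=
    fun hV x hx => hV (hA.le hx)
  -- nonzero elements of `P` are units of `V`
  have hPV : ∀ (V : Place F) (hV : (A₀ : Set L) ⊆ V.1) (t : P),
      Subring.inclusion hO.le t ∈ cen V.1 (hOA hV) → t = 0 := by
    intro V hV t ht
    by_contra ht0
    have ht0' : (t : L) ≠ 0 := fun h1 => ht0 (Subtype.ext h1)
    have htF : (t : L) ∈ F := hO.sub _ t.2
    have ht2 : (t : L) ∈ V.1.nonunits :=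
      (mem_cen (hV := hOA hV) (a := Subring.inclusion hO.le t)).mp ht
    exact unit_notMem (V.2.2 htF) (V.2.2 (F.inv_mem htF)) ht0' ht2
  -- the centre on `A₀` is generated by the centre on `O`
  have hcen : ∀ (V : Place F) (hV : (A₀ : Set L) ⊆ V.1),
      up hO hA (cen V.1 (hOA hV)) = cen V.1 hV := by
    intro V hV
    ext a
    constructor
    · rintro ⟨t, ht, ht0, y, hy, hya⟩
      have htF : t ∈ F := hO.sub _ ht
      have h1 : (y : L) ∈ V.1.nonunits := mem_cen.mp hy
      have h2 : (⟨t, hA.le (hO.le ht)⟩ : A₀) ∉ cen V.1 hV := fun h3 =>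
        unit_notMem (V.2.2 htF) (V.2.2 (F.inv_mem htF)) ht0 (mem_cen.mp h3)
      have h3 : a * ⟨t, hA.le (hO.le ht)⟩ ∈ cen V.1 hV := by
        rw [mem_cen]
        change (a : L) * t ∈ V.1.nonunits
        rw [← hya]
        exact h1
      exact ((cen_prime V.1 hV).mem_or_mem h3).resolve_right h2
    · intro ha
      obtain ⟨s, hs, hs0, has⟩ := hA.surj a a.2
      refine ⟨s, hs, hs0, ⟨(a : L) * s, has⟩, ?_, rfl⟩
      rw [mem_cen]
      have h1 : a * ⟨s, hA.le (hO.le hs)⟩ ∈ cen V.1 hV := (cen V.1 hV).mul_mem_right _ ha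
      have h2 : (a : L) * s ∈ V.1.nonunits :=
        (mem_cen (hV := hV) (a := a * ⟨s, hA.le (hO.le hs)⟩)).mp h1
      exact h2
  have hhV : ∀ (V : Place F) (hV : (A₀ : Set L) ⊆ V.1), ¬ (B : Set L) ⊆ V.1 →
      h ∈ V.1.nonunits := by
    intro V hV hBV
    by_contra hcon
    apply hBV
    have hhV : h ∈ V.1 := hOA hV hOB.mem
    have hinv : h⁻¹ ∈ V.1 := by
      rw [ValuationSubring.mem_nonunits_iff, not_lt] at hcon
      rw [← V.1.valuation_le_one_iff, map_inv₀]
      have h2 : 0 < V.1.valuation h := zero_lt_iff.mpr ((Valuation.ne_zero_iff _).mpr hOB.ne)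
      exact (inv_le_one₀ h2).mpr hcon
    intro x hx
    obtain ⟨n, hn⟩ := hOB.surj x hx
    have h3 : x = x * h ^ n * (h⁻¹) ^ n := by
      rw [mul_assoc, ← mul_pow, mul_inv_cancel₀ hOB.ne, one_pow, mul_one]
    rw [h3]
    exact V.1.mul_mem _ _ (hOA hV hn) (pow_mem hinv n)
  rw [ncomp]
  symm
  refine Set.ncard_congr (fun V hV => cen V.1 (hOA hV.1)) ?_ ?_ ?_
  · rintro V ⟨hV, hBV⟩
    have hhm : (⟨h, hOB.mem⟩ : O) ∈ cen V.1 (hOA hV) := mem_cen.mpr (hhV V hV hBV)
    refine ⟨⟨cen_prime _ _, (Ideal.span_singleton_le_iff_mem _).mpr hhm⟩, ?_⟩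
    rintro Q ⟨hQ, hhQ⟩ hQV
    have hQ0 : ∀ t : P, Subring.inclusion hO.le t ∈ Q → t = 0 := fun t ht => hPV V hV t (hQV ht)
    have hQp := up_prime (hO := hO) (hA := hA) hQ hQ0
    have hQne : up hO hA Q ≠ ⊥ := by
      intro hbot
      have h1 : Subring.inclusion hA.le (⟨h, hOB.mem⟩ : O) ∈ up hO hA Q :=
        (mem_up_iff (hO := hO) hQ hQ0 _).mpr (hhQ (Ideal.mem_span_singleton_self _))
      rw [hbot, Ideal.mem_bot] at h1
      exact hOB.ne (congrArg Subtype.val h1)
    have hmax : (up hO hA Q).IsMaximal := hQp.isMaximal hQne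
    have hle : up hO hA Q ≤ cen V.1 hV := by
      rw [← hcen V hV]
      rintro a ⟨t, ht, ht0, y, hy, hya⟩
      exact ⟨t, ht, ht0, y, hQV hy, hya⟩
    have heq := hmax.eq_of_le (cen_prime V.1 hV).ne_top hle
    intro x hx
    have hx2 : (x : L) ∈ V.1.nonunits := (mem_cen (hV := hOA hV) (a := x)).mp hx
    have hx3 : Subring.inclusion hA.le x ∈ cen V.1 hV := mem_cen.mpr hx2
    rw [← heq] at hx3
    exact (mem_up_iff (hO := hO) (hA := hA) hQ hQ0 x).mp hx3
  · rintro V W ⟨hV, hBV⟩ ⟨hW, hBW⟩ hVW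
    apply Subtype.ext
    refine ded_inj hAff V.1 W.1 V.2.1 W.2.1 hV hW fun a ha haV => ?_
    have h1 : (⟨a, ha⟩ : A₀) ∈ cen V.1 hV := mem_cen.mpr haV
    have hVW' : cen V.1 (hOA hV) = cen W.1 (hOA hW) := hVW
    rw [← hcen V hV, hVW', hcen W hW] at h1
    exact mem_cen.mp h1
  · intro M hM
    have hMp : M.IsPrime := hM.1.1
    have h0 : ∀ t : P, Subring.inclusion hO.le t ∈ M → t = 0 := comp_zero hO hB hOB M hM
    have hhM : (⟨h, hOB.mem⟩ : O) ∈ M := hM.1.2 (Ideal.mem_span_singleton_self _)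
    have hMu := up_prime (hO := hO) (hA := hA) hMp h0
    have hne : up hO hA M ≠ ⊥ := by
      intro hbot
      have h1 : Subring.inclusion hA.le (⟨h, hOB.mem⟩ : O) ∈ up hO hA M :=
        (mem_up_iff (hO := hO) hMp h0 _).mpr hhM
      rw [hbot, Ideal.mem_bot] at h1
      exact hOB.ne (congrArg Subtype.val h1)
    obtain ⟨V, hV, hVM⟩ := ded_place hAff (up hO hA M) hMu hne
    have hmem : ∀ x : O, x ∈ cen V.1 (hOA hV) ↔ x ∈ M := by
      intro x
      rw [← mem_up_iff (hO := hO) (hA := hA) hMp h0, hVM, mem_cen]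
      rfl
    have hBV : ¬ (B : Set L) ⊆ V.1 := by
      intro hBV
      have h1 : h ∈ V.1.nonunits := mem_cen.mp ((hmem ⟨h, hOB.mem⟩).mpr hhM)
      exact unit_notMem (hBV (hOB.le hOB.mem)) (hBV hOB.inv) hOB.ne h1
    exact ⟨V, ⟨hV, hBV⟩, Ideal.ext hmem⟩

private theorem clear (hO : Vert F P O) (q : Polynomial F) :
    ∃ c : P, c ≠ 0 ∧ ∃ q' : Polynomial P, ∀ i, ((q'.coeff i : P) : L) = c * (q.coeff i : F) := by
  induction q using Polynomial.induction_on' with
  | add p q hp hq =>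
    obtain ⟨c, hc, p', hp'⟩ := hp
    obtain ⟨d, hd, q', hq'⟩ := hq
    refine ⟨c * d, mul_ne_zero hc hd, Polynomial.C d * p' + Polynomial.C c * q', fun i => ?_⟩
    rw [Polynomial.coeff_add, Polynomial.coeff_C_mul, Polynomial.coeff_C_mul,
      Polynomial.coeff_add]
    push_cast
    rw [hp', hq']
    ring
  | monomial n a =>
    obtain ⟨u, hu, v, hv, hv0, huv⟩ := hO.frac (a : L) a.2
    refine ⟨⟨v, hv⟩, fun h => hv0 (congrArg Subtype.val h), Polynomial.monomial n ⟨u, hu⟩,
      fun i => ?_⟩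
    rw [Polynomial.coeff_monomial, Polynomial.coeff_monomial]
    split_ifs
    · change u = v * (a : L)
      rw [← huv, mul_comm]
    · simp

private theorem eval_clear {q : Polynomial F} {c : P} {q' : Polynomial P}
    (h : ∀ i, ((q'.coeff i : P) : L) = c * (q.coeff i : F)) (x : L) :
    q'.eval₂ P.subtype x = c * Polynomial.aeval x q := by
  have h1 : q'.map P.subtype = Polynomial.C (c : L) * q.map (algebraMap F L) := by
    ext i
    rw [Polynomial.coeff_map, Polynomial.coeff_C_mul, Polynomial.coeff_map]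
    exact h i
  rw [← Polynomial.eval_map, h1, Polynomial.eval_mul, Polynomial.eval_C, Polynomial.aeval_def,
    Polynomial.eval_map]

private theorem ne_clear {q : Polynomial F} {c : P} {q' : Polynomial P} (hc : c ≠ 0)
    (h : ∀ i, ((q'.coeff i : P) : L) = c * (q.coeff i : F)) (hq : q ≠ 0) : q' ≠ 0 := by
  rintro rfl
  apply hq
  ext i
  have h1 := h i
  rw [Polynomial.coeff_zero, ZeroMemClass.coe_zero] at h1
  have h2 : (c : L) ≠ 0 := fun h3 => hc (Subtype.ext h3)
  have h4 := (mul_eq_zero.mp h1.symm).resolve_left h2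
  rw [h4, Polynomial.coeff_zero, ZeroMemClass.coe_zero]

private theorem coe_eval (hO : Vert F P O) (q : Polynomial P) (x : O) :
    (((q.map (Subring.inclusion hO.le)).eval x : O) : L) = q.eval₂ P.subtype x := by
  rw [Polynomial.eval_map]
  exact Polynomial.hom_eval₂ q (Subring.inclusion hO.le) O.subtype x

/-- the algebra `F O` -/
private def gen (hO : Vert F P O) : Subalgebra F L where
  carrier := {y | ∃ c ∈ P, c ≠ 0 ∧ y * c ∈ O}
  mul_mem' := by
    rintro a b ⟨c, hc, hc0, hac⟩ ⟨d, hd, hd0, hbd⟩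
    refine ⟨c * d, P.mul_mem hc hd, mul_ne_zero hc0 hd0, ?_⟩
    rw [show a * b * (c * d) = a * c * (b * d) by ring]
    exact O.mul_mem hac hbd
  add_mem' := by
    rintro a b ⟨c, hc, hc0, hac⟩ ⟨d, hd, hd0, hbd⟩
    refine ⟨c * d, P.mul_mem hc hd, mul_ne_zero hc0 hd0, ?_⟩
    rw [show (a + b) * (c * d) = a * c * d + b * d * c by ring]
    exact O.add_mem (O.mul_mem hac (hO.le hd)) (O.mul_mem hbd (hO.le hc))
  algebraMap_mem' := by
    intro a
    obtain ⟨u, hu, v, hv, hv0, huv⟩ := hO.frac (a : L) a.2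
    refine ⟨v, hv, hv0, ?_⟩
    change (a : L) * v ∈ O
    rw [huv]
    exact hO.le hu

private theorem exists_coeff_zero {A : Subalgebra F L} {h : L} (hh : h ≠ 0) (n : ℕ) :
    ∀ G : Polynomial A, G.natDegree ≤ n → G ≠ 0 → Polynomial.aeval h G = 0 →
      ∃ G' : Polynomial A, G'.coeff 0 ≠ 0 ∧ Polynomial.aeval h G' = 0 := by
  induction n with
  | zero =>
    intro G hn hG h0
    rw [Nat.le_zero] at hn
    refine ⟨G, fun h1 => hG ?_, h0⟩
    rw [Polynomial.eq_C_of_natDegree_eq_zero hn, h1, Polynomial.C_0]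
  | succ n ih =>
    intro G hn hG h0
    by_cases h1 : G.coeff 0 = 0
    · have h2 : G.divX * Polynomial.X = G := by
        have := Polynomial.divX_mul_X_add G
        rwa [h1, Polynomial.C_0, add_zero] at this
      refine ih G.divX ?_ ?_ ?_
      · rw [Polynomial.natDegree_divX_eq_natDegree_tsub_one]
        omega
      · intro h3
        rw [h3, zero_mul] at h2
        exact hG h2.symm
      · rw [← h2, map_mul, Polynomial.aeval_X] at h0
        exact (mul_eq_zero.mp h0).resolve_right hh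
    · exact ⟨G, h1, h0⟩

/-- `O / M` is algebraic over `P`: `h` and `x` are algebraically dependent over `F`, so
`G(h, x) = 0` with `G ∈ P[X][Y]` not divisible by `X`, and `G(0, x) ∈ M` -/
theorem comp_alg (hF : FF1 F) (hO : Vert F P O) {h : L} (hOB : Away O B h) (M : Ideal O)
    (hM : M.IsPrime) (hh : (⟨h, hOB.mem⟩ : O) ∈ M)
    (h0 : ∀ t : P, Subring.inclusion hO.le t ∈ M → t = 0) (x : O) :
    ∃ q : Polynomial P, q ≠ 0 ∧
      (q.map (Subring.inclusion hO.le)).eval x ∈ M := by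
  by_cases hx : IsAlgebraic F (x : L)
  · obtain ⟨q, hq, hqx⟩ := hx
    obtain ⟨c, hc, q', hq'⟩ := clear hO q
    refine ⟨q', ne_clear hc hq' hq, ?_⟩
    have h1 : (q'.map (Subring.inclusion hO.le)).eval x = 0 := by
      apply Subtype.ext
      rw [coe_eval hO, eval_clear hq', hqx, mul_zero]
      rfl
    rw [h1]
    exact M.zero_mem
  · have hind : AlgebraicIndependent F ![(x : L)] := by
      rw [algebraicIndependent_unique_type_iff]
      exact hx
    have hbas : IsTranscendenceBasis F ![(x : L)] :=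
      hind.isTranscendenceBasis_of_trdeg_le_of_finite (by
        rw [hF.tr]
        simp)
    have halg := hbas.isAlgebraic
    obtain ⟨G, hG, hGh⟩ := halg.isAlgebraic h
    obtain ⟨G', hG'0, hG'h⟩ := exists_coeff_zero hOB.ne G.natDegree G le_rfl hG hGh
    have hxg : Algebra.adjoin F (Set.range ![(x : L)]) ≤ gen hO := by
      rw [Algebra.adjoin_le_iff]
      rintro _ ⟨i, rfl⟩
      refine ⟨1, P.one_mem, one_ne_zero, ?_⟩
      rw [mul_one, Matrix.cons_val_fin_one]
      exact x.2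
    have hhg : h ∈ gen hO := ⟨1, P.one_mem, one_ne_zero, by
      rw [mul_one]
      exact hOB.mem⟩
    -- the rest
    have hS : Polynomial.aeval h G'.divX ∈ gen hO := by
      rw [Polynomial.aeval_eq_sum_range]
      refine Subalgebra.sum_mem _ fun i _ => ?_
      rw [Algebra.smul_def]
      exact (gen hO).mul_mem (hxg (G'.divX.coeff i).2) ((gen hO).pow_mem hhg i)
    obtain ⟨c, hc, hc0, hcS⟩ := hS
    have hg0 : ((G'.coeff 0 : Algebra.adjoin F (Set.range ![(x : L)])) : L) =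
        -(Polynomial.aeval h G'.divX * h) := by
      have h1 := congrArg (Polynomial.aeval h) (Polynomial.divX_mul_X_add G')
      rw [map_add, map_mul, Polynomial.aeval_X, Polynomial.aeval_C, hG'h] at h1
      exact eq_neg_of_add_eq_zero_right h1
    obtain ⟨g, hg⟩ : ∃ g : L, g = ((G'.coeff 0 : Algebra.adjoin F (Set.range ![(x : L)])) : L) :=
      ⟨_, rfl⟩
    have hmem : g ∈ (Polynomial.aeval (x : L) : Polynomial F →ₐ[F] L).range := by
      rw [← Algebra.adjoin_singleton_eq_range_aeval]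
      have h2 : g ∈ Algebra.adjoin F (Set.range ![(x : L)]) := by
        rw [hg]
        exact (G'.coeff 0).2
      rwa [Matrix.range_cons, Matrix.range_empty, Set.union_empty] at h2
    obtain ⟨q, hq⟩ := hmem
    have hq' : Polynomial.aeval (x : L) q = -(Polynomial.aeval h G'.divX * h) := by
      rw [← hg0, ← hg]
      exact hq
    have hqne : q ≠ 0 := by
      rintro rfl
      apply hG'0
      apply Subtype.ext
      rw [hg0, ← hq', map_zero]
      rfl
    obtain ⟨d, hd, q', hqq⟩ := clear hO q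
    refine ⟨Polynomial.C ⟨c, hc⟩ * q', mul_ne_zero ?_ (ne_clear hd hqq hqne), ?_⟩
    · rw [Ne, Polynomial.C_eq_zero]
      exact fun h1 => hc0 (congrArg Subtype.val h1)
    · have h1 : ((Polynomial.C (⟨c, hc⟩ : P) * q').map (Subring.inclusion hO.le)).eval x =
          -(⟨d, hO.le d.2⟩ * ⟨Polynomial.aeval h G'.divX * c, hcS⟩) * ⟨h, hOB.mem⟩ := by
        apply Subtype.ext
        rw [coe_eval hO, Polynomial.eval₂_mul, Polynomial.eval₂_C, eval_clear hqq, hq']
        change c * ((d : L) * -(Polynomial.aeval h G'.divX * h)) =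
          -((d : L) * (Polynomial.aeval h G'.divX * c)) * h
        ring
      rw [h1]
      exact M.mul_mem_left _ hh

end Pool.Agent.Lib.MP_1a0ddd_nt.Tf
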