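import Pool.Agent.Lib.MP_1a0ddd_nt.Tf.ASub
import Pool.Agent.Lib.MP_1a0ddd_nt.Tf.ACmp
import Pool.Agent.Lib.MP_1a0ddd_nt.Pu.Spr
import Pool.Agent.Lib.MP_1a0ddd_nt.Un.Mea

/-! The numbers of points of two open subsets. -/

set_option autoImplicit false

namespace Pool.Agent.Lib.MP_1a0ddd_nt.Tf

open Pool.Agent.Lib.MP_1a0ddd_nt.Nc Pool.Agent.Lib.MP_1a0ddd_nt.Cf
  Pool.Agent.Lib.MP_1a0ddd_nt.Fb Pool.Agent.Lib.MP_1a0ddd_nt.Cn Pool.Agent.Lib.MP_1a0ddd_nt.Un
  Pool.Agent.Lib.MP_1a0ddd_nt.Pu

variable {R T S L : Type} [CommRing R] [IsDomain R] [CommRing T] [CommRing S] [Field L]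
  [Algebra R T] [Algebra R S] [Algebra R L] {d n : ℕ}

/-! ### Auxiliary lemmas -/

private theorem cd_away {S : Type} [CommRing S] [IsDomain S] [Algebra R S]
    (hi : Function.Injective (algebraMap R S)) {b : S} (hb : b ≠ 0) :
    Algebra.trdeg R (Localization.Away b) = Algebra.trdeg R S := by
  have hM : Submonoid.powers b ≤ nonZeroDivisors S :=
    powers_le_nonZeroDivisors_of_noZeroDivisors hb
  have : IsDomain (Localization.Away b) := IsLocalization.isDomain_localization hM
  have hinj : Function.Injective (algebraMap S (Localization.Away b)) :=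
    IsLocalization.injective _ hM
  have h1 : FaithfulSMul R S := (faithfulSMul_iff_algebraMap_injective R S).2 hi
  have h2 : FaithfulSMul S (Localization.Away b) :=
    (faithfulSMul_iff_algebraMap_injective S _).2 hinj
  have h3 : Algebra.IsAlgebraic S (Localization.Away b) :=
    IsLocalization.isAlgebraic (Localization.Away b) (Submonoid.powers b)
  have h4 := trdeg_add_eq R S (A := Localization.Away b)
  rw [trdeg_eq_zero (R := S), add_zero] at h4
  exact h4.symm

/-- an injective algebraic extension -/
private theorem cd_alg {K P Q : Type} [Field K] [CommRing P] [IsDomain P] [CommRing Q]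
    [IsDomain Q] (κP : K →+* P) (κQ : K →+* Q) (f : P →+* Q) (hf : Function.Injective f)
    (hc : ∀ x, f (κP x) = κQ x)
    (ha : ∀ x : Q, ∃ q : Polynomial P, q ≠ 0 ∧ q.eval₂ f x = 0) :
    @Algebra.trdeg K Q _ _ κQ.toAlgebra = @Algebra.trdeg K P _ _ κP.toAlgebra := by
  let a1 : Algebra K P := κP.toAlgebra
  let a2 : Algebra K Q := κQ.toAlgebra
  let a3 : Algebra P Q := f.toAlgebra
  have t : IsScalarTower K P Q := IsScalarTower.of_algebraMap_eq fun x => (hc x).symm
  have f1 : FaithfulSMul K P := (faithfulSMul_iff_algebraMap_injective _ _).2 κP.injective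
  have f2 : FaithfulSMul P Q := (faithfulSMul_iff_algebraMap_injective _ _).2 hf
  have alg : Algebra.IsAlgebraic P Q := ⟨fun x => by
    obtain ⟨q, hq, he⟩ := ha x
    exact ⟨q, hq, he⟩⟩
  have e1 := trdeg_add_eq K P (A := Q)
  rw [trdeg_eq_zero (R := P) (A := Q), add_zero] at e1
  exact e1.symm

/-- the points of `G ≠ 0` which are not in `h ≠ 0` -/
private theorem cd_card {S : Type} [CommRing S] (hS : Algebra.FiniteType ℤ S) (D G h : S)
    (hG : G ∣ h) {p : ℕ} (hp : p.Prime) :
    Nat.card {σ : S →+* ZMod p // σ G ≠ 0 ∧ σ D ≠ 0} =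
      Nat.card {σ : S →+* ZMod p // σ h ≠ 0 ∧ σ D ≠ 0} +
      Nat.card {σ : S →+* ZMod p // σ G ≠ 0 ∧ (σ D ≠ 0 ∧ σ h = 0)} := by
  classical
  have hfin : Finite (S →+* ZMod p) := W.finite_hom S p hp
  have := Fintype.ofFinite (S →+* ZMod p)
  have hp' : Fact p.Prime := ⟨hp⟩
  rw [Nat.card_eq_fintype_card, Nat.card_eq_fintype_card, Nat.card_eq_fintype_card,
    Fintype.card_subtype, Fintype.card_subtype, Fintype.card_subtype,
    ← Finset.card_union_of_disjoint]
  · congr 1
    ext σ
    simp only [Finset.mem_filter, Finset.mem_univ, true_and, Finset.mem_union]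
    constructor
    · rintro ⟨h1, h2⟩
      by_cases h3 : σ h = 0
      · exact Or.inr ⟨h1, h2, h3⟩
      · exact Or.inl ⟨h3, h2⟩
    · rintro (⟨h1, h2⟩ | ⟨h1, h2, -⟩)
      · refine ⟨fun h3 => h1 ?_, h2⟩
        obtain ⟨c, rfl⟩ := hG
        rw [map_mul, h3, zero_mul]
      · exact ⟨h1, h2⟩
  · rw [Finset.disjoint_left]
    intro σ h1 h2
    simp only [Finset.mem_filter, Finset.mem_univ, true_and] at h1 h2
    exact h1.1 h2.2.2

omit [IsDomain R] in
/-- the points of an open subset with `D ≠ 0` -/
private theorem cd_open {S : Type} [CommRing S] [Algebra R S] (g : S) (D : R) {p : ℕ}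
    (hp : p.Prime) :
    Nat.card {σ : Localization.Away g →+* ZMod p //
        σ (algebraMap R (Localization.Away g) D) ≠ 0} =
      Nat.card {σ : S →+* ZMod p // σ g ≠ 0 ∧ σ (algebraMap R S D) ≠ 0} := by
  rw [← card_away g p hp (fun σ => σ (algebraMap R S D) ≠ 0)]
  refine Nat.card_congr (Equiv.subtypeEquivRight fun σ => ?_)
  rw [RingHom.comp_apply, ← IsScalarTower.algebraMap_apply R S (Localization.Away g)]

omit [IsDomain R] in
private theorem cd_ft {S : Type} [CommRing S] [Algebra R S] (hS : Algebra.FiniteType R S)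
    (g : S) : Algebra.FiniteType R (Localization.Away g) := by
  have h7 : Algebra.FiniteType S (Localization.Away g) :=
    IsLocalization.finiteType_of_monoid_fg (Submonoid.powers g) _
  exact Algebra.FiniteType.trans (R := R) (S := S) hS h7

private theorem cd_isAway {S : Type} [CommRing S] [IsDomain S] {D : S} (hD : D ≠ 0) :
    IsAway (algebraMap S (Localization.Away D)) D := by
  refine ⟨IsLocalization.injective _ (powers_le_nonZeroDivisors_of_noZeroDivisors hD),
    IsLocalization.Away.algebraMap_isUnit D, fun x => ?_⟩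
  obtain ⟨m, s, e⟩ := IsLocalization.Away.surj D x
  exact ⟨s, m, by rw [← e]⟩

/-- the points of the complement -/
private theorem cd_pts {S : Type} [CommRing S] (D G h : S) (D' : Localization.Away G)
    (hD' : D' = algebraMap S (Localization.Away G) D) {p : ℕ} (hp : p.Prime) :
    Nat.card {ψ : Localization.Away D' →+* ZMod p //
      ∀ u ∈ (Ideal.span {algebraMap S (Localization.Away G) h}).map
        (algebraMap (Localization.Away G) (Localization.Away D')), ψ u = 0} =
      Nat.card {σ : S →+* ZMod p // σ G ≠ 0 ∧ (σ D ≠ 0 ∧ σ h = 0)} := by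
  rw [← card_away G p hp (fun σ => σ D ≠ 0 ∧ σ h = 0)]
  have h9 : Nat.card {ρ : Localization.Away G →+* ZMod p //
      (ρ.comp (algebraMap S (Localization.Away G))) D ≠ 0 ∧
      (ρ.comp (algebraMap S (Localization.Away G))) h = 0} =
      Nat.card {ρ : Localization.Away G →+* ZMod p // ρ D' ≠ 0 ∧
        ρ (algebraMap S (Localization.Away G) h) = 0} := by
    refine Nat.card_congr (Equiv.subtypeEquivRight fun ρ => ?_)
    rw [RingHom.comp_apply, RingHom.comp_apply, ← hD']
  refine Eq.trans ?_ h9.symm
  rw [← card_away D' p hp (fun σ => σ (algebraMap S (Localization.Away G) h) = 0)]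
  refine Nat.card_congr (Equiv.subtypeEquivRight fun ψ => ?_)
  rw [Ideal.map_span, Set.image_singleton]
  constructor
  · intro h9
    exact h9 _ (Ideal.subset_span rfl)
  · intro h9 u hu
    obtain ⟨x, rfl⟩ := Ideal.mem_span_singleton'.1 hu
    rw [map_mul]
    have h10 : ψ (algebraMap (Localization.Away G) (Localization.Away D')
      (algebraMap S (Localization.Away G) h)) = 0 := h9
    rw [h10, mul_zero]

/-- the counts, from the components over the generic point -/
private theorem cd_count {S O : Type} [CommRing S] [IsDomain S] [Algebra R S] [CommRing O]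
    (hR : BaseVar R d) (hS : Algebra.FiniteType R S)
    (hiS : Function.Injective (algebraMap R S)) {G h : S} (hG : G ≠ 0) (hGh : G ∣ h)
    {k : Localization.Away G →+* O} {κ : FractionRing R →+* O} (hK : KModel R k κ)
    (hdim : ∀ M ∈ ((Ideal.span {algebraMap S (Localization.Away G) h}).map k).minimalPrimes,
      @Algebra.trdeg (FractionRing R) (O ⧸ M) _ _
        ((Ideal.Quotient.mk M).comp κ).toAlgebra = (n : Cardinal)) :
    ∃ D₀ : R, D₀ ≠ 0 ∧ ∀ D : R, D ≠ 0 → D₀ ∣ D → Quad.TauMean (fun p =>
      countD R (Localization.Away h) D d (n + 1) p -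
        countD R (Localization.Away G) D d (n + 1) p)
      (ncomp ((Ideal.span {algebraMap S (Localization.Away G) h}).map k)) := by
  classical
  have hRf := hR.finite
  have hdA : IsDomain (Localization.Away G) :=
    IsLocalization.isDomain_localization (powers_le_nonZeroDivisors_of_noZeroDivisors hG)
  have hfA : Algebra.FiniteType R (Localization.Away G) := cd_ft hS _
  have hiA : Function.Injective (algebraMap R (Localization.Away G)) := by
    rw [IsScalarTower.algebraMap_eq R S (Localization.Away G)]
    exact (IsLocalization.injective _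
      (powers_le_nonZeroDivisors_of_noZeroDivisors hG)).comp hiS
  obtain ⟨D₀, hD₀, hD₀'⟩ := comps_spread (e := n) hR hfA hK
    (Ideal.span {algebraMap S (Localization.Away G) h}) hdim
  refine ⟨D₀, hD₀, fun D hD hDD => ?_⟩
  have hDA : algebraMap R (Localization.Away G) D ≠ 0 := (map_ne_zero_iff _ hiA).2 hD
  have hu : IsUnit (((algebraMap (Localization.Away G)
      (Localization.Away (algebraMap R (Localization.Away G) D))).comp
      (algebraMap R (Localization.Away G))) D) :=
    IsLocalization.Away.algebraMap_isUnit (algebraMap R (Localization.Away G) D)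
  let c : Localization.Away D →+* Localization.Away (algebraMap R (Localization.Away G) D) :=
    IsLocalization.Away.lift D hu
  let _ : Algebra (Localization.Away D)
    (Localization.Away (algebraMap R (Localization.Away G) D)) := c.toAlgebra
  obtain ⟨P, hP⟩ := hD₀' D hD hDD (Localization.Away D)
    (Localization.Away (algebraMap R (Localization.Away G) D)) (algebraMap R _)
    (algebraMap (Localization.Away G) _)
    (cd_isAway hD) (cd_isAway hDA) (fun r => IsLocalization.Away.lift_eq D hu r)
  have hfA' : Algebra.FiniteType ℤ (Localization.Away G) :=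
    Algebra.FiniteType.trans (R := ℤ) (S := R) hRf hfA
  have hfB : Algebra.FiniteType ℤ (Localization.Away (algebraMap R (Localization.Away G) D)) := by
    have h1 : Algebra.FiniteType (Localization.Away G)
        (Localization.Away (algebraMap R (Localization.Away G) D)) :=
      IsLocalization.finiteType_of_monoid_fg
        (Submonoid.powers (algebraMap R (Localization.Away G) D)) _
    exact Algebra.FiniteType.trans (R := ℤ) (S := Localization.Away G) hfA' h1
  have h7 := @V.comps_countG (Localization.Away D)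
    (Localization.Away (algebraMap R (Localization.Away G) D)) _ _ _
    (by
      convert hfB
      · rfl
      · exact Subsingleton.elim _ _) _ _ _ _ hP
  refine h7.congr' 0 fun p _ hp => ?_
  have hfS : Algebra.FiniteType ℤ S := Algebra.FiniteType.trans (R := ℤ) (S := R) hRf hS
  rw [cd_pts (algebraMap R S D) G h (algebraMap R (Localization.Away G) D)
    (IsScalarTower.algebraMap_apply R S (Localization.Away G) D) hp]
  have h9 := cd_card hfS (algebraMap R S D) G h hGh hp
  unfold countD
  rw [cd_open h D hp, cd_open G D hp, h9]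
  have hp0 : (p : ℝ) ≠ 0 := by exact_mod_cast hp.ne_zero
  have h10 : n + 1 + d = (d + n) + 1 := by omega
  rw [h10, pow_succ (p : ℝ) (d + n)]
  push_cast
  field_simp
  ring

omit [IsDomain R] [Algebra R L] in
/-- the structure maps agree -/
private theorem cd_compat {P O : Subring L} (hle : P ≤ O) (κ' : FractionRing R →+* P)
    (κ : FractionRing R →+* O) (h : ∀ r : R, ((κ' (algebraMap R (FractionRing R) r) : P) : L) =
      ((κ (algebraMap R (FractionRing R) r) : O) : L)) (x : FractionRing R) :
    Subring.inclusion hle (κ' x) = κ x := by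
  have h1 : (Subring.inclusion hle).comp κ' = κ := by
    refine IsLocalization.ringHom_ext (nonZeroDivisors R) (RingHom.ext fun r => ?_)
    exact Subtype.ext (h r)
  rw [← h1, RingHom.comp_apply]

/-- the relative dimension of the components of the complement -/
private theorem cd_dim (hR : BaseVar R d) (hS : Algebra.FiniteType R S)
    (hi : Function.Injective (algebraMap R L)) (φ : T →ₐ[R] S) (j : S →ₐ[R] L)
    (hφ : Function.Injective φ) (hj : Function.Injective j)
    (hF : FF1 (fieldOf ((j : S →+* L).comp (φ : T →+* S)))) {b : T} (hb : b ≠ 0)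
    (hdim : Algebra.trdeg R T = n) {g h : S} (hg : g * φ b ≠ 0) (hh : h ≠ 0) (hgh : g * φ b ∣ h)
    (hO : Vert (fieldOf ((j : S →+* L).comp (φ : T →+* S))) (gring (j.comp φ) b)
      (gring j (g * φ b)))
    (hB : Vert (fieldOf ((j : S →+* L).comp (φ : T →+* S))) (gring (j.comp φ) b) (gring j h))
    (κ : FractionRing R →+* gring j (g * φ b))
    (hκ : ∀ r : R, ((κ (algebraMap R (FractionRing R) r) : gring j (g * φ b)) : L) =
      algebraMap R L r)
    (M : Ideal (gring j (g * φ b)))
    (hM : M ∈ (Ideal.span {(⟨j h, (away_gring hi j hj hgh hh).mem⟩ :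
      gring j (g * φ b))}).minimalPrimes) :
    @Algebra.trdeg (FractionRing R) (gring j (g * φ b) ⧸ M) _ _
      ((Ideal.Quotient.mk M).comp κ).toAlgebra = (n : Cardinal) := by
  have hRf := hR.finite
  have hRN : IsNoetherianRing R := Algebra.FiniteType.isNoetherianRing ℤ R
  have hON : IsNoetherianRing (gring j (g * φ b)) := noeth_gring hS hi j hj hg
  have hMp : M.IsPrime := hM.1.1
  have hdT : IsDomain T := (hj.comp hφ).isDomain ((j : S →+* L).comp (φ : T →+* S))
  have hjφ : Function.Injective (j.comp φ) := hj.comp hφ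
  obtain ⟨k', κ', -, hκ', hK'⟩ := kmodel_gring hi (j.comp φ) hjφ hb
  have hiT : Function.Injective (algebraMap R T) := by
    intro x y hxy
    apply hi
    have h1 := congrArg (j.comp φ) hxy
    rwa [AlgHom.commutes, AlgHom.commutes] at h1
  have hdA : IsDomain (Localization.Away b) :=
    IsLocalization.isDomain_localization (powers_le_nonZeroDivisors_of_noZeroDivisors hb)
  have htP : @Algebra.trdeg (FractionRing R) (gring (j.comp φ) b) _ _ κ'.toAlgebra =
      (n : Cardinal) := (trdeg_model hK').1 ((cd_away hiT hb).trans hdim)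
  have hhM : (⟨j h, (away_gring hi j hj hgh hh).mem⟩ : gring j (g * φ b)) ∈ M :=
    hM.1.2 (Ideal.subset_span rfl)
  have h0 := comp_zero hO hB (away_gring hi j hj hgh hh) M hM
  have ha := comp_alg hF hO (away_gring hi j hj hgh hh) M hMp hhM h0
  rw [← htP]
  refine cd_alg κ' ((Ideal.Quotient.mk M).comp κ)
    ((Ideal.Quotient.mk M).comp (Subring.inclusion hO.le)) ?_ ?_ ?_
  · rw [injective_iff_map_eq_zero]
    intro t ht
    exact h0 t (Ideal.Quotient.eq_zero_iff_mem.1 ht)
  · intro x
    rw [RingHom.comp_apply, RingHom.comp_apply,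
      cd_compat hO.le κ' κ (fun r => (hκ' r).trans (hκ r).symm) x]
  · intro x
    obtain ⟨x, rfl⟩ := Ideal.Quotient.mk_surjective x
    obtain ⟨q, hq, he⟩ := ha x
    refine ⟨q, hq, ?_⟩
    rw [← Polynomial.hom_eval₂, ← Polynomial.eval_map]
    exact Ideal.Quotient.eq_zero_iff_mem.2 he

/-- the complement of `h ≠ 0` in `g ≠ 0` has `ncomp` components, of relative dimension `n`
(`comps_spread`, `comps_countG`, as in `count_zero` in `Un/CtZ.lean`); the relative dimension is that
of `Spec T` by `comp_zero` and `comp_alg` -/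
theorem count_diff (hR : BaseVar R d) (hS : Algebra.FiniteType R S)
    (hi : Function.Injective (algebraMap R L)) (φ : T →ₐ[R] S) (j : S →ₐ[R] L)
    (hφ : Function.Injective φ) (hj : Function.Injective j)
    (hF : FF1 (fieldOf ((j : S →+* L).comp (φ : T →+* S)))) {b : T} (hb : b ≠ 0)
    (hdim : Algebra.trdeg R T = n) {g h : S} (hg : g ≠ 0) (hh : h ≠ 0) (hgh : g * φ b ∣ h)
    (hO : Vert (fieldOf ((j : S →+* L).comp (φ : T →+* S))) (gring (j.comp φ) b)
      (gring j (g * φ b)))
    (hB : Vert (fieldOf ((j : S →+* L).comp (φ : T →+* S))) (gring (j.comp φ) b) (gring j h)) :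
    ∃ D₀ : R, D₀ ≠ 0 ∧ ∀ D : R, D ≠ 0 → D₀ ∣ D → Quad.TauMean (fun p =>
      countD R (Localization.Away h) D d (n + 1) p -
        countD R (Localization.Away (g * φ b)) D d (n + 1) p)
      (ncomp (Ideal.span {(⟨j h, (away_gring hi j hj hgh hh).mem⟩ : gring j (g * φ b))})) := by
  have hdS : IsDomain S := hj.isDomain (j : S →+* L)
  have hG : g * φ b ≠ 0 := mul_ne_zero hg fun h0 => hb (hφ (by rw [h0, map_zero]))
  obtain ⟨k, κ, hk, hκ, hK⟩ := kmodel_gring hi j hj hG
  have hiS : Function.Injective (algebraMap R S) := by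
    intro x y hxy
    apply hi
    have h1 := congrArg j hxy
    rwa [AlgHom.commutes, AlgHom.commutes] at h1
  have hmap : (Ideal.span {algebraMap S (Localization.Away (g * φ b)) h}).map k =
      Ideal.span {(⟨j h, (away_gring hi j hj hgh hh).mem⟩ : gring j (g * φ b))} := by
    rw [Ideal.map_span, Set.image_singleton]
    have h1 : k (algebraMap S (Localization.Away (g * φ b)) h) =
      (⟨j h, (away_gring hi j hj hgh hh).mem⟩ : gring j (g * φ b)) := Subtype.ext (hk h)
    rw [h1]
  have h2 := cd_count (n := n) hR hS hiS hG hgh hK (by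
    rw [hmap]
    exact cd_dim hR hS hi φ j hφ hj hF hb hdim hG hh hgh hO hB κ hκ)
  rwa [hmap] at h2

end Pool.Agent.Lib.MP_1a0ddd_nt.Tf
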