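import Pool.Agent.Lib.MP_1a0ddd_nt.Tf.ADefs

/-! The places of an affine regular curve. -/

set_option autoImplicit false

namespace Pool.Agent.Lib.MP_1a0ddd_nt.Tf

open Pool.Agent.Lib.MP_1a0ddd_nt.Nc Pool.Agent.Lib.MP_1a0ddd_nt.Cf

variable {L : Type} [Field L] {F : Subfield L} {A : Subring L}

private theorem ad_frac (h : Aff F A) : IsFractionRing A L := by
  refine IsFractionRing.of_field A L fun z => ?_
  obtain ⟨a, ha, b, hb, hb0, h⟩ := h.frac z
  refine ⟨⟨a, ha⟩, ⟨b, hb⟩, ?_⟩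
  show z = a / b
  rw [← h, mul_div_assoc, div_self hb0, mul_one]

private theorem ad_core {B : Type} [CommRing B] [IsDedekindDomain B] [Algebra B L]
    [IsFractionRing B L] (V : ValuationSubring L) (hV : V ≠ ⊤)
    (hB : ∀ b : B, algebraMap B L b ∈ V) :
    ∃ P : IsDedekindDomain.HeightOneSpectrum B,
      (∀ b, b ∈ P.asIdeal ↔ algebraMap B L b ∈ V.nonunits) ∧
      V = (P.valuation L).valuationSubring := by
  have hmem : ∀ b : B, b ∈ (IsLocalRing.maximalIdeal V).comap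
      ((algebraMap B L).codRestrict V.toSubring hB) ↔ algebraMap B L b ∈ V.nonunits := by
    intro b
    rw [Ideal.mem_comap]
    exact (ValuationSubring.coe_mem_nonunits_iff (A := V)
      (a := (algebraMap B L).codRestrict V.toSubring hB b)).symm
  have hne : (IsLocalRing.maximalIdeal V).comap
      ((algebraMap B L).codRestrict V.toSubring hB) ≠ ⊥ := by
    intro hbot
    apply hV
    rw [eq_top_iff]
    intro z _
    obtain ⟨a, c, hc, rfl⟩ := IsFractionRing.div_surjective (A := B) z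
    rw [div_eq_mul_inv]
    refine V.mul_mem _ _ (hB a) ?_
    by_contra hcon
    have hc0 : c ∈ (IsLocalRing.maximalIdeal V).comap
        ((algebraMap B L).codRestrict V.toSubring hB) := by
      rw [hmem]
      exact (ValuationSubring.mem_nonunits_iff_or _).mpr (Or.inr hcon)
    rw [hbot, Ideal.mem_bot] at hc0
    exact nonZeroDivisors.ne_zero hc hc0
  refine ⟨⟨_, Ideal.comap_isPrime _ _, hne⟩, hmem, ?_⟩
  rw [← IsDedekindDomain.HeightOneSpectrum.valuationSubringAtPrime_eq_valuationSubring]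
  symm
  refine ValuationSubring.eq_of_le_of_ne_top _ ?_ hV
  rintro z ⟨a, s, hs, rfl⟩
  refine V.mul_mem _ _ (hB a) ?_
  by_contra hcon
  apply hs
  show s ∈ (IsLocalRing.maximalIdeal V).comap
        ((algebraMap B L).codRestrict V.toSubring hB)
  rw [hmem]
  exact (ValuationSubring.mem_nonunits_iff_or _).mpr (Or.inr hcon)

private theorem ad_aff (h : Aff F A) (V : ValuationSubring L) (hV : V ≠ ⊤)
    (hAV : (A : Set L) ⊆ V) :
    ∃ (_ : IsDedekindDomain A) (_ : IsFractionRing A L)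
      (P : IsDedekindDomain.HeightOneSpectrum A),
      (∀ b : A, b ∈ P.asIdeal ↔ (b : L) ∈ V.nonunits) ∧
      V = (P.valuation L).valuationSubring := by
  have h1 := h.ded
  have h2 := ad_frac h
  obtain ⟨P, hP⟩ := ad_core (B := A) V hV fun b => hAV b.2
  exact ⟨h1, h2, P, hP⟩

/-- the place of a maximal ideal -/
private theorem ad_val {A : Subring L} [IsDedekindDomain A] [IsFractionRing A L]
    (P : IsDedekindDomain.HeightOneSpectrum A) : (A : Set L) ⊆ (P.valuation L).valuationSubring ∧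
      (P.valuation L).valuationSubring ≠ ⊤ := by
  refine ⟨fun a ha => (Valuation.mem_valuationSubring_iff _ _).mpr
    (P.valuation_le_one ⟨a, ha⟩), fun htop => ?_⟩
  obtain ⟨π, hπ⟩ := P.valuation_exists_uniformizer L
  have h3 : π⁻¹ ∈ (P.valuation L).valuationSubring := by
    rw [htop]
    trivial
  have h4 := (Valuation.mem_valuationSubring_iff _ _).mp h3
  rw [map_inv₀, hπ, ← WithZero.exp_neg, neg_neg] at h4
  have h5 := WithZero.log_le_log (x := WithZero.exp (1 : ℤ)) WithZero.exp_ne_zero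
    one_ne_zero |>.mpr h4
  rw [WithZero.log_exp, WithZero.log_one] at h5
  omega

/-- the valuation rings which contain `A` are localisations of `A` (as `pr_core` in
`Nc/Pri.lean`) -/
theorem ded_loc (h : Aff F A) (V : ValuationSubring L) (hV : V ≠ ⊤) (hAV : (A : Set L) ⊆ V)
    (v : L) (hv : v ∈ V) : ∃ a ∈ A, ∃ b ∈ A, b ∉ V.nonunits ∧ v * b = a := by
  obtain ⟨_, _, P, h1, h2⟩ := ad_aff h V hV hAV
  have h3 : P.valuation L v ≤ 1 := by
    rw [h2] at hv
    exact (Valuation.mem_valuationSubring_iff _ _).mp hv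
  obtain ⟨n, d, hnd⟩ := P.exists_primeCompl_mul_eq_of_integer v h3
  exact ⟨n, n.2, (d : A), (d : A).2, fun h4 => d.2 ((h1 _).mpr h4), hnd⟩

/-- as `mem_of_places` in `Nc/Pri.lean` -/
theorem ded_mem (h : Aff F A) {x : L} (hx : ∀ V : Place F, (A : Set L) ⊆ V.1 → x ∈ V.1) :
    x ∈ A := by
  have := ad_frac h
  have := h.ded
  have h4 : x ∈ (algebraMap A L).range := by
    refine IsDedekindDomain.HeightOneSpectrum.mem_integers_of_valuation_le_one L x fun P => ?_
    obtain ⟨h1, h2⟩ := ad_val (L := L) P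
    have h3 := hx ⟨_, h2, fun a ha => h1 (h.sub a ha)⟩ h1
    exact (Valuation.mem_valuationSubring_iff _ _).mp h3
  obtain ⟨a, rfl⟩ := h4
  exact a.2

theorem ded_place (h : Aff F A) (M : Ideal A) (hM : M.IsPrime) (h0 : M ≠ ⊥) :
    ∃ V : Place F, (A : Set L) ⊆ V.1 ∧ ∀ a : A, a ∈ M ↔ (a : L) ∈ V.1.nonunits := by
  have := ad_frac h
  have := h.ded
  obtain ⟨P, hP⟩ : ∃ P : IsDedekindDomain.HeightOneSpectrum A, P.asIdeal = M := ⟨⟨M, hM, h0⟩, rfl⟩
  obtain ⟨h1, h2⟩ := ad_val (L := L) P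
  refine ⟨⟨_, h2, fun a ha => h1 (h.sub a ha)⟩, h1, fun a => ?_⟩
  have h3 : (P.valuation L).IsEquiv (P.valuation L).valuationSubring.valuation :=
    Valuation.isEquiv_valuation_valuationSubring _
  rw [← hP, ← P.valuation_lt_one_iff_mem (K := L), ValuationSubring.mem_nonunits_iff]
  exact h3.lt_one_iff_lt_one

theorem ded_inj (h : Aff F A) (V W : ValuationSubring L) (hV : V ≠ ⊤) (hW : W ≠ ⊤)
    (hAV : (A : Set L) ⊆ V) (hAW : (A : Set L) ⊆ W)
    (hVW : ∀ a ∈ A, a ∈ V.nonunits → a ∈ W.nonunits) : V = W := by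
  obtain ⟨_, _, P, h1, h2⟩ := ad_aff h V hV hAV
  obtain ⟨_, _, Q, h3, h4⟩ := ad_aff h W hW hAW
  have h5 : P.asIdeal ≤ Q.asIdeal := fun a ha => (h3 a).mpr (hVW a a.2 ((h1 a).mp ha))
  have h6 : P.asIdeal.IsMaximal := P.isPrime.isMaximal P.ne_bot
  have h7 := h6.eq_of_le Q.isPrime.ne_top h5
  have h8 : P = Q := IsDedekindDomain.HeightOneSpectrum.ext h7
  rw [h2, h4, h8]

/-- the centre of `V` is not zero -/
theorem ded_center (h : Aff F A) (V : ValuationSubring L) (hV : V ≠ ⊤) (hAV : (A : Set L) ⊆ V) :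
    ∃ a ∈ A, a ≠ 0 ∧ a ∈ V.nonunits := by
  obtain ⟨_, _, P, h1, h2⟩ := ad_aff h V hV hAV
  obtain ⟨a, ha, ha0⟩ := Submodule.exists_mem_ne_zero_of_ne_bot P.ne_bot
  exact ⟨a, a.2, fun h3 => ha0 (Subtype.ext h3), (h1 a).mp ha⟩

end Pool.Agent.Lib.MP_1a0ddd_nt.Tf
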