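import Pool.Agent.Lib.MP_1a0ddd_nt.Nc.Sta
import Pool.Agent.Lib.MP_1a0ddd_nt.Nc.Ord
import Pool.Agent.Lib.MP_1a0ddd_nt.Fb.Defs

/-! Prime divisors of open subsets of a family of curves: definitions. -/

set_option autoImplicit false

namespace Pool.Agent.Lib.MP_1a0ddd_nt.Tf

open Pool.Agent.Lib.MP_1a0ddd_nt.Nc Pool.Agent.Lib.MP_1a0ddd_nt.Cf

section field

variable {L : Type} [Field L]

/-- the prime divisors of `Spec B`: the valuation rings `V ≠ L` of `L` which are localisations
of `B` -/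
def Loc1 (B : Subring L) : Type :=
  {V : ValuationSubring L // V ≠ ⊤ ∧ (B : Set L) ⊆ V ∧
    ∀ v ∈ V, ∃ a ∈ B, ∃ b ∈ B, b ∉ V.nonunits ∧ v * b = a}

/-- divisors on `Spec B` modulo divisors of functions -/
abbrev DivCl (B : Subring L) : Type :=
  (Loc1 B →₀ ℤ) ⧸ AddSubgroup.closure {D : Loc1 B →₀ ℤ | ∃ f : L, f ≠ 0 ∧
    ∀ (V : Loc1 B) (ν : L → ℤ), IsOrd V.1 ν → D V = ν f}

/-- the units of `A` -/
def un (A : Subring L) : AddSubgroup (Additive Lˣ) where
  carrier := {u | ((Additive.toMul u : Lˣ) : L) ∈ A ∧ ((Additive.toMul u : Lˣ) : L)⁻¹ ∈ A}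
  add_mem' := by
    rintro a b ⟨h1, h2⟩ ⟨h3, h4⟩
    refine ⟨?_, ?_⟩
    · rw [toMul_add, Units.val_mul]
      exact A.mul_mem h1 h3
    · rw [toMul_add, Units.val_mul, mul_inv]
      exact A.mul_mem h2 h4
  zero_mem' := by
    refine ⟨?_, ?_⟩
    · rw [toMul_zero, Units.val_one]
      exact A.one_mem
    · rw [toMul_zero, Units.val_one, inv_one]
      exact A.one_mem
  neg_mem' := by
    rintro a ⟨h1, h2⟩
    refine ⟨?_, ?_⟩
    · rw [toMul_neg, Units.val_inv_eq_inv_val]
      exact h2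
    · rw [toMul_neg, Units.val_inv_eq_inv_val, inv_inv]
      exact h1

theorem mem_un {A : Subring L} {u : Additive Lˣ} :
    u ∈ un A ↔ ((Additive.toMul u : Lˣ) : L) ∈ A ∧ ((Additive.toMul u : Lˣ) : L)⁻¹ ∈ A := Iff.rfl

/-- the units of `A` modulo those of `K` -/
abbrev UM (K A : Subring L) : Type := (un A) ⧸ (un K).addSubgroupOf (un A)

/-- `F` is the fraction field of the factorial subring `P` of `B`, the primes of `P` are primes of
`B`, and they generate in `B` ideals which contract to those which they generate in `P` -/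
structure Vert (F : Subfield L) (P B : Subring L) : Prop where
  le : P ≤ B
  sub : ∀ x ∈ P, x ∈ F
  frac : ∀ x ∈ F, ∃ a ∈ P, ∃ b ∈ P, b ≠ 0 ∧ x * b = a
  ufd : UniqueFactorizationMonoid P
  irr : Fb.IrrOver (Subring.inclusion le) 1

/-- `B = O[1/h]` -/
structure Away (O B : Subring L) (h : L) : Prop where
  mem : h ∈ O
  ne : h ≠ 0
  le : O ≤ B
  inv : h⁻¹ ∈ B
  surj : ∀ x ∈ B, ∃ n : ℕ, x * h ^ n ∈ O

/-- `A = F B`, and `F` is the fraction field of `P` -/
structure GenF (F : Subfield L) (P B A : Subring L) : Prop where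
  le : B ≤ A
  sub : ∀ x ∈ F, x ∈ A
  surj : ∀ x ∈ A, ∃ t ∈ P, t ≠ 0 ∧ x * t ∈ B

/-- `A` is the coordinate ring of an affine regular curve over `F` with function field `L` -/
structure Aff (F : Subfield L) (A : Subring L) : Prop where
  sub : ∀ x ∈ F, x ∈ A
  ded : IsDedekindDomain A
  frac : ∀ x : L, ∃ a ∈ A, ∃ b ∈ A, b ≠ 0 ∧ x * b = a

/-- `L` is a function field of one variable over `F`, and `F` is algebraically closed in `L` -/
structure FF1 (F : Subfield L) : Prop where
  tr : Algebra.trdeg F L = 1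
  fg : ∃ s : Set L, s.Finite ∧ Subfield.closure ((F : Set L) ∪ s) = ⊤
  closed : RelClosed F

end field

section ring

variable {R S L : Type} [CommRing R] [CommRing S] [Field L] [Algebra R S] [Algebra R L]

/-- the coordinate ring of the open subset `g ≠ 0` of `Spec S`, over the fraction field of `R` -/
def gring (j : S →ₐ[R] L) (g : S) : Subring L :=
  coordRing (fieldOf (algebraMap R L)) (j : S →+* L) g

end ring

end Pool.Agent.Lib.MP_1a0ddd_nt.Tf
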