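import Mathlib

/-! The comparison of two divisor class groups. -/

set_option autoImplicit false

namespace Pool.Agent.Lib.MP_1a0ddd_nt.Tf

section grp

variable {Γ X Z : Type} [AddCommGroup Γ]

/-- the part of a divisor outside of `Q`, as a divisor on `Z` -/
private noncomputable def bt (Q : Set X) (e : {x : X // x ∉ Q} → Z) : (X →₀ ℤ) →+ (Z →₀ ℤ) :=
  (Finsupp.mapDomain.addMonoidHom e).comp (Finsupp.subtypeDomainAddMonoidHom (p := fun x => x ∉ Q))

private theorem bt_apply {Q : Set X} {e : {x : X // x ∉ Q} → Z} (he : Function.Injective e)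
    (D : X →₀ ℤ) (y : {x : X // x ∉ Q}) : bt Q e D (e y) = D y :=
  Finsupp.mapDomain_apply he _ _

private theorem off_mem (dZ : Γ →+ (Z →₀ ℤ)) {Y : Type} (e : Y → Z)
    (hz : ∀ z : Z, (∀ y, e y ≠ z) → ∃ f : Γ, dZ f = Finsupp.single z 1) (E : Z →₀ ℤ)
    (hE : ∀ y, E (e y) = 0) : E ∈ dZ.range := by
  classical
  rw [← Finsupp.sum_single E, Finsupp.sum]
  refine sum_mem fun z hzE => ?_
  obtain ⟨f, hf⟩ := hz z (by
    rintro y rfl
    exact Finsupp.mem_support_iff.1 hzE (hE y))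
  refine ⟨E z • f, ?_⟩
  rw [map_zsmul, hf, Finsupp.smul_single, smul_eq_mul, mul_one]

private theorem alpha_surj (dZ : Γ →+ (Z →₀ ℤ)) (Q : Set X) (e : {x : X // x ∉ Q} → Z)
    (he : Function.Injective e)
    (hz : ∀ z : Z, (∀ y, e y ≠ z) → ∃ f : Γ, dZ f = Finsupp.single z 1) :
    Function.Surjective ((QuotientAddGroup.mk' dZ.range).comp (bt Q e)) := by
  classical
  intro q
  obtain ⟨E, rfl⟩ := QuotientAddGroup.mk'_surjective dZ.range q
  let D0 : {x : X // x ∉ Q} →₀ ℤ := E.comapDomain e he.injOn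
  let D : X →₀ ℤ := D0.mapDomain Subtype.val
  have hD : ∀ y : {x : X // x ∉ Q}, D y = E (e y) := fun y => by
    change Finsupp.mapDomain Subtype.val D0 (Subtype.val y) = _
    rw [Finsupp.mapDomain_apply Subtype.val_injective]
    rfl
  refine ⟨D, ?_⟩
  rw [AddMonoidHom.comp_apply, QuotientAddGroup.mk'_apply, QuotientAddGroup.mk'_apply,
    QuotientAddGroup.eq]
  apply off_mem dZ e hz
  intro y
  rw [Finsupp.add_apply, Finsupp.neg_apply, bt_apply he, hD]
  ring

private theorem alpha_ker (dX : Γ →+ (X →₀ ℤ)) (dZ : Γ →+ (Z →₀ ℤ))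
    (Q : Set X) (e : {x : X // x ∉ Q} → Z) (he : Function.Injective e)
    (hd : ∀ (f : Γ) (y : {x : X // x ∉ Q}), dZ f (e y) = dX f y)
    (hz : ∀ z : Z, (∀ y, e y ≠ z) → ∃ f : Γ, dZ f = Finsupp.single z 1) :
    ((QuotientAddGroup.mk' dZ.range).comp (bt Q e)).ker =
      dX.range ⊔ (Finsupp.supported ℤ ℤ Q).toAddSubgroup := by
  have hSQ : ∀ D : X →₀ ℤ, D ∈ (Finsupp.supported ℤ ℤ Q).toAddSubgroup ↔ ∀ x ∉ Q, D x = 0 := by
    intro D
    rw [Submodule.mem_toAddSubgroup, Finsupp.mem_supported']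
  apply le_antisymm
  · intro D hD
    rw [AddMonoidHom.mem_ker, AddMonoidHom.comp_apply, QuotientAddGroup.mk'_apply,
      QuotientAddGroup.eq_zero_iff] at hD
    obtain ⟨f, hf⟩ := hD
    have h1 : D - dX f ∈ (Finsupp.supported ℤ ℤ Q).toAddSubgroup := by
      rw [hSQ]
      intro x hx
      have h2 := hd f ⟨x, hx⟩
      rw [hf, bt_apply he] at h2
      rw [Finsupp.sub_apply]
      change D x = dX f x at h2
      rw [h2, sub_self]
    have h3 := AddSubgroup.add_mem_sup (show dX f ∈ dX.range from ⟨f, rfl⟩) h1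
    rwa [add_sub_cancel] at h3
  · rw [sup_le_iff]
    constructor
    · rintro _ ⟨f, rfl⟩
      rw [AddMonoidHom.mem_ker, AddMonoidHom.comp_apply, QuotientAddGroup.mk'_apply,
        QuotientAddGroup.eq_zero_iff]
      have h1 : bt Q e (dX f) - dZ f ∈ dZ.range := by
        apply off_mem dZ e hz
        intro y
        rw [Finsupp.sub_apply, bt_apply he, hd, sub_self]
      have h2 := dZ.range.add_mem h1 (show dZ f ∈ dZ.range from ⟨f, rfl⟩)
      rwa [sub_add_cancel] at h2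
    · intro D hD
      rw [hSQ] at hD
      have h1 : Finsupp.subtypeDomainAddMonoidHom (p := fun x => x ∉ Q) D = 0 := by
        ext y
        exact hD y y.2
      rw [AddMonoidHom.mem_ker, AddMonoidHom.comp_apply, bt, AddMonoidHom.comp_apply, h1, map_zero,
        map_zero]

private theorem rk_part (dX : Γ →+ (X →₀ ℤ)) (Q : Set X) (hQ : Q.Finite) (U : AddSubgroup Γ)
    (hU : ∀ f : Γ, f ∈ U ↔ ∀ x ∉ Q, dX f x = 0) (H : AddSubgroup ((X →₀ ℤ) ⧸ dX.range))
    (hH : H = (Finsupp.supported ℤ ℤ Q).toAddSubgroup.map (QuotientAddGroup.mk' dX.range)) :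
    H.FG ∧ Module.Finite ℤ (U ⧸ dX.ker.addSubgroupOf U) ∧
      Module.finrank ℤ H + Module.finrank ℤ (U ⧸ dX.ker.addSubgroupOf U) = Q.ncard := by
  classical
  have hfin : Finite Q := hQ
  set SQ := Finsupp.supported ℤ ℤ Q with hSQdef
  have hSQ : ∀ D : X →₀ ℤ, D ∈ SQ ↔ ∀ x ∉ Q, D x = 0 := fun D => Finsupp.mem_supported' ..
  have hfree : Module.Finite ℤ SQ :=
    Module.Finite.equiv (Finsupp.supportedEquivFinsupp Q).symm
  have hrk : Module.finrank ℤ SQ = Q.ncard := by
    have := Fintype.ofFinite Q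
    rw [(Finsupp.supportedEquivFinsupp (M := ℤ) (R := ℤ) Q).finrank_eq, Module.finrank_finsupp_self,
      Set.ncard_eq_toFinset_card', Set.toFinset_card]
  let φ : SQ →ₗ[ℤ] ((X →₀ ℤ) ⧸ dX.range) :=
    ((QuotientAddGroup.mk' dX.range).toIntLinearMap).comp SQ.subtype
  have hφ : ∀ D : SQ, φ D = QuotientAddGroup.mk' dX.range D.1 := fun D => rfl
  have hHr : H = φ.range.toAddSubgroup := by
    rw [hH]
    ext q
    rw [AddSubgroup.mem_map, Submodule.mem_toAddSubgroup, LinearMap.mem_range]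
    constructor
    · rintro ⟨D, hD, rfl⟩
      exact ⟨⟨D, hD⟩, rfl⟩
    · rintro ⟨D, rfl⟩
      exact ⟨D.1, D.2, rfl⟩
  have hFG : φ.range.FG := by
    rw [LinearMap.range_eq_map]
    exact Submodule.FG.map φ (Module.finite_def.1 hfree)
  -- the kernel
  let ψ : U →+ φ.ker :=
    { toFun := fun f => ⟨⟨dX f, (hSQ _).2 ((hU f).1 f.2)⟩, by
        rw [LinearMap.mem_ker, hφ, QuotientAddGroup.mk'_apply, QuotientAddGroup.eq_zero_iff]
        exact ⟨f, rfl⟩⟩
      map_zero' := by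
        apply Subtype.ext
        apply Subtype.ext
        exact map_zero dX
      map_add' := fun a b => by
        apply Subtype.ext
        apply Subtype.ext
        exact map_add dX _ _ }
  have hψs : Function.Surjective ψ := by
    rintro ⟨⟨D, hD⟩, hD2⟩
    rw [LinearMap.mem_ker, hφ, QuotientAddGroup.mk'_apply, QuotientAddGroup.eq_zero_iff] at hD2
    obtain ⟨f, hf⟩ := hD2
    have hfU : f ∈ U := by
      rw [hU]
      intro x hx
      rw [hf]
      exact (hSQ D).1 hD x hx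
    refine ⟨⟨f, hfU⟩, ?_⟩
    apply Subtype.ext
    apply Subtype.ext
    exact hf
  have hψk : ψ.ker = dX.ker.addSubgroupOf U := by
    ext f
    rw [AddMonoidHom.mem_ker, AddSubgroup.mem_addSubgroupOf, AddMonoidHom.mem_ker]
    constructor
    · intro h
      exact congrArg (fun t : φ.ker => ((t : SQ) : X →₀ ℤ)) h
    · intro h
      apply Subtype.ext
      apply Subtype.ext
      exact h
  let E : (U ⧸ dX.ker.addSubgroupOf U) ≃+ φ.ker :=
    (QuotientAddGroup.quotientAddEquivOfEq hψk.symm).trans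
      (QuotientAddGroup.quotientKerEquivOfSurjective ψ hψs)
  have hkfin : Module.Finite ℤ φ.ker := inferInstance
  refine ⟨?_, ?_, ?_⟩
  · rw [hHr]
    exact (Submodule.fg_iff_addSubgroup_fg _).1 hFG
  · exact Module.Finite.equiv E.symm.toIntLinearEquiv
  · have h1 : Module.finrank ℤ (U ⧸ dX.ker.addSubgroupOf U) = Module.finrank ℤ φ.ker :=
      E.toIntLinearEquiv.finrank_eq
    have h2 : Module.finrank ℤ H = Module.finrank ℤ φ.range := by
      have hmem : ∀ x, x ∈ H ↔ x ∈ φ.range := by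
        intro x
        rw [hHr]
        exact Iff.rfl
      let E2 : H ≃+ φ.range :=
        { toFun := fun x => ⟨x.1, (hmem _).1 x.2⟩
          invFun := fun x => ⟨x.1, (hmem _).2 x.2⟩
          left_inv := fun x => rfl
          right_inv := fun x => rfl
          map_add' := fun x y => rfl }
      exact E2.toIntLinearEquiv.finrank_eq
    have h3 := Submodule.finrank_quotient_add_finrank φ.ker
    rw [h1, h2, ← hrk, ← h3, φ.quotKerEquivRange.finrank_eq]

end grp

/-- Proof. Let `α : (X →₀ ℤ) → (Z →₀ ℤ) / range dZ` be `x ↦ [e x]` for `x ∉ Q`, `x ↦ 0` for `x ∈ Q`. It is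
surjective by `hz`. Its kernel is `range dX + ⟨Q⟩`: `α (dX f) = dZ f - (a divisor on the complement of
the range of e)`, which is in `range dZ` by `hz`; if `α D = 0` then the restriction of `D` to the
complement of `Q` is that of `dZ f` (on the range of `e`) for some `f`, so `D - dX f` is in `⟨Q⟩`. Let
`H` be the image of `⟨Q⟩` in `(X →₀ ℤ) / range dX`. The kernel of `⟨Q⟩ → H` is `dX U`, and
`dX U = U / ker dX`; compare `Nc/Grp.lean` for the ranks -/
theorem grp_iso {Γ X Z : Type} [AddCommGroup Γ] (dX : Γ →+ (X →₀ ℤ)) (dZ : Γ →+ (Z →₀ ℤ))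
    (Q : Set X) (hQ : Q.Finite) (e : {x : X // x ∉ Q} → Z) (he : Function.Injective e)
    (hd : ∀ (f : Γ) (y : {x : X // x ∉ Q}), dZ f (e y) = dX f y)
    (hz : ∀ z : Z, (∀ y, e y ≠ z) → ∃ f : Γ, dZ f = Finsupp.single z 1) (U : AddSubgroup Γ)
    (hU : ∀ f : Γ, f ∈ U ↔ ∀ x ∉ Q, dX f x = 0) :
    ∃ H : AddSubgroup ((X →₀ ℤ) ⧸ dX.range), H.FG ∧
      Nonempty ((((X →₀ ℤ) ⧸ dX.range) ⧸ H) ≃+ ((Z →₀ ℤ) ⧸ dZ.range)) ∧
      Module.Finite ℤ (U ⧸ dX.ker.addSubgroupOf U) ∧
      Module.finrank ℤ H + Module.finrank ℤ (U ⧸ dX.ker.addSubgroupOf U) = Q.ncard := by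
  set SQ := (Finsupp.supported ℤ ℤ Q).toAddSubgroup with hSQ
  have hmap : (dX.range ⊔ SQ).map (QuotientAddGroup.mk' dX.range) =
      SQ.map (QuotientAddGroup.mk' dX.range) := by
    rw [AddSubgroup.map_sup, sup_eq_right]
    have : dX.range.map (QuotientAddGroup.mk' dX.range) = ⊥ := by
      rw [AddSubgroup.map_eq_bot_iff, QuotientAddGroup.ker_mk']
    rw [this]
    exact bot_le
  obtain ⟨h1, h2, h3⟩ := rk_part dX Q hQ U hU
    ((dX.range ⊔ SQ).map (QuotientAddGroup.mk' dX.range)) hmap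
  refine ⟨(dX.range ⊔ SQ).map (QuotientAddGroup.mk' dX.range), h1, ⟨?_⟩, h2, h3⟩
  exact (QuotientAddGroup.quotientQuotientEquivQuotient dX.range (dX.range ⊔ SQ) le_sup_left).trans
    ((QuotientAddGroup.quotientAddEquivOfEq (alpha_ker dX dZ Q e he hd hz).symm).trans
      (QuotientAddGroup.quotientKerEquivOfSurjective _ (alpha_surj dZ Q e he hz)))

end Pool.Agent.Lib.MP_1a0ddd_nt.Tf
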