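import Pool.Agent.Lib.MP_1a0ddd_nt.Tf.ADefs
import Pool.Agent.Lib.MP_1a0ddd_nt.Nc.Plx
import Pool.Agent.Lib.MP_1a0ddd_nt.Un.TrZ
import Pool.Agent.Lib.MP_1a0ddd_nt.LW.Main

/-! Models of the residue fields: numbers of points. -/

set_option autoImplicit false

namespace Pool.Agent.Lib.MP_1a0ddd_nt.Tf

open Polynomial Pool.Agent.Lib.MP_1a0ddd_nt.Nc Pool.Agent.Lib.MP_1a0ddd_nt.Cf

variable {T L : Type} [CommRing T] [Field L] {θ : T →+* L}

theorem mem_fieldOf (t : T) : θ t ∈ fieldOf θ := Subfield.subset_closure ⟨t, rfl⟩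

/-- `fieldOf θ` consists of the quotients of elements of `T` -/
theorem fieldOf_quot [Nontrivial T] (hθ : Function.Injective θ) {y : L} (hy : y ∈ fieldOf θ) :
    ∃ a b : T, b ≠ 0 ∧ y * θ b = θ a := by
  rw [fieldOf, Subfield.mem_closure_iff] at hy
  obtain ⟨u, hu, w, hw, rfl⟩ := hy
  have e : Subring.closure (Set.range θ) = θ.range := by
    rw [← RingHom.coe_range, Subring.closure_eq]
  rw [e] at hu hw
  obtain ⟨a, rfl⟩ := hu
  obtain ⟨b, rfl⟩ := hw
  by_cases hb : b = 0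
  · refine ⟨0, 1, one_ne_zero, ?_⟩
    rw [hb, map_zero, div_zero, zero_mul]
  · refine ⟨a, b, hb, ?_⟩
    rw [div_mul_cancel₀]
    exact (map_ne_zero_iff _ hθ).2 hb

/-- the map from `T` to a valuation ring -/
private theorem toV (V : Place (fieldOf θ)) : ∃ j : T →+* V.1, ∀ t, (j t : L) = θ t :=
  ⟨θ.codRestrict V.1 fun t => V.2.2 (mem_fieldOf t), fun _ => rfl⟩

private theorem toV_unit (hθ : Function.Injective θ) {V : Place (fieldOf θ)} {j : T →+* V.1}
    (hj : ∀ t, (j t : L) = θ t) {t : T} (ht : t ≠ 0) : IsUnit (j t) := by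
  have h0 : θ t ≠ 0 := (map_ne_zero_iff _ hθ).2 ht
  have h1 : (θ t)⁻¹ ∈ V.1 := V.2.2 ((fieldOf θ).inv_mem (mem_fieldOf t))
  refine IsUnit.of_mul_eq_one ⟨_, h1⟩ (Subtype.ext ?_)
  show (j t : L) * (θ t)⁻¹ = 1
  rw [hj, mul_inv_cancel₀ h0]

/-- clearing of denominators -/
private theorem clear [IsDomain T] (hθ : Function.Injective θ) (P : (fieldOf θ)[X]) :
    ∃ (b : T) (Q : T[X]), b ≠ 0 ∧
      Q.map θ = C (θ b) * P.map (fieldOf θ).subtype := by
  induction P using Polynomial.induction_on' with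
  | add p q hp hq =>
    obtain ⟨b, Q, hb, h1⟩ := hp
    obtain ⟨b', Q', hb', h2⟩ := hq
    refine ⟨b * b', C b' * Q + C b * Q', mul_ne_zero hb hb', ?_⟩
    rw [Polynomial.map_add, Polynomial.map_mul, Polynomial.map_mul, h1, h2, Polynomial.map_C,
      Polynomial.map_C, Polynomial.map_add, map_mul, C_mul]
    ring
  | monomial n a =>
    obtain ⟨c, b, hb, h1⟩ := fieldOf_quot hθ a.2
    refine ⟨b, monomial n c, hb, ?_⟩
    rw [Polynomial.map_monomial, Polynomial.map_monomial, C_mul_monomial, ← h1, mul_comm]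
    rfl

/-- as `resModel_alg` in `Nc/Res.lean` -/
theorem model_alg [IsDomain T] [CharZero L] {A : Type} [CommRing A] (hθ : Function.Injective θ)
    (htr : Algebra.trdeg (fieldOf θ) L = 1) {V : Place (fieldOf θ)} {ψ : T →+* A}
    (h : Model θ V ψ) : IsDomain A ∧ Function.Injective ψ ∧
      ∀ x : A, ∃ P : T[X], P ≠ 0 ∧ P.eval₂ ψ x = 0 := by
  obtain ⟨κ, _, r, ι, hr, i1, i2, -⟩ := h.res
  obtain ⟨j, hj⟩ := toV V
  have i3 : ∀ t, ι (ψ t) = r (j t) := fun t => i2 t (j t) (hj t)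
  refine ⟨i1.isDomain ι, ?_, fun x => ?_⟩
  · rw [injective_iff_map_eq_zero]
    intro t ht
    by_contra h0
    refine ((toV_unit hθ hj h0).map r).ne_zero ?_
    rw [← i3, ht, map_zero]
  · obtain ⟨v, hv⟩ := hr (ι x)
    obtain ⟨P, hP, hw⟩ := place_residue htr V v
    obtain ⟨b, Q, hb, hQ⟩ := clear hθ P
    have hb0 : θ b ≠ 0 := (map_ne_zero_iff _ hθ).2 hb
    have hker : ∀ w : V.1, IsLocalRing.residue V.1 w = 0 → r w = 0 := by
      intro w h1
      have h2 : RingHom.ker r = IsLocalRing.maximalIdeal V.1 :=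
        IsLocalRing.eq_maximalIdeal (RingHom.ker_isMaximal_of_surjective r hr)
      rw [← RingHom.mem_ker, h2]
      exact (IsLocalRing.residue_eq_zero_iff w).1 h1
    refine ⟨Q, ?_, i1 ?_⟩
    · rintro rfl
      rw [Polynomial.map_zero] at hQ
      have h1 := hQ.symm
      rw [mul_eq_zero] at h1
      rcases h1 with h1 | h1
      · exact hb0 (C_eq_zero.1 h1)
      · exact hP ((Polynomial.map_eq_zero _).1 h1)
    · rw [map_zero, Polynomial.hom_eval₂, ← hv]
      have e1 : ι.comp ψ = r.comp j := RingHom.ext fun t => i3 t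
      rw [e1, ← Polynomial.hom_eval₂]
      have hPv : ∀ R : (fieldOf θ)[X], R.eval₂ (fieldOf θ).subtype (v : L) ∈ V.1 := by
        intro R
        rw [Polynomial.eval₂_eq_sum_range]
        exact sum_mem fun i _ => mul_mem (V.2.2 (R.coeff i).2) (pow_mem v.2 i)
      have h1 := hker _ (hw ⟨_, hPv P⟩ rfl)
      have e2 : Q.eval₂ j v = j b * ⟨_, hPv P⟩ := by
        refine Subtype.ext ?_
        have e3 : ((Q.eval₂ j v : V.1) : L) = Q.eval₂ θ (v : L) := by
          have e4 := Polynomial.hom_eval₂ Q j V.1.subtype v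
          have e5 : V.1.subtype.comp j = θ := RingHom.ext fun t => hj t
          rw [e5] at e4
          exact e4
        rw [e3]
        show _ = (j b : L) * P.eval₂ (fieldOf θ).subtype (v : L)
        rw [hj, ← Polynomial.eval_map, hQ, Polynomial.eval_mul, Polynomial.eval_C,
          Polynomial.eval_map]
      rw [e2, map_mul, h1, mul_zero]

/-- what is used about the models -/
theorem model_data [IsDomain T] [CharZero T] [CharZero L] {A : Type} [CommRing A] {N : ℕ}
    (hT : Algebra.FiniteType ℤ T) (hN : Algebra.trdeg ℤ T = (N : Cardinal))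
    (hθ : Function.Injective θ) (htr : Algebra.trdeg (fieldOf θ) L = 1)
    {V : Place (fieldOf θ)} {ψ : T →+* A} (h : Model θ V ψ) :
    IsDomain A ∧ CharZero A ∧ Function.Injective ψ ∧ Algebra.FiniteType ℤ A ∧
      Algebra.trdeg ℤ A = (N : Cardinal) := by
  obtain ⟨h1, h2, h3⟩ := model_alg hθ htr h
  have hz : CharZero A := charZero_of_injective_ringHom h2
  refine ⟨h1, hz, h2, ?_, ?_⟩
  · have h4 := h.fin
    let _ : Algebra T A := ψ.toAlgebra
    have h5 : Algebra.FiniteType T A := h4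
    exact Algebra.FiniteType.trans (S := T) hT h5
  · rw [Un.trdeg_alg ψ h2 h3, hN]

/-- `langWeil` for the models -/
theorem model_mean [IsDomain T] [CharZero T] [CharZero L] {A : Type} [CommRing A] {N : ℕ}
    (hT : Algebra.FiniteType ℤ T) (hN : Algebra.trdeg ℤ T = (N : Cardinal))
    (hθ : Function.Injective θ) (htr : Algebra.trdeg (fieldOf θ) L = 1)
    {V : Place (fieldOf θ)} {ψ : T →+* A} (h : Model θ V ψ) {b : T} (hb : b ≠ 0) :
    Quad.TauMean (fun p : ℕ => (Nat.card {ρ : A →+* ZMod p // ρ (ψ b) ≠ 0} : ℝ) /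
      (p : ℝ) ^ N) 1 := by
  obtain ⟨h1, h2, h3, h4, h5⟩ := model_data hT hN hθ htr h
  exact LW.langWeil A N h5 (ψ b) ((map_ne_zero_iff _ h3).2 hb)

end Pool.Agent.Lib.MP_1a0ddd_nt.Tf
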