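import Pool.Agent.Lib.MP_1a0ddd_nt.Tf.ADefs
import Pool.Agent.Lib.MP_1a0ddd_nt.Nc.Loc

/-! Open subsets with regular generic fibre. -/

set_option autoImplicit false

namespace Pool.Agent.Lib.MP_1a0ddd_nt.Tf

open Pool.Agent.Lib.MP_1a0ddd_nt.Nc Pool.Agent.Lib.MP_1a0ddd_nt.Cf

variable {R T S L : Type} [CommRing R] [IsDomain R] [CommRing T] [CommRing S] [Field L]
  [Algebra R T] [Algebra R S] [Algebra R L]

/-- `F` and `S` generate a ring which is finitely generated over `F` -/
theorem coord_fg (hS : Algebra.FiniteType R S) (φ : T →ₐ[R] S) (j : S →ₐ[R] L) (g : S) :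
    ∃ s : Set L, s.Finite ∧
      coordRing (fieldOf ((j : S →+* L).comp (φ : T →+* S))) (j : S →+* L) g =
        Subring.closure ((fieldOf ((j : S →+* L).comp (φ : T →+* S)) : Set L) ∪ s) := by
  obtain ⟨G, hG⟩ := hS.out
  refine ⟨(j : S → L) '' (G : Set S) ∪ {(j g)⁻¹},
    (G.finite_toSet.image _).union (Set.finite_singleton _), ?_⟩
  apply le_antisymm
  · rw [coordRing, Subring.closure_le]
    rintro x ((hx | ⟨y, rfl⟩) | hx)
    · exact Subring.subset_closure (Or.inl hx)
    · have hy : y ∈ Algebra.adjoin R (G : Set S) := by rw [hG]; trivial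
      induction hy using Algebra.adjoin_induction with
      | mem x hx => exact Subring.subset_closure (Or.inr (Or.inl ⟨x, hx, rfl⟩))
      | algebraMap r =>
        refine Subring.subset_closure (Or.inl (Subfield.subset_closure ?_))
        refine ⟨algebraMap R T r, ?_⟩
        change j (φ (algebraMap R T r)) = j (algebraMap R S r)
        rw [φ.commutes]
      | add x y _ _ hx hy => rw [map_add]; exact Subring.add_mem _ hx hy
      | mul x y _ _ hx hy => rw [map_mul]; exact Subring.mul_mem _ hx hy
    · exact Subring.subset_closure (Or.inr (Or.inr hx))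
  · rw [coordRing, Subring.closure_le]
    rintro x (hx | (⟨y, -, rfl⟩ | hx))
    · exact Subring.subset_closure (Or.inl (Or.inl hx))
    · exact Subring.subset_closure (Or.inl (Or.inr ⟨y, rfl⟩))
    · exact Subring.subset_closure (Or.inr hx)

private theorem exists_ded {F : Subfield L} [CharZero L] (htr : Algebra.trdeg F L = 1)
    (hfg : ∃ s : Set L, s.Finite ∧ Subfield.closure ((F : Set L) ∪ s) = ⊤) :
    ∃ B : Subalgebra F L, IsDedekindDomain B ∧ Algebra.FiniteType F B ∧
      ∀ z : L, ∃ x y : B, y ≠ 0 ∧ z * B.val y = B.val x := by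
  have htra : Algebra.Transcendental F L := by
    rw [← trdeg_ne_zero_iff, htr]
    exact one_ne_zero
  obtain ⟨x, hx⟩ := htra.transcendental
  let : Algebra (Polynomial F) L := (Polynomial.aeval (R := F) x).toRingHom.toAlgebra
  have hal : ∀ p : Polynomial F, algebraMap (Polynomial F) L p = Polynomial.aeval x p :=
    fun p => rfl
  have : IsScalarTower F (Polynomial F) L := IsScalarTower.of_algebraMap_eq fun a => by
    rw [hal, Polynomial.algebraMap_eq, Polynomial.aeval_C]
  have hinj : Function.Injective (algebraMap (Polynomial F) L) :=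
    transcendental_iff_injective.mp hx
  have : FaithfulSMul (Polynomial F) L := (faithfulSMul_iff_algebraMap_injective _ _).mpr hinj
  have halg : Algebra.IsAlgebraic (Polynomial F) L := by
    rw [← trdeg_eq_zero_iff]
    have h1 := trdeg_add_eq F (Polynomial F) (A := L)
    rw [Polynomial.trdeg_of_isDomain, htr] at h1
    refine Cardinal.eq_of_add_eq_add_left (a := 1) ?_ Cardinal.one_lt_aleph0
    rw [h1, add_zero]
  let : Algebra (FractionRing (Polynomial F)) L := FractionRing.liftAlgebra (Polynomial F) L
  have : IsScalarTower (Polynomial F) (FractionRing (Polynomial F)) L :=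
    FractionRing.isScalarTower_liftAlgebra _ _
  have : Algebra.IsAlgebraic (FractionRing (Polynomial F)) L :=
    (IsFractionRing.comap_isAlgebraic_iff (A := Polynomial F)).mp halg
  have : FiniteDimensional (FractionRing (Polynomial F)) L := by
    obtain ⟨s, hs, hcl⟩ := hfg
    have : Finite s := hs
    have hfd := IntermediateField.finiteDimensional_adjoin (K := FractionRing (Polynomial F))
      (S := s) (fun y _ => (Algebra.IsAlgebraic.isAlgebraic y).isIntegral)
    have htop : IntermediateField.adjoin (FractionRing (Polynomial F)) s = ⊤ := by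
      rw [eq_top_iff]
      intro y _
      have hy : y ∈ Subfield.closure ((F : Set L) ∪ s) := by rw [hcl]; trivial
      have hle : Subfield.closure ((F : Set L) ∪ s) ≤
          (IntermediateField.adjoin (FractionRing (Polynomial F)) s).toSubfield := by
        rw [Subfield.closure_le]
        apply Set.union_subset
        · intro a ha
          have h2 : a = algebraMap (FractionRing (Polynomial F)) L
              (algebraMap (Polynomial F) (FractionRing (Polynomial F))
                (Polynomial.C ⟨a, ha⟩)) := by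
            rw [← IsScalarTower.algebraMap_apply, hal, Polynomial.aeval_C]
            rfl
          rw [h2]
          exact IntermediateField.algebraMap_mem _ _
        · exact IntermediateField.subset_adjoin _ _
      exact hle hy
    rw [htop] at hfd
    exact Module.Finite.equiv (IntermediateField.topEquiv
      (F := FractionRing (Polynomial F)) (E := L)).toLinearEquiv
  have : CharZero (FractionRing (Polynomial F)) :=
    (algebraMap (FractionRing (Polynomial F)) L).charZero
  have hded : IsDedekindDomain (integralClosure (Polynomial F) L) :=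
    integralClosure.isDedekindDomain (Polynomial F) (FractionRing (Polynomial F)) L
  have hfr : IsFractionRing (integralClosure (Polynomial F) L) L :=
    integralClosure.isFractionRing_of_finite_extension (FractionRing (Polynomial F)) L
  have hfin : Module.Finite (Polynomial F) (integralClosure (Polynomial F) L) :=
    IsIntegralClosure.finite (Polynomial F) (FractionRing (Polynomial F)) L
      (integralClosure (Polynomial F) L)
  refine ⟨(integralClosure (Polynomial F) L).restrictScalars F, hded, ?_, ?_⟩
  · have h1 : Algebra.FiniteType (Polynomial F) (integralClosure (Polynomial F) L) :=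
      inferInstance
    have h2 : Algebra.FiniteType F (integralClosure (Polynomial F) L) :=
      Algebra.FiniteType.trans (S := Polynomial F) inferInstance h1
    exact h2
  · intro z
    obtain ⟨a, c, hc, h⟩ := IsFractionRing.div_surjective
      (A := integralClosure (Polynomial F) L) z
    have hc0 : (c : L) ≠ 0 := by
      intro h0
      exact nonZeroDivisors.ne_zero hc (Subtype.ext h0)
    refine ⟨⟨a, a.2⟩, ⟨c, c.2⟩, fun h0 => hc0 (congrArg Subtype.val h0), ?_⟩
    change z * (c : L) = (a : L)
    rw [← h]
    exact div_mul_cancel₀ _ hc0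

/-- Proof: let `x ∈ L` be transcendental over `F`, `D` the integral closure of `F[x]` in `L`, a
Dedekind domain which is finitely generated over `F` (`exists_ded` in `Nc/Ord.lean`). `F j(S)` and `D`
are finitely generated over `F` with fraction field `L`, so by `loc_birat` (over `F`) there is `a ≠ 0` in
`F j(S)` such that the localisations of `F j(S)` at the multiples of `a` are localisations of `D`;
take `a = j δ` -/
theorem exists_delta [CharZero L] (hS : Algebra.FiniteType R S) (φ : T →ₐ[R] S) (j : S →ₐ[R] L)
    (hφ : Function.Injective φ) (hj : Function.Injective j)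
    (hfr : ∀ z : L, ∃ x y : S, y ≠ 0 ∧ z * j y = j x)
    (hF : FF1 (fieldOf ((j : S →+* L).comp (φ : T →+* S)))) :
    ∃ δ : S, δ ≠ 0 ∧ ∀ g : S, g ≠ 0 → δ ∣ g →
      Aff (fieldOf ((j : S →+* L).comp (φ : T →+* S)))
        (coordRing (fieldOf ((j : S →+* L).comp (φ : T →+* S))) (j : S →+* L) g) := by
  obtain ⟨θ, hθ⟩ : ∃ θ : T →+* L, θ = (j : S →+* L).comp (φ : T →+* S) := ⟨_, rfl⟩
  rw [← hθ] at hF ⊢
  obtain ⟨B, hB1, hB2, hB3⟩ := exists_ded hF.tr hF.fg
  have hθj : ∀ t, θ t = j (φ t) := fun t => by rw [hθ]; rfl
  have hRF : ∀ r : R, algebraMap R L r ∈ fieldOf θ := by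
    intro r
    refine Subfield.subset_closure ⟨algebraMap R T r, ?_⟩
    rw [hθj, φ.commutes, j.commutes]
  -- the ring generated by `F` and `S`
  obtain ⟨A, hA⟩ : ∃ A : Subalgebra (fieldOf θ) L, A = Algebra.adjoin (fieldOf θ) (Set.range j) :=
    ⟨_, rfl⟩
  have hjA : ∀ x : S, j x ∈ A := fun x => hA ▸ Algebra.subset_adjoin ⟨x, rfl⟩
  have hAfg : Algebra.FiniteType (fieldOf θ) A := by
    obtain ⟨G, hG⟩ := hS.out
    have h1 : A = Algebra.adjoin (fieldOf θ) ((j : S → L) '' (G : Set S)) := by
      rw [hA]
      apply le_antisymm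
      · rw [Algebra.adjoin_le_iff]
        rintro _ ⟨y, rfl⟩
        have hy : y ∈ Algebra.adjoin R (G : Set S) := by rw [hG]; trivial
        induction hy using Algebra.adjoin_induction with
        | mem x hx => exact Algebra.subset_adjoin ⟨x, hx, rfl⟩
        | algebraMap r =>
          rw [j.commutes]
          exact Subalgebra.algebraMap_mem (Algebra.adjoin (fieldOf θ) ((j : S → L) '' (G : Set S)))
            (⟨_, hRF r⟩ : fieldOf θ)
        | add x y _ _ hx hy => rw [map_add]; exact Subalgebra.add_mem _ hx hy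
        | mul x y _ _ hx hy => rw [map_mul]; exact Subalgebra.mul_mem _ hx hy
      · exact Algebra.adjoin_mono (by rintro _ ⟨y, -, rfl⟩; exact ⟨y, rfl⟩)
    rw [h1]
    have : (Algebra.adjoin (fieldOf θ) ((j : S → L) '' (G : Set S))).FG :=
      Subalgebra.fg_def.2 ⟨_, G.finite_toSet.image _, rfl⟩
    exact (Subalgebra.fg_iff_finiteType _).1 this
  -- elements of `F` and of `A` are fractions
  have hfld : ∀ f ∈ fieldOf θ, ∃ t : T, j (φ t) ≠ 0 ∧ ∃ s : S, f * j (φ t) = j s := by
    have hr : ∀ y ∈ Subring.closure (Set.range θ), ∃ t, θ t = y := by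
      intro y hy
      have h1 : Subring.closure (Set.range θ) ≤ θ.range :=
        Subring.closure_le.2 (by rintro _ ⟨t, rfl⟩; exact ⟨t, rfl⟩)
      obtain ⟨t, h⟩ := h1 hy
      exact ⟨t, h⟩
    intro f hf
    obtain ⟨y, hy, z, hz, rfl⟩ := Subfield.mem_closure_iff.1 hf
    obtain ⟨a, rfl⟩ := hr y hy
    obtain ⟨b, rfl⟩ := hr z hz
    by_cases hb : θ b = 0
    · refine ⟨1, ?_, 0, ?_⟩
      · rw [map_one, map_one]
        exact one_ne_zero
      · rw [hb, div_zero, zero_mul, map_zero]
    · rw [hθj] at hb
      refine ⟨b, hb, φ a, ?_⟩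
      rw [hθj, hθj]
      exact div_mul_cancel₀ _ hb
  have hden : ∀ y ∈ A, ∃ t : T, j (φ t) ≠ 0 ∧ ∃ s : S, y * j (φ t) = j s := by
    intro y hy
    rw [hA] at hy
    induction hy using Algebra.adjoin_induction with
    | mem x hx =>
      obtain ⟨s, rfl⟩ := hx
      refine ⟨1, ?_, s, ?_⟩
      · rw [map_one, map_one]
        exact one_ne_zero
      · rw [map_one, map_one, mul_one]
    | algebraMap f => exact hfld f.1 f.2
    | add x y _ _ hx hy =>
      obtain ⟨t, ht, s, hs⟩ := hx
      obtain ⟨t', ht', s', hs'⟩ := hy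
      refine ⟨t * t', ?_, s * φ t' + s' * φ t, ?_⟩
      · rw [map_mul, map_mul]
        exact mul_ne_zero ht ht'
      · simp only [map_mul, map_add, ← hs, ← hs']
        ring
    | mul x y _ _ hx hy =>
      obtain ⟨t, ht, s, hs⟩ := hx
      obtain ⟨t', ht', s', hs'⟩ := hy
      refine ⟨t * t', ?_, s * s', ?_⟩
      · rw [map_mul, map_mul]
        exact mul_ne_zero ht ht'
      · simp only [map_mul, ← hs, ← hs']
        ring
  have hfA : ∀ z : L, ∃ x y : A, y ≠ 0 ∧ z * A.val y = A.val x := by
    intro z
    obtain ⟨x, y, hy, h⟩ := hfr z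
    refine ⟨⟨j x, hjA x⟩, ⟨j y, hjA y⟩, fun h0 => hy (hj ?_), h⟩
    rw [map_zero]
    exact congrArg Subtype.val h0
  obtain ⟨a, ha, -, hloc⟩ := loc_birat hAfg hB2 A.val B.val Subtype.val_injective
    Subtype.val_injective hfA hB3 1 one_ne_zero
  obtain ⟨t, ht, s, hs⟩ := hden a a.2
  have ha0 : (a : L) ≠ 0 := fun h => ha (Subtype.ext h)
  refine ⟨s, ?_, fun g hg hd => ?_⟩
  · rintro rfl
    rw [map_zero] at hs
    exact mul_ne_zero ha0 ht hs
  obtain ⟨c, rfl⟩ := hd
  have hg0 : (⟨j (s * c), hjA _⟩ : A) ≠ 0 := by
    intro h0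
    apply hg
    apply hj
    rw [map_zero]
    exact congrArg Subtype.val h0
  obtain ⟨b, hb, hab⟩ := hloc ⟨j (s * c), hjA _⟩ hg0 ⟨⟨j (φ t), hjA _⟩ * ⟨j c, hjA _⟩, by
    apply Subtype.ext
    change j (s * c) = (a : L) * (j (φ t) * j c)
    rw [map_mul, ← hs, mul_assoc]⟩
  have hco : coordRing (fieldOf θ) (j : S →+* L) (s * c) = (loc B.val b).toSubring := by
    rw [← hab]
    apply le_antisymm
    · rw [coordRing, Subring.closure_le]
      rintro x ((hx | ⟨y, rfl⟩) | hx)
      · exact Subalgebra.algebraMap_mem (loc A.val ⟨j (s * c), hjA _⟩) (⟨x, hx⟩ : fieldOf θ)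
      · exact Algebra.subset_adjoin (Or.inl ⟨⟨j y, hjA y⟩, rfl⟩)
      · exact Algebra.subset_adjoin (Or.inr hx)
    · intro x hx
      have hx' : x ∈ Algebra.adjoin (fieldOf θ)
          (Set.range A.val ∪ {(A.val ⟨j (s * c), hjA _⟩)⁻¹}) := hx
      have hF1 : ∀ f : fieldOf θ, algebraMap (fieldOf θ) L f ∈
          coordRing (fieldOf θ) (j : S →+* L) (s * c) := fun f =>
        Subring.subset_closure (Or.inl (Or.inl f.2))
      have hA1 : ∀ y ∈ A, y ∈ coordRing (fieldOf θ) (j : S →+* L) (s * c) := by
        intro y hy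
        rw [hA] at hy
        induction hy using Algebra.adjoin_induction with
        | mem x hx =>
          obtain ⟨u, rfl⟩ := hx
          exact Subring.subset_closure (Or.inl (Or.inr ⟨u, rfl⟩))
        | algebraMap f => exact hF1 f
        | add x y _ _ hx hy => exact Subring.add_mem _ hx hy
        | mul x y _ _ hx hy => exact Subring.mul_mem _ hx hy
      clear hx
      induction hx' using Algebra.adjoin_induction with
      | mem x hx =>
        rcases hx with ⟨y, rfl⟩ | hx
        · exact hA1 y y.2
        · exact Subring.subset_closure (Or.inr hx)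
      | algebraMap f => exact hF1 f
      | add x y _ _ hx hy => exact Subring.add_mem _ hx hy
      | mul x y _ _ hx hy => exact Subring.mul_mem _ hx hy
  refine ⟨fun x hx => Subring.subset_closure (Or.inl (Or.inl hx)), ?_, ?_⟩
  · rw [hco]
    change IsDedekindDomain (loc B.val b)
    obtain ⟨e, -⟩ := loc_equiv B.val Subtype.val_injective hb
    let : Algebra B (loc B.val b) := ((e : Localization.Away b →+* loc B.val b).comp
      (algebraMap B (Localization.Away b))).toAlgebra
    let e' : Localization.Away b ≃ₐ[B] loc B.val b :=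
      { (e : Localization.Away b ≃+* loc B.val b) with commutes' := fun r => rfl }
    have : IsLocalization (Submonoid.powers b) (loc B.val b) :=
      IsLocalization.isLocalization_of_algEquiv (Submonoid.powers b) e'
    exact IsLocalization.isDedekindDomain B (M := Submonoid.powers b)
      (powers_le_nonZeroDivisors_of_noZeroDivisors hb) (loc B.val b)
  · intro z
    obtain ⟨x, y, hy, h⟩ := hfr z
    refine ⟨j x, Subring.subset_closure (Or.inl (Or.inr ⟨x, rfl⟩)), j y,
      Subring.subset_closure (Or.inl (Or.inr ⟨y, rfl⟩)), fun h0 => hy (hj ?_), h⟩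
    rw [map_zero, h0]

end Pool.Agent.Lib.MP_1a0ddd_nt.Tf
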