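import Pool.Agent.Lib.MP_1a0ddd_nt.Tf.ASub

/-! Units and prime divisors of the coordinate rings over the fraction field of `R`. -/

set_option autoImplicit false

namespace Pool.Agent.Lib.MP_1a0ddd_nt.Tf

open Pool.Agent.Lib.MP_1a0ddd_nt.Nc Pool.Agent.Lib.MP_1a0ddd_nt.Cf
  Pool.Agent.Lib.MP_1a0ddd_nt.Fb Pool.Agent.Lib.MP_1a0ddd_nt.Cn Pool.Agent.Lib.MP_1a0ddd_nt.Un

variable {R T S L : Type} [CommRing R] [IsDomain R] [CommRing T] [CommRing S] [Field L]
  [Algebra R T] [Algebra R S] [Algebra R L]

private theorem sb_quot {T : Type} [CommRing T] [Nontrivial T] {θ : T →+* L}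
    (hi : Function.Injective θ) {y : L} (hy : y ∈ fieldOf θ) :
    ∃ a b : T, b ≠ 0 ∧ y * θ b = θ a := by
  rw [fieldOf, Subfield.mem_closure_iff] at hy
  obtain ⟨u, hu, w, hw, rfl⟩ := hy
  have e : Subring.closure (Set.range θ) = θ.range := by
    rw [← RingHom.coe_range, Subring.closure_eq]
  rw [e] at hu hw
  obtain ⟨a, rfl⟩ := hu
  obtain ⟨b, rfl⟩ := hw
  by_cases hb : b = 0
  · refine ⟨0, 1, one_ne_zero, ?_⟩
    rw [hb, map_zero, div_zero, zero_mul]
  · refine ⟨a, b, hb, ?_⟩
    rw [div_mul_cancel₀]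
    exact (map_ne_zero_iff _ hi).2 hb

omit [IsDomain R] in
private theorem sb_map (j : S →ₐ[R] L) (g s : S) : j s ∈ gring j g :=
  Subring.subset_closure (Or.inl (Or.inr ⟨s, rfl⟩))

omit [IsDomain R] in
private theorem sb_inv (j : S →ₐ[R] L) (g : S) : (j g)⁻¹ ∈ gring j g :=
  Subring.subset_closure (Or.inr rfl)

omit [IsDomain R] in
private theorem sb_const (φ : T →ₐ[R] S) (j : S →ₐ[R] L) {x : L}
    (hx : x ∈ fieldOf (algebraMap R L)) : x ∈ fieldOf ((j : S →+* L).comp (φ : T →+* S)) := by
  refine (Subfield.closure_le.2 ?_) hx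
  rintro _ ⟨r, rfl⟩
  refine Subfield.subset_closure ⟨algebraMap R T r, ?_⟩
  show j (φ (algebraMap R T r)) = _
  rw [φ.commutes, j.commutes]

omit [IsDomain R] in
private theorem sb_genF (φ : T →ₐ[R] S) (j : S →ₐ[R] L)
    (hφ : Function.Injective φ) (hj : Function.Injective j) {b : T} (hb : b ≠ 0) {h : S}
    {B : Subring L} (hm : ∀ s, j s ∈ B) (hi : (j h)⁻¹ ∈ B)
    (hle : B ≤ coordRing (fieldOf ((j : S →+* L).comp (φ : T →+* S))) (j : S →+* L) h) :
    GenF (fieldOf ((j : S →+* L).comp (φ : T →+* S))) (gring (j.comp φ) b)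
      B (coordRing (fieldOf ((j : S →+* L).comp (φ : T →+* S))) (j : S →+* L) h) := by
  have hT : Nontrivial T := ⟨b, 0, hb⟩
  have hθ : Function.Injective ((j : S →+* L).comp (φ : T →+* S)) := hj.comp hφ
  have key : ∀ x ∈ coordRing (fieldOf ((j : S →+* L).comp (φ : T →+* S))) (j : S →+* L) h,
      ∃ c : T, j (φ c) ≠ 0 ∧ x * j (φ c) ∈ B := by
    intro x hx
    unfold coordRing at hx
    induction hx using Subring.closure_induction with
    | mem x hx =>
      rcases hx with (hx | ⟨y, rfl⟩) | hx
      · obtain ⟨a, c, hc, e⟩ := sb_quot hθ hx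
        refine ⟨c, (map_ne_zero_iff _ hθ).2 hc, ?_⟩
        have e' : x * j (φ c) = j (φ a) := e
        rw [e']
        exact hm _
      · refine ⟨1, ?_, ?_⟩
        · rw [map_one, map_one]; exact one_ne_zero
        · rw [map_one, map_one, mul_one]; exact hm y
      · have hx' : x = (j h)⁻¹ := hx
        refine ⟨1, ?_, ?_⟩
        · rw [map_one, map_one]; exact one_ne_zero
        · rw [map_one, map_one, mul_one, hx']; exact hi
    | zero =>
      refine ⟨1, ?_, ?_⟩
      · rw [map_one, map_one]; exact one_ne_zero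
      · rw [zero_mul]; exact B.zero_mem
    | one =>
      refine ⟨1, ?_, ?_⟩
      · rw [map_one, map_one]; exact one_ne_zero
      · rw [map_one, map_one, mul_one]; exact B.one_mem
    | add x y _ _ hx hy =>
      obtain ⟨c, hc, e⟩ := hx
      obtain ⟨c', hc', e'⟩ := hy
      refine ⟨c * c', ?_, ?_⟩
      · rw [map_mul, map_mul]; exact mul_ne_zero hc hc'
      · have h1 : (x + y) * j (φ (c * c')) = x * j (φ c) * j (φ c') +
            y * j (φ c') * j (φ c) := by
          rw [map_mul, map_mul]
          ring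
        rw [h1]
        exact add_mem (mul_mem e (hm _)) (mul_mem e' (hm _))
    | neg x _ hx =>
      obtain ⟨c, hc, e⟩ := hx
      exact ⟨c, hc, by rw [neg_mul]; exact neg_mem e⟩
    | mul x y _ _ hx hy =>
      obtain ⟨c, hc, e⟩ := hx
      obtain ⟨c', hc', e'⟩ := hy
      refine ⟨c * c', ?_, ?_⟩
      · rw [map_mul, map_mul]; exact mul_ne_zero hc hc'
      · have h1 : x * y * j (φ (c * c')) = x * j (φ c) * (y * j (φ c')) := by
          rw [map_mul, map_mul]
          ring
        rw [h1]
        exact mul_mem e e'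
  refine ⟨hle, fun x hx => Subring.subset_closure (Or.inl (Or.inl hx)), fun x hx => ?_⟩
  obtain ⟨c, hc, e⟩ := key x hx
  exact ⟨j (φ c), sb_map (j.comp φ) b c, hc, e⟩

/-- the units of the generic fibre (`kmodel_equiv`, `UnitFam`) -/
theorem unit_gring (hi : Function.Injective (algebraMap R L)) (j : S →ₐ[R] L)
    (hj : Function.Injective j) {g : S} (hg : g ≠ 0) {n e : ℕ}
    (h : Geo R (Localization.Away g) n e) :
    Module.Finite ℤ (UM (fieldOf (algebraMap R L)).toSubring (gring j g)) ∧
      Module.finrank ℤ (UM (fieldOf (algebraMap R L)).toSubring (gring j g)) = e := by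
  obtain ⟨k, κ, hk1, hκ1, hkm⟩ := kmodel_gring hi j hj hg
  have hd := h.dom
  obtain ⟨E, hE1, hE2⟩ := kmodel_equiv h.inj hkm
  obtain ⟨γ, hγ⟩ := h.units
  obtain ⟨ω, hω⟩ : ∃ ω : (Gen (algebraMap R (Localization.Away g)))ˣ →* Lˣ,
      ∀ v, ((ω v : Lˣ) : L) = ((E (v : Gen (algebraMap R (Localization.Away g))) :
        gring j g) : L) :=
    ⟨Units.map ((((gring j g).subtype.comp (E : Gen (algebraMap R (Localization.Away g)) →+*
      gring j g)) : Gen (algebraMap R (Localization.Away g)) →+* L) :
        Gen (algebraMap R (Localization.Away g)) →* L), fun _ => rfl⟩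
  have hωi : Function.Injective ω := by
    intro v w e1
    apply Units.ext
    apply E.injective
    apply Subtype.ext
    rw [← hω, ← hω, e1]
  have hωm : ∀ v, Additive.ofMul (ω v) ∈ un (gring j g) := by
    intro v
    refine ⟨?_, ?_⟩
    · rw [toMul_ofMul, hω]
      exact (E _).2
    · rw [toMul_ofMul, ← Units.val_inv_eq_inv_val, ← map_inv, hω]
      exact (E _).2
  have hωs : ∀ u ∈ un (gring j g), ∃ v, Additive.ofMul (ω v) = u := by
    intro u hu
    refine ⟨⟨E.symm ⟨_, hu.1⟩, E.symm ⟨_, hu.2⟩, ?_, ?_⟩, ?_⟩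
    · rw [← map_mul]
      have h1 : (⟨_, hu.1⟩ : gring j g) * ⟨_, hu.2⟩ = 1 :=
        Subtype.ext (mul_inv_cancel₀ (Units.ne_zero _))
      rw [h1, map_one]
    · rw [← map_mul]
      have h1 : (⟨_, hu.2⟩ : gring j g) * ⟨_, hu.1⟩ = 1 :=
        Subtype.ext (inv_mul_cancel₀ (Units.ne_zero _))
      rw [h1, map_one]
    · apply Additive.toMul.injective
      apply Units.ext
      rw [toMul_ofMul, hω]
      show ((E (E.symm _) : gring j g) : L) = _
      rw [E.apply_symm_apply]
  obtain ⟨σ, hσκ⟩ : ∃ σ : FractionRing R →+* L, ∀ c, σ c = ((κ c : gring j g) : L) :=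
    ⟨(gring j g).subtype.comp κ, fun _ => rfl⟩
  have hσ : ∀ r : R, σ (algebraMap R (FractionRing R) r) = algebraMap R L r := fun r => by
    rw [hσκ, hκ1]
  have hσK : ∀ c : FractionRing R, σ c ∈ fieldOf (algebraMap R L) := by
    intro c
    obtain ⟨a, b, hb, rfl⟩ := IsFractionRing.div_surjective (A := R) c
    rw [map_div₀, hσ, hσ]
    exact div_mem (Subfield.subset_closure ⟨a, rfl⟩) (Subfield.subset_closure ⟨b, rfl⟩)
  have hωc : ∀ c : (FractionRing R)ˣ, ((ω (Units.map
      (cst (algebraMap R (Localization.Away g)) : FractionRing R →*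
        Gen (algebraMap R (Localization.Away g))) c) : Lˣ) : L) = σ c := by
    intro c
    rw [hω, hσκ, ← hE2]
    rfl
  have hK1 : ∀ c : (FractionRing R)ˣ, Additive.ofMul (ω (Units.map
      (cst (algebraMap R (Localization.Away g)) : FractionRing R →*
        Gen (algebraMap R (Localization.Away g))) c)) ∈
          un (fieldOf (algebraMap R L)).toSubring := by
    intro c
    refine ⟨?_, ?_⟩
    · rw [toMul_ofMul, hωc]
      exact hσK c
    · rw [toMul_ofMul, hωc, ← map_inv₀]
      exact hσK _
  have hK2 : ∀ u ∈ un (fieldOf (algebraMap R L)).toSubring, ∃ c : (FractionRing R)ˣ,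
      Additive.ofMul (ω (Units.map (cst (algebraMap R (Localization.Away g)) :
        FractionRing R →* Gen (algebraMap R (Localization.Away g))) c)) = u := by
    intro u hu
    obtain ⟨a, b, hb, e1⟩ := sb_quot hi hu.1
    have hb' : algebraMap R L b ≠ 0 := (map_ne_zero_iff _ hi).2 hb
    have e2 : ((Additive.toMul u : Lˣ) : L) = σ (algebraMap R (FractionRing R) a /
        algebraMap R (FractionRing R) b) := by
      rw [map_div₀, hσ, hσ, ← e1, mul_div_cancel_right₀ _ hb']
    have hne : algebraMap R (FractionRing R) a / algebraMap R (FractionRing R) b ≠ 0 := by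
      intro h0
      rw [h0, map_zero] at e2
      exact Units.ne_zero _ e2
    refine ⟨Units.mk0 _ hne, ?_⟩
    apply Additive.toMul.injective
    apply Units.ext
    rw [toMul_ofMul, hωc, e2]
    rfl
  have hprod : ∀ m : Fin e → ℤ, ((∑ i, m i • (⟨Additive.ofMul (ω (γ i)), hωm (γ i)⟩ :
      un (gring j g)) : un (gring j g)) : Additive Lˣ) =
        Additive.ofMul (ω (∏ i, γ i ^ m i)) := by
    intro m
    rw [map_prod, ofMul_prod, AddSubgroup.val_finsetSum]
    refine Finset.sum_congr rfl fun i _ => ?_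
    rw [map_zpow, ofMul_zpow]
    rfl
  let Φ : (Fin e → ℤ) →ₗ[ℤ] UM (fieldOf (algebraMap R L)).toSubring (gring j g) :=
    Fintype.linearCombination ℤ (fun i => QuotientAddGroup.mk
      (⟨Additive.ofMul (ω (γ i)), hωm (γ i)⟩ : un (gring j g)))
  have hΦ : ∀ m, Φ m = QuotientAddGroup.mk (∑ i, m i •
      (⟨Additive.ofMul (ω (γ i)), hωm (γ i)⟩ : un (gring j g))) := by
    intro m
    show Fintype.linearCombination ℤ _ m = _
    rw [Fintype.linearCombination_apply]
    have h1 : ∀ x : un (gring j g), (QuotientAddGroup.mk x :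
        UM (fieldOf (algebraMap R L)).toSubring (gring j g)) = QuotientAddGroup.mk' _ x :=
      fun _ => rfl
    simp only [h1]
    rw [map_sum]
    refine Finset.sum_congr rfl fun i _ => ?_
    rw [map_zsmul]
  have hbij : Function.Bijective Φ := by
    constructor
    · rw [injective_iff_map_eq_zero]
      intro m hm
      rw [hΦ, QuotientAddGroup.eq_zero_iff, AddSubgroup.mem_addSubgroupOf, hprod] at hm
      obtain ⟨c, hc⟩ := hK2 _ hm
      have h1 := hωi (Additive.ofMul.injective hc)
      exact hγ.indep c m h1.symm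
    · intro q
      induction q using QuotientAddGroup.induction_on with
      | H u =>
        obtain ⟨v, hv⟩ := hωs u u.2
        obtain ⟨c, m, hcm⟩ := hγ.gen v
        refine ⟨m, ?_⟩
        rw [hΦ, QuotientAddGroup.eq, AddSubgroup.mem_addSubgroupOf, AddSubgroup.coe_add,
          AddSubgroup.coe_neg, hprod, ← hv, hcm, map_mul, ofMul_mul]
        have h1 : -Additive.ofMul (ω (∏ i, γ i ^ m i)) + (Additive.ofMul (ω (Units.map
            (cst (algebraMap R (Localization.Away g)) : FractionRing R →*
              Gen (algebraMap R (Localization.Away g))) c)) +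
              Additive.ofMul (ω (∏ i, γ i ^ m i))) = Additive.ofMul (ω (Units.map
            (cst (algebraMap R (Localization.Away g)) : FractionRing R →*
              Gen (algebraMap R (Localization.Away g))) c)) := by abel
        rw [h1]
        exact hK1 c
  have eq := LinearEquiv.ofBijective Φ hbij
  refine ⟨Module.Finite.equiv eq, ?_⟩
  rw [← eq.finrank_eq, Module.finrank_fin_fun]

/-- `F (gring j h) = coordRing F j h` -/
theorem genF_gring (hi : Function.Injective (algebraMap R L)) (φ : T →ₐ[R] S) (j : S →ₐ[R] L)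
    (hφ : Function.Injective φ) (hj : Function.Injective j) {b : T} (hb : b ≠ 0) {h : S}
    (hh : h ≠ 0) : GenF (fieldOf ((j : S →+* L).comp (φ : T →+* S))) (gring (j.comp φ) b)
      (gring j h) (coordRing (fieldOf ((j : S →+* L).comp (φ : T →+* S))) (j : S →+* L) h) := by
  refine sb_genF φ j hφ hj hb (sb_map j h) (sb_inv j h) (Subring.closure_le.2 ?_)
  rintro x ((hx | ⟨y, rfl⟩) | hx)
  · exact Subring.subset_closure (Or.inl (Or.inl (sb_const φ j hx)))
  · exact Subring.subset_closure (Or.inl (Or.inr ⟨y, rfl⟩))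
  · exact Subring.subset_closure (Or.inr hx)

/-- `F (gring j (g φ(b))) = coordRing F j g` -/
theorem genF_gring' (hi : Function.Injective (algebraMap R L)) (φ : T →ₐ[R] S) (j : S →ₐ[R] L)
    (hφ : Function.Injective φ) (hj : Function.Injective j) {b : T} (hb : b ≠ 0) {g : S}
    (hg : g ≠ 0) : GenF (fieldOf ((j : S →+* L).comp (φ : T →+* S))) (gring (j.comp φ) b)
      (gring j (g * φ b))
      (coordRing (fieldOf ((j : S →+* L).comp (φ : T →+* S))) (j : S →+* L) g) := by
  have hjb : j (φ b) ≠ 0 := (map_ne_zero_iff j hj).2 ((map_ne_zero_iff φ hφ).2 hb)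
  refine sb_genF φ j hφ hj hb (sb_map j _) ?_ (Subring.closure_le.2 ?_)
  · have h1 : (j g)⁻¹ = j (φ b) * (j (g * φ b))⁻¹ := by
      rw [map_mul, mul_inv, mul_comm (j g)⁻¹, ← mul_assoc, mul_inv_cancel₀ hjb, one_mul]
    rw [h1]
    exact mul_mem (sb_map j _ _) (sb_inv j _)
  · rintro x ((hx | ⟨y, rfl⟩) | hx)
    · exact Subring.subset_closure (Or.inl (Or.inl (sb_const φ j hx)))
    · exact Subring.subset_closure (Or.inl (Or.inr ⟨y, rfl⟩))
    · have hx' : x = (j (g * φ b))⁻¹ := hx
      rw [hx', map_mul, mul_inv]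
      refine mul_mem (Subring.subset_closure (Or.inr rfl))
        (Subring.subset_closure (Or.inl (Or.inl (inv_mem ?_))))
      exact Subfield.subset_closure ⟨b, rfl⟩

/-- irreducibility of fibres for models (`irr_model` in `Nc/KMod.lean` is the converse) -/
private theorem sb_model {R T S P Q : Type} [CommRing R] [IsDomain R] [CommRing T] [Algebra R T]
    [CommRing S] [Algebra R S] [CommRing P] [CommRing Q] [IsDomain T] [IsDomain S]
    (hT : Function.Injective (algebraMap R T)) (hS : Function.Injective (algebraMap R S))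
    (φ : T →ₐ[R] S) {j : T →+* P} {κ : FractionRing R →+* P} (hj : KModel R j κ)
    {k : S →+* Q} {κ' : FractionRing R →+* Q} (hk : KModel R k κ') (ι : P →+* Q)
    (hι : ∀ t : T, ι (j t) = k (φ t)) (h : IrrOver (baseK φ) 1) : IrrOver ι 1 := by
  obtain ⟨e, he, -⟩ := kmodel_equiv hT hj
  obtain ⟨e', he', -⟩ := kmodel_equiv hS hk
  have hb : ∀ t : T, baseK φ (toGen (algebraMap R T) t) = toGen (algebraMap R S) (φ t) := by
    intro t
    have hle : (nonZeroDivisors R).map (algebraMap R T) ≤
        ((nonZeroDivisors R).map (algebraMap R S)).comap (φ : T →+* S) := by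
      rintro _ ⟨r, hr, rfl⟩
      exact ⟨r, hr, (φ.commutes r).symm⟩
    have h1 : IsLocalization.map (M := (nonZeroDivisors R).map (algebraMap R T))
        (T := (nonZeroDivisors R).map (algebraMap R S))
        (S := Localization ((nonZeroDivisors R).map (algebraMap R T)))
        (Localization ((nonZeroDivisors R).map (algebraMap R S))) (φ : T →+* S) hle
        (algebraMap T (Localization ((nonZeroDivisors R).map (algebraMap R T))) t) =
        algebraMap S (Localization ((nonZeroDivisors R).map (algebraMap R S)))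
          ((φ : T →+* S) t) := IsLocalization.map_eq _ t
    exact h1
  have hcomm : ∀ x : Gen (algebraMap R T), e' (baseK φ x) = ι (e x) := by
    intro x
    have key : ∀ f₁ f₂ : Localization ((nonZeroDivisors R).map (algebraMap R T)) →+* Q,
        (∀ t : T, f₁ (algebraMap T (Localization ((nonZeroDivisors R).map (algebraMap R T))) t) =
          f₂ (algebraMap T (Localization ((nonZeroDivisors R).map (algebraMap R T))) t)) →
        f₁ = f₂ := fun f₁ f₂ h1 =>
      IsLocalization.ringHom_ext ((nonZeroDivisors R).map (algebraMap R T)) (RingHom.ext h1)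
    have h1 : ((e' : Gen (algebraMap R S) →+* Q).comp (baseK φ)) =
        ι.comp (e : Gen (algebraMap R T) →+* P) := by
      refine key _ _ fun t => ?_
      change e' (baseK φ (toGen (algebraMap R T) t)) = ι (e (toGen (algebraMap R T) t))
      rw [hb, he, he', hι]
    exact RingHom.congr_fun h1 x
  intro q hq hq1
  have hq' : Irreducible (e.symm q) := (MulEquiv.irreducible_iff e.symm).2 hq
  have hq1' : ¬ e.symm q ∣ 1 := fun h1 => hq'.not_isUnit (isUnit_of_dvd_one h1)
  obtain ⟨h1, h2⟩ := h (e.symm q) hq' hq1'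
  have hc1 : ∀ a : P, e' (baseK φ (e.symm a)) = ι a := fun a => by
    rw [hcomm, e.apply_symm_apply]
  refine ⟨?_, fun a ha => ?_⟩
  · rw [← hc1]
    exact (MulEquiv.prime_iff e').2 h1
  · rw [← hc1, ← hc1] at ha
    have h3 := map_dvd e'.symm ha
    rw [e'.symm_apply_apply, e'.symm_apply_apply] at h3
    have h4 := map_dvd e (h2 _ h3)
    rwa [e.apply_symm_apply, e.apply_symm_apply] at h4

private theorem sb_ufd {R T P : Type} [CommRing R] [IsDomain R] [CommRing T] [Algebra R T]
    [CommRing P] [IsDomain P] [IsDomain T] (hT : Function.Injective (algebraMap R T))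
    {j : T →+* P} {κ : FractionRing R →+* P} (hj : KModel R j κ)
    (hu : UniqueFactorizationMonoid (Gen (algebraMap R T))) : UniqueFactorizationMonoid P := by
  obtain ⟨e, -, -⟩ := kmodel_equiv hT hj
  exact e.toMulEquiv.uniqueFactorizationMonoid hu

/-- transport of `IrrOver` (`kmodel_gring`, `kmodel_equiv`) -/
theorem vert_gring (hi : Function.Injective (algebraMap R L)) (φ : T →ₐ[R] S) (j : S →ₐ[R] L)
    (hφ : Function.Injective φ) (hj : Function.Injective j) {b : T} (hb : b ≠ 0) {g : S}
    (hg : g ≠ 0) (hu : UniqueFactorizationMonoid (Gen (algebraMap R (Localization.Away b))))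
    (hirr : IrrOver (baseK (shr φ b g)) 1) :
    Vert (fieldOf ((j : S →+* L).comp (φ : T →+* S))) (gring (j.comp φ) b)
      (gring j (g * φ b)) := by
  have hT : Nontrivial T := ⟨b, 0, hb⟩
  have hθ : Function.Injective ((j : S →+* L).comp (φ : T →+* S)) := hj.comp hφ
  have hφb : φ b ≠ 0 := (map_ne_zero_iff φ hφ).2 hb
  have hjb : j (φ b) ≠ 0 := (map_ne_zero_iff j hj).2 hφb
  have hgb : g * φ b ≠ 0 := by
    intro h0
    have h1 : j g * j (φ b) = 0 := by rw [← map_mul, h0, map_zero]
    exact mul_ne_zero ((map_ne_zero_iff j hj).2 hg) hjb h1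
  have hj' : Function.Injective (j.comp φ) := hj.comp hφ
  have hle : gring (j.comp φ) b ≤ gring j (g * φ b) := by
    refine Subring.closure_le.2 ?_
    rintro x ((hx | ⟨y, rfl⟩) | hx)
    · exact Subring.subset_closure (Or.inl (Or.inl hx))
    · exact sb_map j _ (φ y)
    · have hx' : x = (j (φ b))⁻¹ := hx
      have h1 : (j (φ b))⁻¹ = j g * (j (g * φ b))⁻¹ := by
        have h2 : j g ≠ 0 := (map_ne_zero_iff j hj).2 hg
        rw [map_mul, mul_inv, ← mul_assoc, mul_inv_cancel₀ h2, one_mul]
      rw [hx', h1]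
      exact mul_mem (sb_map j _ _) (sb_inv j _)
  obtain ⟨k, κ, hk1, hκ1, hkm⟩ := kmodel_gring hi (j.comp φ) hj' hb
  obtain ⟨k', κ', hk1', hκ1', hkm'⟩ := kmodel_gring hi j hj hgb
  have hd : IsDomain (Localization.Away b) := hkm.inj.isDomain k
  have hd' : IsDomain (Localization.Away (g * φ b)) := hkm'.inj.isDomain k'
  have hR : Function.Injective (algebraMap R (Localization.Away b)) := by
    intro x y e
    apply hi
    rw [← hκ1, ← hκ1, hkm.comp, hkm.comp, e]
  have hR' : Function.Injective (algebraMap R (Localization.Away (g * φ b))) := by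
    intro x y e
    apply hi
    rw [← hκ1', ← hκ1', hkm'.comp, hkm'.comp, e]
  have hι : ∀ t : Localization.Away b, Subring.inclusion hle (k t) = k' (shr φ b g t) := by
    intro x
    have h1 : (Subring.inclusion hle).comp k =
        k'.comp (shr φ b g : Localization.Away b →+* Localization.Away (g * φ b)) :=
      IsLocalization.ringHom_ext (Submonoid.powers b) (RingHom.ext fun t => by
        have h3 : ((shr φ b g : Localization.Away b →+* Localization.Away (g * φ b))
            (algebraMap T (Localization.Away b) t)) =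
            algebraMap S (Localization.Away (g * φ b)) (φ t) := shr_apply φ b g t
        rw [RingHom.comp_apply, RingHom.comp_apply, RingHom.comp_apply, RingHom.comp_apply, h3]
        apply Subtype.ext
        rw [hk1', Subring.coe_inclusion, hk1]
        rfl)
    exact RingHom.congr_fun h1 x
  refine ⟨hle, fun x hx => ?_, fun x hx => ?_, sb_ufd hR hkm hu,
    sb_model hR hR' (shr φ b g) hkm hkm' (Subring.inclusion hle) hι hirr⟩
  · have h1 : gring (j.comp φ) b ≤ (fieldOf ((j : S →+* L).comp (φ : T →+* S))).toSubring := by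
      refine Subring.closure_le.2 ?_
      rintro y ((hy | ⟨t, rfl⟩) | hy)
      · exact sb_const φ j hy
      · exact Subfield.subset_closure ⟨t, rfl⟩
      · have hy' : y = (j (φ b))⁻¹ := hy
        rw [hy']
        have h2 : (j (φ b))⁻¹ ∈ fieldOf ((j : S →+* L).comp (φ : T →+* S)) :=
          inv_mem (Subfield.subset_closure ⟨b, rfl⟩)
        exact h2
    exact h1 hx
  · obtain ⟨a, c, hc, e⟩ := sb_quot hθ hx
    exact ⟨j (φ a), sb_map (j.comp φ) b a, j (φ c), sb_map (j.comp φ) b c,
      (map_ne_zero_iff _ hθ).2 hc, e⟩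

end Pool.Agent.Lib.MP_1a0ddd_nt.Tf
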