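import Pool.Agent.Lib.MP_1a0ddd_nt.Tf.ACls
import Pool.Agent.Lib.MP_1a0ddd_nt.Tf.ACnt
import Pool.Agent.Lib.MP_1a0ddd_nt.Tf.ASubB
import Pool.Agent.Lib.MP_1a0ddd_nt.Tf.ANrm
import Pool.Agent.Lib.MP_1a0ddd_nt.Tf.AMod
import Pool.Agent.Lib.MP_1a0ddd_nt.Tf.AAvg

/-! The mean of the averages for one fibration and one open subset. -/

set_option autoImplicit false

namespace Pool.Agent.Lib.MP_1a0ddd_nt.Tf

open Pool.Agent.Lib.MP_1a0ddd_nt.Nc Pool.Agent.Lib.MP_1a0ddd_nt.Cf
  Pool.Agent.Lib.MP_1a0ddd_nt.Fb Pool.Agent.Lib.MP_1a0ddd_nt.Cn Pool.Agent.Lib.MP_1a0ddd_nt.Un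
  Pool.Agent.Lib.MP_1a0ddd_nt.Pu

variable {R T S L : Type} [CommRing R] [IsDomain R] [CommRing T] [IsDomain T] [CommRing S]
  [IsDomain S] [Field L] [Algebra R T] [Algebra R S] [Algebra R L] {d n e : ℕ}

/-- the places outside the smaller open subset -/
private theorem out_card {F : Subfield L} {A₀ B A : Subring L} {P : Subring L}
    (hA₀A : A₀ ≤ A) (hA : GenF F P B A) (hP : ∀ x ∈ P, x ∈ F) (hfin : (Outside F A).Finite) :
    (Outside F A).ncard = (Outside F A₀).ncard +
      {V : Place F | (A₀ : Set L) ⊆ V.1 ∧ ¬ (B : Set L) ⊆ V.1}.ncard := by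
  have h1 : ∀ V : Place F, (B : Set L) ⊆ V.1 → (A : Set L) ⊆ V.1 := by
    intro V hV x hx
    obtain ⟨t, ht, h0, hxt⟩ := hA.surj x hx
    have h2 : t⁻¹ ∈ V.1 := V.2.2 (F.inv_mem (hP t ht))
    have h3 : x = x * t * t⁻¹ := by rw [mul_assoc, mul_inv_cancel₀ h0, mul_one]
    rw [h3]
    exact mul_mem (hV hxt) h2
  have hsub : Outside F A₀ ⊆ Outside F A := fun V hV h => hV fun x hx => h (hA₀A hx)
  have he : Outside F A = Outside F A₀ ∪
      {V : Place F | (A₀ : Set L) ⊆ V.1 ∧ ¬ (B : Set L) ⊆ V.1} := by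
    ext V
    constructor
    · intro hV
      by_cases h2 : (A₀ : Set L) ⊆ V.1
      · exact Or.inr ⟨h2, fun h3 => hV (h1 V h3)⟩
      · exact Or.inl h2
    · rintro (hV | ⟨-, hV⟩)
      · exact hsub hV
      · exact fun h => hV fun x hx => h (hA.le hx)
  rw [he, Set.ncard_union_eq ?_ (hfin.subset hsub) (hfin.subset ?_)]
  · rw [Set.disjoint_left]
    rintro V hV ⟨h2, -⟩
    exact hV h2
  · rintro V ⟨-, hV⟩
    exact fun h => hV fun x hx => h (hA.le hx)

omit [IsDomain R] in
private theorem trdeg_away_R [Nontrivial R] (hi : Function.Injective (algebraMap R T)) {b : T}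
    (hb : b ≠ 0) : Algebra.trdeg R (Localization.Away b) = Algebra.trdeg R T := by
  have hM : Submonoid.powers b ≤ nonZeroDivisors T :=
    powers_le_nonZeroDivisors_of_noZeroDivisors hb
  have : IsDomain (Localization.Away b) := IsLocalization.isDomain_localization hM
  have hinj : Function.Injective (algebraMap T (Localization.Away b)) :=
    IsLocalization.injective _ hM
  have h1 : FaithfulSMul R T := (faithfulSMul_iff_algebraMap_injective R T).2 hi
  have h2 : FaithfulSMul T (Localization.Away b) :=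
    (faithfulSMul_iff_algebraMap_injective T _).2 hinj
  have h3 : Algebra.IsAlgebraic T (Localization.Away b) :=
    IsLocalization.isAlgebraic (Localization.Away b) (Submonoid.powers b)
  have h4 := trdeg_add_eq R T (A := Localization.Away b)
  rw [trdeg_eq_zero (R := T), add_zero] at h4
  exact h4.symm

/-- `A_p(g, D b) = countD S_(g φ b) - countD T_b + 1 - #Out g` modulo functions of mean `0`
(`avg_shr`, `avgT_eq`, `count_all`, `langWeil`), `count_diff`, `side_cls` and `unit_rank` -/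
theorem one_side (hR : BaseVar R d) (hT : Algebra.FiniteType R T) (hS : Algebra.FiniteType R S)
    (hiT : Function.Injective (algebraMap R T)) (hiL : Function.Injective (algebraMap R L))
    (φ : T →ₐ[R] S) (j : S →ₐ[R] L) (hφ : Function.Injective φ) (hj : Function.Injective j)
    (hF : FF1 (fieldOf ((j : S →+* L).comp (φ : T →+* S)))) {k : R → ℕ → ℝ} {b : T} {g h : S}
    (hb : b ≠ 0) (hg : g ≠ 0) (hh : h ≠ 0) (hgeo : Geo R (Localization.Away b) n e)
    (hk : ∃ D₀ : R, D₀ ≠ 0 ∧ ∀ D : R, D ≠ 0 → D₀ ∣ D →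
      Quad.TauMean (fun p => countD R (Localization.Away b) D d n p - k D p) e)
    (hirr : IrrOver (baseK (shr φ b g)) 1)
    (hAg : Aff (fieldOf ((j : S →+* L).comp (φ : T →+* S)))
      (coordRing (fieldOf ((j : S →+* L).comp (φ : T →+* S))) (j : S →+* L) g))
    (hAh : Aff (fieldOf ((j : S →+* L).comp (φ : T →+* S)))
      (coordRing (fieldOf ((j : S →+* L).comp (φ : T →+* S))) (j : S →+* L) h))
    (hgh : g * φ b ∣ h)
    (hB : Vert (fieldOf ((j : S →+* L).comp (φ : T →+* S))) (gring (j.comp φ) b) (gring j h)) :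
    (Outside (fieldOf ((j : S →+* L).comp (φ : T →+* S)))
      (coordRing (fieldOf ((j : S →+* L).comp (φ : T →+* S))) (j : S →+* L) g)).Finite ∧
    Module.Finite ℤ (UM (fieldOf (algebraMap R L)).toSubring (gring j h)) ∧
    ∃ H : AddSubgroup (ClGp (fieldOf ((j : S →+* L).comp (φ : T →+* S)))), H.FG ∧
      Nonempty ((ClGp (fieldOf ((j : S →+* L).comp (φ : T →+* S))) ⧸ H) ≃+ DivCl (gring j h)) ∧
      Module.finrank ℤ H + Module.finrank ℤ (UM
        (fieldOf ((j : S →+* L).comp (φ : T →+* S))).toSubring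
        (coordRing (fieldOf ((j : S →+* L).comp (φ : T →+* S))) (j : S →+* L) h)) =
        (Outside (fieldOf ((j : S →+* L).comp (φ : T →+* S)))
          (coordRing (fieldOf ((j : S →+* L).comp (φ : T →+* S))) (j : S →+* L) h)).ncard ∧
      ∀ (A : Outside (fieldOf ((j : S →+* L).comp (φ : T →+* S)))
        (coordRing (fieldOf ((j : S →+* L).comp (φ : T →+* S))) (j : S →+* L) g) → Type)
        [∀ V, CommRing (A V)] (ψ : ∀ V, T →+* A V),
        (∀ V, Model ((j : S →+* L).comp (φ : T →+* S)) V.1 (ψ V)) →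
        ∃ D₀ : R, D₀ ≠ 0 ∧ ∀ D : R, D ≠ 0 → D₀ ∣ D → Quad.TauMean (fun p =>
          avg (algebraMap R T D * b) (n + d) p (trace (φ : T →+* S) g A ψ p) -
            (countD R (Localization.Away h) D d (n + 1) p - k D p))
          (1 - Module.finrank ℤ H -
            Module.finrank ℤ (UM (fieldOf (algebraMap R L)).toSubring (gring j h))) := by
  classical
  have hRz := hR.zero
  have hRf := hR.finite
  have hRN : IsNoetherianRing R := Algebra.FiniteType.isNoetherianRing ℤ R
  have hTz : CharZero T := charZero_of_injective_ringHom hiT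
  have hLz : CharZero L := charZero_of_injective_ringHom hiL
  have hTi : Algebra.FiniteType ℤ T := Algebra.FiniteType.trans (S := R) hRf hT
  have hSi : Algebra.FiniteType ℤ S := Algebra.FiniteType.trans (S := R) hRf hS
  have hθ : Function.Injective ((j : S →+* L).comp (φ : T →+* S)) := hj.comp hφ
  have hφb : φ b ≠ 0 := (map_ne_zero_iff φ hφ).2 hb
  have hgb : g * φ b ≠ 0 := mul_ne_zero hg hφb
  have hO := vert_gring hiL φ j hφ hj hb hg hgeo.ufd hirr
  have hAw := away_gring hiL j hj hgh hh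
  have hGh := genF_gring hiL φ j hφ hj hb hh
  have hGg := genF_gring' hiL φ j hφ hj hb hg
  have hBN := noeth_gring hS hiL j hj hh
  have hON := noeth_gring hS hiL j hj hgb
  obtain ⟨hfin, hUF, H, hH, hiso, hrk⟩ := side_cls hF hB hGh hAh (coord_fg hS φ j h) hBN
  obtain ⟨hPf, hPr⟩ := unit_gring hiL (j.comp φ) (hj.comp hφ) hb hgeo
  have hK : ∀ x ∈ fieldOf (algebraMap R L), x ∈ gring (j.comp φ) b := fun x hx =>
    Subring.subset_closure (Or.inl (Or.inl hx))
  obtain ⟨hBf, hBr⟩ := unit_rank (fieldOf (algebraMap R L)) hK hB hGh hPf hUF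
  have hle : coordRing (fieldOf ((j : S →+* L).comp (φ : T →+* S))) (j : S →+* L) g ≤
      coordRing (fieldOf ((j : S →+* L).comp (φ : T →+* S))) (j : S →+* L) h := by
    refine Subring.closure_le.2 ?_
    rintro x ((hx | ⟨y, rfl⟩) | hx)
    · exact Subring.subset_closure (Or.inl (Or.inl hx))
    · exact Subring.subset_closure (Or.inl (Or.inr ⟨y, rfl⟩))
    · have hx' : x = ((j : S →+* L) g)⁻¹ := hx
      have h1 : (j (g * φ b))⁻¹ ∈ gring j (g * φ b) :=
        Subring.subset_closure (Or.inr rfl)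
      have h2 : j (φ b) ∈ gring j (g * φ b) :=
        Subring.subset_closure (Or.inl (Or.inr ⟨φ b, rfl⟩))
      have h3 : x = j (φ b) * (j (g * φ b))⁻¹ := by
        have h4 : j (φ b) ≠ 0 := (map_ne_zero_iff j hj).2 hφb
        rw [hx', map_mul, mul_inv, mul_comm, mul_assoc, inv_mul_cancel₀ h4, mul_one]
        rfl
      rw [SetLike.mem_coe, h3]
      exact hGh.le (hAw.le (mul_mem h2 h1))
  have hcard := out_card hle hGh hB.sub hfin
  have hcomp := comp_count hO hB hAw hGg hAg
  refine ⟨hfin.subset fun V hV h1 => hV fun x hx => h1 (hle hx), hBf, H, hH, hiso,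
    hrk, fun A _ ψ hA => ?_⟩
  obtain ⟨D₁, hD₁, hk1⟩ := hk
  have hdimT : Algebra.trdeg R T = (n : Cardinal) := (trdeg_away_R hiT hb).symm.trans hgeo.dim
  obtain ⟨D₂, hD₂, hk2⟩ := count_diff hR hS hiL φ j hφ hj hF hb hdimT hg hh hgh hO hB
  refine ⟨D₁ * D₂, mul_ne_zero hD₁ hD₂, fun D hD hDD => ?_⟩
  have m1 := hk1 D hD ((dvd_mul_right _ _).trans hDD)
  have m2 := hk2 D hD ((dvd_mul_left _ _).trans hDD)
  have hDb : algebraMap R T D * b ≠ 0 := mul_ne_zero ((map_ne_zero_iff _ hiT).2 hD) hb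
  have hTd : Algebra.trdeg ℤ T = ((n + d : ℕ) : Cardinal) := by
    have h1 := trdeg_tower (R := R) (S := T) hiT hR.dim hdimT
    rwa [add_comm] at h1
  have m3 : Quad.TauMean (fun p : ℕ => (Nat.card {τ : T →+* ZMod p //
      τ (algebraMap R T D * b) ≠ 0} : ℝ) / (p : ℝ) ^ (n + d)) 1 :=
    LW.langWeil T (n + d) hTd _ hDb
  have hOf : Finite (Outside (fieldOf ((j : S →+* L).comp (φ : T →+* S)))
      (coordRing (fieldOf ((j : S →+* L).comp (φ : T →+* S))) (j : S →+* L) g)) :=
    hfin.subset fun V hV h1 => hV fun x hx => h1 (hle hx)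
  have := Fintype.ofFinite (Outside (fieldOf ((j : S →+* L).comp (φ : T →+* S)))
      (coordRing (fieldOf ((j : S →+* L).comp (φ : T →+* S))) (j : S →+* L) g))
  have m4 := Quad.TauMean.sum Finset.univ (fun V (p : ℕ) =>
    (Nat.card {ρ : A V →+* ZMod p // ρ (ψ V (algebraMap R T D * b)) ≠ 0} : ℝ) /
      (p : ℝ) ^ (n + d)) (fun _ => 1) fun V _ => model_mean hTi hTd hθ hF.tr (hA V) hDb
  have hAf : ∀ V, Algebra.FiniteType ℤ (A V) := fun V =>
    (model_data hTi hTd hθ hF.tr (hA V)).2.2.2.1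
  have m5 := ((m3.sub m4).sub m1).sub m2
  simp only [Finset.sum_const, Finset.card_univ, nsmul_eq_mul, mul_one] at m5
  have hval : (1 : ℝ) - Fintype.card (Outside (fieldOf ((j : S →+* L).comp (φ : T →+* S)))
      (coordRing (fieldOf ((j : S →+* L).comp (φ : T →+* S))) (j : S →+* L) g)) - e -
      ncomp (Ideal.span {(⟨j h, hAw.mem⟩ : gring j (g * φ b))}) =
      1 - Module.finrank ℤ H -
        Module.finrank ℤ (UM (fieldOf (algebraMap R L)).toSubring (gring j h)) := by
    rw [hBr, hPr, hcomp, ← Nat.card_eq_fintype_card, Nat.card_coe_set_eq]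
    have h1 := congrArg (Nat.cast : ℕ → ℝ) (hrk.trans hcard)
    push_cast at h1 ⊢
    linarith
  rw [hval] at m5
  refine m5.congr' 0 fun p _ hp => ?_
  rw [avg_countD hTi hSi φ g A hAf ψ b D d n hp, finsum_eq_sum_of_fintype]
  ring

end Pool.Agent.Lib.MP_1a0ddd_nt.Tf
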