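import Pool.Agent.Lib.MP_1a0ddd_nt.Tf.ADefs
import Pool.Agent.Lib.MP_1a0ddd_nt.Nc.Shr
import Pool.Agent.Lib.MP_1a0ddd_nt.Un.Defs

/-! The coordinate rings of open subsets of the generic fibre over `Spec R`, inside the function
field. -/

set_option autoImplicit false
set_option linter.unusedSectionVars false
set_option linter.unusedVariables false

namespace Pool.Agent.Lib.MP_1a0ddd_nt.Tf

open Pool.Agent.Lib.MP_1a0ddd_nt.Nc Pool.Agent.Lib.MP_1a0ddd_nt.Cf
  Pool.Agent.Lib.MP_1a0ddd_nt.Fb Pool.Agent.Lib.MP_1a0ddd_nt.Cn Pool.Agent.Lib.MP_1a0ddd_nt.Un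

variable {R T S L : Type} [CommRing R] [IsDomain R] [CommRing T] [CommRing S] [Field L]
  [Algebra R T] [Algebra R S] [Algebra R L]

/-! ### Auxiliary lemmas -/

private theorem fld_quot {X : Type} [CommRing X] [Nontrivial X] {θ : X →+* L}
    (hθ : Function.Injective θ) {y : L} (hy : y ∈ fieldOf θ) :
    ∃ a b : X, b ≠ 0 ∧ y * θ b = θ a := by
  rw [fieldOf, Subfield.mem_closure_iff] at hy
  obtain ⟨u, hu, w, hw, rfl⟩ := hy
  have e : Subring.closure (Set.range θ) = θ.range := by
    rw [← RingHom.coe_range, Subring.closure_eq]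
  rw [e] at hu hw
  obtain ⟨a, rfl⟩ := hu
  obtain ⟨b, rfl⟩ := hw
  by_cases hb : b = 0
  · refine ⟨0, 1, one_ne_zero, ?_⟩
    rw [hb, map_zero, div_zero, zero_mul]
  · refine ⟨a, b, hb, ?_⟩
    rw [div_mul_cancel₀]
    exact (map_ne_zero_iff _ hθ).2 hb

private theorem fld_mem (r : R) : algebraMap R L r ∈ fieldOf (algebraMap R L) :=
  Subfield.subset_closure ⟨r, rfl⟩

private theorem gmem_fld (j : S →ₐ[R] L) (g : S) {x : L} (hx : x ∈ fieldOf (algebraMap R L)) :
    x ∈ gring j g :=
  Subring.subset_closure (Or.inl (Or.inl hx))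

private theorem gmem_map (j : S →ₐ[R] L) (g s : S) : j s ∈ gring j g :=
  Subring.subset_closure (Or.inl (Or.inr ⟨s, rfl⟩))

private theorem gmem_inv (j : S →ₐ[R] L) (g : S) : (j g)⁻¹ ∈ gring j g :=
  Subring.subset_closure (Or.inr rfl)

private theorem gring_le (j : S →ₐ[R] L) {g : S} {A : Subring L}
    (h0 : ∀ x ∈ fieldOf (algebraMap R L), x ∈ A) (h1 : ∀ s, j s ∈ A) (h2 : (j g)⁻¹ ∈ A) :
    gring j g ≤ A := by
  rw [gring, coordRing, Subring.closure_le]
  rintro x ((hx | ⟨s, rfl⟩) | hx)
  · exact h0 x hx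
  · exact h1 s
  · rw [Set.mem_singleton_iff.1 hx]
    exact h2

/-- the elements are the `j s / (r j(g)^m)` -/
theorem mem_gring (hi : Function.Injective (algebraMap R L)) (j : S →ₐ[R] L) {g : S}
    (hg : j g ≠ 0) (z : L) : z ∈ gring j g ↔
      ∃ (s : S) (r : R) (m : ℕ), r ≠ 0 ∧ z * (algebraMap R L r * j g ^ m) = j s := by
  constructor
  · intro hz
    unfold gring coordRing at hz
    induction hz using Subring.closure_induction with
    | mem x hx =>
      rcases hx with (hx | ⟨s, rfl⟩) | hx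
      · obtain ⟨a, b, hb, h⟩ := fld_quot hi hx
        refine ⟨algebraMap R S a, b, 0, hb, ?_⟩
        rw [pow_zero, mul_one, h, j.commutes]
      · refine ⟨s, 1, 0, one_ne_zero, ?_⟩
        rw [map_one, pow_zero, mul_one, mul_one]
        rfl
      · rw [Set.mem_singleton_iff.1 hx]
        refine ⟨1, 1, 1, one_ne_zero, ?_⟩
        rw [map_one, one_mul, pow_one, map_one]
        exact inv_mul_cancel₀ hg
    | zero => exact ⟨0, 1, 0, one_ne_zero, by rw [zero_mul, map_zero]⟩
    | one => exact ⟨1, 1, 0, one_ne_zero, by rw [map_one, pow_zero, mul_one, mul_one, map_one]⟩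
    | add x y _ _ hx hy =>
      obtain ⟨s, r, m, hr, h⟩ := hx
      obtain ⟨s', r', m', hr', h'⟩ := hy
      refine ⟨s * (algebraMap R S r' * g ^ m') + s' * (algebraMap R S r * g ^ m), r * r', m + m',
        mul_ne_zero hr hr', ?_⟩
      simp only [map_add, map_mul, map_pow, j.commutes, ← h, ← h', pow_add]
      ring
    | neg x _ hx =>
      obtain ⟨s, r, m, hr, h⟩ := hx
      exact ⟨-s, r, m, hr, by rw [neg_mul, h, map_neg]⟩
    | mul x y _ _ hx hy =>
      obtain ⟨s, r, m, hr, h⟩ := hx
      obtain ⟨s', r', m', hr', h'⟩ := hy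
      refine ⟨s * s', r * r', m + m', mul_ne_zero hr hr', ?_⟩
      simp only [map_mul, ← h, ← h', pow_add]
      ring
  · rintro ⟨s, r, m, hr, h⟩
    have hr' : algebraMap R L r ≠ 0 := (map_ne_zero_iff _ hi).2 hr
    have h5 : z = j s * ((algebraMap R L r)⁻¹ * ((j g)⁻¹) ^ m) := by
      rw [← h, inv_pow, ← mul_inv, mul_inv_cancel_right₀ (mul_ne_zero hr' (pow_ne_zero m hg))]
    rw [h5]
    exact mul_mem (gmem_map j g s) (mul_mem (gmem_fld j g (inv_mem (fld_mem r)))
      (pow_mem (gmem_inv j g) m))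

/-- `gring j g` is a model of `S[1/g]` -/
theorem kmodel_gring (hi : Function.Injective (algebraMap R L)) (j : S →ₐ[R] L)
    (hj : Function.Injective j) {g : S} (hg : g ≠ 0) :
    ∃ (k : Localization.Away g →+* gring j g) (κ : FractionRing R →+* gring j g),
      (∀ s : S, ((k (algebraMap S (Localization.Away g) s) : gring j g) : L) = j s) ∧
      (∀ r : R, ((κ (algebraMap R (FractionRing R) r) : gring j g) : L) = algebraMap R L r) ∧
      KModel R k κ := by
  have hg' : j g ≠ 0 := (map_ne_zero_iff _ hj).2 hg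
  -- the embedding of `S[1/g]`
  obtain ⟨J, j1, j2, j3⟩ : ∃ J : Localization.Away g →+* L,
      (∀ s, J (algebraMap S (Localization.Away g) s) = j s) ∧ Function.Injective J ∧
        ∀ (s : S) (m : ℕ), ∃ x, J x * j g ^ m = j s := by
    have hu : ∀ y : Submonoid.powers g, IsUnit ((j : S →+* L) y) := by
      rintro ⟨_, n, rfl⟩
      refine IsUnit.mk0 _ ?_
      show (j : S →+* L) (g ^ n) ≠ 0
      rw [map_pow]
      exact pow_ne_zero n hg'
    have e1 : ∀ s, IsLocalization.lift hu (algebraMap S (Localization.Away g) s) = j s :=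
      fun s => IsLocalization.lift_eq hu s
    refine ⟨IsLocalization.lift hu, e1, ?_, ?_⟩
    · rw [injective_iff_map_eq_zero]
      intro x hx
      obtain ⟨b, m, rfl⟩ := IsLocalization.exists_mk'_eq (Submonoid.powers g) x
      have h1 : IsLocalization.lift hu (IsLocalization.mk' (Localization.Away g) b m *
          algebraMap S (Localization.Away g) m) = 0 := by
        rw [map_mul, hx, zero_mul]
      rw [IsLocalization.mk'_spec, e1] at h1
      have h2 : b = 0 := hj (by rw [h1, map_zero])
      rw [h2, IsLocalization.mk'_zero]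
    · intro s m
      refine ⟨algebraMap S (Localization.Away g) s * IsLocalization.Away.invSelf g ^ m, ?_⟩
      rw [map_mul, e1, mul_assoc, ← e1 g, map_pow, ← mul_pow, ← map_mul, mul_comm _ (algebraMap _ _ g),
        IsLocalization.Away.mul_invSelf, map_one, one_pow, mul_one]
  have m1 : ∀ x, J x ∈ gring j g := by
    intro x
    obtain ⟨s, ⟨_, n, rfl⟩, rfl⟩ := IsLocalization.exists_mk'_eq (Submonoid.powers g) x
    have h1 : J (IsLocalization.mk' (Localization.Away g) s (⟨g ^ n, n, rfl⟩ : Submonoid.powers g)) *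
        j g ^ n = j s := by
      rw [← map_pow, ← j1, ← j1, ← map_mul, IsLocalization.mk'_spec]
    have h2 : J (IsLocalization.mk' (Localization.Away g) s
        (⟨g ^ n, n, rfl⟩ : Submonoid.powers g)) = j s * ((j g)⁻¹) ^ n := by
      rw [← h1, inv_pow, mul_inv_cancel_right₀ (pow_ne_zero n hg')]
    rw [h2]
    exact mul_mem (gmem_map j g s) (pow_mem (gmem_inv j g) n)
  -- the embedding of the fraction field of `R`
  obtain ⟨K, k1⟩ : ∃ K : FractionRing R →+* L,
      ∀ r : R, K (algebraMap R (FractionRing R) r) = algebraMap R L r :=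
    ⟨IsFractionRing.lift hi, fun r => IsFractionRing.lift_algebraMap hi r⟩
  have m2 : ∀ x, K x ∈ gring j g := by
    intro x
    obtain ⟨a, b, hb, rfl⟩ := IsFractionRing.div_surjective (A := R) x
    rw [map_div₀, k1, k1]
    exact gmem_fld j g (div_mem (fld_mem a) (fld_mem b))
  refine ⟨J.codRestrict _ m1, K.codRestrict _ m2, fun s => j1 s, fun r => k1 r, ?_, ?_, ?_⟩
  · intro x y h
    exact j2 (congrArg Subtype.val h)
  · intro r
    apply Subtype.ext
    show K (algebraMap R (FractionRing R) r) = J (algebraMap R (Localization.Away g) r)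
    rw [k1, IsScalarTower.algebraMap_apply R S (Localization.Away g), j1, j.commutes]
  · rintro ⟨z, hz⟩
    obtain ⟨s, r, m, hr, h⟩ := (mem_gring hi j hg' z).1 hz
    obtain ⟨x, hx⟩ := j3 s m
    refine ⟨x, r, hr, ?_⟩
    apply Subtype.ext
    show z * J (algebraMap R (Localization.Away g) r) = J x
    rw [IsScalarTower.algebraMap_apply R S (Localization.Away g), j1, j.commutes]
    apply mul_right_cancel₀ (pow_ne_zero m hg')
    rw [hx, mul_assoc, h]

theorem noeth_gring [IsNoetherianRing R] (hS : Algebra.FiniteType R S)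
    (hi : Function.Injective (algebraMap R L)) (j : S →ₐ[R] L) (hj : Function.Injective j) {g : S}
    (hg : g ≠ 0) : IsNoetherianRing (gring j g) := by
  have h1 : IsNoetherianRing S := Algebra.FiniteType.isNoetherianRing R S
  have h2 : IsNoetherianRing (Localization.Away g) :=
    IsLocalization.isNoetherianRing (Submonoid.powers g) (Localization.Away g) h1
  obtain ⟨k, κ, -, -, h⟩ := kmodel_gring hi j hj hg
  exact kmodel_noetherian h

/-- a smaller open subset -/
theorem away_gring (hi : Function.Injective (algebraMap R L)) (j : S →ₐ[R] L)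
    (hj : Function.Injective j) {g h : S} (hgh : g ∣ h) (hh : h ≠ 0) :
    Away (gring j g) (gring j h) (j h) := by
  have hh' : j h ≠ 0 := (map_ne_zero_iff _ hj).2 hh
  refine ⟨gmem_map j g h, hh', ?_, gmem_inv j h, ?_⟩
  · refine gring_le j (fun x hx => gmem_fld j h hx) (fun s => gmem_map j h s) ?_
    obtain ⟨c, rfl⟩ := hgh
    have hc : j c ≠ 0 := by
      rw [map_mul] at hh'
      exact right_ne_zero_of_mul hh'
    have h1 : (j g)⁻¹ = j c * (j (g * c))⁻¹ := by
      rw [map_mul, mul_inv, mul_comm (j g)⁻¹, ← mul_assoc, mul_inv_cancel₀ hc, one_mul]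
    rw [h1]
    exact mul_mem (gmem_map j _ c) (gmem_inv j _)
  · intro x hx
    obtain ⟨s, r, m, hr, e⟩ := (mem_gring hi j hh' x).1 hx
    have hr' : algebraMap R L r ≠ 0 := (map_ne_zero_iff _ hi).2 hr
    refine ⟨m, ?_⟩
    have h1 : x * j h ^ m = j s * (algebraMap R L r)⁻¹ := by
      rw [← e]
      field_simp
    rw [h1]
    exact mul_mem (gmem_map j g s) (gmem_fld j g (inv_mem (fld_mem r)))

/-- the equation of the open subset matters only up to units -/
theorem gring_mul (hi : Function.Injective (algebraMap R L)) (j : S →ₐ[R] L)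
    (hj : Function.Injective j) {h y : S} (hh : h ≠ 0) (hy : y ≠ 0) (hyh : (j y)⁻¹ ∈ gring j h) :
    gring j (h * y) = gring j h := by
  have hy' : j y ≠ 0 := (map_ne_zero_iff _ hj).2 hy
  apply le_antisymm
  · refine gring_le j (fun x hx => gmem_fld j h hx) (fun s => gmem_map j h s) ?_
    rw [map_mul, mul_inv]
    exact mul_mem (gmem_inv j h) hyh
  · refine gring_le j (fun x hx => gmem_fld j _ hx) (fun s => gmem_map j _ s) ?_
    have h1 : (j h)⁻¹ = j y * (j (h * y))⁻¹ := by
      rw [map_mul, mul_inv, mul_comm (j h)⁻¹, ← mul_assoc, mul_inv_cancel₀ hy', one_mul]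
    rw [h1]
    exact mul_mem (gmem_map j _ y) (gmem_inv j _)

/-- equal subalgebras have equal generic fibres -/
theorem gring_loc {S' : Type} [CommRing S'] [Algebra R S']
    (hi : Function.Injective (algebraMap R L)) (j : S →ₐ[R] L) (j' : S' →ₐ[R] L)
    {h : S} {h' : S'} (hh : j h ≠ 0) (hh' : j' h' ≠ 0) (hl : loc j h = loc j' h') :
    gring j h = gring j' h' := by
  have key : ∀ {A B : Type} [CommRing A] [Algebra R A] [CommRing B] [Algebra R B]
      (k : A →ₐ[R] L) (k' : B →ₐ[R] L) (a : A) (b : B), loc k a ≤ loc k' b →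
      gring k a ≤ gring k' b := by
    intro A B _ _ _ _ k k' a b h1
    have h2 : ∀ z ∈ loc k' b, z ∈ gring k' b := by
      intro z hz
      unfold loc at hz
      induction hz using Algebra.adjoin_induction with
      | mem x hx =>
        rcases hx with ⟨s, rfl⟩ | hx
        · exact gmem_map k' b s
        · rw [Set.mem_singleton_iff.1 hx]
          exact gmem_inv k' b
      | algebraMap r => exact gmem_fld k' b (fld_mem r)
      | add x y _ _ hx hy => exact add_mem hx hy
      | mul x y _ _ hx hy => exact mul_mem hx hy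
    refine gring_le k (fun x hx => gmem_fld k' b hx) (fun s => h2 _ (h1 ?_)) (h2 _ (h1 ?_))
    · exact Algebra.subset_adjoin (Or.inl ⟨s, rfl⟩)
    · exact Algebra.subset_adjoin (Or.inr rfl)
  exact le_antisymm (key j j' h h' hl.le) (key j' j h' h hl.ge)

end Pool.Agent.Lib.MP_1a0ddd_nt.Tf
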