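import Pool.Agent.Lib.MP_1a0ddd_nt.Nc.Par

/-! A field is algebraically closed in the function field of a conic. -/

set_option autoImplicit false

namespace Pool.Agent.Lib.MP_1a0ddd_nt.Tf

open Nc Polynomial

/-- the elements of `F(x, y)` are of the form `(P(x) + Q(x) y) / R(x)` -/
private theorem ccl_rep {L : Type} [Field L] [CharZero L] (F : Subfield L) {a b c x y : L}
    (ha : a ∈ F) (hb : b ∈ F) (hc : c ∈ F) (hx : Transcendental F x)
    (hy : y ^ 2 = a * x ^ 2 + 2 * b * x + c) {z : L}
    (hz : z ∈ Subfield.closure ((F : Set L) ∪ {x, y})) :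
    ∃ P Q R : F[X], R ≠ 0 ∧ aeval x R * z = aeval x P + aeval x Q * y := by
  have hev : ∀ {p : F[X]}, aeval x p = 0 → p = 0 := fun {p} h => by
    by_contra h1
    exact hx ⟨p, h1, h⟩
  obtain ⟨f, hf⟩ : ∃ f : F[X], aeval x f = y ^ 2 := by
    refine ⟨C ⟨a, ha⟩ * X ^ 2 + 2 * C ⟨b, hb⟩ * X + C ⟨c, hc⟩, ?_⟩
    rw [hy]
    simp only [map_add, map_mul, map_pow, aeval_C, aeval_X, map_ofNat]
    rfl
  induction hz using Subfield.closure_induction with
  | mem z hz =>
    rcases hz with hz | hz | hz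
    · refine ⟨C ⟨z, hz⟩, 0, 1, one_ne_zero, ?_⟩
      rw [map_one, one_mul, map_zero, zero_mul, add_zero, aeval_C]
      rfl
    · refine ⟨X, 0, 1, one_ne_zero, ?_⟩
      rw [map_one, one_mul, map_zero, zero_mul, add_zero, aeval_X, hz]
    · rw [Set.mem_singleton_iff] at hz
      refine ⟨0, 1, 1, one_ne_zero, ?_⟩
      rw [map_one, one_mul, map_zero, zero_add, one_mul, hz]
  | one =>
    refine ⟨1, 0, 1, one_ne_zero, ?_⟩
    rw [map_one, one_mul, map_zero, zero_mul, add_zero]
  | add u v _ _ hu hv =>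
    obtain ⟨P, Q, R, hR, h⟩ := hu
    obtain ⟨P', Q', R', hR', h'⟩ := hv
    refine ⟨R' * P + R * P', R' * Q + R * Q', R * R', mul_ne_zero hR hR', ?_⟩
    simp only [map_add, map_mul]
    linear_combination aeval x R' * h + aeval x R * h'
  | neg u _ hu =>
    obtain ⟨P, Q, R, hR, h⟩ := hu
    refine ⟨-P, -Q, R, hR, ?_⟩
    simp only [map_neg]
    linear_combination -h
  | inv u _ hu =>
    obtain ⟨P, Q, R, hR, h⟩ := hu
    by_cases hu0 : u = 0
    · refine ⟨0, 0, 1, one_ne_zero, ?_⟩
      rw [hu0, inv_zero, mul_zero, map_zero, zero_mul, add_zero]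
    have hR' : aeval x R ≠ 0 := fun h1 => hR (hev h1)
    by_cases hN : P ^ 2 - Q ^ 2 * f = 0
    · have h1 : (aeval x P + aeval x Q * y) * (aeval x P - aeval x Q * y) = 0 := by
        have h2 : aeval x (P ^ 2 - Q ^ 2 * f) = 0 := by rw [hN, map_zero]
        rw [map_sub, map_pow, map_mul, map_pow, hf] at h2
        linear_combination h2
      rw [← h] at h1
      have h3 : aeval x P - aeval x Q * y = 0 :=
        (mul_eq_zero.1 h1).resolve_left (mul_ne_zero hR' hu0)
      have h4 : aeval x R * u = 2 * aeval x P := by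
        rw [h]
        linear_combination -h3
      have h5 : (2 : F[X]) * P ≠ 0 := by
        intro h6
        have h7 : aeval x ((2 : F[X]) * P) = 0 := by rw [h6, map_zero]
        rw [map_mul, map_ofNat, ← h4] at h7
        exact mul_ne_zero hR' hu0 h7
      refine ⟨R, 0, 2 * P, h5, ?_⟩
      rw [map_mul, map_ofNat, map_zero, zero_mul, add_zero, ← h4, mul_assoc,
        mul_inv_cancel₀ hu0, mul_one]
    · refine ⟨R * P, -(R * Q), P ^ 2 - Q ^ 2 * f, hN, ?_⟩
      have h1 : aeval x (P ^ 2 - Q ^ 2 * f) =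
          aeval x R * u * (aeval x P - aeval x Q * y) := by
        rw [map_sub, map_pow, map_mul, map_pow, hf, h]
        ring
      rw [h1, map_mul, map_neg, map_mul]
      have h2 : u * u⁻¹ = 1 := mul_inv_cancel₀ hu0
      linear_combination (aeval x R * (aeval x P - aeval x Q * y)) * h2
  | mul u v _ _ hu hv =>
    obtain ⟨P, Q, R, hR, h⟩ := hu
    obtain ⟨P', Q', R', hR', h'⟩ := hv
    refine ⟨P * P' + Q * Q' * f, P * Q' + Q * P', R * R', mul_ne_zero hR hR', ?_⟩
    simp only [map_add, map_mul, hf]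
    linear_combination (aeval x R' * v) * h + (aeval x P + aeval x Q * y) * h'

/-- Proof: if the conic has a point then `F(x, y) = F(t)`, `t` transcendental (`conic_rational`).
Otherwise let `z` be algebraic over `F`, not in `F`. Then `z` is not in `F(x)`, so `F(x, y) = F(x, z)`
and `z` has degree `2` over `F(x)`, hence over `F`; let `z² = δ` in `F`. Then `y = p + q z`, `p, q` in
`F(x)`, and `y² ∈ F(x)`, so `p = 0` (`q = 0` would give `y ∈ F(x)`, so `a X² + 2 b X + c` would be a
square and `b² = a c`), `a X² + 2 b X + c = δ q²`, and again `b² = a c` -/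
theorem conic_closed {L : Type} [Field L] [CharZero L] (F : Subfield L) {a b c x y : L}
    (ha : a ∈ F) (hb : b ∈ F) (hc : c ∈ F) (hx : Transcendental F x) (hne : b ^ 2 ≠ a * c)
    (hy : y ^ 2 = a * x ^ 2 + 2 * b * x + c) {z : L}
    (hz : z ∈ Subfield.closure ((F : Set L) ∪ {x, y})) (hz' : IsAlgebraic F z) : z ∈ F := by
  obtain ⟨P, Q, R, hR, h⟩ := ccl_rep F ha hb hc hx hy hz
  -- the algebraic closure of `F` in `L`
  let K := algebraicClosure F L
  have hxK : Transcendental K x := by
    intro h1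
    have : Algebra.IsAlgebraic F K := inferInstance
    exact hx (IsAlgebraic.restrictScalars F h1)
  have hevK : ∀ {p : K[X]}, aeval x p = 0 → p = 0 := fun {p} h => by
    by_contra h1
    exact hxK ⟨p, h1, h⟩
  have hzK : z ∈ K := mem_algebraicClosure_iff.2 hz'
  have hmap : ∀ p : F[X], aeval x (p.map (algebraMap F K)) = aeval x p := fun p =>
    aeval_map_algebraMap K x p
  have haK : (a : L) ∈ K := K.algebraMap_mem ⟨a, ha⟩
  have hbK : (b : L) ∈ K := K.algebraMap_mem ⟨b, hb⟩
  have hcK : (c : L) ∈ K := K.algebraMap_mem ⟨c, hc⟩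
  have key : (C (⟨z, hzK⟩ : K) * R.map (algebraMap F K) - P.map (algebraMap F K)) ^ 2 =
      (Q.map (algebraMap F K)) ^ 2 *
        (C (⟨a, haK⟩ : K) * X ^ 2 + 2 * C (⟨b, hbK⟩ : K) * X + C (⟨c, hcK⟩ : K)) := by
    rw [← sub_eq_zero]
    apply hevK
    simp only [map_add, map_sub, map_mul, map_pow, aeval_C, aeval_X, map_ofNat, hmap]
    change (z * aeval x R - aeval x P) ^ 2 - (aeval x Q) ^ 2 * (a * x ^ 2 + 2 * b * x + c) = 0
    rw [← hy]
    linear_combination (aeval x R * z - aeval x P + aeval x Q * y) * h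
  by_cases hQ : Q = 0
  · rw [hQ, Polynomial.map_zero, zero_pow two_ne_zero, zero_mul] at key
    have h1 : C (⟨z, hzK⟩ : K) * R.map (algebraMap F K) = P.map (algebraMap F K) :=
      sub_eq_zero.1 (pow_eq_zero_iff two_ne_zero |>.1 key)
    obtain ⟨i, hi⟩ : ∃ i, R.coeff i ≠ 0 := by
      by_contra h2
      push Not at h2
      exact hR (Polynomial.ext fun i => by rw [h2, coeff_zero])
    have h3 := congrArg (fun p : K[X] => ((p.coeff i : K) : L)) h1
    simp only [coeff_C_mul, coeff_map] at h3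
    have h4 : z * (R.coeff i : L) = (P.coeff i : L) := h3
    have h5 : (R.coeff i : L) ≠ 0 := fun h6 => hi (Subtype.ext h6)
    rw [← eq_div_iff h5] at h4
    rw [h4]
    exact F.div_mem (P.coeff i).2 (R.coeff i).2
  · exfalso
    have hQ' : Q.map (algebraMap F K) ≠ 0 := by
      rw [Ne, Polynomial.map_eq_zero]
      exact hQ
    have h1 : Q.map (algebraMap F K) ∣
        C (⟨z, hzK⟩ : K) * R.map (algebraMap F K) - P.map (algebraMap F K) := by
      rw [← IsIntegrallyClosed.pow_dvd_pow_iff two_ne_zero, key]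
      exact Dvd.intro _ rfl
    obtain ⟨g, hg⟩ := h1
    rw [hg, mul_pow] at key
    have h2 := mul_left_cancel₀ (pow_ne_zero 2 hQ') key
    have h3 : g.natDegree ≤ 1 := by
      have h4 := congrArg natDegree h2
      rw [natDegree_pow] at h4
      have h5 : (C (⟨a, haK⟩ : K) * X ^ 2 + 2 * C (⟨b, hbK⟩ : K) * X +
          C (⟨c, hcK⟩ : K)).natDegree ≤ 2 := by
        compute_degree
      omega
    obtain ⟨u, v, huv⟩ := exists_eq_X_add_C_of_natDegree_le_one h3
    rw [huv] at h2
    have e0 := congrArg (fun p : K[X] => ((p.eval 0 : K) : L)) h2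
    have e1 := congrArg (fun p : K[X] => ((p.eval 1 : K) : L)) h2
    have e2 := congrArg (fun p : K[X] => ((p.eval (-1) : K) : L)) h2
    simp only [eval_add, eval_mul, eval_pow, eval_C, eval_X, eval_ofNat] at e0 e1 e2
    push_cast at e0 e1 e2
    have two : (((2 : K)) : L) = 2 := rfl
    rw [two] at e0 e1 e2
    apply hne
    have a1 : (v : L) ^ 2 = c := by linear_combination e0
    have a2 : (u : L) ^ 2 = a := by linear_combination (1 / 2) * e1 + (1 / 2) * e2 - e0
    have a3 : (u : L) * v = b := by linear_combination (1 / 4) * e1 - (1 / 4) * e2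
    rw [← a1, ← a2, ← a3]
    ring

theorem conic_trdeg {L : Type} [Field L] [CharZero L] (F : Subfield L) {a b c x y : L}
    (ha : a ∈ F) (hb : b ∈ F) (hc : c ∈ F) (hx : Transcendental F x)
    (hy : y ^ 2 = a * x ^ 2 + 2 * b * x + c)
    (htop : Subfield.closure ((F : Set L) ∪ {x, y}) = ⊤) : Algebra.trdeg F L = 1 := by
  have h1 : IsTranscendenceBasis F (fun _ : Unit => x) := by
    rw [isTranscendenceBasis_iff_algebraicIndependent_isAlgebraic]
    refine ⟨algebraicIndependent_unique_type_iff.2 hx, ⟨fun z => ?_⟩⟩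
    rw [Set.range_const]
    let A := Algebra.adjoin F ({x} : Set L)
    have hxA : x ∈ A := Algebra.subset_adjoin (Set.mem_singleton x)
    have hz : z ∈ Subfield.closure ((F : Set L) ∪ {x, y}) := by
      rw [htop]
      exact Subfield.mem_top z
    induction hz using Subfield.closure_induction with
    | mem z hz =>
      rcases hz with hz | hz | hz
      · exact isAlgebraic_algebraMap (⟨z, A.algebraMap_mem ⟨z, hz⟩⟩ : A)
      · rw [hz]
        exact isAlgebraic_algebraMap (⟨x, hxA⟩ : A)
      · rw [Set.mem_singleton_iff] at hz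
        rw [hz]
        have h2 : y ^ 2 ∈ A := by
          rw [hy]
          refine A.add_mem (A.add_mem (A.mul_mem (A.algebraMap_mem ⟨a, ha⟩) (A.pow_mem hxA 2))
            (A.mul_mem (A.mul_mem (ofNat_mem _ 2) (A.algebraMap_mem ⟨b, hb⟩)) hxA))
            (A.algebraMap_mem ⟨c, hc⟩)
        have h3 : IsAlgebraic A (y ^ 2) := isAlgebraic_algebraMap (⟨y ^ 2, h2⟩ : A)
        exact h3.of_pow two_pos
    | one => exact isAlgebraic_one
    | add u v _ _ hu hv => exact hu.add hv
    | neg u _ hu => exact hu.neg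
    | inv u _ hu => exact hu.inv
    | mul u v _ _ hu hv => exact hu.mul hv
  have h2 := h1.lift_cardinalMk_eq_trdeg
  simpa using h2.symm

end Pool.Agent.Lib.MP_1a0ddd_nt.Tf
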