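import Pool.Agent.Lib.MP_1a0ddd_nt.Nc.Sta
import Pool.Agent.Lib.MP_1a0ddd_nt.Un.Defs

/-! Two fibrations in curves: the statement. -/

set_option autoImplicit false

namespace Pool.Agent.Lib.MP_1a0ddd_nt.Tf

open Pool.Agent.Lib.MP_1a0ddd_nt.Nc Pool.Agent.Lib.MP_1a0ddd_nt.Cf

/-- a variety `Spec W` over `Spec R`: a finitely generated domain `W` over `R`, with `R ⊆ W` -/
structure Dom (R : Type) [CommRing R] where
  W : Type
  [ring : CommRing W]
  [dom : IsDomain W]
  [alg : Algebra R W]
  inj : Function.Injective (algebraMap R W)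
  fin : Algebra.FiniteType R W

attribute [instance] Dom.ring Dom.dom Dom.alg

section
variable {R : Type} [CommRing R]

/-- `L` is the field `F`, or the function field of a conic `y² = a x² + 2 b x + c` over `F` -/
def ConicExt {L : Type} [Field L] (F : Subfield L) : Prop :=
  F = ⊤ ∨ ∃ a ∈ F, ∃ b ∈ F, ∃ c ∈ F, ∃ x y : L, Transcendental F x ∧ b ^ 2 ≠ a * c ∧
    y ^ 2 = a * x ^ 2 + 2 * b * x + c ∧ Subfield.closure ((F : Set L) ∪ {x, y}) = ⊤

/-- `L` is, over `R`, the function field of `A`, or of a conic over the function field of `A` -/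
def Emb (A : Dom R) (L : Type) [Field L] [Algebra R L] : Prop :=
  ∃ i : A.W →ₐ[R] L, Function.Injective i ∧ ConicExt (fieldOf (i : A.W →+* L))

/-- `B` is birational over `R` to `A`, or to a bundle of conics over `A` -/
def Over (A B : Dom R) : Prop := Emb A (FractionRing B.W)

/-- the equivalence relation generated by `Over` -/
def Linked (A B : Dom R) : Prop := Relation.EqvGen Over A B

/-- `Spec R` itself -/
def base (R : Type) [CommRing R] [IsDomain R] : Dom R where
  W := R
  inj := Function.injective_id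
  fin := inferInstance

/-- `A` and `B` have the same function field -/
def Birat (A B : Dom R) : Prop := Nonempty (FractionRing A.W ≃ₐ[R] FractionRing B.W)

/-- over the fraction field `K` of `R` the coordinate ring of an open subset `h ≠ 0` of `Spec A` is
factorial, with units `K^* × ℤ^e` -/
def Fac [IsDomain R] (A : Dom R) : Prop :=
  ∃ h : A.W, h ≠ 0 ∧ ∃ n e : ℕ, Un.Geo R (Localization.Away h) n e

/-- the abelian groups `A` and `A'` become isomorphic after dividing by finitely generated subgroups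
`H` and `H'`, and `r` is the rank of `H'` minus the rank of `H` -/
def RankDiff (A A' : Type) [AddCommGroup A] [AddCommGroup A'] (r : ℤ) : Prop :=
  ∃ (H : AddSubgroup A) (H' : AddSubgroup A'), H.FG ∧ H'.FG ∧ Nonempty ((A ⧸ H) ≃+ (A' ⧸ H')) ∧
    (Module.finrank ℤ H' : ℤ) - Module.finrank ℤ H = r

/-- if the abelian group `A` is finitely generated then so is `A'`, and `r` is the difference of the
ranks -/
def FinDiff (A A' : Type) [AddCommGroup A] [AddCommGroup A'] (r : ℤ) : Prop :=
  Module.Finite ℤ A → Module.Finite ℤ A' ∧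
    r = (Module.finrank ℤ A' : ℤ) - Module.finrank ℤ A

/-- both -/
def RankEq (A A' : Type) [AddCommGroup A] [AddCommGroup A'] (r : ℤ) : Prop :=
  RankDiff A A' r ∧ FinDiff A A' r

/-- the map from the coordinate ring to the function field -/
noncomputable def toFrac (S : Dom R) : S.W →+* FractionRing S.W := algebraMap S.W (FractionRing S.W)

/-- the function field of `T`, inside that of `S` -/
noncomputable def fld {T S : Dom R} (φ : T.W →ₐ[R] S.W) : Subfield (FractionRing S.W) :=
  fieldOf ((toFrac S).comp (φ : T.W →+* S.W))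

/-- `Spec S → Spec T` is a fibration in curves with geometrically irreducible generic fibre -/
structure Fib {T S : Dom R} (φ : T.W →ₐ[R] S.W) : Prop where
  inj : Function.Injective φ
  dim : Algebra.trdeg (fld φ) (FractionRing S.W) = 1
  closed : RelClosed (fld φ)

/-- the coordinate ring of the open subset `g ≠ 0` of the generic fibre -/
noncomputable def crd {T S : Dom R} (φ : T.W →ₐ[R] S.W) (g : S.W) : Subring (FractionRing S.W) :=
  coordRing (fld φ) (toFrac S) g

/-- the open subset `g ≠ 0` of the generic fibre is affine and regular, with finite complement in the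
complete regular curve `C` with the same function field -/
def Good {T S : Dom R} (φ : T.W →ₐ[R] S.W) (g : S.W) : Prop :=
  IsDedekindDomain (crd φ g) ∧ (Outside (fld φ) (crd φ g)).Finite

/-- models `A V` of the residue fields at the closed points of `C` outside this open subset -/
def Models {T S : Dom R} (φ : T.W →ₐ[R] S.W) (g : S.W) (A : Outside (fld φ) (crd φ g) → Type)
    [∀ V, CommRing (A V)] (ψ : ∀ V, T.W →+* A V) : Prop :=
  ∀ V, Model ((toFrac S).comp (φ : T.W →+* S.W)) V.1 (ψ V)

/-- the residue fields at all closed points of `C` have models -/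
def HasModels {T S : Dom R} (φ : T.W →ₐ[R] S.W) : Prop :=
  ∀ V : Place (fld φ), ∃ (A : Type) (_ : CommRing A) (ψ : T.W →+* A),
    Model ((toFrac S).comp (φ : T.W →+* S.W)) V ψ

/-- for all models, the mean of the difference of the averages over the open subsets `b ≠ 0` and
`b' ≠ 0` of the bases of the traces of Frobenius is `r` -/
def MeanOf {T S T' S' : Dom R} (φ : T.W →ₐ[R] S.W) (φ' : T'.W →ₐ[R] S'.W) (e e' : ℕ) (r : ℤ)
    (g : S.W) (g' : S'.W) (b : T.W) (b' : T'.W) : Prop :=
  ∀ (A : Outside (fld φ) (crd φ g) → Type) [∀ V, CommRing (A V)] (ψ : ∀ V, T.W →+* A V)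
    (A' : Outside (fld φ') (crd φ' g') → Type) [∀ V, CommRing (A' V)]
    (ψ' : ∀ V, T'.W →+* A' V), Models φ g A ψ → Models φ' g' A' ψ' →
    Quad.TauMean (fun p => avg b e p (trace (φ : T.W →+* S.W) g A ψ p) -
      avg b' e' p (trace (φ' : T'.W →+* S'.W) g' A' ψ' p)) r

/-- the mean of the difference of the averages of the traces of Frobenius is `r`, for all small open
subsets `g ≠ 0`, `g' ≠ 0` of the total spaces and `b ≠ 0`, `b' ≠ 0` of the bases, and all models -/
def DiffMean {T S T' S' : Dom R} (φ : T.W →ₐ[R] S.W) (φ' : T'.W →ₐ[R] S'.W) (e e' : ℕ)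
    (r : ℤ) : Prop :=
  ∃ g₀ : S.W, g₀ ≠ 0 ∧ ∃ g₀' : S'.W, g₀' ≠ 0 ∧
    ∀ g : S.W, g ≠ 0 → g₀ ∣ g → ∀ g' : S'.W, g' ≠ 0 → g₀' ∣ g' → Good φ g ∧ Good φ' g' ∧
    ∃ b₀ : T.W, b₀ ≠ 0 ∧ ∃ b₀' : T'.W, b₀' ≠ 0 ∧
    ∀ b : T.W, b ≠ 0 → b₀ ∣ b → ∀ b' : T'.W, b' ≠ 0 → b₀' ∣ b' → MeanOf φ φ' e e' r g g' b b'

/-- Q1 for the difference of two fibrations in curves `Spec S → Spec T` and `Spec S' → Spec T'` with
generic fibres `C` and `C'` -/
structure Same {T S T' S' : Dom R} (φ : T.W →ₐ[R] S.W) (φ' : T'.W →ₐ[R] S'.W) (e e' : ℕ) :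
    Prop where
  models : HasModels φ ∧ HasModels φ'
  mean : ∃ r : ℤ, DiffMean φ φ' e e' r ∧ RankEq (ClGp (fld φ)) (ClGp (fld φ')) r

end

end Pool.Agent.Lib.MP_1a0ddd_nt.Tf
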