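import Pool.Agent.Lib.MP_1a0ddd_nt.Tf.KB
import Pool.Agent.Lib.MP_1a0ddd_nt.Tf.Defs
import Pool.Agent.Lib.MP_1a0ddd_nt.Nc.Stp

/-! Towers of conics. -/

set_option autoImplicit false

namespace Pool.Agent.Lib.MP_1a0ddd_nt.Tf

open Polynomial Pool.Agent.Lib.MP_1a0ddd_nt.V Pool.Agent.Lib.MP_1a0ddd_nt.Fb
  Pool.Agent.Lib.MP_1a0ddd_nt.Cn Pool.Agent.Lib.MP_1a0ddd_nt.Un Pool.Agent.Lib.MP_1a0ddd_nt.Nc

/-- `L` is the function field of a tower of `m` conics over the field `K` -/
def Tower {L : Type} [Field L] (K : Subfield L) (m : ℕ) : Prop :=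
  ∃ F : ℕ → Subfield L, F 0 = K ∧ F m = ⊤ ∧
    ∀ i < m, ∃ a ∈ F i, ∃ b ∈ F i, ∃ c ∈ F i, ∃ x y : L, Transcendental (F i) x ∧
      b ^ 2 ≠ a * c ∧ y ^ 2 = a * x ^ 2 + 2 * b * x + c ∧
      F (i + 1) = Subfield.closure ((F i : Set L) ∪ {x, y})

theorem over_tower {R : Type} [CommRing R] {A B : Dom R} (h : Over A B) :
    ∃ (i : A.W →ₐ[R] FractionRing B.W) (m : ℕ), Function.Injective i ∧
      Tower (Cf.fieldOf (i : A.W →+* FractionRing B.W)) m := by
  obtain ⟨i, hi, h | ⟨a, ha, b, hb, c, hc, x, y, hx, hne, hy, htop⟩⟩ := h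
  · exact ⟨i, 0, hi, fun _ => ⊤, h.symm, rfl, fun i hi => absurd hi (Nat.not_lt_zero i)⟩
  · refine ⟨i, 1, hi, fun m => if m = 0 then Cf.fieldOf (i : A.W →+* FractionRing B.W) else ⊤,
      by simp, by simp, fun m hm => ?_⟩
    obtain rfl : m = 0 := by omega
    simp only [if_true, zero_add, one_ne_zero, if_false]
    exact ⟨a, ha, b, hb, c, hc, x, y, hx, hne, hy, htop.symm⟩

section
variable {R L : Type} [CommRing R] [IsDomain R] [Field L] [Algebra R L] {d n e : ℕ}

omit [IsDomain R] in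
/-- a polynomial over `S` does not vanish at `t` -/
private theorem emb_zero {S : Subalgebra R L} {t : L}
    (ht : Transcendental (Subfield.closure (S : Set L)) t) {α : S[X]}
    (h : eval₂ (S.val : S →+* L) t α = 0) : α = 0 := by
  obtain ⟨i, hi⟩ : ∃ i : S →+* Subfield.closure (S : Set L),
      ∀ s : S, ((i s : Subfield.closure (S : Set L)) : L) = s :=
    ⟨(S.val : S →+* L).codRestrict (Subfield.closure (S : Set L))
      (fun s => Subfield.subset_closure s.2), fun s => rfl⟩
  have hinj : Function.Injective i := fun x y h => Subtype.ext (by rw [← hi, ← hi, h])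
  have h1 : aeval t (α.map i) = 0 := by
    rw [aeval_def, eval₂_map]
    have h2 : (algebraMap (Subfield.closure (S : Set L)) L).comp i = (S.val : S →+* L) :=
      RingHom.ext fun s => hi s
    rw [h2]
    exact h
  have h3 := transcendental_iff.1 ht _ h1
  exact Polynomial.map_injective i hinj (by rw [h3, Polynomial.map_zero])

omit [IsDomain R] in
/-- values of polynomials over `S` -/
private theorem emb_mem {S B : Subalgebra R L} (hS : ∀ s : S, (s : L) ∈ B) {t : L} (ht : t ∈ B)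
    (α : S[X]) : eval₂ (S.val : S →+* L) t α ∈ B := by
  rw [eval₂_eq_sum_range]
  exact B.sum_mem fun i _ => B.mul_mem (hS _) (B.pow_mem ht i)

omit [IsDomain R] in
/-- a ring with an embedding into `L` is isomorphic to its image -/
private theorem emb_equiv {A : Type} [CommRing A] [Algebra R A] (J : A →+* L)
    (hc : ∀ r : R, J (algebraMap R A r) = algebraMap R L r) (hJ : Function.Injective J)
    (B : Subalgebra R L) (h1 : ∀ x : A, J x ∈ B) (h2 : ∀ z ∈ B, ∃ x : A, J x = z) :
    Nonempty (A ≃ₐ[R] B) := by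
  obtain ⟨φ, hφ⟩ : ∃ φ : A →ₐ[R] L, ∀ x, φ x = J x :=
    ⟨{ J with commutes' := hc }, fun x => rfl⟩
  have hinj : Function.Injective φ := fun x y h => hJ (by rw [← hφ, ← hφ, h])
  have hrange : φ.range = B := by
    apply le_antisymm
    · rintro _ ⟨x, rfl⟩
      have h3 := h1 x
      rw [← hφ] at h3
      exact h3
    · intro z hz
      obtain ⟨x, hx⟩ := h2 z hz
      exact ⟨x, by rw [← hx, ← hφ]; rfl⟩
  exact ⟨(AlgEquiv.ofInjective φ hinj).trans (Subalgebra.equivOfEq _ _ hrange)⟩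

/-- proof: `S[X]` and `S[t]` are isomorphic -/
theorem emb_lineK (S : Subalgebra R L) {k : R → ℕ → ℝ} (h : TateK R S d n e k) {t : L}
    (ht : Transcendental (Subfield.closure (S : Set L)) t) :
    TateK R (Algebra.adjoin R ((S : Set L) ∪ {t}) : Subalgebra R L) d (n + 1) e k := by
  obtain ⟨J, hJ⟩ : ∃ J : S[X] →+* L, ∀ α, J α = eval₂ (S.val : S →+* L) t α :=
    ⟨eval₂RingHom (S.val : S →+* L) t, fun α => rfl⟩
  have hS : ∀ s : S, (s : L) ∈ (Algebra.adjoin R ((S : Set L) ∪ {t}) : Subalgebra R L) :=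
    fun s => Algebra.subset_adjoin (Or.inl s.2)
  have htB : t ∈ (Algebra.adjoin R ((S : Set L) ∪ {t}) : Subalgebra R L) :=
    Algebra.subset_adjoin (Or.inr rfl)
  have hJC : ∀ s : S, J (C s) = s := fun s => by rw [hJ, eval₂_C]; rfl
  have hc : ∀ r : R, J (algebraMap R S[X] r) = algebraMap R L r := by
    intro r
    have h1 : algebraMap R S[X] r = C (algebraMap R S r) := rfl
    rw [h1, hJC]
    rfl
  obtain ⟨f⟩ := emb_equiv J hc ((injective_iff_map_eq_zero J).2 fun α hα => by
    rw [hJ] at hα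
    exact emb_zero ht hα) (Algebra.adjoin R ((S : Set L) ∪ {t}) : Subalgebra R L)
    (fun α => by rw [hJ]; exact emb_mem hS htB α) (fun z hz => by
      induction hz using Algebra.adjoin_induction with
      | mem x hx =>
        rcases hx with hx | hx
        · exact ⟨C ⟨x, hx⟩, hJC _⟩
        · rw [Set.mem_singleton_iff.1 hx]
          exact ⟨X, by rw [hJ, eval₂_X]⟩
      | algebraMap r => exact ⟨algebraMap R S[X] r, hc r⟩
      | add x y _ _ hx hy =>
        obtain ⟨u, rfl⟩ := hx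
        obtain ⟨v, rfl⟩ := hy
        exact ⟨u + v, map_add J u v⟩
      | mul x y _ _ hx hy =>
        obtain ⟨u, rfl⟩ := hx
        obtain ⟨v, rfl⟩ := hy
        exact ⟨u * v, map_mul J u v⟩)
  exact tateK_equiv f (tateK_poly h)

omit [IsDomain R] in
/-- the field generated by `S[T]` -/
private theorem closure_adjoin (S : Subalgebra R L) (T : Set L) :
    Subfield.closure ((Algebra.adjoin R ((S : Set L) ∪ T) : Subalgebra R L) : Set L) =
      Subfield.closure ((Subfield.closure (S : Set L) : Set L) ∪ T) := by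
  apply le_antisymm
  · rw [Subfield.closure_le]
    intro z hz
    have hz' : z ∈ Algebra.adjoin R ((S : Set L) ∪ T) := hz
    induction hz' using Algebra.adjoin_induction with
    | mem w hw =>
      rcases hw with hw | hw
      · exact Subfield.subset_closure (Or.inl (Subfield.subset_closure hw))
      · exact Subfield.subset_closure (Or.inr hw)
    | algebraMap r =>
      exact Subfield.subset_closure (Or.inl (Subfield.subset_closure (S.algebraMap_mem r)))
    | add u v _ _ hu hv => exact Subfield.add_mem _ (hu (by assumption)) (hv (by assumption))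
    | mul u v _ _ hu hv => exact Subfield.mul_mem _ (hu (by assumption)) (hv (by assumption))
  · rw [Subfield.closure_le]
    rintro z (hz | hz)
    · exact Subfield.closure_mono (fun w hw => Algebra.subset_adjoin (Or.inl hw)) hz
    · exact Subfield.subset_closure (Algebra.subset_adjoin (Or.inr hz))

omit [IsDomain R] in
/-- elements of the fraction field of `S` are fractions -/
private theorem mem_frac (S : Subalgebra R L) {z : L} (hz : z ∈ Subfield.closure (S : Set L)) :
    ∃ q ∈ S, q ≠ 0 ∧ q * z ∈ S := by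
  rw [Subfield.mem_closure_iff] at hz
  obtain ⟨u, hu, v, hv, rfl⟩ := hz
  have hS : Subring.closure (S : Set L) = S.toSubring := by
    have h1 : ((S.toSubring : Subring L) : Set L) = (S : Set L) := rfl
    rw [← h1, Subring.closure_eq]
  rw [hS] at hu hv
  by_cases h0 : v = 0
  · refine ⟨1, S.one_mem, one_ne_zero, ?_⟩
    rw [h0, div_zero, mul_zero]
    exact S.zero_mem
  · refine ⟨v, hv, h0, ?_⟩
    rw [mul_div_cancel₀ _ h0]
    exact hu

/-- Proof. If the conic has a point over `F = Frac S`: `conic_rational`, `emb_line`. Otherwise let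
`q ∈ S`, `q ≠ 0`, with `q² a, q² b, q² c ∈ S`; replace `y` by `q y`. Invert the discriminant
`b² - a c` in `S` (`fin_closureU`, `loc_equiv`, `tate_equiv` for the inclusion of `S`), and use
`conicGeo_unit`, `fin_closureU` (`conic`), `emb_conic` -/
theorem step_K (hR : BaseVar R d) (S : Subalgebra R L) {k : R → ℕ → ℝ} (h : TateK R S d n e k)
    {F : Subfield L}
    (hF : Subfield.closure (S : Set L) = F) {a b c x y : L} (ha : a ∈ F) (hb : b ∈ F)
    (hc : c ∈ F) (hx : Transcendental F x) (hne : b ^ 2 ≠ a * c)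
    (hy : y ^ 2 = a * x ^ 2 + 2 * b * x + c) :
    ∃ (S' : Subalgebra R L) (e' : ℕ), TateK R S' d (n + 1) e' k ∧
      Subfield.closure (S' : Set L) = Subfield.closure ((F : Set L) ∪ {x, y}) := by
  classical
  subst hF
  have hR0 : CharZero R := hR.zero
  have hinj : Function.Injective (algebraMap R L) := by
    have h1 : algebraMap R L = (S.val : S →+* L).comp (algebraMap R S) := rfl
    rw [h1]
    exact Subtype.val_injective.comp h.geo.inj
  have hL0 : CharZero L := charZero_of_injective_algebraMap hinj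
  by_cases hpt : ∃ x₀ ∈ Subfield.closure (S : Set L), ∃ y₀ ∈ Subfield.closure (S : Set L),
      ∃ z₀ ∈ Subfield.closure (S : Set L), ¬ (x₀ = 0 ∧ z₀ = 0) ∧
        y₀ ^ 2 = a * x₀ ^ 2 + 2 * b * x₀ * z₀ + c * z₀ ^ 2
  · obtain ⟨x₀, hx₀, y₀, hy₀, z₀, hz₀, h0, hP⟩ := hpt
    obtain ⟨t, ht, hcl⟩ := conic_rational _ ha hb hc hx hne hy hx₀ hy₀ hz₀ h0 hP
    refine ⟨_, e, emb_lineK S h ht, ?_⟩
    rw [closure_adjoin, hcl]
  · push Not at hpt
    obtain ⟨q₁, hq₁, hq₁0, hq₁a⟩ := mem_frac S ha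
    obtain ⟨q₂, hq₂, hq₂0, hq₂b⟩ := mem_frac S hb
    obtain ⟨q₃, hq₃, hq₃0, hq₃c⟩ := mem_frac S hc
    obtain ⟨q, hq⟩ : ∃ q : L, q = q₁ * q₂ * q₃ := ⟨_, rfl⟩
    have hqS : q ∈ S := by rw [hq]; exact S.mul_mem (S.mul_mem hq₁ hq₂) hq₃
    have hq0 : q ≠ 0 := by rw [hq]; exact mul_ne_zero (mul_ne_zero hq₁0 hq₂0) hq₃0
    have hqF : q ∈ Subfield.closure (S : Set L) := Subfield.subset_closure hqS
    have hSa : q ^ 2 * a ∈ S := by
      have e1 : q ^ 2 * a = q * (q₂ * q₃) * (q₁ * a) := by rw [hq]; ring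
      rw [e1]
      exact S.mul_mem (S.mul_mem hqS (S.mul_mem hq₂ hq₃)) hq₁a
    have hSb : q ^ 2 * b ∈ S := by
      have e1 : q ^ 2 * b = q * (q₁ * q₃) * (q₂ * b) := by rw [hq]; ring
      rw [e1]
      exact S.mul_mem (S.mul_mem hqS (S.mul_mem hq₁ hq₃)) hq₂b
    have hSc : q ^ 2 * c ∈ S := by
      have e1 : q ^ 2 * c = q * (q₁ * q₂) * (q₃ * c) := by rw [hq]; ring
      rw [e1]
      exact S.mul_mem (S.mul_mem hqS (S.mul_mem hq₁ hq₂)) hq₃c
    -- the discriminant
    obtain ⟨Δ, hΔ⟩ : ∃ Δ : S, Δ = (⟨q ^ 2 * b, hSb⟩ : S) ^ 2 - ⟨q ^ 2 * a, hSa⟩ * ⟨q ^ 2 * c, hSc⟩ :=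
      ⟨_, rfl⟩
    have hΔv : (Δ : L) = q ^ 4 * (b ^ 2 - a * c) := by
      rw [hΔ]
      show (q ^ 2 * b) ^ 2 - q ^ 2 * a * (q ^ 2 * c) = _
      ring
    have hΔL : (Δ : L) ≠ 0 := by
      rw [hΔv]
      exact mul_ne_zero (pow_ne_zero _ hq0) (sub_ne_zero.2 hne)
    have hΔ0 : Δ ≠ 0 := fun h0 => hΔL (by rw [h0]; rfl)
    obtain ⟨m, hm⟩ := tateK_away hR h hΔ0
    obtain ⟨ε, _⟩ := loc_equiv S.val Subtype.val_injective hΔ0
    have hT1 : TateK R (loc S.val Δ) d n (e + m) k := tateK_equiv ε hm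
    -- the ring `S₁ = S[1/Δ]`
    obtain ⟨S₁, hS₁⟩ : ∃ S₁ : Subalgebra R L, S₁ = loc S.val Δ := ⟨_, rfl⟩
    rw [← hS₁] at hT1
    have hSS₁ : ∀ z ∈ S, z ∈ S₁ := by
      intro z hz
      rw [hS₁]
      exact Algebra.subset_adjoin (Or.inl ⟨⟨z, hz⟩, rfl⟩)
    have hΔi : (Δ : L)⁻¹ ∈ S₁ := by
      rw [hS₁]
      exact Algebra.subset_adjoin (Or.inr rfl)
    have hS₁F : ∀ z ∈ S₁, z ∈ Subfield.closure (S : Set L) := by
      intro z hz
      rw [hS₁] at hz
      unfold loc at hz
      induction hz using Algebra.adjoin_induction with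
      | mem w hw =>
        rcases hw with ⟨s, rfl⟩ | hw
        · exact Subfield.subset_closure s.2
        · rw [Set.mem_singleton_iff] at hw
          rw [hw]
          exact Subfield.inv_mem _ (Subfield.subset_closure Δ.2)
      | algebraMap r => exact Subfield.subset_closure (S.algebraMap_mem r)
      | add u v _ _ hu hv => exact Subfield.add_mem _ hu hv
      | mul u v _ _ hu hv => exact Subfield.mul_mem _ hu hv
    have hcl₁ : Subfield.closure (S₁ : Set L) = Subfield.closure (S : Set L) := by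
      apply le_antisymm
      · rw [Subfield.closure_le]
        exact hS₁F
      · exact Subfield.closure_mono hSS₁
    have hdom₁ : IsDomain S₁ := hT1.geo.dom
    obtain ⟨a', ha'⟩ : ∃ a' : S₁, (a' : L) = q ^ 2 * a := ⟨⟨_, hSS₁ _ hSa⟩, rfl⟩
    obtain ⟨b', hb'⟩ : ∃ b' : S₁, (b' : L) = q ^ 2 * b := ⟨⟨_, hSS₁ _ hSb⟩, rfl⟩
    obtain ⟨c', hc'⟩ : ∃ c' : S₁, (c' : L) = q ^ 2 * c := ⟨⟨_, hSS₁ _ hSc⟩, rfl⟩
    have haniso : ∀ x y z : S₁, y ^ 2 = a' * x ^ 2 + 2 * b' * x * z + c' * z ^ 2 →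
        x = 0 ∧ z = 0 := by
      intro u v w huvw
      have h1 : (v : L) ^ 2 = (a' : L) * (u : L) ^ 2 + 2 * (b' : L) * u * w +
          (c' : L) * (w : L) ^ 2 := by
        have h0 := congrArg S₁.val huvw
        simpa only [map_add, map_mul, map_pow, map_ofNat, Subalgebra.coe_val] using h0
      have h2 : (v : L) ^ 2 = q ^ 2 * a * (u : L) ^ 2 + 2 * (q ^ 2 * b) * u * w +
          q ^ 2 * c * (w : L) ^ 2 := by
        rw [h1, ha', hb', hc']
      have h3 : ((v : L) / q) ^ 2 = a * (u : L) ^ 2 + 2 * b * u * w + c * (w : L) ^ 2 := by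
        rw [div_pow, h2]
        field_simp
      by_contra hcon
      refine hpt u (hS₁F _ u.2) ((v : L) / q) (Subfield.div_mem _ (hS₁F _ v.2) hqF) w
        (hS₁F _ w.2) ?_ h3
      intro hu0 hw0
      exact hcon ⟨Subtype.ext hu0, Subtype.ext hw0⟩
    have hunit : IsUnit (b' ^ 2 - a' * c') := by
      have h1 : ((b' ^ 2 - a' * c' : S₁) : L) = Δ := by
        rw [hΔv]
        push_cast
        rw [ha', hb', hc']
        ring
      refine IsUnit.of_mul_eq_one (⟨(Δ : L)⁻¹, hΔi⟩ : S₁) (Subtype.ext ?_)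
      show ((b' ^ 2 - a' * c' : S₁) : L) * (Δ : L)⁻¹ = 1
      rw [h1, mul_inv_cancel₀ hΔL]
    have hgeo : ConicGeo R a' b' c' := conicGeo_unit hT1.geo.inj hunit haniso
    have hT2 := tateK_conic hR hT1 hgeo
    have hx' : Transcendental (Subfield.closure (S₁ : Set L)) x := by
      rw [hcl₁]; exact hx
    have hy' : (q * y) ^ 2 = (a' : L) * x ^ 2 + 2 * b' * x + c' := by
      rw [ha', hb', hc', mul_pow, hy]
      ring
    obtain ⟨ε'⟩ := emb_conic hx' hy' haniso
    refine ⟨_, e + m, tateK_equiv ε' hT2, ?_⟩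
    rw [closure_adjoin, hcl₁]
    apply le_antisymm
    · rw [Subfield.closure_le]
      rintro z (hz | hz | hz)
      · exact Subfield.subset_closure (Or.inl hz)
      · rw [hz]; exact Subfield.subset_closure (Or.inr (Or.inl rfl))
      · rw [Set.mem_singleton_iff] at hz
        rw [hz]
        exact Subfield.mul_mem _ (Subfield.subset_closure (Or.inl hqF))
          (Subfield.subset_closure (Or.inr (Or.inr rfl)))
    · rw [Subfield.closure_le]
      rintro z (hz | hz | hz)
      · exact Subfield.subset_closure (Or.inl hz)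
      · rw [hz]; exact Subfield.subset_closure (Or.inr (Or.inl rfl))
      · rw [Set.mem_singleton_iff] at hz
        have e1 : q⁻¹ * (q * y) = y := by rw [inv_mul_cancel_left₀ hq0]
        rw [hz]
        have e2 : q⁻¹ * (q * y) ∈ Subfield.closure
            ((Subfield.closure (S : Set L) : Set L) ∪ {x, q * y}) :=
          Subfield.mul_mem _ (Subfield.inv_mem _ (Subfield.subset_closure (Or.inl hqF)))
            (Subfield.subset_closure (Or.inr (Or.inr rfl)))
        rw [e1] at e2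
        exact e2


/-- a tower over a ring with the Tate property up to `k` -/
theorem tower_K (hR : BaseVar R d) (S : Subalgebra R L) {k : R → ℕ → ℝ} (h : TateK R S d n e k)
    {m : ℕ} (ht : Tower (Subfield.closure (S : Set L)) m) :
    ∃ (S' : Subalgebra R L) (e' : ℕ), TateK R S' d (n + m) e' k ∧
      Subfield.closure (S' : Set L) = ⊤ := by
  obtain ⟨F, hF0, hFn, hF⟩ := ht
  have key : ∀ i : ℕ, i ≤ m → ∃ (S' : Subalgebra R L) (e' : ℕ), TateK R S' d (n + i) e' k ∧
      Subfield.closure (S' : Set L) = F i := by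
    intro i
    induction i with
    | zero =>
      intro _
      exact ⟨S, e, h, hF0.symm⟩
    | succ i ih =>
      intro hin
      obtain ⟨S', e', hS, hSF⟩ := ih (by omega)
      obtain ⟨a, ha, b, hb, c, hc, x, y, hx, hne, hy, hFi⟩ := hF i (by omega)
      obtain ⟨S'', e'', hS', hS'F⟩ := step_K hR S' hS hSF ha hb hc hx hne hy
      exact ⟨S'', e'', hS', by rw [hS'F, hFi]⟩
  obtain ⟨S', e', hS, hSF⟩ := key m le_rfl
  exact ⟨S', e', hS, by rw [hSF, hFn]⟩

omit [IsDomain R] in
theorem frac_of_top (S : Subalgebra R L) (hS : Subfield.closure (S : Set L) = ⊤) (z : L) :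
    ∃ x y : S, y ≠ 0 ∧ z * S.val y = S.val x := by
  have hz : z ∈ Subfield.closure (S : Set L) := by
    rw [hS]
    exact Subfield.mem_top z
  rw [Subfield.mem_closure_iff] at hz
  obtain ⟨u, hu, v, hv, rfl⟩ := hz
  have hS : Subring.closure (S : Set L) = S.toSubring := by
    have h1 : ((S.toSubring : Subring L) : Set L) = (S : Set L) := rfl
    rw [← h1, Subring.closure_eq]
  rw [hS] at hu hv
  by_cases h0 : v = 0
  · refine ⟨0, 1, one_ne_zero, ?_⟩
    rw [h0, div_zero, zero_mul, map_zero]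
  · refine ⟨⟨u, hu⟩, ⟨v, hv⟩, fun h => h0 (congrArg Subtype.val h), ?_⟩
    show u / v * v = u
    rw [div_mul_cancel₀ _ h0]

end

theorem frac_alg {R A : Type} [CommRing R] [CommRing A] [IsDomain A] [Algebra R A]
    (z : FractionRing A) : ∃ x y : A, y ≠ 0 ∧
      z * IsScalarTower.toAlgHom R A (FractionRing A) y =
        IsScalarTower.toAlgHom R A (FractionRing A) x := by
  obtain ⟨x, y, hy, rfl⟩ := IsFractionRing.div_surjective (A := A) z
  have hy0 : algebraMap A (FractionRing A) y ≠ 0 :=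
    IsFractionRing.to_map_ne_zero_of_mem_nonZeroDivisors hy
  refine ⟨x, y, nonZeroDivisors.ne_zero hy, ?_⟩
  show algebraMap A (FractionRing A) x / algebraMap A (FractionRing A) y *
    algebraMap A (FractionRing A) y = algebraMap A (FractionRing A) x
  rw [div_mul_cancel₀ _ hy0]

/-- open subsets of a ring whose fraction field is that of a tower -/
theorem open_K {R A : Type} [CommRing R] [IsDomain R] [CommRing A] [IsDomain A] [Algebra R A]
    {d n e : ℕ} (hR : BaseVar R d) (hf : Algebra.FiniteType R A)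
    (S : Subalgebra R (FractionRing A)) {k : R → ℕ → ℝ} (h : TateK R S d n e k) {m : ℕ}
    (ht : Tower (Subfield.closure (S : Set (FractionRing A))) m) :
    ∃ a : A, a ≠ 0 ∧ ∀ a' : A, a' ≠ 0 → a ∣ a' →
      ∃ e' : ℕ, TateK R (Localization.Away a') d (n + m) e' k := by
  obtain ⟨S', e', hS, hST⟩ := tower_K hR S h ht
  exact tateK_birat hR hf (IsScalarTower.toAlgHom R A (FractionRing A)) S'.val
    (IsFractionRing.injective A (FractionRing A)) Subtype.val_injective
    (fun z => frac_alg z) (fun z => frac_of_top S' hST z) hS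

end Pool.Agent.Lib.MP_1a0ddd_nt.Tf
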