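import Pool.Agent.Lib.MP_1a0ddd_nt.Tf.ASub

/-! Transport along an isomorphism of fields. -/

set_option autoImplicit false

namespace Pool.Agent.Lib.MP_1a0ddd_nt.Tf

open Pool.Agent.Lib.MP_1a0ddd_nt.Nc Pool.Agent.Lib.MP_1a0ddd_nt.Cf

private theorem trsb_un {L L' : Type} [Field L] [Field L'] (σ : L ≃+* L') {A : Subring L}
    {A' : Subring L'} (h : ∀ x : L, x ∈ A ↔ σ x ∈ A') (u : Additive Lˣ) :
    u ∈ un A ↔ MulEquiv.toAdditive (Units.mapEquiv σ.toMulEquiv) u ∈ un A' := by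
  rw [mem_un, mem_un, h, h, map_inv₀]
  rfl

theorem um_map {L L' : Type} [Field L] [Field L'] (σ : L ≃+* L') {K B : Subring L}
    {K' B' : Subring L'} (hK : ∀ x : L, x ∈ K ↔ σ x ∈ K') (hB : ∀ x : L, x ∈ B ↔ σ x ∈ B') :
    Nonempty (UM K B ≃+ UM K' B') := by
  obtain ⟨τ, hτ⟩ : ∃ τ : Additive Lˣ ≃+ Additive L'ˣ,
      τ = MulEquiv.toAdditive (Units.mapEquiv σ.toMulEquiv) := ⟨_, rfl⟩
  have kK : ∀ u, u ∈ un K ↔ τ u ∈ un K' := fun u => by
    rw [hτ]
    exact trsb_un σ hK u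
  have kB : ∀ u, u ∈ un B ↔ τ u ∈ un B' := fun u => by
    rw [hτ]
    exact trsb_un σ hB u
  let e : un B ≃+ un B' :=
    { toFun := fun u => ⟨τ u.1, (kB u.1).1 u.2⟩
      invFun := fun u => ⟨τ.symm u.1, (kB _).2 (by rw [AddEquiv.apply_symm_apply]; exact u.2)⟩
      left_inv := fun u => Subtype.ext (τ.symm_apply_apply u.1)
      right_inv := fun u => Subtype.ext (τ.apply_symm_apply u.1)
      map_add' := fun u v => Subtype.ext (map_add τ u.1 v.1) }
  refine ⟨QuotientAddGroup.congr _ _ e ?_⟩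
  ext u
  constructor
  · rintro ⟨v, hv, rfl⟩
    have h1 : (v : Additive Lˣ) ∈ un K := hv
    exact (kK _).1 h1
  · intro hu
    refine ⟨e.symm u, ?_, e.apply_symm_apply u⟩
    have h1 : (u : Additive L'ˣ) ∈ un K' := hu
    have h2 : τ ((e.symm u : un B) : Additive Lˣ) = u := τ.apply_symm_apply u.1
    rw [← h2, ← kK] at h1
    exact h1

section
variable {R S L L' : Type} [CommRing R] [CommRing S] [Field L] [Field L']
  [Algebra R S] [Algebra R L] [Algebra R L']

theorem kf_map (σ : L ≃ₐ[R] L') (x : L) :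
    x ∈ (fieldOf (algebraMap R L)).toSubring ↔ σ x ∈ (fieldOf (algebraMap R L')).toSubring := by
  have h1 : (fieldOf (algebraMap R L)).map ((σ : L ≃+* L') : L →+* L') =
      fieldOf (algebraMap R L') := by
    rw [fieldOf, fieldOf, RingHom.map_field_closure, ← Set.range_comp]
    congr 2
    funext r
    exact σ.commutes r
  rw [← h1]
  constructor
  · intro hx
    exact ⟨x, hx, rfl⟩
  · rintro ⟨y, hy, hxy⟩
    have h2 : y = x := σ.injective hxy
    rw [← h2]
    exact hy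

theorem gring_map (σ : L ≃ₐ[R] L') (j : S →ₐ[R] L) (g : S) (x : L) :
    x ∈ gring j g ↔ σ x ∈ gring ((σ : L →ₐ[R] L').comp j) g := by
  have h1 : (gring j g).map ((σ : L ≃+* L') : L →+* L') =
      gring ((σ : L →ₐ[R] L').comp j) g := by
    rw [gring, gring, coordRing, coordRing, RingHom.map_closure, Set.image_union, Set.image_union,
      Set.image_singleton, map_inv₀, ← Set.range_comp]
    congr 1
    refine congrArg₂ (· ∪ ·) (congrArg₂ (· ∪ ·) ?_ rfl) rfl
    ext y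
    constructor
    · rintro ⟨z, hz, rfl⟩
      exact (kf_map σ z).1 hz
    · intro hy
      refine ⟨σ.symm y, (kf_map σ _).2 ?_, σ.apply_symm_apply y⟩
      rw [AlgEquiv.apply_symm_apply]
      exact hy
  rw [← h1]
  constructor
  · intro hx
    exact ⟨x, hx, rfl⟩
  · rintro ⟨y, hy, hxy⟩
    have h2 : y = x := σ.injective hxy
    rw [← h2]
    exact hy

end

end Pool.Agent.Lib.MP_1a0ddd_nt.Tf
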