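import Pool.Agent.Lib.MP_1a0ddd_nt.Tf.TrsA
import Pool.Agent.Lib.MP_1a0ddd_nt.Tf.TrsB
import Pool.Agent.Lib.MP_1a0ddd_nt.Tf.KT

/-! Open subsets of two varieties which are the same. -/

set_option autoImplicit false

namespace Pool.Agent.Lib.MP_1a0ddd_nt.Tf

open Pool.Agent.Lib.MP_1a0ddd_nt.Nc Pool.Agent.Lib.MP_1a0ddd_nt.Cf Pool.Agent.Lib.MP_1a0ddd_nt.Un

section
variable {R S S' L : Type} [CommRing R] [CommRing S] [CommRing S'] [Field L]
  [Algebra R S] [Algebra R S'] [Algebra R L]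

private theorem cmn_le (j : S →ₐ[R] L) {a : S} {B : Subalgebra R L} (h1 : ∀ x : S, j x ∈ B)
    (h2 : (j a)⁻¹ ∈ B) : loc j a ≤ B := by
  rw [loc, Algebra.adjoin_le_iff]
  rintro x (⟨r, rfl⟩ | hx)
  · exact h1 r
  · rw [Set.mem_singleton_iff.1 hx]
    exact h2

private theorem cmn_mem (j : S →ₐ[R] L) (a x : S) : j x ∈ loc j a :=
  Algebra.subset_adjoin (Or.inl ⟨x, rfl⟩)

private theorem cmn_inv (j : S →ₐ[R] L) (a : S) : (j a)⁻¹ ∈ loc j a :=
  Algebra.subset_adjoin (Or.inr rfl)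

private theorem cmn_mul (j : S →ₐ[R] L) {a b : S} (h : j (a * b) ≠ 0) :
    (j a)⁻¹ ∈ loc j (a * b) := by
  rw [map_mul] at h
  have hb : j b ≠ 0 := right_ne_zero_of_mul h
  have h1 : (j a)⁻¹ = j b * (j (a * b))⁻¹ := by
    rw [map_mul, mul_inv, mul_comm (j a)⁻¹, ← mul_assoc, mul_inv_cancel₀ hb, one_mul]
  rw [h1]
  exact (loc j (a * b)).mul_mem (cmn_mem j _ b) (cmn_inv j _)

/-- Proof: `j' c' = j x / j y`; `a` from `loc_birat` for `c`; `loc j (a x) = loc j' b'`, and `j' c'` is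
a unit of this ring, so it is also `loc j' (b' c')` -/
theorem common (hS : Algebra.FiniteType R S) (hS' : Algebra.FiniteType R S') (j : S →ₐ[R] L)
    (j' : S' →ₐ[R] L) (hj : Function.Injective j) (hj' : Function.Injective j')
    (hfj : ∀ z : L, ∃ x y : S, y ≠ 0 ∧ z * j y = j x)
    (hfj' : ∀ z : L, ∃ x y : S', y ≠ 0 ∧ z * j' y = j' x) {c : S} (hc : c ≠ 0) {c' : S'}
    (hc' : c' ≠ 0) : ∃ (h : S) (h' : S'), h ≠ 0 ∧ h' ≠ 0 ∧ c ∣ h ∧ c' ∣ h' ∧
      loc j h = loc j' h' := by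
  have hj0 : ∀ x : S, x ≠ 0 → j x ≠ 0 := fun x h h0 => h (hj (by rw [h0, map_zero]))
  have hj0' : ∀ x : S', x ≠ 0 → j' x ≠ 0 := fun x h h0 => h (hj' (by rw [h0, map_zero]))
  obtain ⟨x, y, hy, hxy⟩ := hfj (j' c')
  have hx : j x ≠ 0 := by
    rw [← hxy]
    exact mul_ne_zero (hj0' c' hc') (hj0 y hy)
  obtain ⟨a, ha, hca, hloc⟩ := loc_birat hS hS' j j' hj hj' hfj hfj' c hc
  have hax : j (x * a) ≠ 0 := by
    rw [map_mul]
    exact mul_ne_zero hx (hj0 a ha)
  obtain ⟨b', hb', hl⟩ := hloc (x * a) (fun h => hax (by rw [h, map_zero])) (dvd_mul_left a x)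
  have hbc : j' (b' * c') ≠ 0 := by
    rw [map_mul]
    exact mul_ne_zero (hj0' b' hb') (hj0' c' hc')
  refine ⟨x * a, b' * c', fun h => hax (by rw [h, map_zero]), fun h => hbc (by rw [h, map_zero]),
    hca.trans (dvd_mul_left a x), dvd_mul_left c' b', ?_⟩
  rw [hl]
  have hinv : (j' c')⁻¹ ∈ loc j' b' := by
    rw [← hl]
    have h1 : (j' c')⁻¹ = j y * (j x)⁻¹ := by
      rw [← hxy, mul_inv, mul_comm (j' c')⁻¹, ← mul_assoc, mul_inv_cancel₀ (hj0 y hy), one_mul]
    rw [h1]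
    exact (loc j (x * a)).mul_mem (cmn_mem j _ y) (cmn_mul j hax)
  apply le_antisymm
  · exact cmn_le j' (fun s => cmn_mem j' _ s) (cmn_mul j' hbc)
  · refine cmn_le j' (fun s => cmn_mem j' _ s) ?_
    rw [map_mul, mul_inv]
    exact (loc j' b').mul_mem (cmn_inv j' b') hinv

end

/-- Proof: `common` for `σ ∘ j` and `j'`, `gring_loc`, `gring_map`, `divCl_map`; `um_map`, `kf_map`;
`loc_equiv`, `countD_equiv`; `frac_alg` -/
theorem common_dom {R : Type} [CommRing R] [IsDomain R] {S S' : Dom R}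
    (hb : Birat S S') {c : S.W} (hc : c ≠ 0) {c' : S'.W} (hc' : c' ≠ 0) :
    ∃ (h : S.W) (h' : S'.W), h ≠ 0 ∧ h' ≠ 0 ∧ c ∣ h ∧ c' ∣ h' ∧
      Nonempty (DivCl (gring (IsScalarTower.toAlgHom R S.W (FractionRing S.W)) h) ≃+
        DivCl (gring (IsScalarTower.toAlgHom R S'.W (FractionRing S'.W)) h')) ∧
      Module.finrank ℤ (UM (fieldOf (algebraMap R (FractionRing S.W))).toSubring
        (gring (IsScalarTower.toAlgHom R S.W (FractionRing S.W)) h)) =
        Module.finrank ℤ (UM (fieldOf (algebraMap R (FractionRing S'.W))).toSubring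
          (gring (IsScalarTower.toAlgHom R S'.W (FractionRing S'.W)) h')) ∧
      ∀ (D : R) (d n : ℕ), countD R (Localization.Away h) D d n =
        countD R (Localization.Away h') D d n := by
  obtain ⟨σ⟩ := hb
  obtain ⟨j, hjd⟩ : ∃ j, j = IsScalarTower.toAlgHom R S.W (FractionRing S.W) := ⟨_, rfl⟩
  obtain ⟨j', hjd'⟩ : ∃ j', j' = IsScalarTower.toAlgHom R S'.W (FractionRing S'.W) := ⟨_, rfl⟩
  have hj : Function.Injective j := by
    rw [hjd]
    exact IsFractionRing.injective S.W (FractionRing S.W)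
  have hj' : Function.Injective j' := by
    rw [hjd']
    exact IsFractionRing.injective S'.W (FractionRing S'.W)
  have hfj : ∀ z : FractionRing S.W, ∃ x y : S.W, y ≠ 0 ∧ z * j y = j x := fun z => by
    rw [hjd]
    exact frac_alg z
  have hfj' : ∀ z : FractionRing S'.W, ∃ x y : S'.W, y ≠ 0 ∧ z * j' y = j' x := fun z => by
    rw [hjd']
    exact frac_alg z
  rw [← hjd, ← hjd']
  have hk : Function.Injective ((σ : FractionRing S.W →ₐ[R] FractionRing S'.W).comp j) :=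
    σ.injective.comp hj
  have hfk : ∀ z : FractionRing S'.W, ∃ x y : S.W, y ≠ 0 ∧
      z * ((σ : FractionRing S.W →ₐ[R] FractionRing S'.W).comp j) y =
        ((σ : FractionRing S.W →ₐ[R] FractionRing S'.W).comp j) x := fun z => by
    obtain ⟨x, y, hy, hxy⟩ := hfj (σ.symm z)
    refine ⟨x, y, hy, ?_⟩
    have h1 := congrArg σ hxy
    rw [map_mul, AlgEquiv.apply_symm_apply] at h1
    exact h1
  obtain ⟨h, h', hh, hh', hch, hch', hl⟩ := common S.fin S'.fin
    ((σ : FractionRing S.W →ₐ[R] FractionRing S'.W).comp j) j' hk hj' hfk hfj' hc hc'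
  have hi : Function.Injective (algebraMap R (FractionRing S'.W)) := by
    rw [IsScalarTower.algebraMap_eq R S'.W (FractionRing S'.W)]
    exact (IsFractionRing.injective S'.W (FractionRing S'.W)).comp S'.inj
  have hg : gring ((σ : FractionRing S.W →ₐ[R] FractionRing S'.W).comp j) h = gring j' h' :=
    gring_loc hi _ _ (fun h0 => hh (hk (by rw [h0, map_zero])))
      (fun h0 => hh' (hj' (by rw [h0, map_zero]))) hl
  have hm : ∀ x : FractionRing S.W, x ∈ gring j h ↔ σ x ∈ gring j' h' := fun x => by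
    rw [← hg]
    exact gring_map σ j h x
  refine ⟨h, h', hh, hh', hch, hch', ?_, ?_, ?_⟩
  · exact divCl_map (σ : FractionRing S.W ≃+* FractionRing S'.W) hm
  · obtain ⟨e⟩ := um_map (σ : FractionRing S.W ≃+* FractionRing S'.W) (fun x => kf_map σ x) hm
    exact e.toIntLinearEquiv.finrank_eq
  · intro D d n
    obtain ⟨e1, -⟩ := loc_equiv ((σ : FractionRing S.W →ₐ[R] FractionRing S'.W).comp j) hk hh
    obtain ⟨e2, -⟩ := loc_equiv j' hj' hh'
    exact countD_equiv ((e2.trans (Subalgebra.equivOfEq _ _ hl.symm)).trans e1.symm) D d n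

end Pool.Agent.Lib.MP_1a0ddd_nt.Tf
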