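import Pool.Agent.Lib.MP_1a0ddd_nt.Tf.DscA
import Pool.Agent.Lib.MP_1a0ddd_nt.Tf.Ccl

/-! Descent. -/

set_option autoImplicit false

namespace Pool.Agent.Lib.MP_1a0ddd_nt.Tf

open Polynomial Pool.Agent.Lib.MP_1a0ddd_nt.V Pool.Agent.Lib.MP_1a0ddd_nt.Fb
  Pool.Agent.Lib.MP_1a0ddd_nt.Cn Pool.Agent.Lib.MP_1a0ddd_nt.Un Pool.Agent.Lib.MP_1a0ddd_nt.Nc

/-- a localization of `B`, inside its fraction field -/
private theorem away_emb {R : Type} [CommRing R] [IsDomain R] (B : Dom R) {h : B.W} (hh : h ≠ 0) :
    ∃ k : Localization.Away h →ₐ[R] FractionRing B.W, Function.Injective k ∧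
      ∀ z : FractionRing B.W, ∃ x y : Localization.Away h, y ≠ 0 ∧ z * k y = k x := by
  have hj : Function.Injective (IsScalarTower.toAlgHom R B.W (FractionRing B.W)) :=
    IsFractionRing.injective B.W (FractionRing B.W)
  obtain ⟨e, he⟩ := loc_equiv (IsScalarTower.toAlgHom R B.W (FractionRing B.W)) hj hh
  obtain ⟨k, hk⟩ : ∃ k : Localization.Away h →ₐ[R] FractionRing B.W,
      ∀ x, k x = (e x : FractionRing B.W) :=
    ⟨(loc (IsScalarTower.toAlgHom R B.W (FractionRing B.W)) h).val.comp
      (e : Localization.Away h →ₐ[R] loc (IsScalarTower.toAlgHom R B.W (FractionRing B.W)) h),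
      fun x => rfl⟩
  have hki : Function.Injective k := fun x y hxy => by
    rw [hk, hk] at hxy
    exact e.injective (Subtype.ext hxy)
  refine ⟨k, hki, fun z => ?_⟩
  obtain ⟨x, y, hy, hz⟩ := frac_alg (R := R) z
  refine ⟨algebraMap B.W _ x, algebraMap B.W _ y, fun h0 => hy ?_, ?_⟩
  · apply hj
    rw [← he, h0, map_zero, map_zero]
    rfl
  · rw [hk, hk, he, he]
    exact hz

/-- Proof: `tateK_birat` (with `tateK_of_geo`) if `A` and `B` are birational. For a conic let
`L = FractionRing B.W`, `S` the subalgebra of `L` generated by `A`, `x`, `y`: `tateK_birat` for `S`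
and `B`, and `fac_base` for `A → S` with `conic_closed`, `conic_trdeg` -/
theorem fac_desc {R : Type} [CommRing R] [IsDomain R] {d : ℕ} (hR : BaseVar R d) {A B : Dom R}
    (h : Over A B) (hB : Fac B) : Fac A := by
  obtain ⟨g, hg, n, e, hgeo⟩ := hB
  obtain ⟨k, hki, hkf⟩ := away_emb B hg
  obtain ⟨i, hi, htop | ⟨a, ha, b, hb, c, hc, x, y, hx, hne, hy, htop⟩⟩ := h
  · -- birational
    have hfj : ∀ z : FractionRing B.W, ∃ x y : A.W, y ≠ 0 ∧ z * i y = i x := by
      intro z
      obtain ⟨u, v, hv, huv⟩ := frac_of_top i.range (by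
        rw [← htop]
        unfold Cf.fieldOf
        congr 1) z
      obtain ⟨u, x, rfl⟩ := u
      obtain ⟨v, y, rfl⟩ := v
      refine ⟨x, y, fun h0 => hv (Subtype.ext ?_), huv⟩
      show (i : A.W →+* FractionRing B.W) y = 0
      rw [h0, map_zero]
    obtain ⟨a, ha, h1⟩ := tateK_birat hR A.fin i k hi hki hfj hkf (tateK_of_geo (d := d) hgeo)
    obtain ⟨e', he'⟩ := h1 a ha dvd_rfl
    exact ⟨a, ha, n, e', he'.geo⟩
  · -- a conic
    have hR0 : CharZero R := hR.zero
    have hinj : Function.Injective (algebraMap R (FractionRing B.W)) := by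
      rw [IsScalarTower.algebraMap_eq R B.W (FractionRing B.W)]
      exact (IsFractionRing.injective B.W (FractionRing B.W)).comp B.inj
    have hL0 : CharZero (FractionRing B.W) := charZero_of_injective_algebraMap hinj
    obtain ⟨S, hS⟩ : ∃ S : Subalgebra R (FractionRing B.W),
        S = i.range ⊔ Algebra.adjoin R ({x, y} : Set (FractionRing B.W)) := ⟨_, rfl⟩
    have hSfg : Algebra.FiniteType R S := by
      rw [← Subalgebra.fg_iff_finiteType, hS]
      have h1 : (i.range).FG := by
        have h2 : (⊤ : Subalgebra R A.W).FG := A.fin.out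
        rw [← Algebra.map_top]
        exact h2.map i
      have h3 : (Algebra.adjoin R ({x, y} : Set (FractionRing B.W))).FG := by
        classical
        exact ⟨{x, y}, by simp⟩
      exact h1.sup h3
    have hiS : ∀ w, i w ∈ S := fun w => by
      rw [hS]
      exact (le_sup_left : i.range ≤ _) ⟨w, rfl⟩
    have hxS : x ∈ S := by
      rw [hS]
      exact (le_sup_right : Algebra.adjoin R ({x, y} : Set (FractionRing B.W)) ≤ _)
        (Algebra.subset_adjoin (Or.inl rfl))
    have hyS : y ∈ S := by
      rw [hS]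
      exact (le_sup_right : Algebra.adjoin R ({x, y} : Set (FractionRing B.W)) ≤ _)
        (Algebra.subset_adjoin (Or.inr rfl))
    have hStop : Subfield.closure (S : Set (FractionRing B.W)) = ⊤ := by
      rw [eq_top_iff, ← htop, Subfield.closure_le]
      rintro z (hz | hz | hz)
      · refine (Subfield.closure_mono ?_ : Subfield.closure (Set.range
          (i : A.W →+* FractionRing B.W)) ≤ Subfield.closure (S : Set (FractionRing B.W))) hz
        rintro _ ⟨w, rfl⟩
        exact hiS w
      · rw [hz]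
        exact Subfield.subset_closure hxS
      · rw [Set.mem_singleton_iff.1 hz]
        exact Subfield.subset_closure hyS
    have hSf := fun z => frac_of_top S hStop z
    obtain ⟨s, hs, h1⟩ := tateK_birat hR hSfg S.val k Subtype.val_injective hki hSf hkf
      (tateK_of_geo (d := d) hgeo)
    obtain ⟨e', he'⟩ := h1 s hs dvd_rfl
    obtain ⟨φ, hφ⟩ : ∃ φ : A.W →ₐ[R] S, ∀ w, (φ w : FractionRing B.W) = i w :=
      ⟨i.codRestrict S hiS, fun w => rfl⟩
    have hφi : Function.Injective φ := fun u v huv => hi (by rw [← hφ, ← hφ, huv])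
    have hrg : Set.range ((S.val : S →+* FractionRing B.W).comp (φ : A.W →+* S)) =
        Set.range (i : A.W →+* FractionRing B.W) := by
      ext z
      constructor
      · rintro ⟨w, rfl⟩
        exact ⟨w, (hφ w).symm⟩
      · rintro ⟨w, rfl⟩
        exact ⟨w, hφ w⟩
    have hcl : ∀ z : FractionRing B.W, IsAlgebraic (Subfield.closure (Set.range
        (i : A.W →+* FractionRing B.W))) z → z ∈ Subfield.closure (Set.range
        (i : A.W →+* FractionRing B.W)) := by
      intro z hz
      refine conic_closed (Cf.fieldOf (i : A.W →+* FractionRing B.W)) ha hb hc hx hne hy ?_ hz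
      rw [htop]
      exact Subfield.mem_top z
    have htr : Algebra.trdeg (Subfield.closure (Set.range (i : A.W →+* FractionRing B.W)))
        (FractionRing B.W) = 1 :=
      conic_trdeg (Cf.fieldOf (i : A.W →+* FractionRing B.W)) ha hb hc hx hy htop
    obtain ⟨b', hb', n', e'', h2⟩ := fac_base hR A.fin hSfg A.inj φ hφi S.val
      Subtype.val_injective hSf (by rw [hrg]; exact hcl) (by rw [hrg]; exact htr)
      ⟨s, hs, n, e', he'.geo⟩
    exact ⟨b', hb', n', e'', h2⟩

end Pool.Agent.Lib.MP_1a0ddd_nt.Tf
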