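import Pool.Agent.Lib.MP_1a0ddd_nt.Tf.PrmA

/-! The fibres over all prime ideals. -/

set_option autoImplicit false

namespace Pool.Agent.Lib.MP_1a0ddd_nt.Tf

open Polynomial Pool.Agent.Lib.MP_1a0ddd_nt.Cn Pool.Agent.Lib.MP_1a0ddd_nt.Fb Un
  Pool.Agent.Lib.MP_1a0ddd_nt.Nc

/-- transport along isomorphisms -/
private theorem prm_equiv {P Q P' Q' : Type} [CommRing P] [CommRing Q] [CommRing P']
    [CommRing Q'] {ι : P →+* Q} {ι' : P' →+* Q'} (e : P' ≃+* P) (e' : Q' ≃+* Q)
    (hc : ∀ x, e' (ι' x) = ι (e x)) (h : PrimeMap ι) : PrimeMap ι' := by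
  have hc' : ∀ x, ι' x = e'.symm (ι (e x)) := fun x => by rw [← hc, e'.symm_apply_apply]
  have hmap : ∀ q : Ideal P', q.map ι' =
      ((q.map (e : P' →+* P)).map ι).map (e'.symm : Q →+* Q') := by
    intro q
    rw [Ideal.map_map, Ideal.map_map]
    congr 1
    exact RingHom.ext fun x => hc' x
  have hqp : ∀ q : Ideal P', q.IsPrime → (q.map (e : P' →+* P)).IsPrime := fun q hq => by
    have := hq
    exact Ideal.map_isPrime_of_equiv e
  refine ⟨?_, fun q hq => ?_, fun q hq => ?_, fun s t hst => ?_⟩
  · intro x y hxy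
    rw [hc', hc'] at hxy
    exact e.injective (h.inj (e'.symm.injective hxy))
  · rw [hmap]
    have := h.prime _ (hqp q hq)
    exact Ideal.map_isPrime_of_equiv e'.symm
  · ext x
    have h1 := h.comap _ (hqp q hq)
    rw [Ideal.mem_comap, hmap, hc']
    have h2 : e'.symm (ι (e x)) ∈ ((q.map (e : P' →+* P)).map ι).map (e'.symm : Q →+* Q') ↔
        ι (e x) ∈ (q.map (e : P' →+* P)).map ι := by
      constructor
      · intro h3
        have h4 := Ideal.mem_map_of_mem (e' : Q' →+* Q) h3
        rw [Ideal.map_map] at h4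
        have h5 : (e' : Q' →+* Q).comp (e'.symm : Q →+* Q') = RingHom.id Q :=
          RingHom.ext fun y => e'.apply_symm_apply y
        rw [h5, Ideal.map_id] at h4
        have h6 : (e' : Q' →+* Q) (e'.symm (ι (e x))) = ι (e x) := e'.apply_symm_apply _
        rwa [h6] at h4
      · exact fun h3 => Ideal.mem_map_of_mem (e'.symm : Q →+* Q') h3
    rw [h2, ← Ideal.mem_comap, h1]
    constructor
    · intro h3
      have h4 := Ideal.mem_map_of_mem (e.symm : P →+* P') h3
      rw [Ideal.map_map] at h4
      have h5 : (e.symm : P →+* P').comp (e : P' →+* P) = RingHom.id P' :=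
        RingHom.ext fun y => e.symm_apply_apply y
      rw [h5, Ideal.map_id] at h4
      have h6 : (e.symm : P →+* P') (e x) = x := e.symm_apply_apply _
      rwa [h6] at h4
    · exact fun h3 => Ideal.mem_map_of_mem (e : P' →+* P) h3
  · have h1 := map_dvd e' hst
    rw [hc, hc] at h1
    have h2 := map_dvd e.symm (h.dvd _ _ h1)
    rwa [e.symm_apply_apply, e.symm_apply_apply] at h2

/-- as `irr_model` in `Nc/KMod.lean` -/
private theorem prm_model {R T S P Q : Type} [CommRing R] [IsDomain R] [CommRing T] [Algebra R T]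
    [CommRing S] [Algebra R S] [CommRing P] [CommRing Q] [IsDomain T] [IsDomain S]
    (hT : Function.Injective (algebraMap R T)) (hS : Function.Injective (algebraMap R S))
    (φ : T →ₐ[R] S) {j : T →+* P} {κ : FractionRing R →+* P} (hj : KModel R j κ)
    {k : S →+* Q} {κ' : FractionRing R →+* Q} (hk : KModel R k κ') (ι : P →+* Q)
    (hι : ∀ t : T, ι (j t) = k (φ t)) (h : PrimeMap ι) : PrimeMap (baseK φ) := by
  obtain ⟨e, he, -⟩ := kmodel_equiv hT hj
  obtain ⟨e', he', -⟩ := kmodel_equiv hS hk
  have hb : ∀ t : T, baseK φ (toGen (algebraMap R T) t) = toGen (algebraMap R S) (φ t) := by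
    intro t
    have hle : (nonZeroDivisors R).map (algebraMap R T) ≤
        ((nonZeroDivisors R).map (algebraMap R S)).comap (φ : T →+* S) := by
      rintro _ ⟨r, hr, rfl⟩
      exact ⟨r, hr, (φ.commutes r).symm⟩
    have h1 : IsLocalization.map (M := (nonZeroDivisors R).map (algebraMap R T))
        (T := (nonZeroDivisors R).map (algebraMap R S))
        (S := Localization ((nonZeroDivisors R).map (algebraMap R T)))
        (Localization ((nonZeroDivisors R).map (algebraMap R S))) (φ : T →+* S) hle
        (algebraMap T (Localization ((nonZeroDivisors R).map (algebraMap R T))) t) =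
        algebraMap S (Localization ((nonZeroDivisors R).map (algebraMap R S)))
          ((φ : T →+* S) t) := IsLocalization.map_eq _ t
    exact h1
  have hcomm : ∀ x : Gen (algebraMap R T), e' (baseK φ x) = ι (e x) := by
    intro x
    have key : ∀ f₁ f₂ : Localization ((nonZeroDivisors R).map (algebraMap R T)) →+* Q,
        (∀ t : T, f₁ (algebraMap T (Localization ((nonZeroDivisors R).map (algebraMap R T))) t) =
          f₂ (algebraMap T (Localization ((nonZeroDivisors R).map (algebraMap R T))) t)) →
        f₁ = f₂ := fun f₁ f₂ h1 =>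
      IsLocalization.ringHom_ext ((nonZeroDivisors R).map (algebraMap R T)) (RingHom.ext h1)
    have h1 : ((e' : Gen (algebraMap R S) →+* Q).comp (baseK φ)) =
        ι.comp (e : Gen (algebraMap R T) →+* P) := by
      refine key _ _ fun t => ?_
      change e' (baseK φ (toGen (algebraMap R T) t)) = ι (e (toGen (algebraMap R T) t))
      rw [hb, he, he', hι]
    exact RingHom.congr_fun h1 x
  exact prm_equiv e e' hcomm h

variable {R T S : Type} [CommRing R] [CommRing T] [CommRing S] [Algebra R T] [Algebra R S]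

private theorem prm_fin [IsDomain R] [IsDomain T] [IsDomain S]
    (hi : Function.Injective (algebraMap R T)) (φ : T →ₐ[R] S) (hφ : Function.Injective φ)
    {b : T} {g : S} (hb : b ≠ 0) (hS0 : g * φ b ≠ 0) {P Q : Type} [CommRing P] [CommRing Q]
    {j : Localization.Away b →+* P} {κ : FractionRing R →+* P} (hj : KModel R j κ)
    {k : Localization.Away (g * φ b) →+* Q} {κ' : FractionRing R →+* Q} (hk : KModel R k κ')
    (ι : P →+* Q) (hι : ∀ t : T, ι (j (algebraMap T (Localization.Away b) t)) =
      k (algebraMap S (Localization.Away (g * φ b)) (φ t))) (h : PrimeMap ι) :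
    PrimeMap (baseK (shr φ b g)) := by
  have hdT : IsDomain (Localization.Away b) :=
    IsLocalization.isDomain_localization (powers_le_nonZeroDivisors_of_noZeroDivisors hb)
  have hdS : IsDomain (Localization.Away (g * φ b)) :=
    IsLocalization.isDomain_localization (powers_le_nonZeroDivisors_of_noZeroDivisors hS0)
  have hTbi : Function.Injective (algebraMap T (Localization.Away b)) :=
    IsLocalization.injective _ (powers_le_nonZeroDivisors_of_noZeroDivisors hb)
  have hSbi : Function.Injective (algebraMap S (Localization.Away (g * φ b))) :=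
    IsLocalization.injective _ (powers_le_nonZeroDivisors_of_noZeroDivisors hS0)
  have hRT : Function.Injective (algebraMap R (Localization.Away b)) := by
    rw [IsScalarTower.algebraMap_eq R T (Localization.Away b)]
    exact hTbi.comp hi
  have hRS' : Function.Injective (algebraMap R S) := fun x y e =>
    hi (hφ (by rw [φ.commutes, φ.commutes, e]))
  have hRS : Function.Injective (algebraMap R (Localization.Away (g * φ b))) := by
    rw [IsScalarTower.algebraMap_eq R S (Localization.Away (g * φ b))]
    exact hSbi.comp hRS'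
  refine prm_model hRT hRS (shr φ b g) hj hk ι (fun x => ?_) h
  have h1 : ι.comp j = k.comp (shr φ b g : Localization.Away b →+* Localization.Away (g * φ b)) :=
    IsLocalization.ringHom_ext (Submonoid.powers b) (RingHom.ext fun t => by
      have h3 : ((shr φ b g : Localization.Away b →+* Localization.Away (g * φ b))
          (algebraMap T (Localization.Away b) t)) =
          algebraMap S (Localization.Away (g * φ b)) (φ t) := shr_apply φ b g t
      rw [RingHom.comp_apply, RingHom.comp_apply, RingHom.comp_apply, RingHom.comp_apply, h3]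
      exact hι t)
  exact RingHom.congr_fun h1 x

/-- the part over the fraction field of `R` -/
private theorem prm_gen [IsDomain R] [IsDomain T] [IsDomain S]
    (hi : Function.Injective (algebraMap R T)) (φ : T →ₐ[R] S) (hφ : Function.Injective φ)
    {b : T} {g : S} (hb : b ≠ 0) (hS0 : g * φ b ≠ 0) {f : T[X][X]} (hm : f.Monic)
    (hd : 0 < f.natDegree) [IsDomain (AdjoinRoot f)] {h : T}
    (hh : ∀ (E : Type) [Field E] (φ : T →+* E), φ h ≠ 0 → Irreducible (f.map (mapRingHom φ)))
    {b' c : AdjoinRoot f} {β : T}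
    (hβ : ∀ (P : Type) [CommRing P] (ρ : T →+* P) (π : P),
      AdjoinRoot.of (f.map (mapRingHom ρ)) (C π) ∣ bc ρ f b' → π ∣ ρ β)
    (hdvd : h * β ∣ b) (hc : c = AdjoinRoot.of f (C b)) (hG0 : b' * c ≠ 0)
    (Φ : Localization.Away (g * φ b) ≃ₐ[R] Localization.Away (b' * c))
    (hΦt : ∀ t : T, Φ (algebraMap S (Localization.Away (g * φ b)) (φ t)) =
      algebraMap (AdjoinRoot f) (Localization.Away (b' * c)) (AdjoinRoot.of f (C t))) :
    PrimeMap (baseK (shr φ b g)) := by
  have hdT : IsDomain (Localization.Away b) :=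
    IsLocalization.isDomain_localization (powers_le_nonZeroDivisors_of_noZeroDivisors hb)
  have hTbi : Function.Injective (algebraMap T (Localization.Away b)) :=
    IsLocalization.injective _ (powers_le_nonZeroDivisors_of_noZeroDivisors hb)
  have hRT : Function.Injective (algebraMap R (Localization.Away b)) := by
    rw [IsScalarTower.algebraMap_eq R T (Localization.Away b)]
    exact hTbi.comp hi
  have hkm := kmodel_gen (R := R) (S := Localization.Away b) hRT
  have hdP : IsDomain (Gen (algebraMap R (Localization.Away b))) := kmodel_domain hkm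
  obtain ⟨ρ, hρ⟩ : ∃ ρ : T →+* Gen (algebraMap R (Localization.Away b)),
      ∀ t, ρ t = toGen (algebraMap R (Localization.Away b))
        (algebraMap T (Localization.Away b) t) :=
    ⟨(toGen (algebraMap R (Localization.Away b))).comp (algebraMap T (Localization.Away b)),
      fun _ => rfl⟩
  have hρi : Function.Injective ρ := by
    intro x y e
    rw [hρ, hρ] at e
    exact hTbi (hkm.inj e)
  have hρb : IsUnit (ρ b) := by
    rw [hρ]
    exact (IsLocalization.Away.algebraMap_isUnit (S := Localization.Away b) b).map _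
  have hρh : IsUnit (ρ h) :=
    isUnit_of_dvd_unit (map_dvd ρ ((dvd_mul_right h β).trans hdvd)) hρb
  have hρβ : IsUnit (ρ β) :=
    isUnit_of_dvd_unit (map_dvd ρ ((dvd_mul_left β h).trans hdvd)) hρb
  have hprm := prime_away ρ hm hd hh hρh (g := b' * c) (β := β) (fun E _ χ hχ => by
    have h1 : (χ.comp ρ) h ≠ 0 := by
      rw [RingHom.comp_apply]
      exact (hρh.map χ).ne_zero
    have h2 := hh E (χ.comp ρ) h1
    have h3 := hβ E (χ.comp ρ) 0
    have hu : IsUnit (AdjoinRoot.of (f.map (mapRingHom (χ.comp ρ))) (C ((χ.comp ρ) b))) :=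
      ((hρb.map χ).map C).map (AdjoinRoot.of (f.map (mapRingHom (χ.comp ρ))))
    rw [map_mul, hc, shr_of] at hχ
    have h4 : bc (χ.comp ρ) f b' = 0 := by
      obtain ⟨v, hv⟩ := hu
      rw [← hv] at hχ
      exact (Units.mul_left_eq_zero v).1 hχ
    have h5 := h3 (by rw [h4]; exact dvd_zero _)
    exact zero_dvd_iff.1 h5) hρβ
  have hcr : ∀ r : R, Fb.cst (algebraMap R (Localization.Away b))
      (algebraMap R (FractionRing R) r) = ρ (algebraMap R T r) := by
    intro r
    rw [hρ, hkm.comp, IsScalarTower.algebraMap_apply R T (Localization.Away b)]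
  have hsu : ∀ x : Gen (algebraMap R (Localization.Away b)), ∃ (t : T) (r : R) (n : ℕ), r ≠ 0 ∧
      x * ρ (algebraMap R T r * b ^ n) = ρ t := by
    intro x
    obtain ⟨s, r, hr, e⟩ := hkm.surj x
    obtain ⟨n, t, ht⟩ := IsLocalization.Away.surj b s
    refine ⟨t, r, n, hr, ?_⟩
    rw [hρ, hρ, ← ht, map_mul, map_mul, map_mul,
      ← IsScalarTower.algebraMap_apply R T (Localization.Away b), ← e, map_pow]
    ring
  have hk₂ := shr_km hρi hcr b hsu hm hG0 (by rw [hc]; exact dvd_mul_left _ _)
  have hk₁ := shr_trans hk₂ Φ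
  refine prm_fin hi φ hφ hb hS0 hkm hk₁ _ (fun t => ?_) hprm
  have h2 : Localization.awayMap (bc ρ f) (b' * c)
      (algebraMap (AdjoinRoot f) (Localization.Away (b' * c)) (AdjoinRoot.of f (C t))) =
      algebraMap _ (Localization.Away (bc ρ f (b' * c))) (bc ρ f (AdjoinRoot.of f (C t))) :=
    IsLocalization.map_eq _ _
  have h4 : (Φ : Localization.Away (g * φ b) →+* Localization.Away (b' * c))
      (algebraMap S (Localization.Away (g * φ b)) (φ t)) =
      algebraMap (AdjoinRoot f) (Localization.Away (b' * c)) (AdjoinRoot.of f (C t)) := hΦt t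
  have h5 : (Localization.awayMap (bc ρ f) (b' * c)).comp
      (Φ : Localization.Away (g * φ b) →+* Localization.Away (b' * c))
        (algebraMap S (Localization.Away (g * φ b)) (φ t)) =
      algebraMap _ (Localization.Away (bc ρ f (b' * c)))
        (AdjoinRoot.of (f.map (mapRingHom ρ)) (C (ρ t))) := by
    rw [RingHom.comp_apply, h4, h2, shr_of]
  exact (congrArg (fun x => algebraMap _ (Localization.Away (bc ρ f (b' * c)))
    (AdjoinRoot.of (f.map (mapRingHom ρ)) (C x))) (hρ t).symm).trans h5.symm

/-- Proof: as `irr_all` -/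
theorem prime_all {R T S : Type} [CommRing R] [CommRing T] [CommRing S] [Algebra R T]
    [Algebra R S] [IsDomain R] [IsDomain T] [IsDomain S]
    (hi : Function.Injective (algebraMap R T)) (φ : T →ₐ[R] S) (hφ : Function.Injective φ)
    {f : T[X][X]} (hm : f.Monic) (hd : 0 < f.natDegree) (habs : LW.AbsIrr f)
    [IsDomain (AdjoinRoot f)] {b' : AdjoinRoot f} (hb' : b' ≠ 0) :
    ∃ b₀ : T, b₀ ≠ 0 ∧ ∀ b : T, b ≠ 0 → b₀ ∣ b → ∀ g : S, g * φ b ≠ 0 →
      b' * AdjoinRoot.of f (C b) ≠ 0 →
      ∀ Φ : Localization.Away (g * φ b) ≃ₐ[R] Localization.Away (b' * AdjoinRoot.of f (C b)),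
        (∀ t : T, Φ (algebraMap S (Localization.Away (g * φ b)) (φ t)) =
          algebraMap (AdjoinRoot f) (Localization.Away (b' * AdjoinRoot.of f (C b)))
            (AdjoinRoot.of f (C t))) →
        PrimeMap (baseK (shr φ b g)) := by
  obtain ⟨h, hh0, hh⟩ := LW.bertini_noether f hm habs
  obtain ⟨β, hβ0, hβ⟩ := adjoin_coeff hm hb'
  exact ⟨h * β, mul_ne_zero hh0 hβ0, fun b hb hdvd g hS0 hG0 Φ hΦ =>
    prm_gen hi φ hφ hb hS0 hm hd hh hβ hdvd rfl hG0 Φ hΦ⟩

end Pool.Agent.Lib.MP_1a0ddd_nt.Tf
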