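import Pool.Agent.Lib.MP_1a0ddd_nt.Fb.RkU

/-! Descent of the structure of the units. -/

set_option autoImplicit false

namespace Pool.Agent.Lib.MP_1a0ddd_nt.Tf

open Pool.Agent.Lib.MP_1a0ddd_nt.Fb

private theorem prod_zpow_add {G : Type} [CommGroup G] {e : ℕ} (γ : Fin e → G) (m n : Fin e → ℤ) :
    ∏ j, γ j ^ (m + n) j = (∏ j, γ j ^ m j) * ∏ j, γ j ^ n j := by
  rw [← Finset.prod_mul_distrib]
  exact Finset.prod_congr rfl fun j _ => zpow_add _ _ _

private theorem prod_zpow_smul {G : Type} [CommGroup G] {e : ℕ} (γ : Fin e → G) (z : ℤ)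
    (n : Fin e → ℤ) : ∏ j, γ j ^ (z • n) j = (∏ j, γ j ^ n j) ^ z := by
  rw [← Finset.prod_zpow]
  refine Finset.prod_congr rfl fun j _ => ?_
  rw [Pi.smul_apply, smul_eq_mul, mul_comm, zpow_mul]

private theorem prod_zpow_sum {G : Type} [CommGroup G] {e d : ℕ} (γ : Fin e → G) (z : Fin d → ℤ)
    (n : Fin d → Fin e → ℤ) :
    ∏ j, γ j ^ (∑ i, z i • n i) j = ∏ i, (∏ j, γ j ^ n i j) ^ z i := by
  have h : ∀ s : Finset (Fin d), ∏ j, γ j ^ (∑ i ∈ s, z i • n i) j =
      ∏ i ∈ s, (∏ j, γ j ^ n i j) ^ z i := by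
    classical
    intro s
    induction s using Finset.induction_on with
    | empty => simp
    | insert a s ha ih =>
      rw [Finset.sum_insert ha, Finset.prod_insert ha, prod_zpow_add, prod_zpow_smul, ih]
  exact h Finset.univ

/-- Proof: the exponents define a homomorphism from the units of `P` to `ℤ^e` with kernel `k^*`; its
image is free of finite rank -/
theorem unitFam_desc {k P Q : Type} [Field k] [CommRing P] [CommRing Q] {ι : P →+* Q}
    (hι : Function.Injective ι) (κ : k →+* P) {e : ℕ} {γ : Fin e → Qˣ}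
    (hγ : UnitFam (ι.comp κ) γ) : ∃ (e' : ℕ) (δ : Fin e' → Pˣ), UnitFam κ δ := by
  have hcomp : ∀ c : kˣ, Units.map ((ι.comp κ : k →+* Q) : k →* Q) c =
      Units.map (ι : P →* Q) (Units.map (κ : k →* P) c) := fun c => Units.ext rfl
  let L : Submodule ℤ (Fin e → ℤ) :=
    { carrier := {n | ∃ v : Pˣ, Units.map (ι : P →* Q) v = ∏ j, γ j ^ n j}
      add_mem' := by
        rintro m n ⟨v, hv⟩ ⟨w, hw⟩
        exact ⟨v * w, by rw [map_mul, hv, hw, prod_zpow_add]⟩
      zero_mem' := ⟨1, by simp⟩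
      smul_mem' := by
        rintro z n ⟨v, hv⟩
        exact ⟨v ^ z, by rw [map_zpow, hv, prod_zpow_smul]⟩ }
  obtain ⟨e', ⟨b⟩⟩ := Submodule.nonempty_basis_of_pid (Pi.basisFun ℤ (Fin e)) L
  have hδ : ∀ i : Fin e', ∃ v : Pˣ, Units.map (ι : P →* Q) v =
      ∏ j, γ j ^ (b i : Fin e → ℤ) j := fun i => (b i).2
  choose δ hδ using hδ
  have hsum : ∀ m : Fin e' → ℤ, Units.map (ι : P →* Q) (∏ i, δ i ^ m i) =
      ∏ j, γ j ^ (∑ i, m i • (b i : Fin e → ℤ)) j := by
    intro m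
    rw [map_prod, prod_zpow_sum]
    refine Finset.prod_congr rfl fun i _ => ?_
    rw [map_zpow, hδ]
  refine ⟨e', δ, ?_, ?_⟩
  · intro v
    obtain ⟨c, n, h⟩ := hγ.gen (Units.map (ι : P →* Q) v)
    rw [hcomp] at h
    have hn : n ∈ L := by
      refine ⟨v * (Units.map (κ : k →* P) c)⁻¹, ?_⟩
      rw [map_mul, h, map_inv, mul_comm, inv_mul_cancel_left]
    refine ⟨c, fun i => b.repr ⟨n, hn⟩ i, ?_⟩
    apply Units.map_injective (f := (ι : P →* Q)) hι
    rw [map_mul, hsum, h]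
    congr 1
    have h1 := congrArg (Subtype.val : L → (Fin e → ℤ)) (b.sum_repr ⟨n, hn⟩)
    rw [Submodule.coe_sum] at h1
    have h2 : ∑ i, (b.repr ⟨n, hn⟩ i) • (b i : Fin e → ℤ) = n := h1
    rw [h2]
  · intro c m h
    have h1 := congrArg (Units.map (ι : P →* Q)) h
    rw [hsum, ← hcomp] at h1
    have h2 := hγ.indep c _ h1
    have h3 : ∑ i, m i • b i = 0 := by
      apply Subtype.ext
      rw [Submodule.coe_sum]
      exact h2
    have h4 := Fintype.linearIndependent_iff.mp b.linearIndependent m h3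
    exact funext h4

end Pool.Agent.Lib.MP_1a0ddd_nt.Tf
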