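import Pool.Agent.Lib.MP_1a0ddd_nt.Nc.Cls

/-! The units of the coordinate ring of an affine curve are finitely generated modulo constants. -/

set_option autoImplicit false

namespace Pool.Agent.Lib.MP_1a0ddd_nt.Tf

open Nc Pool.Agent.Lib.MP_1a0ddd_nt.V

section ord

variable {L : Type} [Field L] {V : ValuationSubring L} {ν : L → ℤ}

private theorem ord_one (h : IsOrd V ν) : ν 1 = 0 := by
  have := h.mul 1 1 one_ne_zero one_ne_zero
  rw [mul_one] at this
  omega

private theorem ord_inv (h : IsOrd V ν) {x : L} (hx : x ≠ 0) : ν x⁻¹ = -ν x := by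
  have := h.mul x x⁻¹ hx (inv_ne_zero hx)
  rw [mul_inv_cancel₀ hx, ord_one h] at this
  omega

private theorem ord_eq_zero (h : IsOrd V ν) {x : L} (hx : x ≠ 0) :
    ν x = 0 ↔ x ∈ V ∧ x⁻¹ ∈ V := by
  rw [h.mem x hx, h.mem x⁻¹ (inv_ne_zero hx), ord_inv h hx]
  omega

end ord

section dv

variable {L : Type} [Field L] {F : Subfield L} {ν : Place F → L → ℤ}

private theorem supp_finite (hν : ∀ V : Place F, IsOrd V.1 (ν V))
    (hfin : ∀ f : L, {V : Place F | f ∉ V.1}.Finite) {f : L} (hf : f ≠ 0) :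
    {V : Place F | ν V f ≠ 0}.Finite := by
  refine ((hfin f).union (hfin f⁻¹)).subset fun V hV => ?_
  by_contra h
  simp only [Set.mem_union, Set.mem_ofPred_eq, not_or, not_not] at h
  exact hV ((ord_eq_zero (hν V) hf).2 h)

/-- the divisor map -/
private noncomputable def dv (hν : ∀ V : Place F, IsOrd V.1 (ν V))
    (hfin : ∀ f : L, {V : Place F | f ∉ V.1}.Finite) : Additive Lˣ →+ (Place F →₀ ℤ) where
  toFun u := Finsupp.ofSupportFinite (fun V => ν V (Additive.toMul u : Lˣ))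
    (supp_finite hν hfin (Additive.toMul u).ne_zero)
  map_zero' := by
    ext V
    exact ord_one (hν V)
  map_add' u v := by
    ext V
    exact (hν V).mul _ _ (Additive.toMul u).ne_zero (Additive.toMul v).ne_zero

end dv

/-- Proof: `place_finite`, `place_ord`, `place_exists` as in `class_rank` (`Nc/Cls.lean`): the group
of the units of `A` modulo `F^*` is a subgroup of the free group on the finitely many places `V`
with `A ⊄ V` (an element with trivial divisor is algebraic over `F`, so it is in `F`) -/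
theorem units_fg {L : Type} [Field L] [CharZero L] {F : Subfield L} {A : Subring L}
    (hFA : ∀ x ∈ F, x ∈ A) (hfg : ∃ s : Set L, s.Finite ∧ A = Subring.closure ((F : Set L) ∪ s))
    (hfr : ∀ x : L, ∃ a ∈ A, ∃ b ∈ A, b ≠ 0 ∧ x * b = a) (htr : Algebra.trdeg F L = 1)
    (hcl : ∀ x : L, IsAlgebraic F x → x ∈ F) :
    ∃ (r : ℕ) (u : Fin r → L), (∀ i, u i ≠ 0 ∧ u i ∈ A ∧ (u i)⁻¹ ∈ A) ∧
      ∀ v : L, v ≠ 0 → v ∈ A → v⁻¹ ∈ A →
        ∃ c ∈ F, c ≠ 0 ∧ ∃ n : Fin r → ℤ, v = c * ∏ i, u i ^ n i := by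
  classical
  have hfg' : ∃ s : Set L, s.Finite ∧ Subfield.closure ((F : Set L) ∪ s) = ⊤ := by
    obtain ⟨s, hs, hA⟩ := hfg
    refine ⟨s, hs, top_unique fun x _ => ?_⟩
    have hle : A ≤ (Subfield.closure ((F : Set L) ∪ s)).toSubring := by
      rw [hA]
      exact Subring.closure_le.2 Subfield.subset_closure
    obtain ⟨a, ha, b, hb, hb0, hab⟩ := hfr x
    rw [eq_div_of_mul_eq hb0 hab]
    exact div_mem (hle ha) (hle hb)
  have hfin : ∀ f : L, {V : Place F | f ∉ V.1}.Finite := place_finite htr hfg'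
  choose ν hν using place_ord htr hfg'
  have hO : {V : Place F | ¬ (A : Set L) ⊆ V.1}.Finite := by
    obtain ⟨s, hs, hA⟩ := hfg
    refine (hs.biUnion fun f _ => hfin f).subset fun V hV => ?_
    by_contra h
    simp only [Set.mem_iUnion, Set.mem_ofPred_eq, not_exists, not_not] at h
    refine hV ?_
    have : A ≤ V.1.toSubring := by
      rw [hA]
      refine Subring.closure_le.2 (Set.union_subset V.2.2 fun f hf => h f hf)
    exact this
  have hker : ∀ u : Additive Lˣ, dv hν hfin u = 0 → ((Additive.toMul u : Lˣ) : L) ∈ F := by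
    intro u h
    have hu : ((Additive.toMul u : Lˣ) : L) ≠ 0 := (Additive.toMul u).ne_zero
    refine hcl _ ?_
    by_contra hna
    obtain ⟨V, hV⟩ := place_exists (F := F) (f := ((Additive.toMul u : Lˣ) : L)) hna
    refine hV ?_
    have h1 : dv hν hfin u V = 0 := by
      rw [h]
      rfl
    exact ((ord_eq_zero (hν V) hu).1 h1).1
  set O : Set (Place F) := {V : Place F | ¬ (A : Set L) ⊆ V.1} with hOdef
  let M : Submodule ℤ (Place F →₀ ℤ) := Submodule.span ℤ
    {D | ∃ u : Additive Lˣ, ((Additive.toMul u : Lˣ) : L) ∈ A ∧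
      ((Additive.toMul u : Lˣ) : L)⁻¹ ∈ A ∧ dv hν hfin u = D}
  have hMle : M ≤ Finsupp.supported ℤ ℤ O := by
    refine Submodule.span_le.2 ?_
    rintro D ⟨u, h1, h2, rfl⟩
    intro V hV
    by_contra hVO
    simp only [hOdef, Set.mem_ofPred_eq, not_not] at hVO
    have hu : ((Additive.toMul u : Lˣ) : L) ≠ 0 := (Additive.toMul u).ne_zero
    exact (Finsupp.mem_support_iff.1 hV) ((ord_eq_zero (hν V) hu).2 ⟨hVO h1, hVO h2⟩)
  have hSfg : (Finsupp.supported ℤ ℤ O).FG := by
    rw [Finsupp.supported_eq_span_single]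
    exact Submodule.fg_span (hO.image _)
  have := isNoetherian_of_fg_of_noetherian _ hSfg
  have hMfg : M.FG := Submodule.FG.of_le_of_isNoetherian hMle
  obtain ⟨t, ht, htM⟩ := (Submodule.fg_span_iff_fg_span_finset_subset _).1 hMfg
  have ht' : ∀ D : t, ∃ u : Additive Lˣ, ((Additive.toMul u : Lˣ) : L) ∈ A ∧
      ((Additive.toMul u : Lˣ) : L)⁻¹ ∈ A ∧ dv hν hfin u = D := fun D => ht D.2
  choose w hw1 hw2 hw3 using ht'
  let e : Fin t.card ≃ t := t.equivFin.symm
  refine ⟨t.card, fun i => ((Additive.toMul (w (e i)) : Lˣ) : L),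
    fun i => ⟨(Additive.toMul (w (e i))).ne_zero, hw1 _, hw2 _⟩, fun v hv0 hvA hvA' => ?_⟩
  have hvM : dv hν hfin (Additive.ofMul (Units.mk0 v hv0)) ∈ Submodule.span ℤ
      (Set.range fun i : Fin t.card => ((e i : t) : Place F →₀ ℤ)) := by
    have hr : (Set.range fun i : Fin t.card => ((e i : t) : Place F →₀ ℤ)) = ↑t := by
      ext D
      constructor
      · rintro ⟨i, rfl⟩
        exact (e i).2
      · intro hD
        exact ⟨e.symm ⟨D, hD⟩, by simp⟩
    rw [hr, ← htM]
    exact Submodule.subset_span ⟨Additive.ofMul (Units.mk0 v hv0), hvA, hvA', rfl⟩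
  obtain ⟨c, hc⟩ := (Submodule.mem_span_range_iff_exists_fun ℤ).1 hvM
  have h1 : dv hν hfin (Additive.ofMul (Units.mk0 v hv0) - ∑ i, c i • w (e i)) = 0 := by
    rw [map_sub, map_sum, ← hc, sub_eq_zero]
    refine Finset.sum_congr rfl fun i _ => ?_
    rw [map_zsmul, hw3]
  have h2 := hker _ h1
  have h3 : ((Additive.toMul (Additive.ofMul (Units.mk0 v hv0) - ∑ i, c i • w (e i)) : Lˣ) : L) =
      v / ∏ i, ((Additive.toMul (w (e i)) : Lˣ) : L) ^ c i := by
    rw [toMul_sub, toMul_sum, Units.val_div_eq_div_val, Units.coe_prod]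
    simp
  rw [h3] at h2
  have h4 : ∏ i, ((Additive.toMul (w (e i)) : Lˣ) : L) ^ c i ≠ 0 :=
    Finset.prod_ne_zero_iff.2 fun i _ => zpow_ne_zero _ (Additive.toMul (w (e i))).ne_zero
  exact ⟨_, h2, div_ne_zero hv0 h4, c, (div_mul_cancel₀ v h4).symm⟩

end Pool.Agent.Lib.MP_1a0ddd_nt.Tf
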