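import Pool.Agent.Lib.MP_1a0ddd_nt.Tf.KT
import Pool.Agent.Lib.MP_1a0ddd_nt.Tf.Prm
import Pool.Agent.Lib.MP_1a0ddd_nt.Tf.UfdU
import Pool.Agent.Lib.MP_1a0ddd_nt.Tf.Uni

/-! Descent for fibrations in curves. -/

set_option autoImplicit false

namespace Pool.Agent.Lib.MP_1a0ddd_nt.Tf

open Polynomial Pool.Agent.Lib.MP_1a0ddd_nt.V Pool.Agent.Lib.MP_1a0ddd_nt.Fb
  Pool.Agent.Lib.MP_1a0ddd_nt.Cn Pool.Agent.Lib.MP_1a0ddd_nt.Un Pool.Agent.Lib.MP_1a0ddd_nt.Nc

private theorem dsc_lift {B X L : Type} [CommRing B] [CommRing X] [Algebra B X] [Field L]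
    (M : Submonoid B) [IsLocalization M X] (j : B →+* L) (hj : Function.Injective j)
    (hM : ∀ m ∈ M, j m ≠ 0) :
    ∃ J : X →+* L, (∀ s, J (algebraMap B X s) = j s) ∧ Function.Injective J ∧
      ∀ x, ∃ s, ∃ m ∈ M, J x = j s / j m := by
  have hu : ∀ y : M, IsUnit (j y) := fun y => (hM y y.2).isUnit
  refine ⟨IsLocalization.lift hu, fun s => IsLocalization.lift_eq hu s, ?_, ?_⟩
  · rw [injective_iff_map_eq_zero]
    intro x hx
    obtain ⟨b, m, rfl⟩ := IsLocalization.exists_mk'_eq M x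
    have h1 : IsLocalization.lift hu (IsLocalization.mk' X b m * algebraMap B X m) = 0 := by
      rw [map_mul, hx, zero_mul]
    rw [IsLocalization.mk'_spec, IsLocalization.lift_eq] at h1
    have h2 : b = 0 := hj (by rw [h1, map_zero])
    rw [h2, IsLocalization.mk'_zero]
  · intro x
    obtain ⟨b, m, rfl⟩ := IsLocalization.exists_mk'_eq M x
    refine ⟨b, m, m.2, ?_⟩
    rw [eq_div_iff (hM m m.2)]
    have h1 : IsLocalization.lift hu (IsLocalization.mk' X b m * algebraMap B X m) =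
        IsLocalization.lift hu (IsLocalization.mk' X b m) * j m := by
      rw [map_mul, IsLocalization.lift_eq]
    rw [← h1, IsLocalization.mk'_spec, IsLocalization.lift_eq]

private theorem dsc_gen_lift {T S L : Type} [CommRing T] [Nontrivial T] [CommRing S] [Field L]
    (φ : T →+* S) (j : S →+* L) (hj : Function.Injective j) (hφ : ∀ t, t ≠ 0 → j (φ t) ≠ 0) :
    ∃ J : Gen φ →+* L, (∀ s, J (toGen φ s) = j s) ∧ Function.Injective J ∧
      ∀ x, ∃ s t, t ≠ 0 ∧ J x = j s / j (φ t) := by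
  obtain ⟨J, h1, h2, h3⟩ := dsc_lift (X := Localization ((nonZeroDivisors T).map φ))
    ((nonZeroDivisors T).map φ) j hj (by
      rintro _ ⟨t, ht, rfl⟩
      exact hφ t (nonZeroDivisors.ne_zero ht))
  refine ⟨J, h1, h2, fun x => ?_⟩
  obtain ⟨s, _, ⟨t, ht, rfl⟩, hx⟩ := h3 x
  exact ⟨s, t, nonZeroDivisors.ne_zero ht, hx⟩

private theorem dsc_baseK {R T S : Type} [CommRing R] [CommRing T] [CommRing S] [Algebra R T]
    [Algebra R S] (φ : T →ₐ[R] S) (t : T) :
    baseK φ (toGen (algebraMap R T) t) = toGen (algebraMap R S) (φ t) := by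
  have h1 : (IsLocalization.map (M := (nonZeroDivisors R).map (algebraMap R T))
    (T := (nonZeroDivisors R).map (algebraMap R S))
    (Localization ((nonZeroDivisors R).map (algebraMap R S))) (φ : T →+* S) (by
      rintro _ ⟨r, hr, rfl⟩
      exact ⟨r, hr, (φ.commutes r).symm⟩) :
    Localization ((nonZeroDivisors R).map (algebraMap R T)) →+* _) (algebraMap T _ t) =
      algebraMap S _ (φ t) := IsLocalization.map_eq _ t
  exact h1

private theorem dsc_cst {T S : Type} [CommRing T] [CommRing S] (φ : T →+* S) (a : T) :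
    Fb.cst φ (algebraMap T (FractionRing T) a) = toGen φ (φ a) := by
  have h1 : IsLocalization.map (M := nonZeroDivisors T) (T := (nonZeroDivisors T).map φ)
      (Localization ((nonZeroDivisors T).map φ)) φ (Submonoid.le_comap_map _)
      (algebraMap T (FractionRing T) a) =
        algebraMap S (Localization ((nonZeroDivisors T).map φ)) (φ a) :=
    IsLocalization.map_eq _ a
  exact h1

private theorem dsc_baseK_cst {R T S : Type} [CommRing R] [CommRing T] [CommRing S] [Algebra R T]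
    [Algebra R S] (φ : T →ₐ[R] S) :
    (baseK φ).comp (Fb.cst (algebraMap R T)) = Fb.cst (algebraMap R S) := by
  apply IsLocalization.ringHom_ext (nonZeroDivisors R)
  ext r
  have h2 : baseK φ (Fb.cst (algebraMap R T) (algebraMap R (FractionRing R) r)) =
      Fb.cst (algebraMap R S) (algebraMap R (FractionRing R) r) := by
    rw [dsc_cst, dsc_cst, dsc_baseK, φ.commutes]
  exact h2

private theorem dsc_away {S L : Type} [CommRing S] [Field L] (j : S →+* L)
    (hj : Function.Injective j) {g : S} (hg : g ≠ 0) :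
    ∃ J : Localization.Away g →+* L, (∀ s, J (algebraMap S (Localization.Away g) s) = j s) ∧
      Function.Injective J ∧ ∀ x, ∃ (s : S) (n : ℕ), J x = j s / j g ^ n := by
  have hg' : j g ≠ 0 := fun h => hg (hj (by rw [h, map_zero]))
  obtain ⟨J, h1, h2, h3⟩ := dsc_lift (X := Localization.Away g) (Submonoid.powers g) j hj (by
    rintro _ ⟨n, rfl⟩
    show j (g ^ n) ≠ 0
    rw [map_pow]
    exact pow_ne_zero n hg')
  refine ⟨J, h1, h2, fun x => ?_⟩
  obtain ⟨s, _, ⟨n, rfl⟩, hx⟩ := h3 x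
  refine ⟨s, n, ?_⟩
  rw [hx]
  show j s / j (g ^ n) = _
  rw [map_pow]

/-- all small open subsets of `Spec S` are geometrically factorial -/
private theorem dsc_open {R S L : Type} [CommRing R] [CommRing S] [Field L] [Algebra R S]
    [Algebra R L] [IsDomain R] [IsDomain S] {d : ℕ} (hR : BaseVar R d)
    (hS : Algebra.FiniteType R S) (j : S →ₐ[R] L) (hj : Function.Injective j)
    (hfj : ∀ z : L, ∃ x y : S, y ≠ 0 ∧ z * j y = j x) {h : S} (hh : h ≠ 0) {n e : ℕ}
    (hg : Geo R (Localization.Away h) n e) :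
    ∃ g₂ : S, g₂ ≠ 0 ∧ ∀ g : S, g ≠ 0 → g₂ ∣ g →
      ∃ e' : ℕ, Geo R (Localization.Away g) n e' := by
  obtain ⟨f, hf⟩ := loc_equiv j hj hh
  obtain ⟨k, hk⟩ : ∃ k : Localization.Away h →ₐ[R] L, ∀ x, k x = (f x : L) :=
    ⟨(loc j h).val.comp (f : Localization.Away h →ₐ[R] loc j h), fun x => rfl⟩
  have hki : Function.Injective k := fun x y e => by
    rw [hk, hk] at e
    exact f.injective (Subtype.ext e)
  have hM : Submonoid.powers h ≤ nonZeroDivisors S :=
    powers_le_nonZeroDivisors_of_noZeroDivisors hh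
  have hinj : Function.Injective (algebraMap S (Localization.Away h)) :=
    IsLocalization.injective _ hM
  obtain ⟨a, ha, h1⟩ := tateK_birat hR hS j k hj hki hfj (fun z => by
    obtain ⟨x, y, hy, e⟩ := hfj z
    refine ⟨algebraMap S _ x, algebraMap S _ y, (map_ne_zero_iff _ hinj).2 hy, ?_⟩
    rw [hk, hk, hf, hf, e]) (tateK_of_geo (d := d) hg)
  refine ⟨a, ha, fun g hg hag => ?_⟩
  obtain ⟨e', h2⟩ := h1 g hg hag
  exact ⟨e', h2.geo⟩

/-- elements of the function field of `Spec T` -/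
private theorem dsc_frac {T L : Type} [CommRing T] [Field L] (θ : T →+* L)
    (hθ : Function.Injective θ) {x : L} (hx : x ∈ Subfield.closure (Set.range θ)) :
    ∃ a c : T, c ≠ 0 ∧ x * θ c = θ a := by
  rw [Subfield.mem_closure_iff] at hx
  obtain ⟨y, hy, z, hz, hyz⟩ := hx
  have hr : Subring.closure (Set.range θ) = θ.range := by
    rw [← RingHom.coe_range, Subring.closure_eq]
  rw [hr] at hy hz
  obtain ⟨a, rfl⟩ := hy
  obtain ⟨c, rfl⟩ := hz
  by_cases hc : c = 0
  · refine ⟨0, 1, ?_, ?_⟩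
    · intro h0
      have h1 : Subsingleton T := subsingleton_of_zero_eq_one h0.symm
      have h2 : θ 1 = θ 0 := congrArg θ (Subsingleton.elim _ _)
      rw [map_one, map_zero] at h2
      exact one_ne_zero h2
    · rw [← hyz, hc, map_zero, map_one, div_zero, zero_mul]
  · have hc' : θ c ≠ 0 := fun h => hc (hθ (by rw [h, map_zero]))
    exact ⟨a, c, hc, by rw [← hyz, div_mul_cancel₀ _ hc']⟩

/-- the elements of the coordinate ring of the generic fibre are defined over small open subsets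
of `Spec T` -/
private theorem dsc_mem {R T S L : Type} [CommRing R] [CommRing T] [CommRing S] [Field L]
    [Algebra R T] [Algebra R S] [Algebra R L] [IsDomain T] (φ : T →ₐ[R] S) (j : S →ₐ[R] L)
    (hj : Function.Injective j) (hφ : Function.Injective φ) {g : S} (hg : g ≠ 0) {G : Set S}
    {x : L} (hx : x ∈ Subring.closure
      ((Subfield.closure (Set.range ((j : S →+* L).comp (φ : T →+* S))) : Set L) ∪
        (j '' G ∪ {(j g)⁻¹}))) :
    ∃ t : T, t ≠ 0 ∧ ∀ b : T, b ≠ 0 → t ∣ b → x ∈ loc j (g * φ b) := by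
  have hjg : j g ≠ 0 := fun h => hg (hj (by rw [h, map_zero]))
  have hjb : ∀ b : T, b ≠ 0 → j (φ b) ≠ 0 := fun b hb h =>
    hb (hφ (hj (by rw [h, map_zero, map_zero])))
  have hS : ∀ (s : S) (b : T), j s ∈ loc j (g * φ b) := fun s b =>
    Algebra.subset_adjoin (Or.inl ⟨s, rfl⟩)
  have hI : ∀ b : T, (j (g * φ b))⁻¹ ∈ loc j (g * φ b) := fun b =>
    Algebra.subset_adjoin (Or.inr rfl)
  have hIg : ∀ b : T, b ≠ 0 → (j g)⁻¹ ∈ loc j (g * φ b) := fun b hb => by
    have h1 : (j g)⁻¹ = j (φ b) * (j (g * φ b))⁻¹ := by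
      rw [map_mul, mul_inv, mul_comm (j g)⁻¹, ← mul_assoc, mul_inv_cancel₀ (hjb b hb), one_mul]
    rw [h1]
    exact mul_mem (hS _ _) (hI _)
  have hIb : ∀ b : T, (j (φ b))⁻¹ ∈ loc j (g * φ b) := fun b => by
    have h1 : (j (φ b))⁻¹ = j g * (j (g * φ b))⁻¹ := by
      rw [map_mul, mul_inv, ← mul_assoc, mul_inv_cancel₀ hjg, one_mul]
    rw [h1]
    exact mul_mem (hS _ _) (hI _)
  induction hx using Subring.closure_induction with
  | mem y hy =>
    rcases hy with hy | ⟨s, -, rfl⟩ | hy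
    · obtain ⟨a, c, hc, e⟩ := dsc_frac ((j : S →+* L).comp (φ : T →+* S))
        (fun u v h => hφ (hj h)) hy
      refine ⟨c, hc, ?_⟩
      rintro b hb ⟨c', rfl⟩
      have hc0 : j (φ c) ≠ 0 := hjb c hc
      have hb0 : j (φ (c * c')) ≠ 0 := hjb _ hb
      have e' : y * j (φ c) = j (φ a) := e
      have h1 : y = j (φ a) * (j (φ c') * (j (φ (c * c')))⁻¹) := by
        rw [← e', mul_assoc, ← mul_assoc (j (φ c)), ← map_mul, ← map_mul, mul_inv_cancel₀ hb0,
          mul_one]
      rw [h1]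
      exact mul_mem (hS _ _) (mul_mem (hS _ _) (hIb _))
    · exact ⟨1, one_ne_zero, fun b _ _ => hS _ _⟩
    · refine ⟨1, one_ne_zero, fun b hb _ => ?_⟩
      rw [Set.mem_singleton_iff.1 hy]
      exact hIg b hb
  | zero => exact ⟨1, one_ne_zero, fun b _ _ => zero_mem _⟩
  | one => exact ⟨1, one_ne_zero, fun b _ _ => one_mem _⟩
  | add y z _ _ hy hz =>
    obtain ⟨t, ht, h⟩ := hy
    obtain ⟨t', ht', h'⟩ := hz
    exact ⟨t * t', mul_ne_zero ht ht', fun b hb hd =>
      add_mem (h b hb ((dvd_mul_right _ _).trans hd)) (h' b hb ((dvd_mul_left _ _).trans hd))⟩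
  | neg y _ hy =>
    obtain ⟨t, ht, h⟩ := hy
    exact ⟨t, ht, fun b hb hd => neg_mem (h b hb hd)⟩
  | mul y z _ _ hy hz =>
    obtain ⟨t, ht, h⟩ := hy
    obtain ⟨t', ht', h'⟩ := hz
    exact ⟨t * t', mul_ne_zero ht ht', fun b hb hd =>
      mul_mem (h b hb ((dvd_mul_right _ _).trans hd)) (h' b hb ((dvd_mul_left _ _).trans hd))⟩

/-- the prime factors of the elements of `T` in `S[1/(g φ b)]` come from `T`, up to units -/
private theorem dsc_unit {O Q L : Type} [CommRing O] [CommRing Q] [IsDomain Q] [Field L]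
    {ι : O →+* Q} (hι : Function.Injective ι) (J : Q →+* L) (hJ : Function.Injective J)
    {T : Type} [CommRing T] (ρ : T →+* O) (hρ : Function.Injective ρ) (θ : T →+* L)
    (hθ : ∀ t, J (ι (ρ t)) = θ t) (hθi : Function.Injective θ)
    {A : Subring L} (hJA : ∀ x, J x ∈ A)
    (hFA : ∀ x ∈ Subfield.closure (Set.range θ), x ∈ A)
    (hOF : ∀ x : O, J (ι x) ∈ Subfield.closure (Set.range θ)) {r : ℕ} {u : Fin r → L}
    (hu0 : ∀ i, u i ≠ 0) (hu : ∀ i, ∃ y, J y = u i) (hu' : ∀ i, ∃ y, J y = (u i)⁻¹)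
    (hgen : ∀ v : L, v ≠ 0 → v ∈ A → v⁻¹ ∈ A → ∃ c ∈ Subfield.closure (Set.range θ), c ≠ 0 ∧
      ∃ n : Fin r → ℤ, v = c * ∏ i, u i ^ n i) (x : O) (π : Q) (hx : x ≠ 0) (hπ : Prime π)
    (hd : π ∣ ι x) : ∃ (s t : O) (w : Qˣ), s ≠ 0 ∧ t ≠ 0 ∧ π * ι s = w * ι t := by
  obtain ⟨w, hw⟩ := hd
  have hix : ι x ≠ 0 := fun h => hx (hι (by rw [h, map_zero]))
  have hJx : J (ι x) ≠ 0 := fun h => hix (hJ (by rw [h, map_zero]))
  have hJp : J π ≠ 0 := fun h => hπ.ne_zero (hJ (by rw [h, map_zero]))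
  have hinv : (J π)⁻¹ = J w * (J (ι x))⁻¹ := by
    rw [hw, map_mul] at hJx ⊢
    have hw0 : J w ≠ 0 := right_ne_zero_of_mul hJx
    rw [mul_inv, mul_comm (J π)⁻¹, ← mul_assoc, mul_inv_cancel₀ hw0, one_mul]
  obtain ⟨c, hc, hc0, n, hn⟩ := hgen (J π) hJp (hJA π) (by
    rw [hinv]
    exact mul_mem (hJA w) (hFA _ (inv_mem (hOF x))))
  obtain ⟨a, c', hc', e⟩ := dsc_frac θ hθi hc
  have ha : a ≠ 0 := by
    intro h
    rw [h, map_zero] at e
    rcases mul_eq_zero.1 e with h1 | h1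
    · exact hc0 h1
    · exact hc' (hθi (by rw [h1, map_zero]))
  have hU : ∀ i, ∃ U : Qˣ, J U = u i := by
    intro i
    obtain ⟨y, hy⟩ := hu i
    obtain ⟨z, hz⟩ := hu' i
    have h1 : y * z = 1 := hJ (by rw [map_mul, hy, hz, map_one, mul_inv_cancel₀ (hu0 i)])
    exact ⟨⟨y, z, h1, by rw [mul_comm, h1]⟩, hy⟩
  choose U hU using hU
  refine ⟨ρ c', ρ a, ∏ i, U i ^ n i, ?_, ?_, ?_⟩
  · exact fun h => hc' (hρ (by rw [h, map_zero]))
  · exact fun h => ha (hρ (by rw [h, map_zero]))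
  · apply hJ
    have h1 : J ((∏ i, U i ^ n i : Qˣ) : Q) = ∏ i, u i ^ n i := by
      have h2 : ∀ V : Qˣ, J V = ((Units.map (J : Q →* L) V : Lˣ) : L) := fun V => rfl
      rw [h2, map_prod, Units.coe_prod]
      refine Finset.prod_congr rfl fun i _ => ?_
      rw [map_zpow, Units.val_zpow_eq_zpow_val, ← h2, hU]
    rw [map_mul, map_mul, hθ, hθ, h1, hn, ← e]
    ring

/-- Descent for fibrations in curves. Proof: `model_all`, `prime_all` give `g` (a multiple of `h`)
and `b₀`; the generators `u i` of the units of the coordinate ring `F[S, 1/g]` (`units_fg`) are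
units of `S[1/(g φ b)]` for suitable `b`; `ufd_desc` and `unitFam_desc` for
`baseK (shr φ b g)`: a prime factor `π` of `ι x`, `x ≠ 0`, is a unit of `F[S, 1/g]`, so it is
`c ∏ u_i^n_i`, `c ∈ F` -/
theorem fac_base {R T S L : Type} [CommRing R] [CommRing T] [CommRing S] [Field L]
    [Algebra R T] [Algebra R S] [Algebra R L] [IsDomain R] [CharZero R] [IsDomain T]
    [IsDomain S] {d : ℕ} (hR : BaseVar R d) (hT : Algebra.FiniteType R T)
    (hS : Algebra.FiniteType R S)
    (hi : Function.Injective (algebraMap R T)) (φ : T →ₐ[R] S) (hφ : Function.Injective φ)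
    (j : S →ₐ[R] L) (hj : Function.Injective j)
    (hfj : ∀ z : L, ∃ x y : S, y ≠ 0 ∧ z * j y = j x)
    (hcl : ∀ x : L, IsAlgebraic (Subfield.closure (Set.range ((j : S →+* L).comp (φ : T →+* S)))) x →
      x ∈ Subfield.closure (Set.range ((j : S →+* L).comp (φ : T →+* S))))
    (htr : Algebra.trdeg (Subfield.closure (Set.range ((j : S →+* L).comp (φ : T →+* S)))) L = 1)
    (hF : ∃ h : S, h ≠ 0 ∧ ∃ n e : ℕ, Geo R (Localization.Away h) n e) :
    ∃ b : T, b ≠ 0 ∧ ∃ n e : ℕ, Geo R (Localization.Away b) n e := by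
  classical
  obtain ⟨h, hh, n, e, hgeo⟩ := hF
  obtain ⟨g₂, hg₂, hopen⟩ := dsc_open hR hS j hj hfj hh hgeo
  obtain ⟨f, hm, hd, habs, hdA, g₁, hg₁, hmod⟩ := model_all hT hS hi φ hφ j hj hfj hcl htr
  obtain ⟨g, hg⟩ : ∃ g : S, g = g₁ * g₂ := ⟨_, rfl⟩
  have hg0 : g ≠ 0 := by
    rw [hg]
    exact mul_ne_zero hg₁ hg₂
  obtain ⟨b', hb', hmod⟩ := hmod g hg0 (by rw [hg]; exact dvd_mul_right _ _)
  obtain ⟨b₀, hb₀, hprime⟩ := prime_all (S := S) hi φ hφ hm hd habs hb'
  obtain ⟨θ, hθe⟩ : ∃ θ : T →+* L, θ = (j : S →+* L).comp (φ : T →+* S) := ⟨_, rfl⟩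
  have hθj : ∀ t, θ t = j (φ t) := fun t => by rw [hθe]; rfl
  have hθ : Function.Injective θ := fun x y e => hφ (hj (by rw [← hθj, ← hθj, e]))
  have hT0 : CharZero T := charZero_of_injective_algebraMap hi
  have hL0 : CharZero L := charZero_of_injective_ringHom hθ
  obtain ⟨G, hG⟩ := hS.out
  -- the coordinate ring of the generic fibre
  obtain ⟨A, hA⟩ : ∃ A : Subring L, A = Subring.closure
      ((Subfield.closure (Set.range θ) : Set L) ∪ (j '' (G : Set S) ∪ {(j g)⁻¹})) := ⟨_, rfl⟩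
  have hFA : ∀ x ∈ Subfield.closure (Set.range θ), x ∈ A := fun x hx => by
    rw [hA]
    exact Subring.subset_closure (Or.inl hx)
  have hθA : ∀ t, θ t ∈ Subfield.closure (Set.range θ) := fun t => Subfield.subset_closure ⟨t, rfl⟩
  have hSA : ∀ s : S, j s ∈ A := by
    intro s
    have hs : s ∈ Algebra.adjoin R (G : Set S) := by rw [hG]; trivial
    induction hs using Algebra.adjoin_induction with
    | mem x hx =>
      rw [hA]
      exact Subring.subset_closure (Or.inr (Or.inl ⟨x, hx, rfl⟩))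
    | algebraMap r =>
      rw [← φ.commutes r, ← hθj]
      exact hFA _ (hθA _)
    | add x y _ _ hx hy => rw [map_add]; exact add_mem hx hy
    | mul x y _ _ hx hy => rw [map_mul]; exact mul_mem hx hy
  have hgA : (j g)⁻¹ ∈ A := by
    rw [hA]
    exact Subring.subset_closure (Or.inr (Or.inr rfl))
  obtain ⟨r, u, hu, hgen⟩ := units_fg (F := Subfield.closure (Set.range θ)) (A := A) hFA
    ⟨_, (G.finite_toSet.image _).union (Set.finite_singleton _), hA⟩
    (fun x => by
      obtain ⟨a, c, hc, e⟩ := hfj x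
      exact ⟨j a, hSA a, j c, hSA c, fun h => hc (hj (by rw [h, map_zero])), e⟩)
    (by rw [hθe]; exact htr) (by rw [hθe]; exact hcl)
  have hmem : ∀ x ∈ A, ∃ t : T, t ≠ 0 ∧ ∀ b : T, b ≠ 0 → t ∣ b → x ∈ loc j (g * φ b) := by
    intro x hx
    rw [hA, hθe] at hx
    exact dsc_mem φ j hj hφ hg0 hx
  choose t ht ht' using fun i => hmem (u i) (hu i).2.1
  choose t₁ ht₁ ht₁' using fun i => hmem (u i)⁻¹ (hu i).2.2
  -- the open subset of `Spec T`
  obtain ⟨b, hb⟩ : ∃ b : T, b = b₀ * ∏ i, (t i * t₁ i) := ⟨_, rfl⟩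
  have hb0 : b ≠ 0 := by
    rw [hb]
    exact mul_ne_zero hb₀ (Finset.prod_ne_zero_iff.2 fun i _ => mul_ne_zero (ht i) (ht₁ i))
  have htb : ∀ i, t i ∣ b := fun i => by
    rw [hb]
    exact ((dvd_mul_right _ _).trans
      (Finset.dvd_prod_of_mem (fun i => t i * t₁ i) (Finset.mem_univ i))).trans
        (dvd_mul_left _ _)
  have ht₁b : ∀ i, t₁ i ∣ b := fun i => by
    rw [hb]
    exact ((dvd_mul_left _ _).trans
      (Finset.dvd_prod_of_mem (fun i => t i * t₁ i) (Finset.mem_univ i))).trans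
        (dvd_mul_left _ _)
  obtain ⟨hG0, hS0, Φ, hΦ⟩ := hmod b hb0
  have hPM := hprime b hb0 (by rw [hb]; exact dvd_mul_right _ _) g hS0 hG0 Φ hΦ
  obtain ⟨e', hgS⟩ := hopen (g * φ b) hS0 (by
    rw [hg]
    exact (dvd_mul_left _ _).trans (dvd_mul_right _ _))
  -- the rings
  have hdT : IsDomain (Localization.Away b) :=
    IsLocalization.isDomain_localization (powers_le_nonZeroDivisors_of_noZeroDivisors hb0)
  have hTbi : Function.Injective (algebraMap T (Localization.Away b)) :=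
    IsLocalization.injective _ (powers_le_nonZeroDivisors_of_noZeroDivisors hb0)
  have hRT : Function.Injective (algebraMap R (Localization.Away b)) := by
    rw [IsScalarTower.algebraMap_eq R T (Localization.Away b)]
    exact hTbi.comp hi
  have hkm := kmodel_gen (R := R) (S := Localization.Away b) hRT
  have hdP : IsDomain (Gen (algebraMap R (Localization.Away b))) := kmodel_domain hkm
  have hdS := hgS.dom
  have hdQ : IsDomain (Gen (algebraMap R (Localization.Away (g * φ b)))) :=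
    kmodel_domain (kmodel_gen hgS.inj)
  have huQ := hgS.ufd
  -- the embedding into the function field
  have hjS0 : j (g * φ b) ≠ 0 := fun h => hS0 (hj (by rw [h, map_zero]))
  obtain ⟨j1, j1a, j1i, j1f⟩ := dsc_away (j : S →+* L) hj hS0
  have j1R : ∀ c : R, j1 (algebraMap R (Localization.Away (g * φ b)) c) =
      θ (algebraMap R T c) := fun c => by
    rw [IsScalarTower.algebraMap_apply R S (Localization.Away (g * φ b)), j1a, hθj, φ.commutes]
    rfl
  obtain ⟨J, hJ1, hJi, hJf⟩ := dsc_gen_lift (algebraMap R (Localization.Away (g * φ b))) j1 j1i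
    (fun c hc h => hc (hi (hθ (by rw [← j1R, h, map_zero, map_zero]))))
  obtain ⟨ρ, hρ⟩ : ∃ ρ : T →+* Gen (algebraMap R (Localization.Away b)),
      ∀ t, ρ t = toGen (algebraMap R (Localization.Away b))
        (algebraMap T (Localization.Away b) t) :=
    ⟨(toGen (algebraMap R (Localization.Away b))).comp (algebraMap T (Localization.Away b)),
      fun _ => rfl⟩
  have hρi : Function.Injective ρ := by
    intro x y e
    rw [hρ, hρ] at e
    exact hTbi (hkm.inj e)
  have hJρ : ∀ t, J (baseK (shr φ b g) (ρ t)) = θ t := fun t => by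
    rw [hρ, dsc_baseK, hJ1, shr_apply, j1a, hθj]
    rfl
  have hsu : ∀ x : Gen (algebraMap R (Localization.Away b)), ∃ (t c : T), c ≠ 0 ∧
      x * ρ c = ρ t := by
    intro x
    obtain ⟨s, r, hr, e⟩ := hkm.surj x
    obtain ⟨n, t, ht⟩ := IsLocalization.Away.surj b s
    refine ⟨t, algebraMap R T r * b ^ n, mul_ne_zero
      (fun h => hr (hi (by rw [h, map_zero]))) (pow_ne_zero n hb0), ?_⟩
    rw [hρ, hρ, ← ht, map_mul, map_mul, map_mul,
      ← IsScalarTower.algebraMap_apply R T (Localization.Away b), ← e, map_pow]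
    ring
  have hOF : ∀ x, J (baseK (shr φ b g) x) ∈ Subfield.closure (Set.range θ) := by
    intro x
    obtain ⟨a, c, hc, e⟩ := hsu x
    have h1 : J (baseK (shr φ b g) x) * θ c = θ a := by
      rw [← hJρ, ← hJρ, ← map_mul, ← map_mul, e]
    have hc0 : θ c ≠ 0 := fun h => hc (hθ (by rw [h, map_zero]))
    rw [eq_div_of_mul_eq hc0 h1]
    exact div_mem (hθA _) (hθA _)
  have hinvA : (j (g * φ b))⁻¹ ∈ A := by
    rw [map_mul, mul_inv, ← hθj]
    exact mul_mem hgA (hFA _ (inv_mem (hθA _)))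
  have hJA : ∀ x, J x ∈ A := by
    intro x
    obtain ⟨s, c, hc, e⟩ := hJf x
    obtain ⟨s', m, e'⟩ := j1f s
    rw [e, e', j1R, div_eq_mul_inv, div_eq_mul_inv, ← inv_pow]
    exact mul_mem (mul_mem (hSA s') (pow_mem hinvA m)) (hFA _ (inv_mem (hθA _)))
  have hran : ∀ x ∈ loc j (g * φ b), ∃ y, J y = x := by
    intro x hx
    obtain ⟨s, m, e⟩ := (mem_loc j hjS0 x).1 hx
    have hu1 : IsUnit (algebraMap S (Localization.Away (g * φ b)) (g * φ b)) :=
      IsLocalization.Away.algebraMap_isUnit (g * φ b)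
    refine ⟨toGen (algebraMap R (Localization.Away (g * φ b)))
      (algebraMap S _ s * ((hu1.unit⁻¹ : (Localization.Away (g * φ b))ˣ) : _) ^ m), ?_⟩
    rw [hJ1, map_mul, map_pow, j1a]
    have h1 : j1 ((hu1.unit⁻¹ : (Localization.Away (g * φ b))ˣ) : _) * j (g * φ b) = 1 := by
      have h2 : j (g * φ b) = j1 (algebraMap S (Localization.Away (g * φ b)) (g * φ b)) :=
        (j1a _).symm
      rw [h2, ← map_mul, IsUnit.val_inv_mul, map_one]
    have h3 : j1 ((hu1.unit⁻¹ : (Localization.Away (g * φ b))ˣ) : _) = (j (g * φ b))⁻¹ :=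
      eq_inv_of_mul_eq_one_left h1
    rw [h3]
    have h4 : (j : S →+* L) s = x * j (g * φ b) ^ m := e.symm
    rw [h4, inv_pow, mul_inv_cancel_right₀ (pow_ne_zero m hjS0)]
  have hufd : UniqueFactorizationMonoid (Gen (algebraMap R (Localization.Away b))) :=
    ufd_desc hPM fun x π hx hπ hd => dsc_unit hPM.inj J hJi ρ hρi θ hJρ hθ hJA hFA hOF
      (fun i => (hu i).1) (fun i => hran _ (ht' i b hb0 (htb i)))
      (fun i => hran _ (ht₁' i b hb0 (ht₁b i))) hgen x π hx hπ hd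
  obtain ⟨γ, hγ⟩ := hgS.units
  rw [← dsc_baseK_cst (shr φ b g)] at hγ
  obtain ⟨e'', δ, hδ⟩ := unitFam_desc hPM.inj _ hγ
  have hfin : Algebra.FiniteType R (Localization.Away b) := Algebra.FiniteType.trans (S := T) hT
    (IsLocalization.finiteType_of_monoid_fg (Submonoid.powers b) _)
  obtain ⟨n', hn'⟩ := Cardinal.lt_aleph0.1
    (trdeg_lt_aleph0_of_finiteType (R := R) (S := Localization.Away b))
  exact ⟨b, hb0, n', e'', hdT, hRT, hfin, hn', hufd, δ, hδ⟩

end Pool.Agent.Lib.MP_1a0ddd_nt.Tf
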