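import Pool.Agent.Lib.MP_1a0ddd_nt.Tf.Dsc

/-! The function `k` is invariant under conic bundles. -/

set_option autoImplicit false

namespace Pool.Agent.Lib.MP_1a0ddd_nt.Tf

open Polynomial Pool.Agent.Lib.MP_1a0ddd_nt.V Pool.Agent.Lib.MP_1a0ddd_nt.Fb
  Pool.Agent.Lib.MP_1a0ddd_nt.Cn Pool.Agent.Lib.MP_1a0ddd_nt.Un Pool.Agent.Lib.MP_1a0ddd_nt.Nc

/-- the small open subsets of `Spec A` have the Tate property up to `k` -/
def Kap {R : Type} [CommRing R] [IsDomain R] (A : Dom R) (d n : ℕ) (k : R → ℕ → ℝ) : Prop :=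
  ∃ a : A.W, a ≠ 0 ∧ ∀ a' : A.W, a' ≠ 0 → a ∣ a' →
    ∃ e : ℕ, TateK R (Localization.Away a') d n e k

section
variable {R : Type} [CommRing R] [IsDomain R] {d n : ℕ} {A B : Dom R} {k k' : R → ℕ → ℝ}

theorem Kap.fac (h : Kap A d n k) : Fac A := by
  obtain ⟨a, ha, h1⟩ := h
  obtain ⟨e, he⟩ := h1 a ha dvd_rfl
  exact ⟨a, ha, n, e, he.geo⟩

theorem Kap.congr (h : Kap A d n k) (hk : KEq k k') : Kap A d n k' := by
  obtain ⟨a, ha, h1⟩ := h
  refine ⟨a, ha, fun a' ha' hd => ?_⟩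
  obtain ⟨e, he⟩ := h1 a' ha' hd
  exact ⟨e, he.congr hk⟩

theorem Kap.unique {n' : ℕ} (h : Kap A d n k) (h' : Kap A d n' k') : n = n' ∧ KEq k k' := by
  obtain ⟨a, ha, h1⟩ := h
  obtain ⟨a', ha', h1'⟩ := h'
  obtain ⟨e, he⟩ := h1 (a * a') (mul_ne_zero ha ha') (dvd_mul_right _ _)
  obtain ⟨e', he'⟩ := h1' (a * a') (mul_ne_zero ha ha') (dvd_mul_left _ _)
  obtain ⟨h2, h3⟩ := geo_unique he.geo he'.geo
  subst h2 h3
  exact ⟨rfl, he.unique he'⟩

/-- the subring `A[1/a]` of a field -/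
theorem kap_loc (hR : BaseVar R d) {e : ℕ} (i : A.W →ₐ[R] FractionRing B.W)
    (hi : Function.Injective i) {a : A.W} (ha : a ≠ 0)
    (h : TateK R (Localization.Away a) d n e k) {m : ℕ}
    (ht : Tower (Cf.fieldOf (i : A.W →+* FractionRing B.W)) m) : Kap B d (n + m) k := by
  obtain ⟨f, -⟩ := loc_equiv i hi ha
  have hcl : Subfield.closure ((loc i a : Subalgebra R (FractionRing B.W)) :
      Set (FractionRing B.W)) = Cf.fieldOf (i : A.W →+* FractionRing B.W) := by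
    unfold Cf.fieldOf
    apply le_antisymm
    · rw [Subfield.closure_le]
      intro z hz
      obtain ⟨x, m, hx⟩ := (mem_loc i (fun h0 => ha (hi (h0.trans (map_zero i).symm))) z).1 hz
      have h1 : ∀ y : A.W, i y ∈ Subfield.closure (Set.range (i : A.W →+* FractionRing B.W)) :=
        fun y => Subfield.subset_closure ⟨y, rfl⟩
      have h2 : i a ^ m ≠ 0 := pow_ne_zero _ fun h0 => ha (hi (h0.trans (map_zero i).symm))
      have h3 : z = i x / i a ^ m := by rw [← hx, mul_div_cancel_right₀ _ h2]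
      rw [h3]
      exact Subfield.div_mem _ (h1 x) (Subfield.pow_mem _ (h1 a) m)
    · refine Subfield.closure_mono ?_
      rintro _ ⟨x, rfl⟩
      exact (mem_loc i (fun h0 => ha (hi (h0.trans (map_zero i).symm))) _).2
        ⟨x, 0, by rw [pow_zero, mul_one]; rfl⟩
  obtain ⟨b, hb, h1⟩ := open_K hR B.fin (loc i a) (tateK_equiv f h) (hcl ▸ ht)
  exact ⟨b, hb, h1⟩

theorem kap_over (hR : BaseVar R d) (h : Kap A d n k) (ho : Over A B) :
    ∃ n', Kap B d n' k := by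
  obtain ⟨a, ha, h1⟩ := h
  obtain ⟨e, he⟩ := h1 a ha dvd_rfl
  obtain ⟨i, m, hi, ht⟩ := over_tower ho
  exact ⟨n + m, kap_loc hR i hi ha he ht⟩

theorem kap_of_fac (hR : BaseVar R d) (h : Fac A) : ∃ n k, Kap A d n k := by
  obtain ⟨a, ha, n, e, h1⟩ := h
  refine ⟨n + 0, _, kap_loc hR (IsScalarTower.toAlgHom R A.W (FractionRing A.W))
    (IsFractionRing.injective A.W (FractionRing A.W)) ha (tateK_of_geo (d := d) h1) (m := 0)
    ⟨fun _ => ⊤, ?_, rfl, fun i hi => absurd hi (Nat.not_lt_zero i)⟩⟩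
  symm
  rw [eq_top_iff]
  intro z _
  obtain ⟨x, y, hy, rfl⟩ := IsFractionRing.div_surjective (A := A.W) z
  exact Subfield.div_mem _ (Subfield.subset_closure ⟨x, rfl⟩) (Subfield.subset_closure ⟨y, rfl⟩)

theorem kap_linked (hR : BaseVar R d) (h : Linked A B) :
    ∀ k, (∃ n, Kap A d n k) ↔ ∃ n, Kap B d n k := by
  induction h with
  | rel A B ho =>
    intro k
    constructor
    · rintro ⟨n, h⟩
      exact kap_over hR h ho
    · rintro ⟨n, h⟩
      obtain ⟨n₀, k₀, h0⟩ := kap_of_fac hR (fac_desc hR ho h.fac)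
      obtain ⟨n₁, h1⟩ := kap_over hR h0 ho
      exact ⟨n₀, h0.congr (h1.unique h).2⟩
  | refl A => exact fun k => Iff.rfl
  | symm A B _ ih => exact fun k => (ih k).symm
  | trans A B C _ _ ih1 ih2 => exact fun k => (ih1 k).trans (ih2 k)

theorem tateK_base (R : Type) [CommRing R] [IsDomain R] {d : ℕ} (hR : BaseVar R d) :
    TateK R R d 0 0 (fun _ _ => 0) := by
  have h := (fin_closureU R hR).base
  obtain ⟨D₀, h0, h1⟩ := h.count
  exact ⟨h.geo, D₀, h0, fun D hD hd => (h1 D hD hd).congr' 0 fun p _ _ => by rw [sub_zero]⟩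

theorem kap_base (R : Type) [CommRing R] [IsDomain R] {d : ℕ} (hR : BaseVar R d) :
    Kap (base R) d 0 (fun _ _ => 0) := by
  refine ⟨1, one_ne_zero, fun a ha _ => ?_⟩
  obtain ⟨m, hm⟩ := tateK_away hR (tateK_base R hR) (g := a) ha
  exact ⟨0 + m, hm⟩

/-- the varieties which are linked to `Spec R` have the Tate property -/
theorem kap_class {T : Dom R} (hR : BaseVar R d) (h : Linked (base R) T) :
    ∃ n, Kap T d n (fun _ _ => 0) :=
  (kap_linked hR h _).1 ⟨0, kap_base R hR⟩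

end

end Pool.Agent.Lib.MP_1a0ddd_nt.Tf
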