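import Pool.Agent.Lib.MP_1a0ddd_nt.Nc.Defs
import Pool.Agent.Lib.MP_1a0ddd_nt.Un.TrZ

/-! Transcendence degrees of the rings of a family of curves. -/

set_option autoImplicit false

namespace Pool.Agent.Lib.MP_1a0ddd_nt.Tf

open Polynomial Un Pool.Agent.Lib.MP_1a0ddd_nt.Nc

variable {R T S : Type} [CommRing R] [IsDomain R] [CommRing T] [IsDomain T] [CommRing S]
  [IsDomain S] [Algebra R T] [Algebra R S]

omit [IsDomain R] in
theorem trdeg_away_R {T : Type} [CommRing T] [IsDomain T] [Algebra R T] [Nontrivial R]
    (hi : Function.Injective (algebraMap R T)) {b : T} (hb : b ≠ 0) :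
    Algebra.trdeg R (Localization.Away b) = Algebra.trdeg R T := by
  have hM : Submonoid.powers b ≤ nonZeroDivisors T :=
    powers_le_nonZeroDivisors_of_noZeroDivisors hb
  have : IsDomain (Localization.Away b) := IsLocalization.isDomain_localization hM
  have hinj : Function.Injective (algebraMap T (Localization.Away b)) :=
    IsLocalization.injective _ hM
  have h1 : FaithfulSMul R T := (faithfulSMul_iff_algebraMap_injective R T).2 hi
  have h2 : FaithfulSMul T (Localization.Away b) :=
    (faithfulSMul_iff_algebraMap_injective T _).2 hinj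
  have h3 : Algebra.IsAlgebraic T (Localization.Away b) :=
    IsLocalization.isAlgebraic (Localization.Away b) (Submonoid.powers b)
  have h4 := trdeg_add_eq R T (A := Localization.Away b)
  rw [trdeg_eq_zero (R := T), add_zero] at h4
  exact h4.symm

theorem trdeg_fib (hi : Function.Injective (algebraMap R T))
    (φ : T →ₐ[R] S) (hφ : Function.Injective φ)
    (htr : Algebra.trdeg (baseF (φ : T →+* S)) (FractionRing S) = 1) :
    Algebra.trdeg R S = Algebra.trdeg R T + 1 := by
  have hiS : Function.Injective (algebraMap R S) := by
    have h := hφ.comp hi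
    rwa [← RingHom.coe_coe φ, ← RingHom.coe_comp, AlgHom.comp_algebraMap] at h
  have e1 : FaithfulSMul R T := (faithfulSMul_iff_algebraMap_injective R T).2 hi
  have e2 : FaithfulSMul R S := (faithfulSMul_iff_algebraMap_injective R S).2 hiS
  -- the degree of the function field over `R`
  have hK : Algebra.trdeg R (FractionRing S) = Algebra.trdeg R S := by
    have h := trdeg_add_eq R S (A := FractionRing S)
    have h3 : Algebra.IsAlgebraic S (FractionRing S) :=
      IsLocalization.isAlgebraic (FractionRing S) (nonZeroDivisors S)
    rw [trdeg_eq_zero (R := S), add_zero] at h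
    exact h.symm
  -- the function field as an algebra over `T`
  let _ : Algebra T (FractionRing S) := (toL (φ : T →+* S)).toAlgebra
  have hTL : Function.Injective (algebraMap T (FractionRing S)) := by
    change Function.Injective (toL (φ : T →+* S))
    rw [toL, RingHom.coe_comp]
    exact (IsFractionRing.injective S (FractionRing S)).comp hφ
  have e3 : FaithfulSMul T (FractionRing S) := (faithfulSMul_iff_algebraMap_injective T _).2 hTL
  have e4 : IsScalarTower R T (FractionRing S) := IsScalarTower.of_algebraMap_eq fun r => by
    change algebraMap R (FractionRing S) r = algebraMap S (FractionRing S) (φ (algebraMap R T r))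
    rw [AlgHom.commutes, ← IsScalarTower.algebraMap_apply]
  have h1 := trdeg_add_eq R T (A := FractionRing S)
  -- the subfield
  let _ : Algebra T (baseF (φ : T →+* S)) := ((toL (φ : T →+* S)).codRestrict
    (baseF (φ : T →+* S)).toSubring fun t => Subfield.subset_closure ⟨t, rfl⟩).toAlgebra
  have e5 : IsScalarTower T (baseF (φ : T →+* S)) (FractionRing S) :=
    IsScalarTower.of_algebraMap_eq fun r => rfl
  have e6 : FaithfulSMul T (baseF (φ : T →+* S)) :=
    (faithfulSMul_iff_algebraMap_injective T _).2 fun x y h => hTL (congrArg Subtype.val h)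
  have e7 : FaithfulSMul (baseF (φ : T →+* S)) (FractionRing S) :=
    (faithfulSMul_iff_algebraMap_injective _ _).2 Subtype.val_injective
  have e8 : Algebra.IsAlgebraic T (baseF (φ : T →+* S)) := ⟨fun x => by
    obtain ⟨x, hx⟩ := x
    have hx' := hx
    rw [baseF, Subfield.mem_closure_iff] at hx'
    obtain ⟨y, hy, z, hz, hyz⟩ := hx'
    have hr : Subring.closure (Set.range (toL (φ : T →+* S))) = (toL (φ : T →+* S)).range := by
      rw [← RingHom.coe_range, Subring.closure_eq]
    rw [hr] at hy hz
    obtain ⟨a, rfl⟩ := hy
    obtain ⟨c, rfl⟩ := hz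
    by_cases hc : c = 0
    · have hx0 : x = 0 := by rw [← hyz, hc, map_zero, div_zero]
      have h0 : (⟨x, hx⟩ : baseF (φ : T →+* S)) = 0 := Subtype.ext hx0
      rw [h0]
      exact isAlgebraic_zero
    · refine ⟨C c * X - C a, fun h => ?_, ?_⟩
      · have h1 := congrArg (fun p => p.coeff 1) h
        exact hc (by simpa using h1)
      · rw [map_sub, map_mul, aeval_C, aeval_X, aeval_C]
        apply Subtype.ext
        change toL (φ : T →+* S) c * x - toL (φ : T →+* S) a = 0
        have hc' : toL (φ : T →+* S) c ≠ 0 := fun h => hc (hTL (by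
          change toL (φ : T →+* S) c = toL (φ : T →+* S) 0
          rw [h, map_zero]))
        rw [← hyz, mul_div_cancel₀ _ hc', sub_self]⟩
  have h2 := trdeg_add_eq T (baseF (φ : T →+* S)) (A := FractionRing S)
  rw [trdeg_eq_zero (R := T) (A := baseF (φ : T →+* S)), zero_add] at h2
  rw [hK, ← h2, htr] at h1
  exact h1.symm


end Pool.Agent.Lib.MP_1a0ddd_nt.Tf
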