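import Pool.Agent.Lib.MP_1a0ddd_nt.Tf.Defs
import Pool.Agent.Lib.MP_1a0ddd_nt.Tf.ADefs
import Pool.Agent.Lib.MP_1a0ddd_nt.Tf.TrG
import Pool.Agent.Lib.MP_1a0ddd_nt.Nc.Res

/-! Models of residue fields; the function field of a fibration; dimensions. -/

set_option autoImplicit false

namespace Pool.Agent.Lib.MP_1a0ddd_nt.Tf

open Pool.Agent.Lib.MP_1a0ddd_nt.Nc Pool.Agent.Lib.MP_1a0ddd_nt.Cf

variable {R : Type} [CommRing R] {T S S' : Dom R}

theorem dom_zero [CharZero R] (T : Dom R) : CharZero T.W :=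
  charZero_of_injective_ringHom T.inj

/-- the function field of `Spec S` is finitely generated -/
private theorem mds_fg {R T S : Type} [CommRing R] [CommRing T] [CommRing S] [IsDomain S]
    [Algebra R T] [Algebra R S] (hS : Algebra.FiniteType R S) (φ : T →ₐ[R] S) :
    ∃ s : Set (FractionRing S), s.Finite ∧
      Subfield.closure ((baseF (φ : T →+* S) : Set (FractionRing S)) ∪ s) = ⊤ := by
  classical
  obtain ⟨g, hg⟩ := hS.out
  have h1 : ∀ x : S, algebraMap S (FractionRing S) x ∈
      Subfield.closure ((baseF (φ : T →+* S) : Set (FractionRing S)) ∪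
        (algebraMap S (FractionRing S)) '' (g : Set S)) := by
    intro x
    have hx : x ∈ Algebra.adjoin R (g : Set S) := hg ▸ Algebra.mem_top
    induction hx using Algebra.adjoin_induction with
    | mem y hy => exact Subfield.subset_closure (Or.inr ⟨y, hy, rfl⟩)
    | algebraMap r =>
      refine Subfield.subset_closure (Or.inl ?_)
      refine Subfield.subset_closure ⟨algebraMap R T r, ?_⟩
      change algebraMap S (FractionRing S) (φ (algebraMap R T r)) = _
      rw [φ.commutes]
    | add y z _ _ h1 h2 =>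
      rw [map_add]
      exact add_mem h1 h2
    | mul y z _ _ h1 h2 =>
      rw [map_mul]
      exact mul_mem h1 h2
  refine ⟨_, g.finite_toSet.image (algebraMap S (FractionRing S)), ?_⟩
  rw [eq_top_iff]
  intro z _
  obtain ⟨x, y, hy, hz⟩ := IsFractionRing.div_surjective (A := S) z
  rw [← hz]
  exact Subfield.div_mem _ (h1 x) (h1 y)

/-- the images of generators of `S` generate the function field -/
theorem fib_ff1 (φ : T.W →ₐ[R] S.W) (hφ : Fib φ) : FF1 (fld φ) :=
  ⟨hφ.dim, mds_fg S.fin φ, hφ.closed⟩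

private theorem mds_new {T S A : Type} [CommRing T] [CommRing S] [IsDomain S] [CommRing A]
    {φ : T →+* S} {V : Place (baseF φ)} {ψ : T →+* A} (h : ResModel φ V ψ) :
    Model ((algebraMap S (FractionRing S)).comp φ) V ψ := by
  obtain ⟨ι, h1, h2, h3⟩ := h.emb
  exact ⟨h.fin, IsLocalRing.ResidueField V.1, inferInstance, IsLocalRing.residue V.1, ι,
    IsLocalRing.residue_surjective, h1, h2, h3⟩

/-- `resModel_exists` in `Nc/Res.lean`; `toNew` in `Nc/Fin.lean` -/
theorem has_models [CharZero R] (φ : T.W →ₐ[R] S.W) (hφ : Fib φ) : HasModels φ := by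
  intro V
  have h0 : CharZero S.W := dom_zero S
  obtain ⟨A, i, ψ, h⟩ := resModel_exists (φ := (φ : T.W →+* S.W)) hφ.inj hφ.dim
    (mds_fg S.fin φ) V
  exact ⟨A, i, ψ, mds_new h⟩

/-- as `trdeg_fib` in `Tf/TrG.lean` -/
theorem dim_fib [IsDomain R] (φ : T.W →ₐ[R] S.W) (hφ : Fib φ) :
    Algebra.trdeg R S.W = Algebra.trdeg R T.W + 1 :=
  trdeg_fib T.inj φ hφ.inj hφ.dim

private theorem mds_frac [IsDomain R] (S : Dom R) :
    Algebra.trdeg R (FractionRing S.W) = Algebra.trdeg R S.W := by
  have e2 : FaithfulSMul R S.W := (faithfulSMul_iff_algebraMap_injective R S.W).2 S.inj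
  have h := trdeg_add_eq R S.W (A := FractionRing S.W)
  have h3 : Algebra.IsAlgebraic S.W (FractionRing S.W) :=
    IsLocalization.isAlgebraic (FractionRing S.W) (nonZeroDivisors S.W)
  rw [trdeg_eq_zero (R := S.W), add_zero] at h
  exact h.symm

theorem dim_birat [IsDomain R] (h : Birat S S') : Algebra.trdeg R S.W = Algebra.trdeg R S'.W := by
  obtain ⟨f⟩ := h
  rw [← mds_frac S, ← mds_frac S', f.trdeg_eq]

end Pool.Agent.Lib.MP_1a0ddd_nt.Tf
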