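import Pool.Agent.Lib.MP_1a0ddd_nt.Tf.Defs

/-! Differences of ranks. -/

set_option autoImplicit false

namespace Pool.Agent.Lib.MP_1a0ddd_nt.Tf

private theorem rk_add {A : Type} [AddCommGroup A] (H : AddSubgroup A) (h : Module.Finite ℤ A) :
    (Module.finrank ℤ (A ⧸ H) : ℤ) + Module.finrank ℤ H = Module.finrank ℤ A := by
  have h1 := Submodule.finrank_quotient_add_finrank (AddSubgroup.toIntSubmodule H)
  exact_mod_cast h1

private theorem rk_finH {A : Type} [AddCommGroup A] {H : AddSubgroup A} (h : H.FG) :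
    Module.Finite ℤ (AddSubgroup.toIntSubmodule H) := by
  rw [Module.Finite.iff_fg, Submodule.fg_iff_addSubgroup_fg]
  exact h

/-- Proof: `A / H` is finitely generated, so `A' / H'` and `A'` are; the rank is additive -/
theorem rankDiff_fin {A A' : Type} [AddCommGroup A] [AddCommGroup A'] {r : ℤ}
    (h : RankDiff A A' r) (hA : Module.Finite ℤ A) : Module.Finite ℤ A' ∧
      r = (Module.finrank ℤ A' : ℤ) - Module.finrank ℤ A := by
  obtain ⟨H, H', hH, hH', ⟨e⟩, hr⟩ := h
  have h1 : Module.Finite ℤ (A ⧸ H) := Module.Finite.of_surjective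
    (QuotientAddGroup.mk' H).toIntLinearMap (QuotientAddGroup.mk'_surjective H)
  have h1' : Module.Finite ℤ (A' ⧸ H') := Module.Finite.equiv e.toIntLinearEquiv
  let f : (A' ⧸ H') →+ (A' ⧸ AddSubgroup.toIntSubmodule H') := AddMonoidHom.id (A' ⧸ H')
  have hf : Function.Surjective f := fun x => ⟨x, rfl⟩
  have h2 : Module.Finite ℤ (A' ⧸ AddSubgroup.toIntSubmodule H') :=
    Module.Finite.of_surjective f.toIntLinearMap hf
  have h3 : Module.Finite ℤ (AddSubgroup.toIntSubmodule H') := rk_finH hH'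
  have hA' : Module.Finite ℤ A' := Module.Finite.of_submodule_quotient
    (AddSubgroup.toIntSubmodule H')
  refine ⟨hA', ?_⟩
  have h4 := rk_add H hA
  have h5 := rk_add H' hA'
  have h6 : Module.finrank ℤ (A ⧸ H) = Module.finrank ℤ (A' ⧸ H') :=
    LinearEquiv.finrank_eq e.toIntLinearEquiv
  rw [← hr, ← h4, ← h5, h6]
  ring

end Pool.Agent.Lib.MP_1a0ddd_nt.Tf
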