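import Pool.Agent.Lib.MP_1a0ddd_nt.Tf.One
import Pool.Agent.Lib.MP_1a0ddd_nt.Tf.Lnk
import Pool.Agent.Lib.MP_1a0ddd_nt.Tf.Cmn
import Pool.Agent.Lib.MP_1a0ddd_nt.Tf.Rkd
import Pool.Agent.Lib.MP_1a0ddd_nt.Tf.Mds

/-! Two fibrations in curves. -/

set_option autoImplicit false

namespace Pool.Agent.Lib.MP_1a0ddd_nt.Tf

open Pool.Agent.Lib.MP_1a0ddd_nt.Un Pool.Agent.Lib.MP_1a0ddd_nt.Nc Pool.Agent.Lib.MP_1a0ddd_nt.Cf

variable {R : Type} [CommRing R] [IsDomain R] {d n : ℕ} {T S T' S' : Dom R} {k : R → ℕ → ℝ}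

/-- the coordinate ring of the open subset `h ≠ 0` of `Spec S` over the fraction field of `R` -/
private noncomputable def gr (S : Dom R) (h : S.W) : Subring (FractionRing S.W) :=
  gring (IsScalarTower.toAlgHom R S.W (FractionRing S.W)) h

/-- its units modulo those of the fraction field of `R` -/
private abbrev ug (S : Dom R) (h : S.W) : Type :=
  UM (fieldOf (algebraMap R (FractionRing S.W))).toSubring (gr S h)

/-- the rank of the group generated by the points outside the open subset `h ≠ 0` -/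
private noncomputable def rk {T S : Dom R} (φ : T.W →ₐ[R] S.W) (h : S.W) : ℤ :=
  (Outside (fld φ) (crd φ h)).ncard - Module.finrank ℤ (UM (fld φ).toSubring (crd φ h))

private theorem one_dom (hR : BaseVar R d) (φ : T.W →ₐ[R] S.W) (hφ : Fib φ)
    (hT : Kap T d n k) :
    ∃ g₀ : S.W, g₀ ≠ 0 ∧ ∀ g : S.W, g ≠ 0 → g₀ ∣ g → Good φ g ∧
      ∃ b₀ : T.W, b₀ ≠ 0 ∧ ∀ h : S.W, h ≠ 0 → g * φ b₀ ∣ h →
        ∃ H : AddSubgroup (ClGp (fld φ)), H.FG ∧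
          Nonempty ((ClGp (fld φ) ⧸ H) ≃+ DivCl (gr S h)) ∧
          (Module.finrank ℤ H : ℤ) = rk φ h ∧
          ∀ b : T.W, b ≠ 0 → b₀ ∣ b → ∀ (A : Outside (fld φ) (crd φ g) → Type)
            [∀ V, CommRing (A V)] (ψ : ∀ V, T.W →+* A V), Models φ g A ψ →
            ∃ D₀ : R, D₀ ≠ 0 ∧ ∀ D : R, D ≠ 0 → D₀ ∣ D → Quad.TauMean (fun p =>
              avg b (n + d) p (trace (φ : T.W →+* S.W) g A ψ p) -
                (countD R (Localization.Away h) D d (n + 1) p - k D p))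
              (1 - rk φ h - Module.finrank ℤ (ug S h)) := by
  have hiL : Function.Injective (algebraMap R (FractionRing S.W)) := by
    rw [IsScalarTower.algebraMap_eq R S.W (FractionRing S.W)]
    exact (IsFractionRing.injective S.W (FractionRing S.W)).comp S.inj
  obtain ⟨g₀, hg₀, h1⟩ := one_fib (q := toFrac S) (F := fld φ) hR T.fin S.fin T.inj hiL φ
    (IsScalarTower.toAlgHom R S.W (FractionRing S.W)) hφ.inj
    (IsFractionRing.injective S.W (FractionRing S.W)) frac_alg rfl rfl (fib_ff1 φ hφ) hT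
  refine ⟨g₀, hg₀, fun g hg hgd => ?_⟩
  obtain ⟨h2, h3, b₀, hb₀, h4⟩ := h1 g hg hgd
  refine ⟨⟨h2, h3⟩, b₀, hb₀, fun h hh hgh => ?_⟩
  obtain ⟨H, hH, hiso, hrk, h5⟩ := h4 h hh hgh
  have hrk' : (Module.finrank ℤ H : ℤ) = rk φ h := by
    unfold rk
    have h6 := congrArg (Nat.cast : ℕ → ℤ) hrk
    push_cast at h6
    unfold crd
    linarith
  refine ⟨H, hH, hiso, hrk', fun b hb hbd A _ ψ hA => ?_⟩
  obtain ⟨D₀, hD₀, h6⟩ := h5 b hb hbd A ψ hA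
  refine ⟨D₀, hD₀, fun D hD hDD => ?_⟩
  have h7 := h6 D hD hDD
  have h8 : ((rk φ h : ℤ) : ℝ) = Module.finrank ℤ H := by
    rw [← hrk']
    push_cast
    rfl
  rw [h8]
  exact h7

/-- the open subsets `h ≠ 0` and `h' ≠ 0` are the same -/
private def Com (S S' : Dom R) (h : S.W) (h' : S'.W) : Prop :=
  h ≠ 0 ∧ h' ≠ 0 ∧ Nonempty (DivCl (gr S h) ≃+ DivCl (gr S' h')) ∧
    Module.finrank ℤ (ug S h) = Module.finrank ℤ (ug S' h') ∧
    ∀ (D : R) (d n : ℕ), countD R (Localization.Away h) D d n =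
      countD R (Localization.Away h') D d n

private theorem com_exists (hb : Birat S S') {c : S.W} (hc : c ≠ 0) {c' : S'.W} (hc' : c' ≠ 0) :
    ∃ (h : S.W) (h' : S'.W), c ∣ h ∧ c' ∣ h' ∧ Com S S' h h' := by
  obtain ⟨h, h', h1, h2, h3, h4, h5, h6, h7⟩ := common_dom hb hc hc'
  exact ⟨h, h', h3, h4, h1, h2, h5, h6, h7⟩

/-- two fibrations on common open subsets -/
private theorem compare (hR : BaseVar R d) {φ : T.W →ₐ[R] S.W} {φ' : T'.W →ₐ[R] S'.W}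
    (hφ : Fib φ) (hφ' : Fib φ') (hT : Kap T d n k) (hT' : Kap T' d n k) :
    ∃ g₀ : S.W, g₀ ≠ 0 ∧ ∃ g₀' : S'.W, g₀' ≠ 0 ∧
      ∀ g : S.W, g ≠ 0 → g₀ ∣ g → ∀ g' : S'.W, g' ≠ 0 → g₀' ∣ g' → Good φ g ∧ Good φ' g' ∧
      ∃ b₀ : T.W, b₀ ≠ 0 ∧ ∃ b₀' : T'.W, b₀' ≠ 0 ∧ ∀ (h : S.W) (h' : S'.W),
        g * φ b₀ ∣ h → g' * φ' b₀' ∣ h' → Com S S' h h' →
        RankDiff (ClGp (fld φ)) (ClGp (fld φ')) (rk φ' h' - rk φ h) ∧
        ∀ b : T.W, b ≠ 0 → b₀ ∣ b → ∀ b' : T'.W, b' ≠ 0 → b₀' ∣ b' →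
        ∀ (A : Outside (fld φ) (crd φ g) → Type) [∀ V, CommRing (A V)] (ψ : ∀ V, T.W →+* A V)
          (A' : Outside (fld φ') (crd φ' g') → Type) [∀ V, CommRing (A' V)]
          (ψ' : ∀ V, T'.W →+* A' V), Models φ g A ψ → Models φ' g' A' ψ' →
          Quad.TauMean (fun p => avg b (n + d) p (trace (φ : T.W →+* S.W) g A ψ p) -
            avg b' (n + d) p (trace (φ' : T'.W →+* S'.W) g' A' ψ' p))
            ((rk φ' h' - rk φ h : ℤ) : ℝ) := by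
  obtain ⟨g₀, hg₀, h1⟩ := one_dom hR φ hφ hT
  obtain ⟨g₀', hg₀', h1'⟩ := one_dom hR φ' hφ' hT'
  refine ⟨g₀, hg₀, g₀', hg₀', fun g hg hgd g' hg' hgd' => ?_⟩
  obtain ⟨h2, b₀, hb₀, h3⟩ := h1 g hg hgd
  obtain ⟨h2', b₀', hb₀', h3'⟩ := h1' g' hg' hgd'
  refine ⟨h2, h2', b₀, hb₀, b₀', hb₀', fun h h' hgh hgh' hcom => ?_⟩
  obtain ⟨hh, hh', ⟨c1⟩, c2, c3⟩ := hcom
  obtain ⟨H, hH, ⟨i1⟩, hrk, h4⟩ := h3 h hh hgh
  obtain ⟨H', hH', ⟨i1'⟩, hrk', h4'⟩ := h3' h' hh' hgh'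
  refine ⟨⟨H, H', hH, hH', ⟨(i1.trans c1).trans i1'.symm⟩, by rw [hrk, hrk']⟩,
    fun b hb hbd b' hb' hbd' A _ ψ A' _ ψ' hA hA' => ?_⟩
  obtain ⟨D₀, hD₀, h5⟩ := h4 b hb hbd A ψ hA
  obtain ⟨D₀', hD₀', h5'⟩ := h4' b' hb' hbd' A' ψ' hA'
  have m1 := h5 (D₀ * D₀') (mul_ne_zero hD₀ hD₀') (dvd_mul_right _ _)
  have m2 := h5' (D₀ * D₀') (mul_ne_zero hD₀ hD₀') (dvd_mul_left _ _)
  have m3 := m1.sub m2
  have hv : (1 : ℝ) - rk φ h - Module.finrank ℤ (ug S h) -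
      (1 - rk φ' h' - Module.finrank ℤ (ug S' h')) = ((rk φ' h' - rk φ h : ℤ) : ℝ) := by
    rw [c2]
    push_cast
    ring
  rw [hv] at m3
  refine m3.congr' 0 fun p _ _ => ?_
  rw [c3]
  ring

private theorem dim_kap (hR : BaseVar R d) (hT : Kap T d n k) :
    Algebra.trdeg R T.W = (n : Cardinal) := by
  have := hR.zero
  obtain ⟨a, ha, h1⟩ := hT
  obtain ⟨e, he⟩ := h1 a ha dvd_rfl
  exact (trdeg_away_R T.inj ha).symm.trans he.geo.dim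

theorem base_var (R : Type) [CommRing R] [IsDomain R] [CharZero R] [h : Algebra.FiniteType ℤ R] :
    ∃ d : ℕ, BaseVar R d := by
  have h1 : Algebra.trdeg ℤ R < Cardinal.aleph0 := trdeg_lt_aleph0_of_finiteType
  obtain ⟨d, hd⟩ := Cardinal.lt_aleph0.1 h1
  exact ⟨d, inferInstance, inferInstance, h, hd⟩

/-- the varieties which are linked to `Spec R` -/
theorem fac_class (hR : BaseVar R d) (h : Linked (base R) T) : Fac T := by
  obtain ⟨n, hn⟩ := kap_class hR h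
  exact hn.fac

/-- Two fibrations in curves with birational total spaces, over bases which are linked -/
theorem same (hR : BaseVar R d) (φ : T.W →ₐ[R] S.W) (φ' : T'.W →ₐ[R] S'.W) (hφ : Fib φ)
    (hφ' : Fib φ') (hT : Linked T T') (hF : Fac T) (hS : Birat S S')
    {e e' : ℕ} (he : Algebra.trdeg ℤ T.W = e) (he' : Algebra.trdeg ℤ T'.W = e') :
    Same φ φ' e e' := by
  have hRz := hR.zero
  obtain ⟨n, k, hK⟩ := kap_of_fac hR hF
  obtain ⟨n', hK'⟩ := (kap_linked hR hT k).1 ⟨n, hK⟩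
  have hn := dim_kap hR hK
  have hn' := dim_kap hR hK'
  have hnn : n = n' := by
    have h1 := dim_fib φ hφ
    have h2 := dim_fib φ' hφ'
    rw [hn, dim_birat hS, h2, hn'] at h1
    have h3 : ((n' + 1 : ℕ) : Cardinal) = ((n + 1 : ℕ) : Cardinal) := by
      push_cast
      exact h1
    exact (Nat.succ.inj (Nat.cast_injective h3)).symm
  subst hnn
  have hee : e = n + d := by
    have h1 := trdeg_tower (R := R) (S := T.W) T.inj hR.dim hn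
    rw [he] at h1
    rw [Nat.cast_injective h1, add_comm]
  have hee' : e' = n + d := by
    have h1 := trdeg_tower (R := R) (S := T'.W) T'.inj hR.dim hn'
    rw [he'] at h1
    rw [Nat.cast_injective h1, add_comm]
  subst hee
  subst hee'
  obtain ⟨g₀, hg₀, g₀', hg₀', hc⟩ := compare hR hφ hφ' hK hK'
  obtain ⟨-, -, b₁, hb₁, b₁', hb₁', hc1⟩ := hc g₀ hg₀ dvd_rfl g₀' hg₀' dvd_rfl
  have hM := has_models φ hφ
  have hM' := has_models φ' hφ'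
  have hne : ∀ {g : S.W} {b : T.W}, g ≠ 0 → b ≠ 0 → g * φ b ≠ 0 := fun hg hb =>
    mul_ne_zero hg ((map_ne_zero_iff φ hφ.inj).2 hb)
  have hne' : ∀ {g : S'.W} {b : T'.W}, g ≠ 0 → b ≠ 0 → g * φ' b ≠ 0 := fun hg hb =>
    mul_ne_zero hg ((map_ne_zero_iff φ' hφ'.inj).2 hb)
  obtain ⟨h₁, h₁', d1, d1', k1⟩ := com_exists hS (hne hg₀ hb₁) (hne' hg₀' hb₁')
  obtain ⟨hrd, m1⟩ := hc1 h₁ h₁' d1 d1' k1
  refine ⟨⟨hM, hM'⟩, rk φ' h₁' - rk φ h₁, ⟨g₀, hg₀, g₀', hg₀',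
    fun g hg hgd g' hg' hgd' => ?_⟩, hrd, fun hfin => rankDiff_fin hrd hfin⟩
  obtain ⟨hG, hG', b₀, hb₀, b₀', hb₀', hc2⟩ := hc g hg hgd g' hg' hgd'
  refine ⟨hG, hG', b₀, hb₀, b₀', hb₀', fun b hb hbd b' hb' hbd' A _ ψ A' _ ψ' hA hA' => ?_⟩
  obtain ⟨h₂, h₂', d2, d2', k2⟩ := com_exists hS
    (mul_ne_zero (hne hg₀ hb₁) (hne hg hb₀)) (mul_ne_zero (hne' hg₀' hb₁') (hne' hg' hb₀'))
  obtain ⟨-, m2⟩ := hc1 h₂ h₂' ((dvd_mul_right _ _).trans d2) ((dvd_mul_right _ _).trans d2') k2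
  obtain ⟨-, m3⟩ := hc2 h₂ h₂' ((dvd_mul_left _ _).trans d2) ((dvd_mul_left _ _).trans d2') k2
  choose B hB χ hχ using hM
  choose B' hB' χ' hχ' using hM'
  have u1 := m1 b₁ hb₁ dvd_rfl b₁' hb₁' dvd_rfl (fun V => B V.1) (fun V => χ V.1)
    (fun V => B' V.1) (fun V => χ' V.1) (fun V => hχ V.1) (fun V => hχ' V.1)
  have u2 := m2 b₁ hb₁ dvd_rfl b₁' hb₁' dvd_rfl (fun V => B V.1) (fun V => χ V.1)
    (fun V => B' V.1) (fun V => χ' V.1) (fun V => hχ V.1) (fun V => hχ' V.1)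
  rw [tauMean_unique u1 u2]
  exact m3 b hb hbd b' hb' hbd' A ψ A' ψ' hA hA'

end Pool.Agent.Lib.MP_1a0ddd_nt.Tf
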