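import Pool.Agent.Lib.MP_1a0ddd_nt.Nc.Bir

/-! The relative point count of a family, compared with a function `k`. -/

set_option autoImplicit false

namespace Pool.Agent.Lib.MP_1a0ddd_nt.Tf

open Polynomial Pool.Agent.Lib.MP_1a0ddd_nt.V Pool.Agent.Lib.MP_1a0ddd_nt.Fb
  Pool.Agent.Lib.MP_1a0ddd_nt.Cn Pool.Agent.Lib.MP_1a0ddd_nt.Un Pool.Agent.Lib.MP_1a0ddd_nt.Nc

/-- the functions `k` and `k'` have the same mean, after removal of a closed subset of `Spec R` -/
def KEq {R : Type} [CommRing R] (k k' : R → ℕ → ℝ) : Prop :=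
  ∃ D₀ : R, D₀ ≠ 0 ∧ ∀ D : R, D ≠ 0 → D₀ ∣ D → Quad.TauMean (fun p => k D p - k' D p) 0

/-- the Tate property up to the function `k` -/
structure TateK (R S : Type) [CommRing R] [IsDomain R] [CommRing S] [Algebra R S] (d n e : ℕ)
    (k : R → ℕ → ℝ) : Prop where
  geo : Geo R S n e
  count : ∃ D₀ : R, D₀ ≠ 0 ∧ ∀ D : R, D ≠ 0 → D₀ ∣ D →
    Quad.TauMean (fun p => countD R S D d n p - k D p) e

theorem KEq.refl {R : Type} [CommRing R] [IsDomain R] (k : R → ℕ → ℝ) : KEq k k :=
  ⟨1, one_ne_zero, fun D _ _ => by simpa using Quad.TauMean.zero⟩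

theorem KEq.symm {R : Type} [CommRing R] {k k' : R → ℕ → ℝ} (h : KEq k k') : KEq k' k := by
  obtain ⟨D₀, h0, h1⟩ := h
  refine ⟨D₀, h0, fun D hD hd => ?_⟩
  have h2 := (h1 D hD hd).neg
  rw [neg_zero] at h2
  exact h2.congr' 0 fun p _ _ => by ring

theorem KEq.trans {R : Type} [CommRing R] [IsDomain R] {k k' k'' : R → ℕ → ℝ} (h : KEq k k')
    (h' : KEq k' k'') : KEq k k'' := by
  obtain ⟨D₀, h0, h1⟩ := h
  obtain ⟨D₁, h0', h1'⟩ := h'
  refine ⟨D₀ * D₁, mul_ne_zero h0 h0', fun D hD hd => ?_⟩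
  have h2 := (h1 D hD ((dvd_mul_right _ _).trans hd)).add
    (h1' D hD ((dvd_mul_left _ _).trans hd))
  rw [add_zero] at h2
  exact h2.congr' 0 fun p _ _ => by ring

theorem tauMean_unique {c : ℕ → ℝ} {a b : ℝ} (h : Quad.TauMean c a) (h' : Quad.TauMean c b) :
    a = b :=
  tendsto_nhds_unique h h'

private theorem kb_cst {A B : Type} [CommRing A] [CommRing B] (f : A →+* B) (a : A) :
    Fb.cst f (algebraMap A (FractionRing A) a) = Fb.toGen f (f a) := by
  have h1 : IsLocalization.map (M := nonZeroDivisors A) (T := (nonZeroDivisors A).map f)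
      (Localization ((nonZeroDivisors A).map f)) f (Submonoid.le_comap_map _)
      (algebraMap A (FractionRing A) a) =
        algebraMap B (Localization ((nonZeroDivisors A).map f)) (f a) :=
    IsLocalization.map_eq _ a
  exact h1

theorem geo_equiv {R S S' : Type} [CommRing R] [IsDomain R] [CommRing S] [Algebra R S]
    [CommRing S'] [Algebra R S'] (f : S ≃ₐ[R] S') {n e : ℕ} (h : Geo R S n e) :
    Geo R S' n e := by
  have hfc : ∀ r : R, f (algebraMap R S r) = algebraMap R S' r := f.commutes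
  have hgeo := h
  have := hgeo.dom
  have := hgeo.ufd
  -- the isomorphism of the generic fibres
  have hM : ((nonZeroDivisors R).map (algebraMap R S)).map f.toRingEquiv.toMonoidHom =
      (nonZeroDivisors R).map (algebraMap R S') := by
    ext x
    constructor
    · rintro ⟨_, ⟨r, hr, rfl⟩, rfl⟩
      exact ⟨r, hr, (hfc r).symm⟩
    · rintro ⟨r, hr, rfl⟩
      exact ⟨_, ⟨r, hr, rfl⟩, hfc r⟩
  obtain ⟨g, hg⟩ : ∃ g : Fb.Gen (algebraMap R S) ≃+* Fb.Gen (algebraMap R S'),
      ∀ s, g (Fb.toGen (algebraMap R S) s) = Fb.toGen (algebraMap R S') (f s) :=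
    ⟨IsLocalization.ringEquivOfRingEquiv
      (Localization ((nonZeroDivisors R).map (algebraMap R S)))
      (Localization ((nonZeroDivisors R).map (algebraMap R S'))) f.toRingEquiv hM,
      fun s => by
        have h1 := IsLocalization.ringEquivOfRingEquiv_eq
          (S := Localization ((nonZeroDivisors R).map (algebraMap R S)))
          (Q := Localization ((nonZeroDivisors R).map (algebraMap R S'))) hM s
        exact h1⟩
  have hgc : ∀ c : FractionRing R, g (Fb.cst (algebraMap R S) c) =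
      Fb.cst (algebraMap R S') c := by
    have h1 : (g : Fb.Gen (algebraMap R S) →+* Fb.Gen (algebraMap R S')).comp
        (Fb.cst (algebraMap R S)) = Fb.cst (algebraMap R S') := by
      apply IsLocalization.ringHom_ext (nonZeroDivisors R)
      ext r
      have h2 : g (Fb.cst (algebraMap R S) (algebraMap R (FractionRing R) r)) =
          Fb.cst (algebraMap R S') (algebraMap R (FractionRing R) r) := by
        rw [kb_cst, kb_cst, hg, hfc]
      exact h2
    intro c
    exact RingHom.congr_fun h1 c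
  refine ⟨f.symm.toMulEquiv.isDomain S, ?_, Algebra.FiniteType.equiv hgeo.finite f, ?_,
    g.toMulEquiv.uniqueFactorizationMonoid hgeo.ufd, ?_⟩
  · intro x y hxy
    apply hgeo.inj
    apply f.injective
    rw [hfc, hfc, hxy]
  · rw [← hgeo.dim]
    exact f.trdeg_eq.symm
  · obtain ⟨γ, hγ⟩ := hgeo.units
    obtain ⟨u, hu⟩ : ∃ u : (Fb.Gen (algebraMap R S))ˣ ≃* (Fb.Gen (algebraMap R S'))ˣ,
      ∀ x, ((u x : (Fb.Gen (algebraMap R S'))ˣ) : Fb.Gen (algebraMap R S')) =
        g (x : Fb.Gen (algebraMap R S)) := ⟨Units.mapEquiv g.toMulEquiv, fun x => rfl⟩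
    have huc : ∀ c : (FractionRing R)ˣ, u (Units.map
        (Fb.cst (algebraMap R S) : FractionRing R →* Fb.Gen (algebraMap R S)) c) =
        Units.map (Fb.cst (algebraMap R S') : FractionRing R →* Fb.Gen (algebraMap R S')) c := by
      intro c
      apply Units.ext
      rw [hu]
      exact hgc c
    refine ⟨fun i => u (γ i), ⟨fun v => ?_, fun c m hm => ?_⟩⟩
    · obtain ⟨c, m, hcm⟩ := hγ.gen (u.symm v)
      refine ⟨c, m, ?_⟩
      have h1 := congrArg u hcm
      rw [u.apply_symm_apply, map_mul, huc, map_prod] at h1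
      rw [h1]
      simp only [map_zpow]
    · apply hγ.indep c m
      apply u.injective
      rw [huc, ← hm, map_prod]
      simp only [map_zpow]

theorem countD_equiv {R S S' : Type} [CommRing R] [CommRing S] [Algebra R S]
    [CommRing S'] [Algebra R S'] (f : S ≃ₐ[R] S') (D : R) (d n : ℕ) :
    countD R S' D d n = countD R S D d n := by
  have hfc : ∀ r : R, f (algebraMap R S r) = algebraMap R S' r := f.commutes
  have hcard : ∀ (D : R) (p : ℕ), Nat.card {σ : S →+* ZMod p // σ (algebraMap R S D) ≠ 0} =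
      Nat.card {σ : S' →+* ZMod p // σ (algebraMap R S' D) ≠ 0} := by
    intro D p
    refine Nat.card_congr
      { toFun := fun σ => ⟨σ.1.comp (f.symm : S' →+* S), ?_⟩
        invFun := fun σ => ⟨σ.1.comp (f : S →+* S'), ?_⟩
        left_inv := fun σ => ?_
        right_inv := fun σ => ?_ }
    · have h1 : f.symm (algebraMap R S' D) = algebraMap R S D := f.symm.commutes D
      change σ.1 (f.symm (algebraMap R S' D)) ≠ 0
      rw [h1]
      exact σ.2
    · change σ.1 (f (algebraMap R S D)) ≠ 0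
      rw [hfc]
      exact σ.2
    · refine Subtype.ext (RingHom.ext fun s => ?_)
      change σ.1 (f.symm (f s)) = σ.1 s
      rw [f.symm_apply_apply]
    · refine Subtype.ext (RingHom.ext fun s => ?_)
      change σ.1 (f (f.symm s)) = σ.1 s
      rw [f.apply_symm_apply]
  funext p
  rw [countD, countD, hcard]

theorem tauMean_one : Quad.TauMean (fun _ => 1) 1 := by
  have h := LW.langWeil ℤ 0 (by rw [Nat.cast_zero, trdeg_eq_zero_iff]; infer_instance) 1 one_ne_zero
  refine h.congr' 0 fun p _ hp => ?_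
  have : Fact p.Prime := ⟨hp⟩
  have h1 : Nat.card {z : ℤ →+* ZMod p // z 1 ≠ 0} = 1 := by
    rw [Nat.card_eq_one_iff_unique]
    exact ⟨⟨fun a b => Subtype.ext (Subsingleton.elim _ _)⟩, ⟨⟨Int.castRingHom _, by simp⟩⟩⟩
  rw [h1]
  simp

theorem tauMean_const (c : ℝ) : Quad.TauMean (fun _ => c) c := by
  simpa using tauMean_one.const_mul c

section
variable {R S : Type} [CommRing R] [IsDomain R] [CommRing S] [Algebra R S] {d n e : ℕ}
  {k k' : R → ℕ → ℝ}

theorem tateK_of_geo (h : Geo R S n e) :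
    TateK R S d n e (fun D p => countD R S D d n p - e) :=
  ⟨h, 1, one_ne_zero, fun D _ _ => (tauMean_const e).congr' 0 fun p _ _ => by ring⟩

theorem TateK.congr (h : TateK R S d n e k) (hk : KEq k k') : TateK R S d n e k' := by
  obtain ⟨D₀, h0, h1⟩ := h.count
  obtain ⟨D₁, h0', h1'⟩ := hk
  refine ⟨h.geo, D₀ * D₁, mul_ne_zero h0 h0', fun D hD hd => ?_⟩
  have h2 := (h1 D hD ((dvd_mul_right _ _).trans hd)).add
    (h1' D hD ((dvd_mul_left _ _).trans hd))
  rw [add_zero] at h2
  exact h2.congr' 0 fun p _ _ => by ring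

theorem TateK.unique (h : TateK R S d n e k) (h' : TateK R S d n e k') : KEq k k' := by
  obtain ⟨D₀, h0, h1⟩ := h.count
  obtain ⟨D₁, h0', h1'⟩ := h'.count
  refine ⟨D₀ * D₁, mul_ne_zero h0 h0', fun D hD hd => ?_⟩
  have h2 := (h1' D hD ((dvd_mul_left _ _).trans hd)).sub
    (h1 D hD ((dvd_mul_right _ _).trans hd))
  rw [sub_self] at h2
  exact h2.congr' 0 fun p _ _ => by ring

theorem tateK_equiv {S' : Type} [CommRing S'] [Algebra R S'] (f : S ≃ₐ[R] S')
    (h : TateK R S d n e k) : TateK R S' d n e k := by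
  obtain ⟨D₀, h0, h1⟩ := h.count
  refine ⟨geo_equiv f h.geo, D₀, h0, fun D hD hd => ?_⟩
  rw [countD_equiv f D d n]
  exact h1 D hD hd

omit [IsDomain R] in
theorem countD_poly (D : R) {p : ℕ} (hp : p.Prime) :
    countD R S[X] D d (n + 1) p = countD R S D d n p := by
  have hp0 : (p : ℝ) ≠ 0 := by exact_mod_cast hp.ne_zero
  have h2 : Nat.card {σ : S[X] →+* ZMod p // σ (algebraMap R S[X] D) ≠ 0} =
      Nat.card {σ : S →+* ZMod p // σ (algebraMap R S D) ≠ 0} * p := by
    have e : {σ : S →+* ZMod p // σ (algebraMap R S D) ≠ 0} × ZMod p ≃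
        {φ : S[X] →+* ZMod p // φ (C (algebraMap R S D)) ≠ 0} :=
      { toFun := fun w => ⟨eval₂RingHom w.1.1 w.2, by simpa using w.1.2⟩
        invFun := fun φ => (⟨φ.1.comp C, φ.2⟩, φ.1 X)
        left_inv := fun w => by
          refine Prod.ext (Subtype.ext ?_) ?_
          · refine RingHom.ext fun r => ?_
            simp
          · simp
        right_inv := fun φ => by
          refine Subtype.ext (Polynomial.ringHom_ext' ?_ ?_)
          · refine RingHom.ext fun r => ?_
            simp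
          · simp }
    have h3 := Nat.card_congr e
    rw [Nat.card_prod, Nat.card_zmod] at h3
    exact h3.symm
  have e1 : n + 1 + d = (n + d) + 1 := by omega
  unfold countD
  rw [h2, e1, pow_succ, pow_succ (p : ℝ) (n + d)]
  push_cast
  field_simp

theorem tateK_poly (h : TateK R S d n e k) : TateK R S[X] d (n + 1) e k := by
  obtain ⟨D₀, h0, h1⟩ := h.count
  refine ⟨fact_poly h.geo, D₀, h0, fun D hD hd => ?_⟩
  refine (h1 D hD hd).congr' 0 fun p _ hp => ?_
  rw [countD_poly D hp]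

theorem tateK_away' (hR : BaseVar R d) (h : TateK R S d n e k) {g : S} (hg : g ≠ 0) {m : ℕ}
    {q : Fin m → Gen (algebraMap R S)} (h1 : ∀ j, Prime (q j)) (h2 : ∀ i j, q i ∣ q j → i = j)
    (h3 : ∀ j, q j ∣ toGen (algebraMap R S) g)
    (h4 : ∀ π, Prime π → π ∣ toGen (algebraMap R S) g → ∃ j, q j ∣ π) :
    TateK R (Localization.Away g) d n (e + m) k := by
  obtain ⟨D₁, d1, t1⟩ := h.count
  obtain ⟨D₂, d2, t2⟩ := count_zero hR h.geo hg h1 h2 h3 h4
  refine ⟨fact_away h.geo hg h1 h2 h3 h4, D₁ * D₂, mul_ne_zero d1 d2, fun D hD hd => ?_⟩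
  have e3 : ((e + m : ℕ) : ℝ) = (e : ℝ) + m := by push_cast; ring
  rw [e3]
  have h5 := (t1 D hD ((dvd_mul_right _ _).trans hd)).add
    (t2 D hD ((dvd_mul_left _ _).trans hd))
  have hfR := hR.finite
  have hfS := h.geo.finite
  have hfZ : Algebra.FiniteType ℤ S := Algebra.FiniteType.trans hfR hfS
  refine h5.congr' 0 fun p _ hp => ?_
  have hfin : Finite (S →+* ZMod p) := W.finite_hom S p hp
  have c1 : Nat.card {σ : Localization.Away g →+* ZMod p //
      σ (algebraMap R (Localization.Away g) D) ≠ 0} =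
      Nat.card {σ : S →+* ZMod p // σ g ≠ 0 ∧ σ (algebraMap R S D) ≠ 0} := by
    rw [← card_away g p hp fun σ => σ (algebraMap R S D) ≠ 0]
    rfl
  have c2 : Nat.card {σ : S →+* ZMod p // σ (algebraMap R S D) ≠ 0} =
      Nat.card {σ : S →+* ZMod p // σ g ≠ 0 ∧ σ (algebraMap R S D) ≠ 0} +
      Nat.card {σ : S →+* ZMod p // σ (algebraMap R S D) ≠ 0 ∧ σ g = 0} := by
    classical
    have := Fintype.ofFinite (S →+* ZMod p)
    rw [Nat.card_eq_fintype_card, Nat.card_eq_fintype_card, Nat.card_eq_fintype_card,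
      Fintype.card_subtype, Fintype.card_subtype, Fintype.card_subtype,
      ← Finset.card_union_of_disjoint]
    · congr 1
      ext σ
      simp only [Finset.mem_filter, Finset.mem_univ, true_and, Finset.mem_union]
      tauto
    · rw [Finset.disjoint_left]
      intro σ h6 h7
      exact (Finset.mem_filter.1 h6).2.1 (Finset.mem_filter.1 h7).2.2
  unfold countD
  rw [c1, c2]
  push_cast
  ring

theorem tateK_away (hR : BaseVar R d) (h : TateK R S d n e k) {g : S} (hg : g ≠ 0) :
    ∃ m : ℕ, TateK R (Localization.Away g) d n (e + m) k := by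
  have hd := h.geo.dom
  have hj := kmodel_gen (R := R) (S := S) h.geo.inj
  have hdO : IsDomain (Gen (algebraMap R S)) := kmodel_domain hj
  have hu := h.geo.ufd
  have hg' : toGen (algebraMap R S) g ≠ 0 := (map_ne_zero_iff _ hj.inj).2 hg
  obtain ⟨m, q, h1, h2, h3, h4⟩ := factors_exist hg'
  exact ⟨m, tateK_away' hR h hg h1 h2 h3 h4⟩

theorem tateK_conic (hR : BaseVar R d) (h : TateK R S d n e k) {a b c : S}
    (hc : ConicGeo R a b c) : TateK R (Conic a b c) d (n + 1) e k := by
  have hzR := hR.zero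
  have hfR := hR.finite
  obtain ⟨D₁, h1, h1'⟩ := h.count
  obtain ⟨D₂, h2, h2'⟩ := conic_countD hR h.geo hc
  refine ⟨fact_conic h.geo hc, D₁ * D₂, mul_ne_zero h1 h2, fun D hD hDD => ?_⟩
  have h3 := (h1' D hD ((dvd_mul_right D₁ D₂).trans hDD)).add
    (h2' D hD ((dvd_mul_left D₂ D₁).trans hDD))
  rw [add_zero] at h3
  refine h3.congr' 0 fun p _ hp => ?_
  have hp0 : (p : ℝ) ≠ 0 := by exact_mod_cast hp.ne_zero
  unfold countD
  rw [add_right_comm n 1 d, pow_succ (p : ℝ) (n + d), pow_succ (p : ℝ) n]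
  field_simp
  ring

end

/-- the dimension and the rank of the units are determined by the ring -/
theorem geo_unique {R S : Type} [CommRing R] [IsDomain R] [CommRing S] [Algebra R S]
    {n e n' e' : ℕ} (h : Geo R S n e) (h' : Geo R S n' e') : n = n' ∧ e = e' := by
  have hd := h.dom
  have h1 : IsDomain (Gen (algebraMap R S)) := kmodel_domain (kmodel_gen h.inj)
  have h2 := h.ufd
  obtain ⟨γ, hγ⟩ := h.units
  obtain ⟨δ, hδ⟩ := h'.units
  have hI : IrrOver (RingHom.id (Gen (algebraMap R S))) 1 := by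
    intro q hq _
    exact ⟨hq.prime, fun a ha => ha⟩
  have h3 := rank_units_rel hI (Fb.cst (algebraMap R S)) (γ := γ) (δ := δ) hγ hδ
  have h4 := rank_units_rel hI (Fb.cst (algebraMap R S)) (γ := δ) (δ := γ) hδ hγ
  refine ⟨?_, by omega⟩
  have h5 := h.dim.symm.trans h'.dim
  exact_mod_cast h5

/-- birational invariance, as `tate_birat` -/
theorem tateK_birat {R A B L : Type} [CommRing R] [IsDomain R] [CommRing A] [IsDomain A]
    [CommRing B] [Field L] [Algebra R A] [Algebra R B] [Algebra R L] {d n e : ℕ}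
    {k : R → ℕ → ℝ}
    (hR : BaseVar R d) (hA : Algebra.FiniteType R A) (j : A →ₐ[R] L) (k' : B →ₐ[R] L)
    (hj : Function.Injective j) (hk : Function.Injective k')
    (hfj : ∀ z : L, ∃ x y : A, y ≠ 0 ∧ z * j y = j x)
    (hfk : ∀ z : L, ∃ x y : B, y ≠ 0 ∧ z * k' y = k' x) (hB : TateK R B d n e k) :
    ∃ a : A, a ≠ 0 ∧ ∀ a' : A, a' ≠ 0 → a ∣ a' →
      ∃ e' : ℕ, TateK R (Localization.Away a') d n e' k := by
  have hdB : IsDomain B := hB.geo.dom
  have hfB : Algebra.FiniteType R B := hB.geo.finite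
  obtain ⟨a, ha, -, h⟩ := loc_birat hA hfB j k' hj hk hfj hfk 1 one_ne_zero
  refine ⟨a, ha, fun a' ha' haa' => ?_⟩
  obtain ⟨b', hb', hloc⟩ := h a' ha' haa'
  obtain ⟨m, hm⟩ := tateK_away hR hB hb'
  obtain ⟨f, -⟩ := loc_equiv j hj ha'
  obtain ⟨g, -⟩ := loc_equiv k' hk hb'
  exact ⟨e + m, tateK_equiv ((g.trans (Subalgebra.equivOfEq _ _ hloc.symm)).trans f.symm) hm⟩

end Pool.Agent.Lib.MP_1a0ddd_nt.Tf
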