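import Pool.Agent.Lib.MP_1a0ddd_nt.Tf.Unf
import Pool.Agent.Lib.MP_1a0ddd_nt.Tf.Mdl

/-! Uniform point count for the members of a family of curves. -/

set_option autoImplicit false

namespace Pool.Agent.Lib.MP_1a0ddd_nt.Tf

open Polynomial Filter

private theorem aw_unit {T A K : Type} [CommRing T] [CommRing A] [Field K] {φ : T →+* A}
    {g : A} {b : T} {τ : T →+* K} (hb : τ b ≠ 0) {a : A} (ha : a = g * φ b) {σ : A →+* K}
    (h : σ.comp φ = τ ∧ σ g ≠ 0) : IsUnit (σ a) := by
  refine IsUnit.mk0 _ ?_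
  rw [ha, map_mul]
  refine mul_ne_zero h.2 ?_
  rw [← RingHom.comp_apply, h.1]
  exact hb

private theorem aw_mem {T A K : Type} [CommRing T] [CommRing A] [Field K] {φ : T →+* A}
    {g : A} {b : T} {τ : T →+* K} {a : A} (ha : a = g * φ b) {ψ : Localization.Away a →+* K}
    (h : (ψ.comp (algebraMap A (Localization.Away a))).comp φ = τ) :
    (ψ.comp (algebraMap A (Localization.Away a))).comp φ = τ ∧
      (ψ.comp (algebraMap A (Localization.Away a))) g ≠ 0 := by
  refine ⟨h, ?_⟩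
  have h1 : IsUnit (algebraMap A (Localization.Away a) a) :=
    IsLocalization.Away.algebraMap_isUnit _
  have h2 := (h1.map ψ).ne_zero
  intro h3
  apply h2
  have h4 : (ψ.comp (algebraMap A (Localization.Away a))) (g * φ b) = 0 := by
    rw [map_mul, h3, zero_mul]
  rw [← ha] at h4
  exact h4

private noncomputable def awE {T A K : Type} [CommRing T] [CommRing A] [Field K] (φ : T →+* A)
    (g : A) (b : T) (τ : T →+* K) (hb : τ b ≠ 0) (a : A) (ha : a = g * φ b) :
    {σ : A →+* K // σ.comp φ = τ ∧ σ g ≠ 0} ≃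
      {ψ : Localization.Away a →+* K //
        (ψ.comp (algebraMap A (Localization.Away a))).comp φ = τ} where
  toFun σ := ⟨IsLocalization.Away.lift a (aw_unit hb ha σ.2), by
      rw [IsLocalization.Away.lift_comp]; exact σ.2.1⟩
  invFun ψ := ⟨ψ.1.comp (algebraMap A (Localization.Away a)), aw_mem ha ψ.2⟩
  left_inv σ := by
    apply Subtype.ext
    exact IsLocalization.Away.lift_comp a (aw_unit hb ha σ.2)
  right_inv ψ := by
    apply Subtype.ext
    apply IsLocalization.ringHom_ext (Submonoid.powers a)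
    exact IsLocalization.Away.lift_comp a (aw_unit hb ha (aw_mem ha ψ.2))

/-- Proof: `curve_unif` for `f` and `b'`; the points `σ` over `τ` with `σ g ≠ 0` are those of
`S[1/(g φ b)]` over `τ` (`τ b ≠ 0`), which is isomorphic to `AdjoinRoot f` with `b'` and `b` inverted -/
theorem unif_all {R T S : Type} [CommRing R] [CommRing T] [IsDomain T] [CharZero T] [CommRing S]
    [Algebra R T] [Algebra R S] (φ : T →ₐ[R] S) {f : T[X][X]} (hm : f.Monic)
    (hd : 0 < f.natDegree) (habs : LW.AbsIrr f) {b' : AdjoinRoot f} (hb' : b' ≠ 0) :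
    ∃ b₀ : T, b₀ ≠ 0 ∧ ∀ b : T, b ≠ 0 → b₀ ∣ b → ∀ g : S,
      ∀ Φ : Localization.Away (g * φ b) ≃ₐ[R] Localization.Away (b' * AdjoinRoot.of f (C b)),
        (∀ t : T, Φ (algebraMap S (Localization.Away (g * φ b)) (φ t)) =
          algebraMap (AdjoinRoot f) (Localization.Away (b' * AdjoinRoot.of f (C b)))
            (AdjoinRoot.of f (C t))) →
        ∀ ε : ℝ, 0 < ε → ∃ p₀ : ℕ, ∀ p : ℕ, p₀ ≤ p → p.Prime → ∀ τ : T →+* ZMod p, τ b ≠ 0 →
          |(p : ℝ) - Nat.card {σ : S →+* ZMod p // σ.comp (φ : T →+* S) = τ ∧ σ g ≠ 0}| ≤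
            ε * p := by
  obtain ⟨e, he, H⟩ := curve_unif f hm hd habs hb'
  refine ⟨e, he, fun b _ heb g Φ hΦ ε hε => ?_⟩
  obtain ⟨p₀, hp₀⟩ := H ε hε
  refine ⟨p₀, fun p hp hpp τ hτ => ?_⟩
  have : Fact p.Prime := ⟨hpp⟩
  have hτe : τ e ≠ 0 := by
    obtain ⟨c, rfl⟩ := heb
    rw [map_mul] at hτ
    exact left_ne_zero_of_mul hτ
  have key := hp₀ p hp hpp τ hτe
  have hcard : Nat.card {σ : S →+* ZMod p // σ.comp (φ : T →+* S) = τ ∧ σ g ≠ 0} =
      Nat.card {ρ : AdjoinRoot f →+* ZMod p //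
          (ρ.comp (AdjoinRoot.of f)).comp C = τ ∧ ρ b' ≠ 0} := by
    refine Nat.card_congr ((awE (φ : T →+* S) g b τ hτ (g * φ b) rfl).trans (Equiv.trans ?_
      (awE ((AdjoinRoot.of f).comp C) b' b τ hτ (b' * AdjoinRoot.of f (C b)) rfl).symm))
    refine
      { toFun := fun ψ => ⟨ψ.1.comp Φ.symm.toRingEquiv.toRingHom, ?_⟩
        invFun := fun ψ => ⟨ψ.1.comp Φ.toRingEquiv.toRingHom, ?_⟩
        left_inv := fun ψ => ?_
        right_inv := fun ψ => ?_ }
    · ext t
      have h1 := congrArg (fun z : T →+* ZMod p => z t) ψ.2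
      have h2 : Φ.symm (algebraMap (AdjoinRoot f)
          (Localization.Away (b' * AdjoinRoot.of f (C b))) (AdjoinRoot.of f (C t))) =
          algebraMap S (Localization.Away (g * φ b)) (φ t) := by
        rw [← hΦ t, AlgEquiv.symm_apply_apply]
      change ψ.1 (Φ.symm (algebraMap (AdjoinRoot f)
          (Localization.Away (b' * AdjoinRoot.of f (C b))) (AdjoinRoot.of f (C t)))) = τ t
      rw [h2]
      exact h1
    · ext t
      have h1 := congrArg (fun z : T →+* ZMod p => z t) ψ.2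
      change ψ.1 (Φ (algebraMap S (Localization.Away (g * φ b)) (φ t))) = τ t
      rw [hΦ t]
      exact h1
    · apply Subtype.ext
      ext x
      change ψ.1 (Φ.symm (Φ x)) = ψ.1 x
      rw [AlgEquiv.symm_apply_apply]
    · apply Subtype.ext
      ext x
      change ψ.1 (Φ (Φ.symm x)) = ψ.1 x
      rw [AlgEquiv.apply_symm_apply]
  rw [hcard]
  exact key

end Pool.Agent.Lib.MP_1a0ddd_nt.Tf
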