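import Pool.Agent.Lib.MP_1a0ddd_nt.Nc.Bas
import Pool.Agent.Lib.MP_1a0ddd_nt.Un.CtZ
import Pool.Agent.Lib.MP_1a0ddd_nt.LW.Main

/-! The average of the numbers of points. -/

set_option autoImplicit false

namespace Pool.Agent.Lib.MP_1a0ddd_nt.Tf

open Nc

/-- the averages are finite sums -/
theorem avg_eq_sum {T : Type} [CommRing T] (b : T) (e : ℕ) {p : ℕ}
    [Fintype {τ : T →+* ZMod p // τ b ≠ 0}] (f : (T →+* ZMod p) → ℤ) :
    avg b e p f = (∑ τ : {τ : T →+* ZMod p // τ b ≠ 0}, (f τ : ℝ)) / (p : ℝ) ^ e := by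
  unfold avg
  rw [finsum_eq_sum_of_fintype]

/-- the average of the numbers of points over `τ` -/
private theorem avg_pts {T A : Type} [CommRing T] [CommRing A] (hf : Algebra.FiniteType ℤ T)
    (hA : Algebra.FiniteType ℤ A) (e : ℕ) (ψ : T →+* A) (b : T) {p : ℕ} (hp : p.Prime) :
    avg b e p (fun τ => (Nat.card {ρ : A →+* ZMod p // ρ.comp ψ = τ} : ℤ)) =
      (Nat.card {ρ : A →+* ZMod p // ρ (ψ b) ≠ 0} : ℝ) / (p : ℝ) ^ e := by
  classical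
  have hfT : Finite (T →+* ZMod p) := W.finite_hom T p hp
  have hfA : Finite (A →+* ZMod p) := W.finite_hom A p hp
  have := Fintype.ofFinite {τ : T →+* ZMod p // τ b ≠ 0}
  rw [avg_eq_sum]
  congr 1
  push_cast
  rw [← Nat.cast_sum, ← Nat.card_sigma]
  congr 1
  refine Nat.card_eq_of_bijective (fun x => ⟨x.2.1, ?_⟩) ⟨?_, ?_⟩
  · have h := x.1.2
    rw [← x.2.2] at h
    exact h
  · rintro ⟨⟨τ, hτ⟩, ρ, hρ⟩ ⟨⟨τ', hτ'⟩, ρ', hρ'⟩ h
    have h1 : ρ = ρ' := congrArg Subtype.val h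
    subst h1
    have h2 : τ = τ' := hρ.symm.trans hρ'
    subst h2
    rfl
  · rintro ⟨ρ, hρ⟩
    exact ⟨⟨⟨ρ.comp ψ, hρ⟩, ρ, rfl⟩, rfl⟩

/-- Proof: both averages are quotients `#{ρ : A → F_p, ρ (ψ b) ≠ 0} / p^e`, with mean `1`
(`LW.langWeil`) -/
theorem vert_pts {T A : Type} [CommRing T] [CommRing A] [IsDomain A]
    [CharZero A] (hf : Algebra.FiniteType ℤ T) (hA : Algebra.FiniteType ℤ A) {e : ℕ}
    (he : Algebra.trdeg ℤ A = e) (ψ : T →+* A) {b : T} (hb : ψ b ≠ 0) :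
    Quad.TauMean (fun p => avg b e p fun τ =>
      (Nat.card {ρ : A →+* ZMod p // ρ.comp ψ = τ} : ℤ)) 1 := by
  refine (LW.langWeil A e he (ψ b) hb).congr' 0 fun p _ hp => ?_
  exact avg_pts hf hA e ψ b hp

end Pool.Agent.Lib.MP_1a0ddd_nt.Tf
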