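import Pool.Agent.Lib.MP_1a0ddd_nt.Tf.VrtB
import Pool.Agent.Lib.MP_1a0ddd_nt.Tf.VrtC

/-! Removal of a closed subset of the base. -/

set_option autoImplicit false

namespace Pool.Agent.Lib.MP_1a0ddd_nt.Tf

open Nc

/-- the average of the trace, split into the three kinds of terms -/
theorem avg_trace {T S : Type} [CommRing T] [CommRing S] (hf : Algebra.FiniteType ℤ T) (e : ℕ)
    (b : T) (φ : T →+* S) (g : S) {I : Type} [Fintype I] (A : I → Type) [∀ i, CommRing (A i)]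
    (ψ : ∀ i, T →+* A i) {p : ℕ} (hp : p.Prime) :
    avg b e p (trace φ g A ψ p) =
      avg b e p (fun τ => (p : ℤ) - Nat.card {σ : S →+* ZMod p // σ.comp φ = τ ∧ σ g ≠ 0}) +
      avg b e p (fun τ => (Nat.card {ρ : T →+* ZMod p // ρ.comp (RingHom.id T) = τ} : ℤ)) -
      ∑ i, avg b e p (fun τ => (Nat.card {ρ : A i →+* ZMod p // ρ.comp (ψ i) = τ} : ℤ)) := by
  classical
  have hfT : Finite (T →+* ZMod p) := W.finite_hom T p hp
  have := Fintype.ofFinite {τ : T →+* ZMod p // τ b ≠ 0}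
  have h1 : ∀ τ : T →+* ZMod p,
      Nat.card {ρ : T →+* ZMod p // ρ.comp (RingHom.id T) = τ} = 1 := by
    intro τ
    have : Unique {ρ : T →+* ZMod p // ρ.comp (RingHom.id T) = τ} :=
      ⟨⟨⟨τ, RingHom.comp_id τ⟩⟩, fun x => Subtype.ext ((RingHom.comp_id x.1).symm.trans x.2)⟩
    exact Nat.card_unique
  simp only [avg_eq_sum, h1]
  rw [← Finset.sum_div, ← add_div, ← sub_div, Finset.sum_comm, ← Finset.sum_add_distrib,
    ← Finset.sum_sub_distrib]
  congr 1
  refine Finset.sum_congr rfl fun τ _ => ?_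
  unfold trace
  rw [finsum_eq_sum_of_fintype]
  push_cast
  ring

/-- the averages of the traces do not depend on the open subset of the base. Proof: `vert_unif`
for `p - #U_τ`, and `vert_pts` for the `A i` and for `T` -/
theorem vert_trace {T S : Type} [CommRing T] [IsDomain T] [CharZero T] [CommRing S]
    (hf : Algebra.FiniteType ℤ T) {e : ℕ} (he : Algebra.trdeg ℤ T = e) {b b₁ : T} (hb : b ≠ 0)
    (hb₁ : b₁ ≠ 0) (φ : T →+* S) (g : S)
    (hc : ∀ ε : ℝ, 0 < ε → ∃ p₀ : ℕ, ∀ p : ℕ, p₀ ≤ p → p.Prime → ∀ τ : T →+* ZMod p,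
      τ b ≠ 0 → |(p : ℝ) - Nat.card {σ : S →+* ZMod p // σ.comp φ = τ ∧ σ g ≠ 0}| ≤ ε * p)
    {I : Type} [Finite I] (A : I → Type) [∀ i, CommRing (A i)] [∀ i, IsDomain (A i)]
    (hA : ∀ i, Algebra.FiniteType ℤ (A i)) (hAe : ∀ i, Algebra.trdeg ℤ (A i) = e)
    (ψ : ∀ i, T →+* A i) (hψ : ∀ i, Function.Injective (ψ i)) :
    Quad.TauMean (fun p => avg b e p (trace φ g A ψ p) - avg (b * b₁) e p (trace φ g A ψ p)) 0 := by
  classical
  have := Fintype.ofFinite I
  have hbb : b * b₁ ≠ 0 := mul_ne_zero hb hb₁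
  -- the open subset of `Spec S`
  have h1 := vert_unif hf he hb₁ (b := b)
    (fun p τ => (p : ℤ) - Nat.card {σ : S →+* ZMod p // σ.comp φ = τ ∧ σ g ≠ 0}) (by
      intro ε hε
      obtain ⟨p₀, h⟩ := hc ε hε
      refine ⟨p₀, fun p hp hpp τ hτ => ?_⟩
      have h2 := h p hp hpp τ hτ
      push_cast
      exact h2)
  -- the base
  have h2 := (vert_pts hf hf he (RingHom.id T) (b := b) hb).sub
    (vert_pts hf hf he (RingHom.id T) (b := b * b₁) hbb)
  -- the points outside the open subset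
  have h3 : ∀ i, Quad.TauMean (fun p => avg b e p (fun τ =>
        (Nat.card {ρ : A i →+* ZMod p // ρ.comp (ψ i) = τ} : ℤ)) -
      avg (b * b₁) e p (fun τ =>
        (Nat.card {ρ : A i →+* ZMod p // ρ.comp (ψ i) = τ} : ℤ))) (1 - 1) := by
    intro i
    have hz : CharZero (A i) := charZero_of_injective_ringHom (hψ i)
    exact (vert_pts hf (hA i) (hAe i) (ψ i) (b := b) ((map_ne_zero_iff _ (hψ i)).2 hb)).sub
      (vert_pts hf (hA i) (hAe i) (ψ i) (b := b * b₁) ((map_ne_zero_iff _ (hψ i)).2 hbb))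
  have h4 := (h1.add h2).sub (Quad.TauMean.sum Finset.univ _ (fun _ => (1 - 1 : ℝ))
    fun i _ => h3 i)
  simp only [sub_self, Finset.sum_const_zero, add_zero] at h4
  refine h4.congr' 0 fun p _ hp => ?_
  rw [avg_trace hf e b φ g A ψ hp, avg_trace hf e (b * b₁) φ g A ψ hp,
    Finset.sum_sub_distrib]
  ring

end Pool.Agent.Lib.MP_1a0ddd_nt.Tf
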