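import Pool.Agent.Lib.MP_1a0ddd_nt.Tf.AOne
import Pool.Agent.Lib.MP_1a0ddd_nt.Tf.AChs
import Pool.Agent.Lib.MP_1a0ddd_nt.Tf.KB
import Pool.Agent.Lib.MP_1a0ddd_nt.Tf.UnfS
import Pool.Agent.Lib.MP_1a0ddd_nt.Tf.Vert
import Pool.Agent.Lib.MP_1a0ddd_nt.Tf.TrG

/-! One fibration in curves. -/

set_option autoImplicit false

namespace Pool.Agent.Lib.MP_1a0ddd_nt.Tf

open Pool.Agent.Lib.MP_1a0ddd_nt.Nc Pool.Agent.Lib.MP_1a0ddd_nt.Cf
  Pool.Agent.Lib.MP_1a0ddd_nt.Fb Pool.Agent.Lib.MP_1a0ddd_nt.Cn Pool.Agent.Lib.MP_1a0ddd_nt.Un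
  Pool.Agent.Lib.MP_1a0ddd_nt.Pu

variable {R T S L : Type} [CommRing R] [CommRing T] [CommRing S]
  [Field L] [Algebra R T] [Algebra R S] [Algebra R L] {d n : ℕ}

/-- the equation of an open subset of the generic fibre matters only up to functions on the base -/
theorem coord_mul (φ : T →ₐ[R] S) (j : S →ₐ[R] L) {b : T} (hb : j (φ b) ≠ 0) (h : S) :
    coordRing (fieldOf ((j : S →+* L).comp (φ : T →+* S))) (j : S →+* L) (h * φ b) =
      coordRing (fieldOf ((j : S →+* L).comp (φ : T →+* S))) (j : S →+* L) h := by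
  have hbF : j (φ b) ∈ fieldOf ((j : S →+* L).comp (φ : T →+* S)) :=
    Subfield.subset_closure ⟨b, rfl⟩
  have hm : ∀ x : S, (j : S →+* L) x = j x := fun _ => rfl
  have hI : ∀ {g g' : S}, (j g)⁻¹ ∈ coordRing (fieldOf ((j : S →+* L).comp (φ : T →+* S)))
      (j : S →+* L) g' → coordRing (fieldOf ((j : S →+* L).comp (φ : T →+* S)))
        (j : S →+* L) g ≤ coordRing (fieldOf ((j : S →+* L).comp (φ : T →+* S)))
        (j : S →+* L) g' := by
    intro g g' h1
    refine Subring.closure_le.2 ?_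
    rintro x ((hx | ⟨y, rfl⟩) | hx)
    · exact Subring.subset_closure (Or.inl (Or.inl hx))
    · exact Subring.subset_closure (Or.inl (Or.inr ⟨y, rfl⟩))
    · have hx' : x = (j g)⁻¹ := hx
      rw [hx']
      exact h1
  apply le_antisymm
  · refine hI ?_
    rw [map_mul, mul_inv]
    refine mul_mem (Subring.subset_closure (Or.inr rfl))
      (Subring.subset_closure (Or.inl (Or.inl ?_)))
    exact inv_mem hbF
  · refine hI ?_
    have h1 : (j h)⁻¹ = (j (h * φ b))⁻¹ * j (φ b) := by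
      rw [map_mul, mul_inv, mul_assoc, inv_mul_cancel₀ hb, mul_one]
    rw [h1]
    exact mul_mem (Subring.subset_closure (Or.inr rfl))
      (Subring.subset_closure (Or.inl (Or.inl hbF)))

/-- `h` and `h y` have the same points, outside of a closed subset of `Spec R` -/
theorem countD_mul [IsDomain R] (hiL : Function.Injective (algebraMap R L)) (j : S →ₐ[R] L)
    (hj : Function.Injective j) {h y : S} (hh : h ≠ 0) (hy : y ≠ 0)
    (hyh : (j y)⁻¹ ∈ gring j h) : ∃ r : R, r ≠ 0 ∧ ∀ D : R, r ∣ D → ∀ (d n : ℕ) {p : ℕ},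
      p.Prime → countD R (Localization.Away (h * y)) D d n p =
        countD R (Localization.Away h) D d n p := by
  have hjh : j h ≠ 0 := (map_ne_zero_iff j hj).2 hh
  have hjy : j y ≠ 0 := (map_ne_zero_iff j hj).2 hy
  obtain ⟨s, r, m, hr, hs⟩ := (mem_gring hiL j hjh _).1 hyh
  have h1 : algebraMap R S r * h ^ m = s * y := by
    apply hj
    rw [map_mul, map_mul, j.commutes, map_pow, ← hs]
    field_simp
  refine ⟨r, hr, fun D hD d n p hp => ?_⟩
  have := Fact.mk hp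
  have e1 : Nat.card {σ : S →+* ZMod p // σ (h * y) ≠ 0 ∧ σ (algebraMap R S D) ≠ 0} =
      Nat.card {σ : S →+* ZMod p // σ h ≠ 0 ∧ σ (algebraMap R S D) ≠ 0} := by
    refine Nat.card_congr (Equiv.subtypeEquivRight fun σ => ⟨?_, ?_⟩)
    · rintro ⟨h2, h3⟩
      rw [map_mul] at h2
      exact ⟨left_ne_zero_of_mul h2, h3⟩
    · rintro ⟨h2, h3⟩
      refine ⟨?_, h3⟩
      rw [map_mul]
      refine mul_ne_zero h2 ?_
      obtain ⟨c, rfl⟩ := hD
      rw [map_mul, map_mul] at h3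
      have h4 : σ (s * y) ≠ 0 := by
        rw [← h1, map_mul, map_pow]
        exact mul_ne_zero (left_ne_zero_of_mul h3) (pow_ne_zero m h2)
      rw [map_mul] at h4
      exact right_ne_zero_of_mul h4
  rw [countD_away _ _ _ _ hp, countD_away _ _ _ _ hp, e1]

variable [IsDomain R] [IsDomain T] [IsDomain S]

/-- for all small open subsets `g` of `Spec S`, there is `b₀` such that for all open subsets
`h` of `Spec S`, `h` small with respect to `g` and `b₀`, the averages of the traces are the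
numbers of points of `h` -/
theorem one_fib (hR : BaseVar R d) (hT : Algebra.FiniteType R T) (hS : Algebra.FiniteType R S)
    (hiT : Function.Injective (algebraMap R T)) (hiL : Function.Injective (algebraMap R L))
    (φ : T →ₐ[R] S) (j : S →ₐ[R] L) (hφ : Function.Injective φ) (hj : Function.Injective j)
    (hfj : ∀ z : L, ∃ x y : S, y ≠ 0 ∧ z * j y = j x) {q : S →+* L}
    (hq : (j : S →+* L) = q) {F : Subfield L} (hFe : fieldOf (q.comp (φ : T →+* S)) = F)
    (hF : FF1 F) {k : R → ℕ → ℝ}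
    (hk : ∃ a : T, a ≠ 0 ∧ ∀ a' : T, a' ≠ 0 → a ∣ a' →
      ∃ e : ℕ, TateK R (Localization.Away a') d n e k) :
    ∃ g₀ : S, g₀ ≠ 0 ∧ ∀ g : S, g ≠ 0 → g₀ ∣ g →
      IsDedekindDomain (coordRing F q g) ∧ (Outside F (coordRing F q g)).Finite ∧
      ∃ b₀ : T, b₀ ≠ 0 ∧ ∀ h : S, h ≠ 0 → g * φ b₀ ∣ h →
        ∃ H : AddSubgroup (ClGp F), H.FG ∧ Nonempty ((ClGp F ⧸ H) ≃+ DivCl (gring j h)) ∧
          Module.finrank ℤ H + Module.finrank ℤ (UM F.toSubring (coordRing F q h)) =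
            (Outside F (coordRing F q h)).ncard ∧
          ∀ b : T, b ≠ 0 → b₀ ∣ b → ∀ (A : Outside F (coordRing F q g) → Type)
            [∀ V, CommRing (A V)] (ψ : ∀ V, T →+* A V),
            (∀ V, Model (q.comp (φ : T →+* S)) V.1 (ψ V)) →
            ∃ D₀ : R, D₀ ≠ 0 ∧ ∀ D : R, D ≠ 0 → D₀ ∣ D → Quad.TauMean (fun p =>
              avg b (n + d) p (trace (φ : T →+* S) g A ψ p) -
                (countD R (Localization.Away h) D d (n + 1) p - k D p))
              (1 - Module.finrank ℤ H -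
                Module.finrank ℤ (UM (fieldOf (algebraMap R L)).toSubring (gring j h))) := by
  subst hq hFe
  have hRz := hR.zero
  have hRf := hR.finite
  have hRN : IsNoetherianRing R := Algebra.FiniteType.isNoetherianRing ℤ R
  have hTz : CharZero T := charZero_of_injective_ringHom hiT
  have hLz : CharZero L := charZero_of_injective_ringHom hiL
  have hTi : Algebra.FiniteType ℤ T := Algebra.FiniteType.trans (S := R) hRf hT
  have hθ : Function.Injective ((j : S →+* L).comp (φ : T →+* S)) := hj.comp hφ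
  obtain ⟨f, hm, hd, habs, hdom, g₁, hg₁, hmod⟩ :=
    model_all hT hS hiT φ hφ j hj hfj hF.closed hF.tr
  obtain ⟨δ, hδ, hAff⟩ := exists_delta hS φ j hφ hj hfj hF
  obtain ⟨a, ha, hk⟩ := hk
  refine ⟨g₁ * δ, mul_ne_zero hg₁ hδ, fun g hg hgd => ?_⟩
  obtain ⟨b', hb', hb2⟩ := hmod g hg ((dvd_mul_right _ _).trans hgd)
  obtain ⟨bi, hbi, hirr⟩ := irr_all hiT φ hφ hm hd habs hb'
  obtain ⟨bu, hbu, hunif⟩ := unif_all φ hm hd habs hb'
  have hδg : δ ∣ g := (dvd_mul_left _ _).trans hgd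
  have hAg := hAff g hg hδg
  obtain ⟨b₀, hb₀e⟩ : ∃ b₀, b₀ = a * (bi * bu) := ⟨_, rfl⟩
  have hb₀ : b₀ ≠ 0 := by
    rw [hb₀e]
    exact mul_ne_zero ha (mul_ne_zero hbi hbu)
  have d1 : a ∣ b₀ := by rw [hb₀e]; exact dvd_mul_right _ _
  have d2 : bi ∣ b₀ := by rw [hb₀e]; exact (dvd_mul_right _ _).trans (dvd_mul_left _ _)
  have d3 : bu ∣ b₀ := by rw [hb₀e]; exact (dvd_mul_left _ _).trans (dvd_mul_left _ _)
  -- irreducible fibres
  have hI : ∀ b : T, b ≠ 0 → b₀ ∣ b →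
      UniqueFactorizationMonoid (Gen (algebraMap R (Localization.Away b))) →
      IrrOver (baseK (shr φ b g)) 1 := by
    intro b hb hd1 hu
    obtain ⟨h1, h2, Φ, hΦ⟩ := hb2 b hb
    exact hirr b hb (d2.trans hd1) g h2 h1 Φ hΦ hu
  have hO : ∀ b : T, b ≠ 0 → b₀ ∣ b →
      Vert (fieldOf ((j : S →+* L).comp (φ : T →+* S))) (gring (j.comp φ) b)
        (gring j (g * φ b)) := by
    intro b hb hd1
    obtain ⟨e, he⟩ := hk b hb (d1.trans hd1)
    exact vert_gring hiL φ j hφ hj hb hg he.geo.ufd (hI b hb hd1 he.geo.ufd)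
  -- uniform estimates
  have hU : ∀ b : T, b ≠ 0 → b₀ ∣ b → ∀ ε : ℝ, 0 < ε → ∃ p₀ : ℕ, ∀ p : ℕ, p₀ ≤ p → p.Prime →
      ∀ τ : T →+* ZMod p, τ b ≠ 0 →
        |(p : ℝ) - Nat.card {σ : S →+* ZMod p // σ.comp (φ : T →+* S) = τ ∧ σ g ≠ 0}| ≤
          ε * p := by
    intro b hb hd1
    obtain ⟨-, -, Φ, hΦ⟩ := hb2 b hb
    exact hunif b hb (d3.trans hd1) g Φ hΦ
  have hnd : Algebra.trdeg ℤ T = ((n + d : ℕ) : Cardinal) := by
    obtain ⟨e, he⟩ := hk a ha dvd_rfl
    have h0 : Algebra.trdeg R T = (n : Cardinal) := (trdeg_away_R hiT ha).symm.trans he.geo.dim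
    have h1 := trdeg_tower (R := R) (S := T) hiT hR.dim h0
    rwa [add_comm] at h1
  have key : ∀ h : S, h ≠ 0 → g * φ b₀ ∣ h →
      (Outside (fieldOf ((j : S →+* L).comp (φ : T →+* S)))
        (coordRing (fieldOf ((j : S →+* L).comp (φ : T →+* S))) (j : S →+* L) g)).Finite ∧
      ∃ H : AddSubgroup (ClGp (fieldOf ((j : S →+* L).comp (φ : T →+* S)))), H.FG ∧
        Nonempty ((ClGp (fieldOf ((j : S →+* L).comp (φ : T →+* S))) ⧸ H) ≃+
          DivCl (gring j h)) ∧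
        Module.finrank ℤ H + Module.finrank ℤ (UM
          (fieldOf ((j : S →+* L).comp (φ : T →+* S))).toSubring
          (coordRing (fieldOf ((j : S →+* L).comp (φ : T →+* S))) (j : S →+* L) h)) =
          (Outside (fieldOf ((j : S →+* L).comp (φ : T →+* S)))
            (coordRing (fieldOf ((j : S →+* L).comp (φ : T →+* S))) (j : S →+* L) h)).ncard ∧
        ∀ b : T, b ≠ 0 → b₀ ∣ b → ∀ (A : Outside (fieldOf ((j : S →+* L).comp (φ : T →+* S)))
          (coordRing (fieldOf ((j : S →+* L).comp (φ : T →+* S))) (j : S →+* L) g) → Type)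
          [∀ V, CommRing (A V)] (ψ : ∀ V, T →+* A V),
          (∀ V, Model ((j : S →+* L).comp (φ : T →+* S)) V.1 (ψ V)) →
          ∃ D₀ : R, D₀ ≠ 0 ∧ ∀ D : R, D ≠ 0 → D₀ ∣ D → Quad.TauMean (fun p =>
            avg b (n + d) p (trace (φ : T →+* S) g A ψ p) -
              (countD R (Localization.Away h) D d (n + 1) p - k D p))
            (1 - Module.finrank ℤ H -
              Module.finrank ℤ (UM (fieldOf (algebraMap R L)).toSubring (gring j h))) := by
    intro h hh hgh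
    obtain ⟨bh, hbh, hd1, hinv, hprime⟩ := exists_b hS hiL φ j hφ hj hb₀ hg hh hgh (hO b₀ hb₀ dvd_rfl)
    have hφb : φ bh ≠ 0 := (map_ne_zero_iff φ hφ).2 hbh
    have hh₂ : h * φ bh ≠ 0 := mul_ne_zero hh hφb
    have hjb : j (φ bh) ≠ 0 := (map_ne_zero_iff j hj).2 hφb
    have e1 : gring j (h * φ bh) = gring j h := gring_mul hiL j hj hh hφb hinv
    have e2 := coord_mul φ j hjb h
    have hgh₂ : g * φ bh ∣ h * φ bh := mul_dvd_mul_right ((dvd_mul_right _ _).trans hgh) _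
    obtain ⟨e, he⟩ := hk bh hbh (d1.trans hd1)
    have hV : Vert (fieldOf ((j : S →+* L).comp (φ : T →+* S))) (gring (j.comp φ) bh)
        (gring j (h * φ bh)) := by
      refine vert_up (hO bh hbh hd1) (away_gring hiL j hj hgh₂ hh₂) fun π hπ h1 => ?_
      rw [e1] at h1
      exact hprime π hπ h1
    obtain ⟨hfin, -, H, hH, hiso, hrk, hmean⟩ := one_side hR hT hS hiT hiL φ j hφ hj hF hbh hg hh₂
      he.geo he.count (hI bh hbh hd1 he.geo.ufd) hAg
      (hAff _ hh₂ (hδg.trans ((dvd_mul_right _ _).trans hgh₂))) hgh₂ hV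
    obtain ⟨r, hr, hrD⟩ := countD_mul hiL j hj hh hφb hinv
    rw [e1] at hiso hmean
    rw [e2] at hrk
    refine ⟨hfin, H, hH, hiso, hrk, fun b hb hd2 A _ ψ hA => ?_⟩
    obtain ⟨D₁, hD₁, hm1⟩ := hmean A ψ hA
    refine ⟨D₁ * r, mul_ne_zero hD₁ hr, fun D hD hDD => ?_⟩
    have m1 := hm1 D hD ((dvd_mul_right _ _).trans hDD)
    have hDb : algebraMap R T D * bh ≠ 0 := mul_ne_zero ((map_ne_zero_iff _ hiT).2 hD) hbh
    have hOf := hfin.to_subtype
    have hdat := fun V => model_data hTi hnd hθ hF.tr (hA V)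
    have hAd : ∀ V, IsDomain (A V) := fun V => (hdat V).1
    have m2 := vert_trace hTi hnd hb hDb (φ : T →+* S) g (hU b hb hd2) A
      (fun V => (hdat V).2.2.2.1) (fun V => (hdat V).2.2.2.2) ψ (fun V => (hdat V).2.2.1)
    have m3 := vert_trace hTi hnd hDb hb (φ : T →+* S) g
      (hU _ hDb (hd1.trans (dvd_mul_left _ _))) A
      (fun V => (hdat V).2.2.2.1) (fun V => (hdat V).2.2.2.2) ψ (fun V => (hdat V).2.2.1)
    have m4 := (m2.sub m3).add m1
    rw [sub_zero, zero_add] at m4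
    refine m4.congr' 0 fun p _ hp => ?_
    rw [mul_comm b (algebraMap R T D * bh), hrD D ((dvd_mul_left _ _).trans hDD) d (n + 1) hp]
    ring
  exact ⟨hAg.ded, (key _ (mul_ne_zero hg ((map_ne_zero_iff φ hφ).2 hb₀)) dvd_rfl).1, b₀, hb₀,
    fun h hh hgh => (key h hh hgh).2⟩

end Pool.Agent.Lib.MP_1a0ddd_nt.Tf
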