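import Pool.Agent.Lib.MP_1a0ddd_nt.Tf.Ufd
import Pool.Agent.Lib.MP_1a0ddd_nt.Tf.Mdl

/-! The fibres over all prime ideals: plane curves. -/

set_option autoImplicit false

namespace Pool.Agent.Lib.MP_1a0ddd_nt.Tf

open Polynomial Pool.Agent.Lib.MP_1a0ddd_nt.Cn Pool.Agent.Lib.MP_1a0ddd_nt.Fb Un
  Pool.Agent.Lib.MP_1a0ddd_nt.Nc

private theorem prmA_bc_mk {T P : Type} [CommRing T] [CommRing P] (ρ : T →+* P) (f : T[X][X])
    (p : T[X][X]) : bc ρ f (AdjoinRoot.mk f p) =
      AdjoinRoot.mk (f.map (mapRingHom ρ)) (p.map (mapRingHom ρ)) := by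
  unfold bc AdjoinRoot.map
  rw [AdjoinRoot.lift_mk, ← eval₂_map, ← AdjoinRoot.aeval_eq]
  rfl

private theorem prmA_bc_of {T P : Type} [CommRing T] [CommRing P] (ρ : T →+* P) (f : T[X][X])
    (p : T[X]) : bc ρ f (AdjoinRoot.of f p) =
      AdjoinRoot.of (f.map (mapRingHom ρ)) (mapRingHom ρ p) := by
  unfold bc
  rw [AdjoinRoot.map_of]

private theorem prmA_mh_bc {T P : Type} [CommRing T] [CommRing P] (ρ : T →+* P) {f : T[X][X]}
    (hm : f.Monic) (u : AdjoinRoot f) :
    AdjoinRoot.modByMonicHom (hm.map (mapRingHom ρ)) (bc ρ f u) =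
      (AdjoinRoot.modByMonicHom hm u).map (mapRingHom ρ) := by
  induction u using AdjoinRoot.induction_on with
  | ih p => rw [prmA_bc_mk, AdjoinRoot.modByMonicHom_mk, AdjoinRoot.modByMonicHom_mk,
      Polynomial.map_modByMonic _ hm]

private theorem prmA_crit {T P : Type} [CommRing T] [CommRing P] (ρ : T →+* P) {f : T[X][X]}
    (hm : f.Monic) (u : AdjoinRoot f) : bc ρ f u = 0 ↔
      ∀ i j, ρ (((AdjoinRoot.modByMonicHom hm u).coeff i).coeff j) = 0 := by
  constructor
  · intro h i j
    have h1 := prmA_mh_bc ρ hm u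
    rw [h, map_zero] at h1
    have h2 := congrArg (fun p => (p.coeff i).coeff j) h1
    simpa using h2.symm
  · intro h
    have h1 : AdjoinRoot.modByMonicHom (hm.map (mapRingHom ρ)) (bc ρ f u) = 0 := by
      rw [prmA_mh_bc]
      ext i j
      simpa using h i j
    rw [← AdjoinRoot.mk_leftInverse (hm.map (mapRingHom ρ)) (bc ρ f u), h1, map_zero]

/-- Proof: as `irr_away` (`Nc/Irr.lean`). For a prime ideal `q` of `P` let `E = Frac (P/q)`,
`χ : P → E`; `f^χ` is irreducible, and the kernel of `bc χ fP` consists of the elements whose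
reduced representative has coefficients in `q`, so it is `q.map`; it does not contain
`G = bc ρ f g` because `χ (ρ β) ≠ 0` (`hβ` for `P → E` and `π = 0`). `dvd`: if `ι s ∣ ι t` then
`t G^n = s w` in `AdjoinRoot fP`, so `s` divides `t` times all coefficients of the reduced
representative of `G^n`; these generate the unit ideal, because by the first part no prime (maximal)
ideal `q` contains all of them -/
theorem prime_away {T P : Type} [CommRing T] [CommRing P] [IsDomain P] (ρ : T →+* P)
    {f : T[X][X]} (hm : f.Monic) (hd : 0 < f.natDegree) {h : T}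
    (hh : ∀ (E : Type) [Field E] (χ : T →+* E), χ h ≠ 0 →
      Irreducible (f.map (mapRingHom χ))) (hρ : IsUnit (ρ h)) {g : AdjoinRoot f} {β : T}
    (hβ : ∀ (E : Type) [Field E] (χ : P →+* E), bc (χ.comp ρ) f g = 0 → χ (ρ β) = 0)
    (hβ' : IsUnit (ρ β)) : PrimeMap ((algebraMap (AdjoinRoot (f.map (mapRingHom ρ)))
      (Localization.Away (bc ρ f g))).comp ((AdjoinRoot.of _).comp C)) := by
  set fP : P[X][X] := f.map (mapRingHom ρ) with hfP
  have hmP : fP.Monic := hm.map _
  have hnd : ∀ (E : Type) [Field E] (χ : P →+* E),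
      (fP.map (mapRingHom χ)) = f.map (mapRingHom (χ.comp ρ)) := by
    intro E _ χ
    rw [hfP, Polynomial.map_map, mapRingHom_comp]
  -- the fibres are domains
  have hdom : ∀ (E : Type) [Field E] (χ : P →+* E),
      IsDomain (AdjoinRoot (fP.map (mapRingHom χ))) := by
    intro E _ χ
    have h1 : (χ.comp ρ) h ≠ 0 := by
      rw [RingHom.comp_apply]
      exact (hρ.map χ).ne_zero
    have h2 := hh E (χ.comp ρ) h1
    rw [← hnd] at h2
    exact AdjoinRoot.isDomain_of_prime h2.prime
  have hdegE : ∀ (E : Type) [Field E] (χ : P →+* E), (fP.map (mapRingHom χ)).degree ≠ 0 := by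
    intro E _ χ h0
    have h1 : (fP.map (mapRingHom χ)).natDegree = 0 := natDegree_eq_of_degree_eq_some h0
    rw [hnd, hm.natDegree_map] at h1
    omega
  -- the total space is a domain
  have hA : IsDomain (AdjoinRoot fP) := by
    have := hdom (FractionRing P) (algebraMap P (FractionRing P))
    exact (bc_injective (IsFractionRing.injective P (FractionRing P)) hmP).isDomain
      (bc (algebraMap P (FractionRing P)) fP)
  set G : AdjoinRoot fP := bc ρ f g with hG
  -- no fibre contains `G`
  have hGE : ∀ (E : Type) [Field E] (χ : P →+* E), bc χ fP G ≠ 0 := by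
    intro E _ χ h0
    refine (hβ'.map χ).ne_zero (hβ E χ ?_)
    rw [prmA_crit (χ.comp ρ) hm]
    intro i j
    have h1 := (prmA_crit χ hmP G).1 h0 i j
    rw [hG, prmA_mh_bc ρ hm g] at h1
    simpa using h1
  have hG0 : G ≠ 0 := by
    intro h0
    exact hGE (FractionRing P) (algebraMap P (FractionRing P)) (by rw [h0, map_zero])
  have hle : Submonoid.powers G ≤ nonZeroDivisors (AdjoinRoot fP) :=
    powers_le_nonZeroDivisors_of_noZeroDivisors hG0
  have hinj : Function.Injective (algebraMap (AdjoinRoot fP) (Localization.Away G)) :=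
    IsLocalization.injective _ hle
  have hofP : Function.Injective (AdjoinRoot.of fP) := by
    refine AdjoinRoot.of.injective_of_degree_ne_zero fun h0 => ?_
    have h1 : fP.natDegree = 0 := natDegree_eq_of_degree_eq_some h0
    rw [hfP, hm.natDegree_map] at h1
    omega
  -- the kernel of the reduction modulo a prime ideal
  have key : ∀ q : Ideal P, q.IsPrime →
      (Ideal.map ((AdjoinRoot.of fP).comp C) q).IsPrime ∧
        G ∉ Ideal.map ((AdjoinRoot.of fP).comp C) q ∧
        Ideal.comap ((AdjoinRoot.of fP).comp C) (Ideal.map ((AdjoinRoot.of fP).comp C) q) = q ∧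
        ∀ u : AdjoinRoot fP, (∀ i j, ((AdjoinRoot.modByMonicHom hmP u).coeff i).coeff j ∈ q) →
          u ∈ Ideal.map ((AdjoinRoot.of fP).comp C) q := by
    intro q hq
    let E : Type := FractionRing (P ⧸ q)
    let χ : P →+* E := (algebraMap (P ⧸ q) E).comp (Ideal.Quotient.mk _)
    have hχ : ∀ t, χ t = 0 ↔ t ∈ q := by
      intro t
      constructor
      · intro ht
        have h1 : algebraMap (P ⧸ q) E (Ideal.Quotient.mk _ t) = 0 := ht
        have h2 := (injective_iff_map_eq_zero _).1
          (IsFractionRing.injective (P ⧸ q) E) _ h1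
        rwa [Ideal.Quotient.eq_zero_iff_mem] at h2
      · intro ht
        have h1 : (Ideal.Quotient.mk q) t = 0 := Ideal.Quotient.eq_zero_iff_mem.2 ht
        change algebraMap (P ⧸ q) E (Ideal.Quotient.mk q t) = 0
        rw [h1, map_zero]
    have hdE := hdom E χ
    have hmem : ∀ u : AdjoinRoot fP,
        (∀ i j, ((AdjoinRoot.modByMonicHom hmP u).coeff i).coeff j ∈ q) →
          u ∈ Ideal.map ((AdjoinRoot.of fP).comp C) q := by
      intro u hu
      have h1 : AdjoinRoot.modByMonicHom hmP u ∈ Ideal.map C (Ideal.map C q) := by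
        rw [Ideal.mem_map_C_iff]
        intro i
        rw [Ideal.mem_map_C_iff]
        exact hu i
      have h2 := Ideal.mem_map_of_mem (AdjoinRoot.mk fP) h1
      rw [AdjoinRoot.mk_leftInverse hmP u, Ideal.map_map, Ideal.map_map] at h2
      exact h2
    have hker : Ideal.map ((AdjoinRoot.of fP).comp C) q = RingHom.ker (bc χ fP) := by
      refine le_antisymm ?_ ?_
      · rw [Ideal.map_le_iff_le_comap]
        intro a ha
        rw [Ideal.mem_comap, RingHom.mem_ker, RingHom.comp_apply, prmA_bc_of]
        have h1 : mapRingHom χ (C a) = 0 := by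
          rw [coe_mapRingHom, map_C, (hχ a).2 ha, C_0]
        rw [h1, map_zero]
      · intro u hu
        rw [RingHom.mem_ker, prmA_crit χ hmP] at hu
        exact hmem u fun i j => (hχ _).1 (hu i j)
    refine ⟨?_, ?_, ?_, hmem⟩
    · rw [hker]
      exact RingHom.ker_isPrime _
    · rw [hker, RingHom.mem_ker]
      exact hGE E χ
    · refine le_antisymm ?_ Ideal.le_comap_map
      intro a ha
      rw [hker, Ideal.mem_comap, RingHom.mem_ker, RingHom.comp_apply, prmA_bc_of] at ha
      have h3 : mapRingHom χ (C a) = 0 := by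
        have h4 := AdjoinRoot.of.injective_of_degree_ne_zero (hdegE E χ)
        exact h4 (by rw [ha, map_zero])
      rw [coe_mapRingHom, map_C, C_eq_zero] at h3
      exact (hχ a).1 h3
  have hdisj : ∀ q : Ideal P, q.IsPrime → Disjoint (Submonoid.powers G : Set (AdjoinRoot fP))
      (Ideal.map ((AdjoinRoot.of fP).comp C) q : Set (AdjoinRoot fP)) := by
    intro q hq
    obtain ⟨h1, h2, -, -⟩ := key q hq
    rw [Set.disjoint_left]
    rintro x ⟨n, rfl⟩ hx
    exact h2 (h1.mem_of_pow_mem n hx)
  -- divisibility in the localisation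
  have hloc : ∀ u v : AdjoinRoot fP,
      algebraMap (AdjoinRoot fP) (Localization.Away G) u ∣ algebraMap _ _ v →
        ∃ n : ℕ, u ∣ G ^ n * v := by
    rintro u v ⟨w, hw⟩
    obtain ⟨⟨a, s⟩, has⟩ := IsLocalization.surj (Submonoid.powers G) w
    obtain ⟨n, hn⟩ := s.2
    refine ⟨n, a, hinj ?_⟩
    rw [map_mul, map_mul, ← has, hw]
    simp only [hn]
    ring
  refine ⟨?_, ?_, ?_, ?_⟩
  · rw [RingHom.coe_comp, RingHom.coe_comp]
    exact hinj.comp (hofP.comp C_injective)
  · intro q hq
    rw [← Ideal.map_map]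
    exact IsLocalization.isPrime_of_isPrime_disjoint (Submonoid.powers G) _ _ (key q hq).1
      (hdisj q hq)
  · intro q hq
    have h1 : Ideal.comap (algebraMap (AdjoinRoot fP) (Localization.Away G))
        (Ideal.map (algebraMap (AdjoinRoot fP) (Localization.Away G))
          (Ideal.map ((AdjoinRoot.of fP).comp C) q)) =
        Ideal.map ((AdjoinRoot.of fP).comp C) q :=
      IsLocalization.under_map_of_isPrime_disjoint (Submonoid.powers G) _ (key q hq).1
        (hdisj q hq)
    rw [← Ideal.map_map, ← Ideal.comap_comap]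
    exact (congrArg (Ideal.comap ((AdjoinRoot.of fP).comp C)) h1).trans (key q hq).2.2.1
  · intro s t hst
    have hst' : algebraMap (AdjoinRoot fP) (Localization.Away G) (AdjoinRoot.of fP (C s)) ∣
        algebraMap (AdjoinRoot fP) (Localization.Away G) (AdjoinRoot.of fP (C t)) := hst
    obtain ⟨n, v, hv⟩ := hloc _ _ hst'
    let K : Ideal P := Submodule.comap (LinearMap.mulLeft P t) (Ideal.span {s})
    have hK : ∀ x, x ∈ K ↔ s ∣ t * x := by
      intro x
      change t * x ∈ Ideal.span {s} ↔ _
      rw [Ideal.mem_span_singleton]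
    have hc : ∀ i j, ((AdjoinRoot.modByMonicHom hmP (G ^ n)).coeff i).coeff j ∈ K := by
      intro i j
      rw [hK]
      have h1 : G ^ n * AdjoinRoot.of fP (C t) = C t • G ^ n := by
        rw [Algebra.smul_def, AdjoinRoot.algebraMap_eq, mul_comm]
      have h2 : AdjoinRoot.of fP (C s) * v = C s • v := by
        rw [Algebra.smul_def, AdjoinRoot.algebraMap_eq]
      rw [h1, h2] at hv
      have h3 := congrArg (fun u => ((AdjoinRoot.modByMonicHom hmP u).coeff i).coeff j) hv
      simp only [map_smul, coeff_smul, smul_eq_mul, coeff_C_mul] at h3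
      exact ⟨_, h3⟩
    have hKt : K = ⊤ := by
      by_contra hne
      obtain ⟨q, hq, hKq⟩ := Ideal.exists_le_maximal K hne
      obtain ⟨h1, h2, -, h4⟩ := key q hq.isPrime
      exact h2 (h1.mem_of_pow_mem n (h4 _ fun i j => hKq (hc i j)))
    have h1 : (1 : P) ∈ K := by rw [hKt]; trivial
    rw [hK, mul_one] at h1
    exact h1

end Pool.Agent.Lib.MP_1a0ddd_nt.Tf
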