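import Pool.Agent.Lib.MP_1a0ddd_nt.Tf.ADefs

/-! Transport of the divisor class group along an isomorphism of fields. -/

set_option autoImplicit false

namespace Pool.Agent.Lib.MP_1a0ddd_nt.Tf

open Pool.Agent.Lib.MP_1a0ddd_nt.Nc Pool.Agent.Lib.MP_1a0ddd_nt.Cf

private theorem ta_loc {L L' : Type} [Field L] [Field L'] (σ : L ≃+* L') {B : Subring L}
    {B' : Subring L'} (h : ∀ x : L, x ∈ B ↔ σ x ∈ B') {V : ValuationSubring L}
    (hV : V ≠ ⊤ ∧ (B : Set L) ⊆ V ∧
      ∀ v ∈ V, ∃ a ∈ B, ∃ b ∈ B, b ∉ V.nonunits ∧ v * b = a) :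
    V.comap (σ.symm : L' →+* L) ≠ ⊤ ∧ (B' : Set L') ⊆ V.comap (σ.symm : L' →+* L) ∧
      ∀ v ∈ V.comap (σ.symm : L' →+* L), ∃ a ∈ B', ∃ b ∈ B',
        b ∉ (V.comap (σ.symm : L' →+* L)).nonunits ∧ v * b = a := by
  obtain ⟨h1, h2, h3⟩ := hV
  refine ⟨?_, ?_, ?_⟩
  · intro hc
    apply h1
    rw [eq_top_iff]
    intro x _
    have hx : σ x ∈ V.comap (σ.symm : L' →+* L) := by
      rw [hc]
      exact ValuationSubring.mem_top _
    have hx2 : σ.symm (σ x) ∈ V := hx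
    rwa [RingEquiv.symm_apply_apply] at hx2
  · intro y hy
    have hy1 : σ.symm y ∈ B := by
      rw [h, RingEquiv.apply_symm_apply]
      exact hy
    exact h2 hy1
  · intro v hv
    obtain ⟨a, ha, b, hb, hbn, hab⟩ := h3 (σ.symm v) hv
    refine ⟨σ a, (h a).mp ha, σ b, (h b).mp hb, ?_, ?_⟩
    · intro hc
      apply hbn
      rw [ValuationSubring.mem_nonunits_iff_or] at hc ⊢
      rcases hc with hc | hc
      · left
        exact (map_eq_zero_iff σ σ.injective).mp hc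
      · right
        intro hb2
        apply hc
        have : σ.symm (σ b)⁻¹ ∈ V := by
          rw [map_inv₀, RingEquiv.symm_apply_apply]
          exact hb2
        exact this
    · rw [← hab, map_mul, RingEquiv.apply_symm_apply]

private theorem ta_hs {L L' : Type} [Field L] [Field L'] (σ : L ≃+* L') {B : Subring L}
    {B' : Subring L'} (h : ∀ x : L, x ∈ B ↔ σ x ∈ B') (y : L') : y ∈ B' ↔ σ.symm y ∈ B := by
  rw [h, RingEquiv.apply_symm_apply]

private def ta_equiv {L L' : Type} [Field L] [Field L'] (σ : L ≃+* L') {B : Subring L}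
    {B' : Subring L'} (h : ∀ x : L, x ∈ B ↔ σ x ∈ B') : Loc1 B ≃ Loc1 B' where
  toFun V := ⟨V.1.comap (σ.symm : L' →+* L), ta_loc σ h V.2⟩
  invFun W := ⟨W.1.comap (σ.symm.symm : L →+* L'), ta_loc σ.symm (ta_hs σ h) W.2⟩
  left_inv V := by
    apply Subtype.ext
    ext x
    change σ.symm (σ.symm.symm x) ∈ V.1 ↔ x ∈ V.1
    rw [RingEquiv.symm_symm, RingEquiv.symm_apply_apply]
  right_inv W := by
    apply Subtype.ext
    ext y
    change σ.symm.symm (σ.symm y) ∈ W.1 ↔ y ∈ W.1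
    rw [RingEquiv.symm_symm, RingEquiv.apply_symm_apply]

private theorem ta_ord {L L' : Type} [Field L] [Field L'] (σ : L ≃+* L')
    {V : ValuationSubring L} {ν : L → ℤ} (hν : IsOrd V ν) :
    IsOrd (V.comap (σ.symm : L' →+* L)) (fun y => ν (σ.symm y)) where
  mul x y hx hy := by
    rw [map_mul]
    exact hν.mul _ _ ((map_ne_zero_iff σ.symm σ.symm.injective).mpr hx)
      ((map_ne_zero_iff σ.symm σ.symm.injective).mpr hy)
  one := by
    obtain ⟨π, h1, h2⟩ := hν.one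
    refine ⟨σ π, (map_ne_zero_iff σ σ.injective).mpr h1, ?_⟩
    change ν (σ.symm (σ π)) = 1
    rw [RingEquiv.symm_apply_apply]
    exact h2
  mem x hx := hν.mem (σ.symm x) ((map_ne_zero_iff σ.symm σ.symm.injective).mpr hx)

private theorem ta_ord' {L L' : Type} [Field L] [Field L'] (σ : L ≃+* L')
    {V : ValuationSubring L} {ν : L' → ℤ} (hν : IsOrd (V.comap (σ.symm : L' →+* L)) ν) :
    IsOrd V (fun x => ν (σ x)) where
  mul x y hx hy := by
    rw [map_mul]
    exact hν.mul _ _ ((map_ne_zero_iff σ σ.injective).mpr hx)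
      ((map_ne_zero_iff σ σ.injective).mpr hy)
  one := by
    obtain ⟨π, h1, h2⟩ := hν.one
    refine ⟨σ.symm π, (map_ne_zero_iff σ.symm σ.symm.injective).mpr h1, ?_⟩
    change ν (σ (σ.symm π)) = 1
    rw [RingEquiv.apply_symm_apply]
    exact h2
  mem x hx := by
    have h1 := hν.mem (σ x) ((map_ne_zero_iff σ σ.injective).mpr hx)
    have h2 : σ x ∈ V.comap (σ.symm : L' →+* L) ↔ σ.symm (σ x) ∈ V := Iff.rfl
    rw [h2, RingEquiv.symm_apply_apply] at h1
    exact h1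

/-- Proof: `V ↦ V.comap σ.symm` is a bijection from `Loc1 B` to `Loc1 B'`, and
`IsOrd V ν ↔ IsOrd (V.comap σ.symm) (ν ∘ σ.symm)`; `Finsupp.domCongr`, `QuotientAddGroup.congr` -/
theorem divCl_map {L L' : Type} [Field L] [Field L'] (σ : L ≃+* L') {B : Subring L}
    {B' : Subring L'} (h : ∀ x : L, x ∈ B ↔ σ x ∈ B') : Nonempty (DivCl B ≃+ DivCl B') := by
  refine ⟨QuotientAddGroup.congr _ _ (Finsupp.domCongr (ta_equiv σ h)) ?_⟩
  rw [AddMonoidHom.map_closure]
  congr 1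
  ext D
  simp only [Set.mem_image, Set.mem_setOf_eq]
  constructor
  · rintro ⟨E, ⟨f, hf, hE⟩, rfl⟩
    refine ⟨σ f, (map_ne_zero_iff σ σ.injective).mpr hf, ?_⟩
    intro W ν hν
    obtain ⟨V, rfl⟩ := (ta_equiv σ h).surjective W
    have h1 : IsOrd V.1 (fun x => ν (σ x)) := ta_ord' σ hν
    have h2 := hE V _ h1
    rw [← h2]
    change E ((ta_equiv σ h).symm (ta_equiv σ h V)) = E V
    rw [Equiv.symm_apply_apply]
  · rintro ⟨f, hf, hD⟩
    refine ⟨(Finsupp.domCongr (ta_equiv σ h)).symm D, ⟨σ.symm f,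
      (map_ne_zero_iff σ.symm σ.symm.injective).mpr hf, ?_⟩, ?_⟩
    · intro V ν hν
      have h1 : IsOrd (ta_equiv σ h V).1 (fun y => ν (σ.symm y)) := ta_ord σ hν
      have h2 := hD (ta_equiv σ h V) _ h1
      rw [← h2]
      rfl
    · exact (Finsupp.domCongr (ta_equiv σ h)).apply_symm_apply D

end Pool.Agent.Lib.MP_1a0ddd_nt.Tf
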