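import Pool.Agent.Lib.MP_1a0ddd_nt.Fb.RkU

/-! Descent of factoriality. -/

set_option autoImplicit false

namespace Pool.Agent.Lib.MP_1a0ddd_nt.Tf

open Pool.Agent.Lib.MP_1a0ddd_nt.Fb

/-- all fibres of `Spec Q → Spec P` are irreducible and reduced -/
structure PrimeMap {P Q : Type} [CommRing P] [CommRing Q] (ι : P →+* Q) : Prop where
  inj : Function.Injective ι
  prime : ∀ q : Ideal P, q.IsPrime → (q.map ι).IsPrime
  comap : ∀ q : Ideal P, q.IsPrime → (q.map ι).comap ι = q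
  dvd : ∀ s t : P, ι s ∣ ι t → s ∣ t

/-- Some prime factor of a nonzero element of a prime ideal lies in the ideal. -/
private theorem ufd_prime_factor_mem {Q : Type} [CommRing Q] [IsDomain Q]
    [UniqueFactorizationMonoid Q] (I : Ideal Q) (hI : I.IsPrime) (y : Q) (hy : y ≠ 0)
    (hyI : y ∈ I) : ∃ π : Q, Prime π ∧ π ∣ y ∧ π ∈ I := by
  obtain ⟨f, hf, u, hu⟩ := UniqueFactorizationMonoid.exists_prime_factors y hy
  have hprod : f.prod ∈ I := by
    have h1 : y * ((u⁻¹ : Qˣ) : Q) = f.prod := by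
      rw [← hu, mul_assoc, Units.mul_inv, mul_one]
    rw [← h1]
    exact I.mul_mem_right _ hyI
  obtain ⟨π, hπf, hπI⟩ := (hI.multiset_prod_mem_iff_exists_mem f).1 hprod
  refine ⟨π, hf π hπf, ?_, hπI⟩
  exact (Multiset.dvd_prod hπf).trans ⟨(u : Q), hu.symm⟩

/-- Proof (criterion of Kaplansky, `UniqueFactorizationMonoid.iff_exists_prime_mem_of_isPrime`). Let
`q ≠ 0` be a prime ideal of `P`, `x ∈ q`, `x ≠ 0`. Some prime factor `π` of `ι x` is in the prime
ideal `q Q`. By `hu` (`x ≠ 0`, `π ∣ ι x`) `π ι s = u ι t`, so `s ∣ t`, `t = s c`, `π = u ι c`. So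
`ι c` is prime, hence `c` is prime (`dvd`), and `ι c ∈ q Q`, so `c ∈ q` (`comap`). -/
theorem ufd_desc {P Q : Type} [CommRing P] [IsDomain P] [CommRing Q] [IsDomain Q]
    [UniqueFactorizationMonoid Q] {ι : P →+* Q} (h : PrimeMap ι)
    (hu : ∀ (x : P) (π : Q), x ≠ 0 → Prime π → π ∣ ι x →
      ∃ (s t : P) (u : Qˣ), s ≠ 0 ∧ t ≠ 0 ∧ π * ι s = u * ι t) :
    UniqueFactorizationMonoid P := by
  rw [UniqueFactorizationMonoid.iff_exists_prime_mem_of_isPrime]
  intro q hq hqp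
  obtain ⟨x, hxq, hx0⟩ := Submodule.exists_mem_ne_zero_of_ne_bot hq
  have hιx : ι x ≠ 0 := by
    intro h0
    exact hx0 (h.inj (by rw [h0, map_zero]))
  obtain ⟨π, hπ, hπd, hπI⟩ := ufd_prime_factor_mem (q.map ι) (h.prime q hqp) (ι x) hιx
    (Ideal.mem_map_of_mem ι hxq)
  obtain ⟨s, t, u, hs0, _, hst⟩ := hu x π hx0 hπ hπd
  have hιs : ι s ≠ 0 := by
    intro h0
    exact hs0 (h.inj (by rw [h0, map_zero]))
  have hdvd : ι s ∣ ι t := by
    refine ⟨((u⁻¹ : Qˣ) : Q) * π, ?_⟩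
    have h2 : ι t = ((u⁻¹ : Qˣ) : Q) * (u * ι t) := by
      rw [← mul_assoc, Units.inv_mul, one_mul]
    rw [h2, ← hst]
    ring
  obtain ⟨c, hc⟩ := h.dvd s t hdvd
  have hπc : π = u * ι c := by
    have h3 : ι s * π = ι s * (u * ι c) := by
      rw [mul_comm (ι s) π, hst, hc, map_mul]
      ring
    exact mul_left_cancel₀ hιs h3
  have hassoc : Associated π (ι c) := by
    refine ⟨u⁻¹, ?_⟩
    rw [hπc, mul_comm (u : Q) (ι c), mul_assoc, Units.mul_inv, mul_one]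
  have hιc : Prime (ι c) := hassoc.prime hπ
  refine ⟨c, ?_, ?_, ?_, ?_⟩
  · have hmem : ι c ∈ q.map ι := by
      obtain ⟨v, hv⟩ := hassoc
      rw [← hv]
      exact (q.map ι).mul_mem_right _ hπI
    have : c ∈ (q.map ι).comap ι := hmem
    rwa [h.comap q hqp] at this
  · intro h0
    exact hιc.ne_zero (by rw [h0, map_zero])
  · intro hunit
    exact hιc.not_isUnit (hunit.map ι)
  · intro a b hab
    have h4 : ι c ∣ ι a * ι b := by
      rw [← map_mul]
      exact map_dvd ι hab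
    rcases hιc.dvd_or_dvd h4 with h5 | h5
    · exact Or.inl (h.dvd c a h5)
    · exact Or.inr (h.dvd c b h5)

end Pool.Agent.Lib.MP_1a0ddd_nt.Tf
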