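import Pool.Agent.Lib.MP_1a0ddd_nt.Nc.Shr
import Pool.Agent.Lib.MP_1a0ddd_nt.LW.CStep

/-! Uniform point count for the members of a family of curves. -/

set_option autoImplicit false

namespace Pool.Agent.Lib.MP_1a0ddd_nt.Tf

open Polynomial Filter Topology Quad LW

private theorem cu_ev {R k : Type} [CommRing R] [CommRing k] (z : R →+* k) (x y : k)
    (h : R[X][X]) :
    (h.map (mapRingHom z)).evalEval x y = eval₂RingHom (eval₂RingHom z x) y h := by
  have e : (((evalRingHom x).comp (evalRingHom (C y))).comp (mapRingHom (mapRingHom z))) =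
      eval₂RingHom (eval₂RingHom z x) y := by
    refine Polynomial.ringHom_ext' ?_ ?_
    · refine Polynomial.ringHom_ext' ?_ ?_
      · ext a
        simp
      · simp
    · simp
  rw [← e]
  rfl

private theorem cu_hom {R k : Type} [CommRing R] [CommRing k] (f : R[X][X])
    (φ : AdjoinRoot f →+* k) (h : R[X][X]) :
    (h.map (mapRingHom ((φ.comp (AdjoinRoot.of f)).comp C))).evalEval (φ (AdjoinRoot.of f X))
      (φ (AdjoinRoot.root f)) = φ (AdjoinRoot.mk f h) := by
  rw [cu_ev]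
  have e : eval₂RingHom (eval₂RingHom ((φ.comp (AdjoinRoot.of f)).comp C)
      (φ (AdjoinRoot.of f X))) (φ (AdjoinRoot.root f)) = φ.comp (AdjoinRoot.mk f) := by
    refine Polynomial.ringHom_ext' ?_ ?_
    · refine Polynomial.ringHom_ext' ?_ ?_
      · ext a
        simp
      · simp
    · simp
  rw [e]
  rfl

/-- the points over `z` -/
private noncomputable def cu_equiv {R : Type} [CommRing R] (p : ℕ) (f g : R[X][X])
    (z : R →+* ZMod p) :
    {ρ : AdjoinRoot f →+* ZMod p //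
      (ρ.comp (AdjoinRoot.of f)).comp C = z ∧ ρ (AdjoinRoot.mk f g) ≠ 0} ≃
      {Q : ZMod p × ZMod p // (f.map (mapRingHom z)).evalEval Q.1 Q.2 = 0 ∧
        (g.map (mapRingHom z)).evalEval Q.1 Q.2 ≠ 0} where
  toFun ρ := ⟨(ρ.1 (AdjoinRoot.of f X), ρ.1 (AdjoinRoot.root f)), by
    have h1 := ρ.2.1
    have h2 := cu_hom f ρ.1 f
    have h3 := cu_hom f ρ.1 g
    rw [h1] at h2 h3
    rw [h2, h3, AdjoinRoot.mk_self, map_zero]
    exact ⟨rfl, ρ.2.2⟩⟩
  invFun y := ⟨AdjoinRoot.lift (eval₂RingHom z y.1.1) y.1.2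
      ((cu_ev z y.1.1 y.1.2 f).symm.trans y.2.1), by
    constructor
    · ext a
      simp
    · rw [AdjoinRoot.lift_mk]
      have h1 := y.2.2
      rw [cu_ev] at h1
      exact h1⟩
  left_inv ρ := by
    apply Subtype.ext
    refine AdjoinRoot.ringHom_ext ?_ ?_
    · refine Polynomial.ringHom_ext' ?_ ?_
      · ext a
        have h1 := DFunLike.congr_fun ρ.2.1 a
        simp only [RingHom.comp_apply] at h1
        simp [h1]
      · simp
    · simp
  right_inv y := by
    apply Subtype.ext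
    refine Prod.ext ?_ ?_
    · simp
    · simp

/-- at most `deg_y f` points over each `x` -/
private theorem cu_fib {p : ℕ} [Fact p.Prime] (f : (ZMod p)[X][X]) (hm : f.Monic)
    (A : Finset (ZMod p × ZMod p)) (hA : ∀ Q ∈ A, f.evalEval Q.1 Q.2 = 0) :
    A.card ≤ f.natDegree * (A.image Prod.fst).card := by
  classical
  refine Finset.card_le_mul_card_image _ _ fun x _ => ?_
  have h1 : f.map (evalRingHom x) ≠ 0 := (hm.map _).ne_zero
  have h2 := dbl_roots (f.map (evalRingHom x)) h1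
  have h3 : (f.map (evalRingHom x)).natDegree = f.natDegree := hm.natDegree_map _
  rw [h3] at h2
  refine le_trans ?_ h2
  refine Finset.card_le_card_of_injOn Prod.snd ?_ ?_
  · intro Q hQ
    have hQ' := Finset.mem_filter.1 hQ
    have hQ2 := hA Q hQ'.1
    simp only [Finset.coe_filter, Finset.mem_univ, true_and, Set.mem_ofPred_eq]
    rw [← hQ'.2, map_evalRingHom_eval, hQ2]
  · intro Q hQ Q' hQ' e
    have h7 := (Finset.mem_filter.1 hQ).2
    have h8 := (Finset.mem_filter.1 hQ').2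
    exact Prod.ext (h7.trans h8.symm) e

/-- Proof: the proof of `LW.langWeilT_curve` (in `LW/CStep.lean`): `e = h · (leading coefficient of
the norm of D)`, `h` from `LW.bertini_noether`, and `LW.curve_count` -/
theorem curve_unif {T : Type} [CommRing T] [IsDomain T] [CharZero T] (f : T[X][X]) (hm : f.Monic)
    (hd : 0 < f.natDegree) (habs : LW.AbsIrr f) {D : AdjoinRoot f} (hD : D ≠ 0) :
    ∃ e : T, e ≠ 0 ∧ ∀ ε : ℝ, 0 < ε → ∃ p₀ : ℕ, ∀ p : ℕ, p₀ ≤ p → p.Prime →
      ∀ z : T →+* ZMod p, z e ≠ 0 →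
        |(p : ℝ) - Nat.card {ρ : AdjoinRoot f →+* ZMod p //
          (ρ.comp (AdjoinRoot.of f)).comp C = z ∧ ρ D ≠ 0}| ≤ ε * p := by
  classical
  obtain ⟨hdom, _⟩ := adjoin_domain f hm habs
  obtain ⟨g, rfl⟩ := AdjoinRoot.mk_surjective D
  -- the norm
  obtain ⟨Nm, hNm0, a, b, hab⟩ : ∃ Nm : T[X], Nm ≠ 0 ∧ ∃ a b : T[X][X],
      C Nm = g * a + f * b := by
    have hfin : Module.Finite T[X] (AdjoinRoot f) := hm.finite_adjoinRoot
    have halg : IsAlgebraic T[X] (AdjoinRoot.mk f g) :=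
      (Algebra.IsIntegral.isIntegral (R := T[X]) (AdjoinRoot.mk f g)).isAlgebraic
    obtain ⟨r, hr0, hr⟩ := halg.exists_nonzero_dvd (mem_nonZeroDivisors_of_ne_zero hD)
    obtain ⟨s, hs⟩ := hr
    obtain ⟨a, rfl⟩ := AdjoinRoot.mk_surjective s
    rw [AdjoinRoot.algebraMap_eq, ← AdjoinRoot.mk_C, ← map_mul, ← sub_eq_zero, ← map_sub,
      AdjoinRoot.mk_eq_zero] at hs
    obtain ⟨b, hb⟩ := hs
    exact ⟨r, hr0, a, b, by rw [← hb]; ring⟩
  obtain ⟨h, hh0, hh⟩ := bertini_noether f hm habs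
  obtain ⟨c, hc⟩ : ∃ c, ∀ i, (f.coeff i).natDegree ≤ c := by
    refine ⟨f.support.sup fun i => (f.coeff i).natDegree, fun i => ?_⟩
    by_cases hi : i ∈ f.support
    · exact Finset.le_sup (f := fun i => (f.coeff i).natDegree) hi
    · rw [notMem_support_iff.1 hi, natDegree_zero]
      exact Nat.zero_le _
  have hle : ∀ (p : ℕ) [Fact p.Prime] (z : T →+* ZMod p),
      (Finset.univ.filter fun Q : ZMod p × ZMod p =>
        (f.map (mapRingHom z)).evalEval Q.1 Q.2 = 0 ∧
        (g.map (mapRingHom z)).evalEval Q.1 Q.2 ≠ 0).card ≤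
        (Finset.univ.filter fun Q : ZMod p × ZMod p =>
          (f.map (mapRingHom z)).evalEval Q.1 Q.2 = 0).card := by
    intro p _ z
    refine Finset.card_le_card fun Q hQ => ?_
    rw [Finset.mem_filter] at hQ ⊢
    exact ⟨hQ.1, hQ.2.1⟩
  have hcount : ∀ ε : ℝ, 0 < ε → ∃ p₀ : ℕ, ∀ p : ℕ, p₀ ≤ p → ∀ [Fact p.Prime],
      ∀ z : T →+* ZMod p, z h ≠ 0 →
      (1 - ε) * p ≤ ((Finset.univ.filter fun Q : ZMod p × ZMod p =>
          (f.map (mapRingHom z)).evalEval Q.1 Q.2 = 0).card : ℝ) ∧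
      ((Finset.univ.filter fun Q : ZMod p × ZMod p =>
          (f.map (mapRingHom z)).evalEval Q.1 Q.2 = 0).card : ℝ) ≤ (1 + ε) * p := by
    intro ε hε
    obtain ⟨p₀, hp₀⟩ := curve_count f.natDegree c hd ε hε
    refine ⟨p₀, fun p hp _ z hz => ?_⟩
    have hpp : p.Prime := Fact.out
    have h1 := hp₀ p hp hpp (f.map (mapRingHom z)) (hm.map _) (hm.natDegree_map _) (fun i => by
      rw [coeff_map, coe_mapRingHom]
      exact natDegree_map_le.trans (hc i)) (fun E _ φ => by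
      rw [Polynomial.map_map, mapRingHom_comp]
      refine hh E (φ.comp z) ?_
      rw [RingHom.comp_apply]
      exact (map_ne_zero_iff _ φ.injective).2 hz)
    rw [dbl_card (fun Q : ZMod p × ZMod p => (f.map (mapRingHom z)).evalEval Q.1 Q.2 = 0)] at h1
    exact h1
  refine ⟨h * Nm.leadingCoeff, mul_ne_zero hh0 (leadingCoeff_ne_zero.2 hNm0), ?_⟩
  intro ε hε
  obtain ⟨p₁, hp₁⟩ := hcount (ε / 2) (half_pos hε)
  obtain ⟨p₂, hp₂⟩ := eventually_atTop.1 (dbl_big (ε / 2) (half_pos hε)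
    (f.natDegree * Nm.natDegree))
  refine ⟨max p₁ p₂, fun p hpm hpp z hz => ?_⟩
  have hp1 : p₁ ≤ p := (le_max_left _ _).trans hpm
  have hp := hp₂ p ((le_max_right _ _).trans hpm)
  have : Fact p.Prime := ⟨hpp⟩
  rw [map_mul, mul_ne_zero_iff] at hz
  have h00 := hp₁ p hp1 z hz.1
  have h0 := h00.1
  rw [Nat.card_congr (cu_equiv p f g z),
    dbl_card (fun Q : ZMod p × ZMod p => (f.map (mapRingHom z)).evalEval Q.1 Q.2 = 0 ∧
      (g.map (mapRingHom z)).evalEval Q.1 Q.2 ≠ 0)]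
  have hle1 := hle p z
  have h2 : Nm.map z ≠ 0 := by
    intro h3
    apply hz.2
    have h4 := congrArg (fun P => P.coeff Nm.natDegree) h3
    simpa using h4
  have h3 := dbl_roots (Nm.map z) h2
  have h4 : (Nm.map z).natDegree ≤ Nm.natDegree := natDegree_map_le
  set A := Finset.univ.filter fun Q : ZMod p × ZMod p =>
    (f.map (mapRingHom z)).evalEval Q.1 Q.2 = 0 with hA
  set B := Finset.univ.filter fun Q : ZMod p × ZMod p =>
    (f.map (mapRingHom z)).evalEval Q.1 Q.2 = 0 ∧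
    (g.map (mapRingHom z)).evalEval Q.1 Q.2 ≠ 0 with hB
  have h5 : (A \ B).card ≤ f.natDegree * Nm.natDegree := by
    have h6 : (A \ B).card ≤ f.natDegree * ((A \ B).image Prod.fst).card := by
      have h7 := cu_fib (f.map (mapRingHom z)) (hm.map _) (A \ B) (fun Q hQ => by
        have hQ2 := (Finset.mem_sdiff.1 hQ).1
        rw [hA, Finset.mem_filter] at hQ2
        exact hQ2.2)
      rwa [hm.natDegree_map] at h7
    have h9 : ((A \ B).image Prod.fst).card ≤ Nm.natDegree := by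
      refine le_trans (Finset.card_le_card ?_) (h3.trans h4)
      intro x hx
      obtain ⟨Q, hQ, rfl⟩ := Finset.mem_image.1 hx
      rw [Finset.mem_sdiff, hA, hB, Finset.mem_filter, Finset.mem_filter] at hQ
      obtain ⟨⟨_, hQ1⟩, hQ2⟩ := hQ
      have hQ3 : (g.map (mapRingHom z)).evalEval Q.1 Q.2 = 0 := by
        by_contra h10
        exact hQ2 ⟨Finset.mem_univ _, hQ1, h10⟩
      rw [Finset.mem_filter]
      refine ⟨Finset.mem_univ _, ?_⟩
      have e1 := cu_ev z Q.1 Q.2 (C Nm)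
      have e2 : (eval₂RingHom (eval₂RingHom z Q.1) Q.2) (C Nm) = (Nm.map z).eval Q.1 := by
        simp [eval_map]
      rw [← e2, hab, map_add, map_mul, map_mul, ← cu_ev z Q.1 Q.2 g, ← cu_ev z Q.1 Q.2 f, hQ1,
        hQ3, zero_mul, zero_mul, add_zero]
    exact h6.trans (Nat.mul_le_mul_left _ h9)
  have h6 : A.card ≤ B.card + f.natDegree * Nm.natDegree := by
    have h7 := Finset.card_le_card_sdiff_add_card (s := A) (t := B)
    omega
  have h7 : (A.card : ℝ) ≤ B.card + (f.natDegree * Nm.natDegree : ℕ) := by exact_mod_cast h6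
  have h8 : (B.card : ℝ) ≤ A.card := by exact_mod_cast hle1
  rw [abs_le]
  have hp0 : (0 : ℝ) < p := by exact_mod_cast hpp.pos
  have h10 := h00.2
  constructor <;> nlinarith

end Pool.Agent.Lib.MP_1a0ddd_nt.Tf
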