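import Pool.Agent.Lib.MP_1a0ddd_nt.Nc.Bas
import Pool.Agent.Lib.MP_1a0ddd_nt.Un.CtZ

/-! The number of points of a divisor. -/

set_option autoImplicit false

namespace Pool.Agent.Lib.MP_1a0ddd_nt.Tf

open Nc

/-- the points of a proper irreducible closed subset, times `p / p^e`, have a mean -/
theorem prime_mean {T : Type} [CommRing T] [IsDomain T] [CharZero T] [Algebra.FiniteType ℤ T]
    {e : ℕ} (he : Algebra.trdeg ℤ T = (e : Cardinal)) (P : Ideal T) (hP : P.IsPrime)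
    (h0 : P ≠ ⊥) :
    ∃ γ : ℝ, Quad.TauMean
      (fun p => (p : ℝ) * (Nat.card (T ⧸ P →+* ZMod p) : ℝ) / (p : ℝ) ^ e) γ := by
  have hD : IsDomain (T ⧸ P) := Ideal.Quotient.isDomain P
  by_cases hc : CharZero (T ⧸ P)
  · obtain ⟨k, hke, hk⟩ := LW.trdeg_quotient_lt T e he P hP h0 hc
    have hft : @Algebra.FiniteType ℤ (T ⧸ P) _ _ (Ring.toIntAlgebra (T ⧸ P)) :=
      (inferInstance : Algebra.FiniteType ℤ T).of_surjective (Ideal.Quotient.mk P).toIntAlgHom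
        Ideal.Quotient.mk_surjective
    have h1 := LW.langWeil (T ⧸ P) k hk 1 one_ne_zero
    have h2 : Quad.TauMean
        (fun p => (Nat.card (T ⧸ P →+* ZMod p) : ℝ) / (p : ℝ) ^ k) 1 := by
      refine h1.congr' 0 fun p _ hpp => ?_
      have : Fact p.Prime := ⟨hpp⟩
      have hall : ∀ z : T ⧸ P →+* ZMod p, z 1 ≠ 0 := fun z => by
        rw [map_one]
        exact one_ne_zero
      have h5 : Nat.card {z : T ⧸ P →+* ZMod p // z 1 ≠ 0} = Nat.card (T ⧸ P →+* ZMod p) :=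
        Nat.card_congr (Equiv.subtypeUnivEquiv hall)
      show (Nat.card (T ⧸ P →+* ZMod p) : ℝ) / (p : ℝ) ^ k =
        (Nat.card {z : T ⧸ P →+* ZMod p // z 1 ≠ 0} : ℝ) / (p : ℝ) ^ k
      rw [h5]
    obtain ⟨m, rfl⟩ := Nat.exists_eq_add_of_lt hke
    rcases Nat.eq_zero_or_pos m with hm | hm
    · subst hm
      refine ⟨1, h2.congr' 0 fun p _ hpp => ?_⟩
      have hp0 : (p : ℝ) ≠ 0 := by exact_mod_cast hpp.ne_zero
      show (p : ℝ) * (Nat.card (T ⧸ P →+* ZMod p) : ℝ) / (p : ℝ) ^ (k + 0 + 1) =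
        (Nat.card (T ⧸ P →+* ZMod p) : ℝ) / (p : ℝ) ^ k
      rw [add_zero, pow_succ]
      field_simp
    · refine ⟨0, h2.squeeze fun ε hε => ?_⟩
      obtain ⟨p₀, hp₀⟩ := exists_nat_gt (1 / ε)
      refine ⟨p₀, fun p hp hpp => ?_⟩
      have hpR : (1 : ℝ) ≤ p := by exact_mod_cast hpp.one_le
      have hp0 : (0 : ℝ) < p := by linarith
      have h7 : 1 ≤ ε * p := by
        have h8 : 1 / ε < p := hp₀.trans_le (by exact_mod_cast hp)
        rw [div_lt_iff₀ hε] at h8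
        linarith
      obtain ⟨j, rfl⟩ := Nat.exists_eq_add_of_lt hm
      have h9 : (1 : ℝ) ≤ (p : ℝ) ^ j := one_le_pow₀ hpR
      have hc0 : (0 : ℝ) ≤ (Nat.card (T ⧸ P →+* ZMod p) : ℝ) := Nat.cast_nonneg _
      rw [abs_of_nonneg (by positivity), ← mul_div_assoc, div_le_div_iff₀ (by positivity)
        (by positivity)]
      have h10 : (p : ℝ) ^ (k + (0 + j + 1) + 1) = (p : ℝ) ^ k * ((p : ℝ) ^ j * (p * p)) := by ring
      rw [h10]
      have h11 : (p : ℝ) ≤ ε * ((p : ℝ) ^ j * (p * p)) := by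
        have h12 : (1 : ℝ) ≤ (ε * p) * (p : ℝ) ^ j := one_le_mul_of_one_le_of_one_le h7 h9
        nlinarith
      calc (p : ℝ) * (Nat.card (T ⧸ P →+* ZMod p) : ℝ) * (p : ℝ) ^ k =
          ((Nat.card (T ⧸ P →+* ZMod p) : ℝ) * (p : ℝ) ^ k) * p := by ring
        _ ≤ ((Nat.card (T ⧸ P →+* ZMod p) : ℝ) * (p : ℝ) ^ k) *
            (ε * ((p : ℝ) ^ j * (p * p))) := mul_le_mul_of_nonneg_left h11 (by positivity)
        _ = _ := by ring
  · refine ⟨0, ?_⟩
    obtain ⟨n, hn0, hn⟩ : ∃ n : ℕ, (n : T ⧸ P) = 0 ∧ n ≠ 0 := by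
      by_contra hcon
      push Not at hcon
      exact hc (charZero_of_inj_zero hcon)
    refine Quad.TauMean.zero.congr' (n + 1) fun p hp hpp => ?_
    have : Fact p.Prime := ⟨hpp⟩
    have hem : IsEmpty (T ⧸ P →+* ZMod p) := by
      refine ⟨fun z => ?_⟩
      have h1 := congrArg z hn0
      rw [map_natCast, map_zero, ZMod.natCast_eq_zero_iff] at h1
      have := Nat.le_of_dvd (Nat.pos_of_ne_zero hn) h1
      omega
    rw [Nat.card_of_isEmpty]
    simp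

/-- Proof: the minimal primes `P` over `b` (finitely many) have `T/P` of smaller transcendence
degree (`LW.trdeg_quotient_lt`) or of characteristic `ℓ > 0` (no points for `p ≠ ℓ`);
`LW.langWeil` -/
theorem divisor_bound {T : Type} [CommRing T] [IsDomain T] [CharZero T]
    (hf : Algebra.FiniteType ℤ T) {e : ℕ} (he : Algebra.trdeg ℤ T = e) {b : T} (hb : b ≠ 0) :
    ∃ (q : ℕ → ℝ) (γ : ℝ), Quad.TauMean q γ ∧ ∀ p : ℕ, p.Prime →
      (p : ℝ) * Nat.card {τ : T →+* ZMod p // τ b = 0} / (p : ℝ) ^ e ≤ q p := by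
  classical
  have hN : IsNoetherianRing T := Algebra.FiniteType.isNoetherianRing ℤ T
  have hfinM := Ideal.finite_minimalPrimes_of_isNoetherianRing T (Ideal.span {b})
  set M : Finset (Ideal T) := hfinM.toFinset with hMdef
  have hM : ∀ P ∈ M, P.IsPrime ∧ b ∈ P := by
    intro P hP
    rw [hMdef, Set.Finite.mem_toFinset] at hP
    exact ⟨hP.1.1, hP.1.2 (Ideal.subset_span rfl)⟩
  have hex : ∀ P : Ideal T, ∃ γ : ℝ, P ∈ M → Quad.TauMean
      (fun p => (p : ℝ) * (Nat.card (T ⧸ P →+* ZMod p) : ℝ) / (p : ℝ) ^ e) γ := by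
    intro P
    by_cases hP : P ∈ M
    · obtain ⟨γ, hγ⟩ := prime_mean he P (hM P hP).1 (fun h => hb (by
        have h1 := (hM P hP).2
        rw [h] at h1
        exact (Submodule.mem_bot T).1 h1))
      exact ⟨γ, fun _ => hγ⟩
    · exact ⟨0, fun h => absurd h hP⟩
  choose g hg using hex
  refine ⟨_, _, Quad.TauMean.sum M
    (fun P p => (p : ℝ) * (Nat.card (T ⧸ P →+* ZMod p) : ℝ) / (p : ℝ) ^ e) g
    fun P hP => hg P hP, fun p hp => ?_⟩
  have : Fact p.Prime := ⟨hp⟩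
  have hp0 : (0 : ℝ) < p := by exact_mod_cast hp.pos
  have hpp : (0 : ℝ) < (p : ℝ) ^ e := by positivity
  show (p : ℝ) * Nat.card {τ : T →+* ZMod p // τ b = 0} / (p : ℝ) ^ e ≤
    ∑ P ∈ M, (p : ℝ) * (Nat.card (T ⧸ P →+* ZMod p) : ℝ) / (p : ℝ) ^ e
  rw [← Finset.sum_div, ← Finset.mul_sum]
  refine div_le_div_of_nonneg_right (mul_le_mul_of_nonneg_left ?_ hp0.le) hpp.le
  have hfin : ∀ P : {P // P ∈ M}, Finite (T ⧸ P.1 →+* ZMod p) := fun P => by
    have hft : @Algebra.FiniteType ℤ (T ⧸ P.1) _ _ (Ring.toIntAlgebra (T ⧸ P.1)) :=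
      (inferInstance : Algebra.FiniteType ℤ T).of_surjective (Ideal.Quotient.mk P.1).toIntAlgHom
        Ideal.Quotient.mk_surjective
    exact W.finite_hom _ p hp
  have key : ∀ z : {z : T →+* ZMod p // z b = 0}, ∃ P : {P // P ∈ M}, ∀ u ∈ P.1, z.1 u = 0 := by
    intro z
    have h1 : (RingHom.ker z.1).IsPrime := RingHom.ker_isPrime z.1
    obtain ⟨P, hP, hPz⟩ := Ideal.exists_minimalPrimes_le (I := Ideal.span {b})
      (J := RingHom.ker z.1) (by
        rw [Ideal.span_singleton_le_iff_mem]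
        exact z.2)
    exact ⟨⟨P, by rw [hMdef, Set.Finite.mem_toFinset]; exact hP⟩, fun u hu => hPz hu⟩
  choose Q hQ using key
  have h2 : Nat.card {z : T →+* ZMod p // z b = 0} ≤
      Nat.card ((P : {P // P ∈ M}) × (T ⧸ P.1 →+* ZMod p)) := by
    refine Nat.card_le_card_of_injective
      (fun z => ⟨Q z, Ideal.Quotient.lift (Q z).1 z.1 (hQ z)⟩) ?_
    intro z z' h
    apply Subtype.ext
    refine RingHom.ext fun u => ?_
    have h4 := congrArg (fun w : (P : {P // P ∈ M}) × (T ⧸ P.1 →+* ZMod p) =>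
      w.2 (Ideal.Quotient.mk w.1.1 u)) h
    simpa using h4
  rw [Nat.card_sigma] at h2
  have h5 : ∑ P : {P // P ∈ M}, Nat.card (T ⧸ P.1 →+* ZMod p) =
      ∑ P ∈ M, Nat.card (T ⧸ P →+* ZMod p) :=
    Finset.sum_coe_sort M (fun P => Nat.card (T ⧸ P →+* ZMod p))
  rw [h5] at h2
  exact_mod_cast h2

end Pool.Agent.Lib.MP_1a0ddd_nt.Tf
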