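import Pool.Agent.Lib.MP_1a0ddd_nt.Tf.VrtA

/-! Averages over open subsets of the base. -/

set_option autoImplicit false

namespace Pool.Agent.Lib.MP_1a0ddd_nt.Tf

open Nc

private theorem avg_eq_sum {T : Type} [CommRing T] (a : T) (e p : ℕ) (f : (T →+* ZMod p) → ℤ)
    [Fintype (T →+* ZMod p)] [DecidablePred fun τ : T →+* ZMod p => τ a ≠ 0] :
    avg a e p f = (∑ τ : T →+* ZMod p, if τ a ≠ 0 then (f τ : ℝ) else 0) / (p : ℝ) ^ e := by
  unfold avg
  rw [finsum_eq_sum_of_fintype]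
  congr 1
  rw [← Finset.sum_filter]
  exact (Finset.sum_subtype (Finset.univ.filter fun τ : T →+* ZMod p => τ a ≠ 0) (by simp)
    (fun τ => (f τ : ℝ))).symm

/-- Proof: the difference is the sum over the `τ` with `τ b ≠ 0`, `τ b₁ = 0`; `divisor_bound` and
`Quad.TauMean.squeeze` -/
theorem vert_unif {T : Type} [CommRing T] [IsDomain T] [CharZero T] (hf : Algebra.FiniteType ℤ T)
    {e : ℕ} (he : Algebra.trdeg ℤ T = e) {b b₁ : T} (hb₁ : b₁ ≠ 0)
    (c : ∀ p : ℕ, (T →+* ZMod p) → ℤ)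
    (hc : ∀ ε : ℝ, 0 < ε → ∃ p₀ : ℕ, ∀ p : ℕ, p₀ ≤ p → p.Prime → ∀ τ : T →+* ZMod p,
      τ b ≠ 0 → |(c p τ : ℝ)| ≤ ε * p) :
    Quad.TauMean (fun p => avg b e p (c p) - avg (b * b₁) e p (c p)) 0 := by
  classical
  obtain ⟨q, γ, hq, hle⟩ := divisor_bound hf he hb₁
  refine hq.squeeze fun ε hε => ?_
  obtain ⟨p₀, hp₀⟩ := hc ε hε
  refine ⟨p₀, fun p hp hpp => ?_⟩
  have : Fact p.Prime := ⟨hpp⟩
  have hfin : Finite (T →+* ZMod p) := W.finite_hom T p hpp
  have := Fintype.ofFinite (T →+* ZMod p)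
  have hpos : (0 : ℝ) < (p : ℝ) ^ e := pow_pos (by exact_mod_cast hpp.pos) e
  have hcard : ((Nat.card {τ : T →+* ZMod p // τ b₁ = 0} : ℕ) : ℝ) =
      ∑ τ : T →+* ZMod p, if τ b₁ = 0 then (1 : ℝ) else 0 := by
    rw [Nat.card_eq_fintype_card, Fintype.card_subtype, Finset.card_filter]
    push_cast
    rfl
  refine le_trans ?_ (mul_le_mul_of_nonneg_left (hle p hpp) hε.le)
  change |avg b e p (c p) - avg (b * b₁) e p (c p)| ≤ _
  rw [avg_eq_sum, avg_eq_sum, ← sub_div, ← Finset.sum_sub_distrib, abs_div, abs_of_pos hpos,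
    ← mul_div_assoc]
  refine div_le_div_of_nonneg_right ?_ hpos.le
  rw [hcard, ← mul_assoc, Finset.mul_sum]
  refine (Finset.abs_sum_le_sum_abs _ _).trans (Finset.sum_le_sum fun τ _ => ?_)
  have hp0 : (0 : ℝ) ≤ ε * p := by positivity
  by_cases h1 : τ b = 0
  · simp only [map_mul, h1, zero_mul, ne_eq, not_true_eq_false, if_false, sub_self, abs_zero]
    split_ifs <;> simp [hp0]
  · by_cases h2 : τ b₁ = 0
    · simp only [map_mul, h2, mul_zero, ne_eq, not_true_eq_false, if_false, sub_zero, h1,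
        not_false_eq_true, if_true, mul_one]
      exact hp₀ p hp hpp τ h1
    · have h3 : τ b * τ b₁ ≠ 0 := mul_ne_zero h1 h2
      simp only [map_mul, ne_eq, h1, h2, h3, not_false_eq_true, if_true, if_false, sub_self,
        abs_zero, mul_zero]
      exact le_refl 0

end Pool.Agent.Lib.MP_1a0ddd_nt.Tf
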